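import Mathlib

-- merged part: Pool.Agent.Work.MP_78fef3_co.S.Lower
section
-- merged part: Pool.Agent.Work.MP_78fef3_co.S.Defs
section
/-! Definitions for the sharp threshold of quasiregular subgraphs. -/

namespace Pool.Agent.Work.MP_78fef3_co.S

open Finset

/-- Number of edges of `E` whose `g`-vertex is `v`. -/
def deg {α β : Type} [DecidableEq β] (g : α → β) (E : Finset α) (v : β) : ℕ :=
  (E.filter fun e => g e = v).card

/-- Weighted degree. -/
def wdeg {α β : Type} [Fintype α] [DecidableEq β] (g : α → β) (w : α → ℝ) (v : β) : ℝ :=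
  ∑ e ∈ univ.filter (fun e => g e = v), w e

/-- Average over a finite sample space. -/
noncomputable def av {Ω : Type} [Fintype Ω] (F : Ω → ℝ) : ℝ :=
  (∑ ω, F ω) / (Fintype.card Ω : ℝ)

/-- `G` has a subgraph with at least one vertex and all degrees strictly between `k` and `C k`. -/
def QR {V : Type} (G : SimpleGraph V) (k : ℕ) (C : ℝ) : Prop :=
  ∃ H : G.Subgraph, H.verts.Nonempty ∧
    ∀ x ∈ H.verts, k < (H.neighborSet x).ncard ∧ ((H.neighborSet x).ncard : ℝ) < C * k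

/-- The hypergraph statement: a `(k+1)`-partite hypergraph that is dense enough has a
sub-hypergraph with all degrees strictly between `k` and `C k`. -/
def Hyp (k : ℕ) (C : ℝ) (c L0 : ℕ) : Prop :=
  ∀ (α β : Type) [Fintype α] [DecidableEq α] [Fintype β] [DecidableEq β]
    (f : Fin (k + 1) → α → β) (E : Finset α) (N : Fin (k + 1) → ℕ) (Δ L : ℕ),
    L0 ≤ L → E.Nonempty → (∀ t, (E.image (f t)).card ≤ N t) → (∀ t v, deg (f t) E v ≤ Δ) →
    Δ ≤ 2 ^ L → L ^ c * Δ ^ k * ∏ t, N t ≤ E.card ^ (k + 1) →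
    ∃ S ⊆ E, S.Nonempty ∧ ∀ t, ∀ e ∈ S,
      k < deg (f t) S (f t e) ∧ (deg (f t) S (f t e) : ℝ) < C * k

/-- `J + 1` neighbours are enough when the degrees are at most `2 ^ L`. -/
def Enough (k J L : ℕ) : Prop :=
  k ≤ J ∧ (L : ℝ) < Real.exp (2 * ((J : ℝ) - k) / ((k : ℝ) * (k + 1) - 1))

/-- The graph statement used by the edge counts. -/
def Core (k : ℕ) (C : ℝ) (g : ℕ) : Prop :=
  ∀ (V : Type) [Fintype V] [DecidableEq V] (G : SimpleGraph V) (A B : Finset V)
    (N : V → Finset V) (ω : V → ℕ) (J L Q : ℕ),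
    A.Nonempty → Disjoint A B →
    (∀ a ∈ A, N a ⊆ B ∧ (N a).card = J + 1 ∧ ∀ w ∈ N a, G.Adj a w) →
    (∀ w ∈ B, (A.filter fun a => w ∈ N a).card ≤ ω w ∧ Q ^ g ≤ ω w ∧ ω w ≤ 2 ^ L) →
    ∑ w ∈ B, ω w ≤ Q * A.card → 2 ≤ Q → Enough k J L → QR G k C

/-- Logarithmic sizes of the layers of the lower bound construction. -/
noncomputable def xx (k m i : ℕ) : ℝ :=
  (m : ℝ) ^ 2 * Real.exp (2 * (i : ℝ) / ((k : ℝ) * (k - 1) + 1))

end Pool.Agent.Work.MP_78fef3_co.S
end

-- merged part: Pool.Agent.Work.MP_78fef3_co.S.Av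
section
/-! Averages over a finite sample space. -/

namespace Pool.Agent.Work.MP_78fef3_co.S

open Finset

section
variable {Ω : Type} [Fintype Ω]

theorem av_add (F G : Ω → ℝ) : av (fun ω => F ω + G ω) = av F + av G := by
  simp only [av, sum_add_distrib, add_div]

theorem av_sub (F G : Ω → ℝ) : av (fun ω => F ω - G ω) = av F - av G := by
  simp only [av, sum_sub_distrib, sub_div]

theorem av_const_mul (c : ℝ) (F : Ω → ℝ) : av (fun ω => c * F ω) = c * av F := by
  simp only [av, ← mul_sum, mul_div_assoc]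

theorem av_div_const (c : ℝ) (F : Ω → ℝ) : av (fun ω => F ω / c) = av F / c := by
  simp only [av, ← sum_div]
  rw [div_right_comm]

theorem av_sum {J : Type} (s : Finset J) (F : J → Ω → ℝ) :
    av (fun ω => ∑ j ∈ s, F j ω) = ∑ j ∈ s, av (F j) := by
  simp only [av]
  rw [sum_comm, sum_div]

theorem av_mono {F G : Ω → ℝ} (h : ∀ ω, F ω ≤ G ω) : av F ≤ av G :=
  div_le_div_of_nonneg_right (sum_le_sum fun ω _ => h ω) (Nat.cast_nonneg _)

theorem av_const [Nonempty Ω] (c : ℝ) : av (fun _ : Ω => c) = c := by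
  have h : (Fintype.card Ω : ℝ) ≠ 0 := Nat.cast_ne_zero.2 Fintype.card_ne_zero
  simp only [av, sum_const, card_univ, nsmul_eq_mul]
  field_simp

theorem exists_le_av [Nonempty Ω] (F : Ω → ℝ) : ∃ ω, F ω ≤ av F := by
  by_contra h
  push Not at h
  have h1 : ∑ _ω : Ω, av F < ∑ ω, F ω := sum_lt_sum_of_nonempty univ_nonempty fun ω _ => h ω
  have h2 : (0 : ℝ) < Fintype.card Ω := Nat.cast_pos.2 Fintype.card_pos
  rw [sum_const, card_univ, nsmul_eq_mul, av, mul_div_cancel₀ _ h2.ne'] at h1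
  exact lt_irrefl _ h1

theorem exists_av_le [Nonempty Ω] (F : Ω → ℝ) : ∃ ω, av F ≤ F ω := by
  obtain ⟨ω, h⟩ := exists_le_av fun ω => (-1) * F ω
  rw [av_const_mul] at h
  exact ⟨ω, by linarith⟩

end

/-- Independence of the coordinates. -/
theorem av_prod {β A : Type} [Fintype β] [DecidableEq β] [Fintype A] [Nonempty A]
    (T : Finset β) (g : β → A → ℝ) :
    av (fun ω : β → A => ∏ v ∈ T, g v (ω v)) = ∏ v ∈ T, av (g v) := by
  have h0 : (Fintype.card A : ℝ) ≠ 0 := Nat.cast_ne_zero.2 Fintype.card_ne_zero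
  have h1 : ∀ ω : β → A, ∏ v ∈ T, g v (ω v) = ∏ v, (if v ∈ T then g v (ω v) else 1) := by
    intro ω
    rw [prod_ite_mem, univ_inter]
  have h2 : ∏ v ∈ T, av (g v) = ∏ v, av (fun a => if v ∈ T then g v a else 1) := by
    rw [← univ_inter T, ← prod_ite_mem]
    refine prod_congr rfl fun v _ => ?_
    by_cases hv : v ∈ T
    · simp [hv]
    · simp only [univ_inter, hv, if_false]
      exact (av_const 1).symm
  rw [h2]
  simp only [av, h1]
  rw [prod_div_distrib, prod_univ_sum, Fintype.piFinset_univ, prod_const, card_univ,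
    Fintype.card_fun]
  push_cast
  rfl

theorem av_coord {β A : Type} [Fintype β] [DecidableEq β] [Fintype A] [Nonempty A]
    (v : β) (g : A → ℝ) : av (fun ω : β → A => g (ω v)) = av g := by
  simpa using av_prod {v} fun _ => g

theorem av_pair {β A : Type} [Fintype β] [DecidableEq β] [Fintype A] [Nonempty A]
    {u v : β} (huv : u ≠ v) (g h : A → ℝ) :
    av (fun ω : β → A => g (ω u) * h (ω v)) = av g * av h := by
  have := av_prod {u, v} fun x => if x = u then g else h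
  simpa [prod_pair huv, huv.symm] using this

/-- A biased coin read off a uniform element of `Fin Q`. -/
theorem av_fin_lt {Q a : ℕ} (hQ : 0 < Q) (ha : a ≤ Q) (x y : ℝ) :
    av (fun z : Fin Q => if z.val < a then x else y) = (a / Q) * x + (1 - a / Q) * y := by
  have h0 : (Q : ℝ) ≠ 0 := Nat.cast_ne_zero.2 hQ.ne'
  have h1 : (univ.filter fun z : Fin Q => z.val < a).card = a := by
    rw [Fin.card_filter_val_lt]
    omega
  have h2 : (univ.filter fun z : Fin Q => ¬ z.val < a).card = Q - a := by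
    have := card_filter_add_card_filter_not (s := (univ : Finset (Fin Q))) fun z => z.val < a
    rw [h1, card_univ, Fintype.card_fin] at this
    omega
  rw [av, sum_ite, sum_const, sum_const, h1, h2, Fintype.card_fin, nsmul_eq_mul, nsmul_eq_mul,
    Nat.cast_sub ha]
  field_simp

end Pool.Agent.Work.MP_78fef3_co.S
end

-- merged part: Pool.Agent.Work.MP_78fef3_co.S.Peel
section
/-! Peeling, and gluing two coordinates.

PLAN. `peel`: take `S ⊆ E` of minimal cardinality with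
`B * ∑ t ∈ I, (S.image (f t)).card < A * S.card`. If `A * deg (f t) S v ≤ B` for `v = f t e`,
`e ∈ S`, then `S' = S.filter (f t · ≠ v)` is smaller, `S'.card + deg = S.card`, the `t`-image
loses `v` and the other images do not grow, so `S'` still satisfies the inequality.
`most_popular`: for every `v` choose `c v` maximising `deg h (E.filter (g · = v))`
(`Finset.exists_le_card_fiber_of_mul_le_card_of_maps_to`, or `card_le_mul_card_image` applied to
a maximal fibre); `E' = E.filter (h e = c (g e))`; sum over the fibres of `g`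
(`Finset.card_eq_sum_card_image` or `card_eq_sum_card_fiberwise`).
`glue`: in `F` every `g`-fibre has at most `Q` values of `h`: every such value `u` has
`Δ < codegree (v, u) * Q` and the codegrees sum to at most `deg g E v ≤ Δ`; symmetrically for `h`.
Apply `most_popular` to `(F, g, h)` and then to `(E1, h, g)`. -/

namespace Pool.Agent.Work.MP_78fef3_co.S

open Finset

theorem peel {α β ι : Type} [DecidableEq α] [DecidableEq β] (f : ι → α → β) (I : Finset ι)
    (E : Finset α) (A B : ℕ) (h : B * ∑ t ∈ I, (E.image (f t)).card < A * E.card) :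
    ∃ S ⊆ E, S.Nonempty ∧ ∀ t ∈ I, ∀ e ∈ S, B < A * deg (f t) S (f t e) := by
  induction E using Finset.strongInduction with
  | H E ih =>
  by_cases hc : ∀ t ∈ I, ∀ e ∈ E, B < A * deg (f t) E (f t e)
  · exact ⟨E, subset_rfl, card_pos.1 (Nat.pos_of_mul_pos_left (Nat.zero_lt_of_lt h)), hc⟩
  push Not at hc
  obtain ⟨t, ht, e, he, h1⟩ := hc
  have s1 : (E.filter fun x => ¬ f t x = f t e) ⊆ E := filter_subset _ _
  have s2 : ∑ s ∈ I, ((E.filter fun x => ¬ f t x = f t e).image (f s)).card <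
      ∑ s ∈ I, (E.image (f s)).card :=
    sum_lt_sum (fun s _ => card_le_card (image_subset_image s1))
      ⟨t, ht, card_lt_card ⟨image_subset_image s1, fun h2 => by
        obtain ⟨x, h3, h4⟩ := mem_image.1 (h2 (mem_image_of_mem _ he))
        exact (mem_filter.1 h3).2 h4⟩⟩
  have s3 := card_filter_add_card_filter_not (s := E) fun x => f t x = f t e
  obtain ⟨S, h2, h3⟩ := ih _ ⟨s1, fun h2 => (mem_filter.1 (h2 he)).2 rfl⟩ (by
    have := Nat.mul_le_mul_left B (Nat.succ_le_of_lt s2)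
    unfold deg at h1
    rw [← s3, mul_add] at h
    rw [Nat.mul_succ] at this
    omega)
  exact ⟨S, h2.trans s1, h3⟩

theorem most_popular {α β : Type} [DecidableEq α] [DecidableEq β] (g h : α → β) (E : Finset α)
    (Q : ℕ) (hQ : ∀ v, ((E.filter fun e => g e = v).image h).card ≤ Q) :
    ∃ E' ⊆ E, E.card ≤ Q * E'.card ∧ ∀ e ∈ E', ∀ e' ∈ E', g e = g e' → h e = h e' := by
  have key : ∀ v, ∃ u, (E.filter fun e => g e = v).card ≤
      Q * ((E.filter fun e => g e = v).filter fun e => h e = u).card := fun v => by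
    rcases ((E.filter fun e => g e = v).image h).eq_empty_or_nonempty with h0 | h0
    · exact ⟨v, by rw [image_eq_empty.1 h0]; exact Nat.zero_le _⟩
    obtain ⟨u, -, hu⟩ := exists_max_image _
      (fun u => ((E.filter fun e => g e = v).filter fun e => h e = u).card) h0
    exact ⟨u, (card_le_mul_card_image _ _ hu).trans
      ((Nat.mul_le_mul_left _ (hQ v)).trans_eq (mul_comm _ _))⟩
  choose c hc using key
  refine ⟨E.filter fun e => h e = c (g e), filter_subset _ _, ?_, fun e he e' he' h1 => by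
    rw [(mem_filter.1 he).2, (mem_filter.1 he').2, h1]⟩
  rw [card_eq_sum_card_image g E, card_eq_sum_card_fiberwise (f := g) (t := E.image g)
    (s := E.filter fun e => h e = c (g e)) fun e he =>
      mem_image_of_mem g (mem_filter.1 he).1, mul_sum]
  refine sum_le_sum fun v _ => (hc v).trans (Nat.mul_le_mul_left _ (card_le_card fun e he => ?_))
  obtain ⟨h1, h2⟩ := mem_filter.1 he
  obtain ⟨h3, h4⟩ := mem_filter.1 h1
  exact mem_filter.2 ⟨mem_filter.2 ⟨h3, h4 ▸ h2⟩, h4⟩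

theorem Peel_few {α β : Type} [DecidableEq β] (g h : α → β) (E F : Finset α)
    (Q Δ : ℕ) (hg : ∀ v, deg g E v ≤ Δ)
    (hheavy : ∀ e ∈ F, Δ < (E.filter fun e' => g e' = g e ∧ h e' = h e).card * Q) (v : β) :
    ((F.filter fun e => g e = v).image h).card ≤ Q := by
  have h1 := card_nsmul_le_sum ((F.filter fun e => g e = v).image h)
    (fun u => ((E.filter fun e => g e = v).filter fun e => h e = u).card * Q) (Δ + 1)
    fun u hu => by
      obtain ⟨e, he, rfl⟩ := mem_image.1 hu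
      obtain ⟨h2, rfl⟩ := mem_filter.1 he
      rw [filter_filter]
      exact hheavy e h2
  rw [← sum_mul, sum_card_fiberwise_eq_card_filter, smul_eq_mul] at h1
  refine Nat.le_of_mul_le_mul_right (h1.trans ?_) (Nat.succ_pos Δ)
  rw [mul_comm]
  exact Nat.mul_le_mul_left _ ((card_filter_le _ _).trans ((hg v).trans (Nat.le_succ Δ)))

theorem glue {α β : Type} [DecidableEq α] [DecidableEq β] (g h : α → β) (E F : Finset α)
    (Q Δ : ℕ) (hF : F ⊆ E) (hg : ∀ v, deg g E v ≤ Δ) (hh : ∀ v, deg h E v ≤ Δ)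
    (hheavy : ∀ e ∈ F, Δ < (E.filter fun e' => g e' = g e ∧ h e' = h e).card * Q) :
    ∃ E' ⊆ F, F.card ≤ Q ^ 2 * E'.card ∧ ∀ e ∈ E', ∀ e' ∈ E', (g e = g e' ↔ h e = h e') := by
  obtain ⟨E1, h1, h2, h3⟩ := most_popular g h F Q (Peel_few g h E F Q Δ hg hheavy)
  obtain ⟨E2, h4, h5, h6⟩ := most_popular h g E1 Q (Peel_few h g E E1 Q Δ hh fun e he => by
    simpa only [and_comm] using hheavy e (h1 he))
  refine ⟨E2, h4.trans h1, h2.trans ?_, fun e he e' he' =>
    ⟨h3 e (h4 he) e' (h4 he'), h6 e he e' he'⟩⟩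
  rw [sq, mul_assoc]
  exact Nat.mul_le_mul_left _ h5

end Pool.Agent.Work.MP_78fef3_co.S
end

-- merged part: Pool.Agent.Work.MP_78fef3_co.S.Bridge
section
/-! Colouring, a weighted pigeonhole principle, and the passage back to graphs.

PLAN. `colour`: average over `χ : V → Fin r` of
`∑ a ∈ A, ∏ v ∈ univ.image (σ a), g a v (χ v)` with `g a v c = if σ a c = v then 1 else 0`
(`av_sum`, `av_prod`, `Finset.prod_image`); each factor has average `1 / r`; `exists_av_le`.
`pigeon`: otherwise `∑ i ∈ A.image h, fibre i < A.card * ∑ 1 / ((i + 1) (i + 2)) ≤ A.card`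
(telescoping over `range n`).
`bridge`: `H.verts = {x | x ∈ S ∨ ∃ a ∈ S, ∃ t, f t a = x}`,
`H.Adj x y = (x ∈ S ∧ ∃ t, f t x = y) ∨ (y ∈ S ∧ ∃ t, f t y = x)`. For `x ∈ S` the neighbour set is
the range of the injective map `t ↦ f t x` (injective by `hχ`), of size `k + 1`; for `x = f t a`
it is `S.filter (f t · = x)` (again by `hχ`, and `x ∉ S`). -/

namespace Pool.Agent.Work.MP_78fef3_co.S

open Finset

theorem Bridge_av_one {r : ℕ} (t : Fin r) :
    av (fun c : Fin r => if t = c then (1 : ℝ) else 0) = 1 / r := by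
  simp [av]

theorem colour {α V : Type} [DecidableEq α] [Fintype V] [DecidableEq V] (r : ℕ) (hr : 0 < r)
    (A : Finset α) (σ : α → Fin r → V) (hσ : ∀ a ∈ A, Function.Injective (σ a)) :
    ∃ χ : V → Fin r, A.card ≤ r ^ r * (A.filter fun a => ∀ t, χ (σ a t) = t).card := by
  classical
  haveI : Nonempty (Fin r) := ⟨⟨0, hr⟩⟩
  let g : α → V → Fin r → ℝ := fun a v c => if σ a c = v then 1 else 0
  let F : (V → Fin r) → ℝ := fun χ => ∑ a ∈ A, ∏ v ∈ univ.image (σ a), g a v (χ v)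
  have hr' : (0 : ℝ) < r := by exact_mod_cast hr
  have hav : av F = A.card * (1 / (r : ℝ)) ^ r := by
    have h1 : av F = ∑ a ∈ A, av (fun χ : V → Fin r => ∏ v ∈ univ.image (σ a), g a v (χ v)) :=
      av_sum A (fun a (χ : V → Fin r) => ∏ v ∈ univ.image (σ a), g a v (χ v))
    rw [h1, Finset.sum_congr rfl (g := fun _ => (1 / (r : ℝ)) ^ r)]
    · simp
    · intro a ha
      rw [av_prod, Finset.prod_image (fun x _ y _ h => hσ a ha h)]
      rw [Finset.prod_congr rfl (g := fun _ => (1 / (r : ℝ)))]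
      · simp
      · intro t _
        rw [← Bridge_av_one t]
        refine congrArg av (funext fun c => ?_)
        simp only [g]
        by_cases h : t = c
        · simp [h]
        · rw [if_neg h, if_neg fun h' => h (hσ a ha h').symm]
  obtain ⟨χ, hχ⟩ := exists_av_le F
  refine ⟨χ, ?_⟩
  have hF : F χ = ((A.filter fun a => ∀ t, χ (σ a t) = t).card : ℝ) := by
    simp only [F]
    rw [Finset.card_filter]
    push_cast
    refine Finset.sum_congr rfl fun a ha => ?_
    rw [Finset.prod_image (fun x _ y _ h => hσ a ha h)]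
    by_cases h : ∀ t, χ (σ a t) = t
    · rw [if_pos h]
      exact Finset.prod_eq_one fun t _ => by simp [g, h t]
    · rw [if_neg h]
      obtain ⟨t, ht⟩ := not_forall.mp h
      exact Finset.prod_eq_zero (Finset.mem_univ t) (by
        simp only [g]
        rw [if_neg fun h' => ht (hσ a ha h')])
  rw [hav, hF] at hχ
  have h2 : (A.card : ℝ) ≤ (r : ℝ) ^ r * ((A.filter fun a => ∀ t, χ (σ a t) = t).card : ℝ) := by
    have h3 : (0 : ℝ) < (r : ℝ) ^ r := by positivity
    have h4 : (A.card : ℝ) = (r : ℝ) ^ r * (A.card * (1 / (r : ℝ)) ^ r) := by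
      rw [one_div, inv_pow]
      field_simp
    rw [h4]
    exact mul_le_mul_of_nonneg_left hχ h3.le
  exact_mod_cast h2

theorem Bridge_tele (n : ℕ) :
    ∑ i ∈ range n, (1 : ℝ) / (((i : ℝ) + 1) * ((i : ℝ) + 2)) = 1 - 1 / ((n : ℝ) + 1) := by
  induction n with
  | zero => simp
  | succ n ih =>
    rw [Finset.sum_range_succ, ih]
    push_cast
    field_simp
    ring

theorem pigeon {α : Type} (A : Finset α) (hA : A.Nonempty) (h : α → ℕ) :
    ∃ i, A.card ≤ (i + 1) * (i + 2) * (A.filter fun a => h a = i).card := by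
  classical
  by_contra hcon
  push Not at hcon
  obtain ⟨n, hn⟩ : ∃ n, ∀ a ∈ A, h a ∈ range n :=
    ⟨A.sup h + 1, fun a ha => Finset.mem_range.mpr (Nat.lt_succ_of_le (Finset.le_sup ha))⟩
  have h1 : A.card = ∑ i ∈ range n, (A.filter fun a => h a = i).card :=
    Finset.card_eq_sum_card_fiberwise fun a ha => hn a ha
  have h2 : ∀ i ∈ range n, ((A.filter fun a => h a = i).card : ℝ) ≤
      A.card * (1 / (((i : ℝ) + 1) * ((i : ℝ) + 2))) := by
    intro i _
    have h3 : (((i : ℝ) + 1) * ((i : ℝ) + 2)) * ((A.filter fun a => h a = i).card : ℝ) ≤ A.card := by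
      exact_mod_cast (hcon i).le
    rw [mul_one_div, le_div_iff₀ (by positivity)]
    linarith
  have h4 := Finset.sum_le_sum h2
  rw [← Finset.mul_sum, Bridge_tele] at h4
  have h5 : (A.card : ℝ) = ∑ i ∈ range n, ((A.filter fun a => h a = i).card : ℝ) := by
    exact_mod_cast h1
  have h6 : (0 : ℝ) < A.card := by exact_mod_cast hA.card_pos
  have h7 : (0 : ℝ) < A.card * (1 / ((n : ℝ) + 1)) := by positivity
  nlinarith

theorem bridge {V : Type} [DecidableEq V] (G : SimpleGraph V) (k : ℕ) (C : ℝ) (S : Finset V)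
    (f : Fin (k + 1) → V → V) (χ : V → Fin (k + 1)) (hS : S.Nonempty)
    (hadj : ∀ a ∈ S, ∀ t, G.Adj a (f t a)) (hout : ∀ a ∈ S, ∀ t, f t a ∉ S)
    (hχ : ∀ a ∈ S, ∀ t, χ (f t a) = t) (hC : (k : ℝ) + 1 < C * k)
    (hdeg : ∀ t, ∀ e ∈ S, k < deg (f t) S (f t e) ∧ (deg (f t) S (f t e) : ℝ) < C * k) :
    QR G k C := by
  classical
  let H : G.Subgraph :=
    { verts := {x | x ∈ S ∨ ∃ a ∈ S, ∃ t, f t a = x}
      Adj := fun x y => (x ∈ S ∧ ∃ t, f t x = y) ∨ (y ∈ S ∧ ∃ t, f t y = x)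
      adj_sub := by
        rintro x y (⟨hx, t, rfl⟩ | ⟨hy, t, rfl⟩)
        · exact hadj x hx t
        · exact (hadj y hy t).symm
      edge_vert := by
        rintro x y (⟨hx, t, rfl⟩ | ⟨hy, t, rfl⟩)
        · exact Or.inl hx
        · exact Or.inr ⟨y, hy, t, rfl⟩
      symm := ⟨fun x y h => h.symm⟩ }
  obtain ⟨a0, ha0⟩ := hS
  refine ⟨H, ⟨a0, Or.inl ha0⟩, ?_⟩
  rintro x (hx | ⟨a, ha, t, rfl⟩)
  · have h1 : H.neighborSet x = Set.range fun t => f t x := by
      ext y
      constructor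
      · rintro (⟨-, t, rfl⟩ | ⟨hy, t, h⟩)
        · exact ⟨t, rfl⟩
        · exact absurd (h ▸ hx) (hout y hy t)
      · rintro ⟨t, rfl⟩
        exact Or.inl ⟨hx, t, rfl⟩
    have h2 : Function.Injective fun t => f t x := fun s t h => by
      rw [← hχ x hx s, ← hχ x hx t]
      exact congrArg χ h
    have h3 : (H.neighborSet x).ncard = k + 1 := by
      rw [h1, Set.ncard_range_of_injective h2]
      simp
    rw [h3]
    exact ⟨Nat.lt_succ_self k, by exact_mod_cast hC⟩
  · have h1 : H.neighborSet (f t a) = ((S.filter fun e => f t e = f t a : Finset V) : Set V) := by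
      ext y
      simp only [Finset.coe_filter, Set.mem_setOf_eq]
      constructor
      · rintro (⟨h, -⟩ | ⟨hy, s, h⟩)
        · exact absurd h (hout a ha t)
        · have h2 : s = t := by rw [← hχ y hy s, h, hχ a ha t]
          exact ⟨hy, h2 ▸ h⟩
      · rintro ⟨hy, h⟩
        exact Or.inr ⟨hy, t, h⟩
    rw [h1, Set.ncard_coe_finset]
    exact hdeg t a ha

end Pool.Agent.Work.MP_78fef3_co.S
end

-- merged part: Pool.Agent.Work.MP_78fef3_co.S.Crude
section
/-! A crude edge bound.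

PLAN. `Q = J + 2`, `Y = Q ^ g`, `D = 16 Q ^ (g + 1) = 16 Y Q`; `nb U u = U.filter (G.Adj u)`.
`crude_min`: suppose all `u ∈ U` have more than `D` neighbours in `U`; then `Y ≤ D < 2 ^ L`.
Sample `ω : V → Fin (8 Y)`, `ξ v = (ω v < 1)`, `B = U.filter ξ`,
`Φ = ∑ u ∈ U, 2 ^ J ∏ v ∈ nb U u, (if ξ v then 1 / 2 else 1) + 2 Y B.card`. By `av_prod`,
`av_fin_lt` the product has average `(1 - 1 / (16 Y)) ^ card ≤ exp (-(J + 2)) ≤ 2 ^ (-(J + 2))`, so
`av Φ ≤ U.card / 4 + U.card / 4`; `exists_le_av`. A vertex with at most `J` neighbours in `B`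
contributes at least 1. `A = (U \ B).filter (J + 1 ≤ (B.filter (G.Adj u)).card)` has
`A.card ≥ U.card / 2 + (2 Y - 1) B.card`, so `A` is nonempty and `Y B.card ≤ A.card`. Choose
`N a ⊆ B.filter (G.Adj a)` of size `J + 1`, `ω w = max (A.filter (w ∈ N a)).card Y`
(`≤ 2 ^ L` since the first is at most `(nb U w).card`), `∑ w ∈ B, ω w ≤ (J + 1) A.card + Y B.card`
(double counting). `hcore` gives `QR`.
`crude`: strong induction on `U.card`; remove the vertex given by `crude_min`, the sum drops by at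
most twice its degree. -/

namespace Pool.Agent.Work.MP_78fef3_co.S

open Finset

theorem Crude_pow {Y Q m : ℕ} (hY : 0 < Y) (hm : 16 * (Y * Q) ≤ m) :
    (1 - 1 / (16 * (Y : ℝ))) ^ m ≤ (1 / 2) ^ Q := by
  have hY' : (1 : ℝ) ≤ Y := by exact_mod_cast hY
  have h0 : (0 : ℝ) ≤ 1 - 1 / (16 * (Y : ℝ)) := by
    rw [sub_nonneg, div_le_one (by positivity)]
    linarith
  have h1 : 1 - 1 / (16 * (Y : ℝ)) ≤ Real.exp (-(1 / (16 * (Y : ℝ)))) := by
    linarith [Real.add_one_le_exp (-(1 / (16 * (Y : ℝ))))]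
  have h2 : Real.exp (-1) ≤ 1 / 2 := by
    rw [Real.exp_neg, ← one_div]
    exact one_div_le_one_div_of_le two_pos (by linarith [Real.add_one_le_exp 1])
  have h3 : (16 : ℝ) * (Y * Q) ≤ m := by exact_mod_cast hm
  refine (pow_le_pow_left₀ h0 h1 m).trans (le_trans ?_ (pow_le_pow_left₀ (Real.exp_pos _).le h2 Q))
  rw [← Real.exp_nat_mul, ← Real.exp_nat_mul, Real.exp_le_exp, mul_neg, mul_neg, neg_le_neg_iff,
    mul_one, mul_one_div, le_div_iff₀ (by positivity)]
  linarith

theorem Crude_sample {V : Type} [Fintype V] [DecidableEq V] (G : SimpleGraph V) [DecidableRel G.Adj]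
    {Y J : ℕ} (hY : 0 < Y) (U : Finset V)
    (h : ∀ u ∈ U, 16 * (Y * (J + 2)) ≤ (U.filter (G.Adj u)).card) : ∃ B ⊆ U,
    2 * ((U.filter fun u => ¬ J + 1 ≤ (B.filter (G.Adj u)).card).card + 2 * (Y * B.card)) ≤ U.card := by
  have h8 : 0 < 8 * Y := by omega
  have hY' : (0 : ℝ) < Y := by exact_mod_cast hY
  have : Nonempty (Fin (8 * Y)) := ⟨⟨0, h8⟩⟩
  obtain ⟨ω, hω⟩ := exists_le_av fun ω : V → Fin (8 * Y) =>
    ∑ u ∈ U, (2 : ℝ) ^ J * ∏ v ∈ U.filter (G.Adj u), (if (ω v).val < 1 then (1 / 2 : ℝ) else 1) +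
      ∑ u ∈ U, 2 * (Y : ℝ) * (if (ω u).val < 1 then (1 : ℝ) else 0)
  rw [av_add, av_sum, av_sum] at hω
  have a1 : ∀ u ∈ U, av (fun ω : V → Fin (8 * Y) => (2 : ℝ) ^ J *
      ∏ v ∈ U.filter (G.Adj u), (if (ω v).val < 1 then (1 / 2 : ℝ) else 1)) ≤ 1 / 4 := fun u hu => by
    rw [av_const_mul, av_prod (U.filter (G.Adj u))
      fun _ (z : Fin (8 * Y)) => if z.val < 1 then (1 / 2 : ℝ) else 1, prod_const,
      av_fin_lt h8 (by omega)]
    have e : ((1 : ℕ) : ℝ) / ((8 * Y : ℕ) : ℝ) * (1 / 2) + (1 - ((1 : ℕ) : ℝ) / ((8 * Y : ℕ) : ℝ)) * 1 =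
        1 - 1 / (16 * (Y : ℝ)) := by
      push_cast
      field_simp
      ring
    rw [e]
    refine (mul_le_mul_of_nonneg_left (Crude_pow hY (h u hu)) (by positivity)).trans (le_of_eq ?_)
    rw [pow_add, ← mul_assoc, ← mul_pow]
    norm_num
  have a2 : ∀ u ∈ U, av (fun ω : V → Fin (8 * Y) =>
      2 * (Y : ℝ) * (if (ω u).val < 1 then (1 : ℝ) else 0)) ≤ 1 / 4 := fun u _ => by
    rw [av_const_mul, av_coord u fun z : Fin (8 * Y) => if z.val < 1 then (1 : ℝ) else 0,
      av_fin_lt h8 (by omega)]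
    refine le_of_eq ?_
    push_cast
    field_simp
    ring
  have b1 := sum_le_card_nsmul _ _ _ a1
  have b2 := sum_le_card_nsmul _ _ _ a2
  rw [nsmul_eq_mul] at b1 b2
  refine ⟨U.filter fun v => (ω v).val < 1, filter_subset _ _, ?_⟩
  have c1 : ((U.filter fun u => ¬ J + 1 ≤ ((U.filter fun v => (ω v).val < 1).filter
      (G.Adj u)).card).card : ℝ) ≤ ∑ u ∈ U, (2 : ℝ) ^ J *
      ∏ v ∈ U.filter (G.Adj u), (if (ω v).val < 1 then (1 / 2 : ℝ) else 1) := by
    rw [card_filter, Nat.cast_sum]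
    refine sum_le_sum fun u _ => ?_
    rw [prod_ite, prod_const_one, mul_one, prod_const, filter_comm]
    split_ifs with hc
    · rw [Nat.cast_zero]
      positivity
    · rw [Nat.cast_one, one_div, inv_pow, ← div_eq_mul_inv, one_le_div (by positivity)]
      exact pow_le_pow_right₀ one_le_two (by omega)
  have c2 : ∑ u ∈ U, 2 * (Y : ℝ) * (if (ω u).val < 1 then (1 : ℝ) else 0) =
      2 * (Y * (U.filter fun v => (ω v).val < 1).card) := by
    rw [← mul_sum, sum_boole, mul_assoc]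
  rw [c2] at hω
  have c3 : (2 : ℝ) * (((U.filter fun u => ¬ J + 1 ≤ ((U.filter fun v => (ω v).val < 1).filter
      (G.Adj u)).card).card : ℝ) + 2 * (Y * (U.filter fun v => (ω v).val < 1).card)) ≤ U.card := by
    linarith
  exact_mod_cast c3

theorem crude_min {k : ℕ} {C : ℝ} {g : ℕ} (hcore : Core k C g) {V : Type} [Fintype V]
    [DecidableEq V] (G : SimpleGraph V) [DecidableRel G.Adj] (hG : ¬ QR G k C) (J L : ℕ)
    (hJ : Enough k J L) (U : Finset V) (hU : U.Nonempty)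
    (hL : ∀ u ∈ U, (U.filter (G.Adj u)).card ≤ 2 ^ L) :
    ∃ u ∈ U, (U.filter (G.Adj u)).card ≤ 16 * (J + 2) ^ (g + 1) := by
  by_contra! hc
  obtain ⟨Y, hY⟩ : ∃ Y, Y = (J + 2) ^ g := ⟨_, rfl⟩
  have hY0 : 0 < Y := by rw [hY]; positivity
  rw [pow_succ, ← hY] at hc
  obtain ⟨B, hB, hs⟩ := Crude_sample G hY0 U fun u hu => (hc u hu).le
  obtain ⟨A, hA⟩ : ∃ A, A = (U \ B).filter fun u => J + 1 ≤ (B.filter (G.Adj u)).card := ⟨_, rfl⟩
  have hAU : ∀ a ∈ A, (a ∈ U ∧ a ∉ B) ∧ J + 1 ≤ (B.filter (G.Adj a)).card := fun a ha => by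
    rwa [hA, mem_filter, mem_sdiff] at ha
  have h1 : U.card ≤ A.card + B.card +
      (U.filter fun u => ¬ J + 1 ≤ (B.filter (G.Adj u)).card).card := by
    refine le_trans (card_le_card fun u hu => ?_)
      ((card_union_le _ _).trans (Nat.add_le_add_right (card_union_le A B) _))
    rw [hA]
    simp only [mem_union, mem_filter, mem_sdiff]
    tauto
  have h2 : B.card ≤ Y * B.card := Nat.le_mul_of_pos_left _ hY0
  have h3 := hU.card_pos
  have hex : ∀ a, ∃ N : Finset V, a ∈ A → N ⊆ B.filter (G.Adj a) ∧ N.card = J + 1 := fun a => by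
    by_cases ha : a ∈ A
    · obtain ⟨N, hN⟩ := exists_subset_card_eq (hAU a ha).2
      exact ⟨N, fun _ => hN⟩
    · exact ⟨∅, fun h => absurd h ha⟩
  choose N hN using hex
  have hYL : Y ≤ 2 ^ L := by
    obtain ⟨u, hu⟩ := hU
    have := (hc u hu).trans_le (hL u hu)
    nlinarith
  refine hG (hcore V G A B N (fun w => max (A.filter fun a => w ∈ N a).card Y) J L (J + 2)
    (card_pos.1 (by omega)) (disjoint_left.2 fun a ha => (hAU a ha).1.2) (fun a ha =>
      ⟨(hN a ha).1.trans (filter_subset _ _), (hN a ha).2,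
        fun w hw => (mem_filter.1 ((hN a ha).1 hw)).2⟩)
    (fun w hw => ⟨le_max_left _ _, hY ▸ le_max_right _ _, max_le (le_trans (card_le_card fun a ha => ?_)
      (hL w (hB hw))) hYL⟩) ?_ (by omega) hJ)
  · rw [mem_filter] at ha ⊢
    exact ⟨(hAU a ha.1).1.1, (mem_filter.1 ((hN a ha.1).1 ha.2)).2.symm⟩
  · have e : ∑ w ∈ B, (A.filter fun a => w ∈ N a).card = (J + 1) * A.card := by
      simp only [card_filter]
      rw [sum_comm, mul_comm, ← smul_eq_mul, ← sum_const]
      refine sum_congr rfl fun a ha => ?_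
      rw [← card_filter, filter_mem_eq_inter,
        inter_eq_right.2 ((hN a ha).1.trans (filter_subset _ _)), (hN a ha).2]
    have e2 : ∑ w ∈ B, max (A.filter fun a => w ∈ N a).card Y ≤
        ∑ w ∈ B, ((A.filter fun a => w ∈ N a).card + Y) := sum_le_sum fun w _ => by omega
    rw [sum_add_distrib, e, sum_const, smul_eq_mul, mul_comm B.card] at e2
    have e3 : (J + 2) * A.card = (J + 1) * A.card + A.card := by ring
    omega

theorem crude {k : ℕ} {C : ℝ} {g : ℕ} (hcore : Core k C g) {V : Type} [Fintype V]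
    [DecidableEq V] (G : SimpleGraph V) [DecidableRel G.Adj] (hG : ¬ QR G k C) (J L : ℕ)
    (hJ : Enough k J L) (U : Finset V) (hL : ∀ u ∈ U, (U.filter (G.Adj u)).card ≤ 2 ^ L) :
    ∑ u ∈ U, (U.filter (G.Adj u)).card ≤ 2 * (16 * (J + 2) ^ (g + 1)) * U.card := by
  obtain ⟨n, hn⟩ : ∃ n, U.card = n := ⟨_, rfl⟩
  induction n generalizing U with
  | zero => rw [card_eq_zero.1 hn]; simp
  | succ n ih =>
    obtain ⟨u, hu, h⟩ := crude_min hcore G hG J L hJ U (card_pos.1 (by omega)) hL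
    have hc : (U.erase u).card = n := by rw [card_erase_of_mem hu]; omega
    have h1 := ih (U.erase u) (fun v hv => le_trans (card_le_card
      (filter_subset_filter _ (erase_subset _ _))) (hL v (mem_of_mem_erase hv))) hc
    have h2 : ∑ v ∈ U.erase u, (U.filter (G.Adj v)).card ≤
        ∑ v ∈ U.erase u, (((U.erase u).filter (G.Adj v)).card + if G.Adj u v then 1 else 0) := by
      refine sum_le_sum fun v _ => ?_
      nth_rewrite 1 [← insert_erase hu]
      rw [filter_insert]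
      by_cases e : G.Adj u v
      · rw [if_pos e, if_pos e.symm]
        exact card_insert_le _ _
      · rw [if_neg e, if_neg fun e' => e e'.symm]
        exact le_rfl
    have h3 : ((U.erase u).filter fun v => G.Adj u v).card ≤ (U.filter (G.Adj u)).card :=
      card_le_card (filter_subset_filter _ (erase_subset _ _))
    rw [sum_add_distrib, ← card_filter] at h2
    rw [← add_sum_erase _ _ hu, hn, Nat.mul_succ, ← hc]
    omega

end Pool.Agent.Work.MP_78fef3_co.S
end

-- merged part: Pool.Agent.Work.MP_78fef3_co.Count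
section
namespace Pool.Agent.Work.MP_78fef3_co

open Finset

variable {n l : ℕ}

/-- Sample space: every pair (vertex, layer) picks a neighbour in that layer. -/
abbrev Om (n : ℕ) (nn : Fin l → ℕ) : Type := (p : Fin n × Fin l) → Fin (nn p.2)

/-- The union of the layers. -/
abbrev BB (nn : Fin l → ℕ) : Type := (j : Fin l) × Fin (nn j)

/-- The neighbour of `p.1` in layer `p.2`. -/
def nb {nn : Fin l → ℕ} (f : Om n nn) (p : Fin n × Fin l) : BB nn := ⟨p.2, f p⟩

variable {nn : Fin l → ℕ}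

/-- The event that all pairs of `S` pick their neighbour in `B`. -/
def Ev (S : Finset (Fin n × Fin l)) (B : Finset (BB nn)) : Finset (Om n nn) :=
  univ.filter (fun f => ∀ p ∈ S, nb f p ∈ B)

lemma mem_Ev {S : Finset (Fin n × Fin l)} {B : Finset (BB nn)} {f : Om n nn} :
    f ∈ Ev S B ↔ ∀ p ∈ S, nb f p ∈ B := by
  unfold Ev
  rw [mem_filter]
  exact and_iff_right (mem_univ _)

lemma card_Ev_mul (S : Finset (Fin n × Fin l)) (B : Finset (BB nn)) (m : ℕ)
    (hm : ∀ p ∈ S, m ≤ nn p.2) :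
    (Ev S B).card * m ^ S.card ≤ Fintype.card (Om n nn) * B.card ^ S.card := by
  classical
  let t : (p : Fin n × Fin l) → Finset (Fin (nn p.2)) := fun p =>
    if p ∈ S then univ.filter (fun y => (⟨p.2, y⟩ : BB nn) ∈ B) else univ
  have h1 : Ev S B = Fintype.piFinset t := by
    ext f
    rw [mem_Ev]
    simp only [Fintype.mem_piFinset, t, nb]
    constructor
    · intro h p
      split_ifs with hp
      · simp [h p hp]
      · simp
    · intro h p hp
      have := h p
      rw [if_pos hp] at this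
      simpa using this
  have h2 : ∀ c : ℕ, c ^ S.card = ∏ p : Fin n × Fin l, if p ∈ S then c else 1 := by
    intro c
    rw [prod_ite_mem, univ_inter, prod_const]
  rw [h1, Fintype.card_piFinset, Fintype.card_pi, h2, h2, ← prod_mul_distrib, ← prod_mul_distrib]
  apply prod_le_prod'
  intro p _
  by_cases hp : p ∈ S
  · simp only [t, if_pos hp, Fintype.card_fin]
    rw [mul_comm]
    apply Nat.mul_le_mul (hm p hp)
    apply card_le_card_of_injOn (fun y => (⟨p.2, y⟩ : BB nn))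
    · intro y hy
      simpa using hy
    · intro y _ z _ h
      simpa using h
  · simp [t, hp]

lemma card_Ev_le (S : Finset (Fin n × Fin l)) (B : Finset (BB nn)) (m : ℕ) (hm0 : 0 < m)
    (hm : ∀ p ∈ S, m ≤ nn p.2) :
    ((Ev S B).card : ℝ) ≤ Fintype.card (Om n nn) * ((B.card : ℝ) / m) ^ S.card := by
  have h := card_Ev_mul S B m hm
  have hm' : (0 : ℝ) < (m : ℝ) ^ S.card := by positivity
  rw [div_pow, ← mul_div_assoc, le_div_iff₀ hm']
  exact_mod_cast h

lemma choose_mul_pow_le (N a m x : ℕ) (hm0 : 0 < m) (hN : N ≤ x * m) :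
    (N.choose a : ℝ) * ((a : ℝ) / m) ^ a ≤ (3 * x) ^ a := by
  have h1 : (N.choose a : ℝ) ≤ (N : ℝ) ^ a / a.factorial := by
    exact_mod_cast Nat.choose_le_pow_div (α := ℝ) a N
  have h2 : (a : ℝ) ^ a / a.factorial ≤ 3 ^ a := by
    refine (Real.pow_div_factorial_le_exp (a : ℝ) (by positivity) a).trans ?_
    rw [← mul_one (a : ℝ), Real.exp_nat_mul]
    exact pow_le_pow_left₀ (Real.exp_pos 1).le (Real.exp_one_lt_d9.le.trans (by norm_num)) a
  have h3 : (N : ℝ) / m ≤ x := by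
    rw [div_le_iff₀ (by positivity)]
    exact_mod_cast hN
  calc (N.choose a : ℝ) * ((a : ℝ) / m) ^ a
      ≤ (N : ℝ) ^ a / a.factorial * ((a : ℝ) / m) ^ a := by gcongr
    _ = ((a : ℝ) ^ a / a.factorial) * ((N : ℝ) / m) ^ a := by
        rw [div_pow, div_pow]; ring
    _ ≤ 3 ^ a * (x : ℝ) ^ a := by gcongr
    _ = (3 * x) ^ a := by rw [mul_pow]

/-- The bad event at one level. -/
def Bad (J : Finset (Fin l)) (M : ℕ) (f : Om n nn) : Prop :=
  ∃ (A : Finset (Fin n)) (B : Finset (BB nn)) (S : Finset (Fin n × Fin l)),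
    1 ≤ A.card ∧ A.card ≤ M ∧ B.card ≤ A.card ∧ S ⊆ A ×ˢ J ∧ (∀ p ∈ S, nb f p ∈ B) ∧
      6 * A.card + 5 * B.card ≤ 5 * S.card

lemma geom_le (q : ℝ) (hq0 : 0 ≤ q) (hq : q ≤ 1 / 2) (M : ℕ) :
    ∑ a ∈ Icc 1 M, q ^ a ≤ 2 * q := by
  have : ∑ a ∈ Icc 1 M, q ^ a ≤ 2 * q - 2 * q ^ (M + 1) := by
    induction M with
    | zero => simp
    | succ M ih =>
      rw [sum_Icc_succ_top (by omega)]
      have h1 : q ^ (M + 1 + 1) = q ^ (M + 1) * q := pow_succ _ _
      have h2 : 0 ≤ q ^ (M + 1) := by positivity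
      nlinarith
  have h2 : 0 ≤ q ^ (M + 1) := by positivity
  linarith

open Classical in
lemma card_Bad_le (J : Finset (Fin l)) (M m x : ℕ) (ρ : ℝ) (hm0 : 0 < m)
    (hJ : ∀ j ∈ J, m ≤ nn j) (hn : n ≤ x * m) (hB : Fintype.card (BB nn) ≤ x * m) (hx : 1 ≤ x)
    (hρ0 : 0 < ρ) (hρ1 : ρ ≤ 1) (hM : (M : ℝ) ≤ m * ρ ^ 5)
    (hq : 18 * 2 ^ l * (x : ℝ) ^ 2 * ρ ≤ 1 / 2) :
    (((univ : Finset (Om n nn)).filter (Bad J M)).card : ℝ) ≤
      Fintype.card (Om n nn) * (2 * (18 * 2 ^ l * (x : ℝ) ^ 2 * ρ)) := by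
  set W : ℝ := (Fintype.card (Om n nn) : ℝ) with hW
  have hW0 : 0 ≤ W := by positivity
  have hmR : (0 : ℝ) < m := by positivity
  have hsub : (univ : Finset (Om n nn)).filter (Bad J M) ⊆
      (Icc 1 M).biUnion fun a => (range (a + 1)).biUnion fun b =>
        (powersetCard a (univ : Finset (Fin n))).biUnion fun A =>
          (powersetCard b (univ : Finset (BB nn))).biUnion fun B =>
            (((A ×ˢ J).powerset).filter fun S => 6 * a + 5 * b ≤ 5 * S.card).biUnion fun S =>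
              Ev S B := by
    intro f hf
    obtain ⟨A, B, S, h1, h2, h3, h4, h5, h6⟩ := (mem_filter.1 hf).2
    simp only [mem_biUnion, mem_Icc, mem_range, mem_powersetCard, mem_filter, mem_powerset]
    exact ⟨A.card, ⟨h1, h2⟩, B.card, by omega, A, ⟨subset_univ _, rfl⟩, B, ⟨subset_univ _, rfl⟩,
      S, ⟨h4, h6⟩, mem_Ev.2 h5⟩
  have hEv : ∀ a ∈ Icc 1 M, ∀ b ∈ range (a + 1), ∀ A ∈ powersetCard a (univ : Finset (Fin n)),
      ∀ B ∈ powersetCard b (univ : Finset (BB nn)),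
      ∀ S ∈ ((A ×ˢ J).powerset).filter fun S => 6 * a + 5 * b ≤ 5 * S.card,
        ((Ev S B).card : ℝ) ≤ W * (((b : ℝ) / m) ^ b * ((a : ℝ) / m) ^ a * ρ ^ a) := by
    intro a ha b hb A hA B hB S hS
    rw [mem_Icc] at ha
    rw [mem_range] at hb
    rw [mem_filter, mem_powerset] at hS
    have hBc : B.card = b := (mem_powersetCard.1 hB).2
    refine (card_Ev_le S B m hm0 fun p hp => hJ _ (mem_product.1 (hS.1 hp)).2).trans ?_
    rw [hBc]
    apply mul_le_mul_of_nonneg_left _ hW0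
    obtain ⟨s, hs⟩ : ∃ s, S.card = b + a + s := ⟨S.card - b - a, by omega⟩
    have hba : (b : ℝ) / m ≤ (a : ℝ) / m := by
      gcongr
      omega
    have hbρ : (b : ℝ) / m ≤ ρ ^ 5 := by
      rw [div_le_iff₀ hmR]
      have : (b : ℝ) ≤ M := by exact_mod_cast (by omega : b ≤ M)
      linarith
    have h5 : ((b : ℝ) / m) ^ s ≤ ρ ^ a := by
      calc ((b : ℝ) / m) ^ s ≤ (ρ ^ 5) ^ s := by gcongr
        _ = ρ ^ (5 * s) := by rw [← pow_mul]
        _ ≤ ρ ^ a := pow_le_pow_of_le_one hρ0.le hρ1 (by omega)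
    rw [hs, pow_add, pow_add]
    gcongr
  calc (((univ : Finset (Om n nn)).filter (Bad J M)).card : ℝ)
      ≤ ∑ a ∈ Icc 1 M, ∑ b ∈ range (a + 1), ∑ A ∈ powersetCard a (univ : Finset (Fin n)),
          ∑ B ∈ powersetCard b (univ : Finset (BB nn)),
            ∑ S ∈ ((A ×ˢ J).powerset).filter fun S => 6 * a + 5 * b ≤ 5 * S.card,
              ((Ev S B).card : ℝ) := by
        have := (card_le_card hsub).trans (card_biUnion_le.trans (sum_le_sum fun a _ =>
          card_biUnion_le.trans (sum_le_sum fun b _ => card_biUnion_le.trans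
            (sum_le_sum fun A _ => card_biUnion_le.trans (sum_le_sum fun B _ =>
              card_biUnion_le)))))
        exact_mod_cast this
    _ ≤ ∑ a ∈ Icc 1 M, W * (18 * 2 ^ l * (x : ℝ) ^ 2 * ρ) ^ a := by
        apply sum_le_sum
        intro a ha
        have hin : ∀ b ∈ range (a + 1), ∑ A ∈ powersetCard a (univ : Finset (Fin n)),
            ∑ B ∈ powersetCard b (univ : Finset (BB nn)),
              ∑ S ∈ ((A ×ˢ J).powerset).filter fun S => 6 * a + 5 * b ≤ 5 * S.card,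
                ((Ev S B).card : ℝ) ≤ W * (9 * 2 ^ l * (x : ℝ) ^ 2 * ρ) ^ a := by
          intro b hb
          set c : ℝ := W * (((b : ℝ) / m) ^ b * ((a : ℝ) / m) ^ a * ρ ^ a) with hc
          have hc0 : 0 ≤ c := by positivity
          calc _ ≤ ∑ A ∈ powersetCard a (univ : Finset (Fin n)),
                ∑ B ∈ powersetCard b (univ : Finset (BB nn)), (2 ^ l) ^ a * c := by
                apply sum_le_sum
                intro A hA
                apply sum_le_sum
                intro B hB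
                refine (sum_le_card_nsmul _ _ c (hEv a ha b hb A hA B hB)).trans ?_
                rw [nsmul_eq_mul]
                apply mul_le_mul_of_nonneg_right _ hc0
                have : (((A ×ˢ J).powerset).filter fun S => 6 * a + 5 * b ≤ 5 * S.card).card ≤
                    (2 ^ l) ^ a := by
                  refine (card_filter_le _ _).trans ?_
                  rw [card_powerset, card_product, (mem_powersetCard.1 hA).2, ← pow_mul,
                    mul_comm l a]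
                  apply Nat.pow_le_pow_right (by norm_num)
                  apply Nat.mul_le_mul_left
                  simpa using card_le_univ J
                exact_mod_cast this
            _ = W * (2 ^ l) ^ a * ρ ^ a * ((n.choose a : ℝ) * ((a : ℝ) / m) ^ a) *
                  (((Fintype.card (BB nn)).choose b : ℝ) * ((b : ℝ) / m) ^ b) := by
                simp only [sum_const, card_powersetCard, card_univ, Fintype.card_fin, nsmul_eq_mul,
                  hc]
                ring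
            _ ≤ W * (2 ^ l) ^ a * ρ ^ a * (3 * x) ^ a * (3 * x) ^ a := by
                have e1 := choose_mul_pow_le n a m x hm0 hn
                have e2 := choose_mul_pow_le (Fintype.card (BB nn)) b m x hm0 hB
                have e3 : (3 * (x : ℝ)) ^ b ≤ (3 * x) ^ a := by
                  apply pow_le_pow_right₀
                  · have : (1 : ℝ) ≤ x := by exact_mod_cast hx
                    linarith
                  · rw [mem_range] at hb
                    omega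
                have e4 := e2.trans e3
                gcongr
            _ = W * (9 * 2 ^ l * (x : ℝ) ^ 2 * ρ) ^ a := by
                rw [mul_assoc W, mul_assoc W, mul_assoc W, ← mul_pow, ← mul_pow, ← mul_pow]
                congr 2
                ring
        refine (sum_le_card_nsmul _ _ _ hin).trans ?_
        rw [card_range, nsmul_eq_mul]
        have h2 : ((a + 1 : ℕ) : ℝ) ≤ 2 ^ a := by
          exact_mod_cast Nat.lt_two_pow_self
        calc ((a + 1 : ℕ) : ℝ) * (W * (9 * 2 ^ l * (x : ℝ) ^ 2 * ρ) ^ a)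
            ≤ 2 ^ a * (W * (9 * 2 ^ l * (x : ℝ) ^ 2 * ρ) ^ a) := by gcongr
          _ = W * (18 * 2 ^ l * (x : ℝ) ^ 2 * ρ) ^ a := by
              rw [mul_left_comm, ← mul_pow]
              congr 2
              ring
    _ ≤ W * (2 * (18 * 2 ^ l * (x : ℝ) ^ 2 * ρ)) := by
        rw [← mul_sum]
        exact mul_le_mul_of_nonneg_left (geom_le _ (by positivity) hq M) hW0

end Pool.Agent.Work.MP_78fef3_co
end

-- merged part: Pool.Agent.Work.MP_78fef3_co.Core
section
namespace Pool.Agent.Work.MP_78fef3_co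

open Finset

variable {n l : ℕ} {nn : Fin l → ℕ}

/-- The layers above level `i`. -/
def above (l i : ℕ) : Finset (Fin l) := univ.filter fun j => i < j.val

/-- The threshold attached to level `i`. -/
def thr (nn : Fin l → ℕ) (D i : ℕ) : ℕ := 5 * D * ∑ j ∈ univ.filter (fun j : Fin l => j.val ≤ i), nn j

lemma exists_bad (f : Om n nn) (D : ℕ) (R : Finset (Fin n × Fin l)) (hR : R.Nonempty)
    (hA : ∀ p ∈ R, 3 ≤ (R.filter fun p' => p'.1 = p.1).card)
    (hB : ∀ p ∈ R, 3 ≤ (R.filter fun p' => nb f p' = nb f p).card)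
    (hD : ∀ p ∈ R, (R.filter fun p' => nb f p' = nb f p).card ≤ D) :
    ∃ i < l, Bad (above l i) (thr nn D i) f := by
  classical
  set A := R.image Prod.fst with hAdef
  have ha : 1 ≤ A.card := (hR.image _).card_pos
  have hRA : 3 * A.card ≤ R.card := by
    apply mul_card_image_le_card
    intro v hv
    obtain ⟨p, hp, rfl⟩ := mem_image.1 hv
    exact hA p hp
  have hex : ∃ i, l ≤ i ∨ A.card ≤ thr nn D i := ⟨l, Or.inl le_rfl⟩
  set i := Nat.find hex with hi
  have hspec : l ≤ i ∨ A.card ≤ thr nn D i := Nat.find_spec hex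
  set Rlt := R.filter fun p => p.2.val < i with hRlt
  set Req := R.filter fun p => p.2.val = i with hReq
  set Rgt := R.filter fun p => i < p.2.val with hRgt
  have hsplit : R.card ≤ Rlt.card + Req.card + Rgt.card := by
    have : R ⊆ Rlt ∪ Req ∪ Rgt := by
      intro p hp
      simp only [hRlt, hReq, hRgt, mem_union, mem_filter, hp, true_and]
      omega
    exact (card_le_card this).trans ((card_union_le _ _).trans
      (Nat.add_le_add_right (card_union_le _ _) _))
  have hlt : 5 * Rlt.card < A.card := by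
    rcases Nat.eq_zero_or_pos i with h0 | h0
    · have : Rlt = ∅ := by
        rw [hRlt, filter_eq_empty_iff]
        intro p _
        omega
      rw [this]
      simpa using ha
    · have hmin := Nat.find_min hex (m := i - 1) (by omega)
      push Not at hmin
      have h1 : Rlt.card ≤ D * (Rlt.image (nb f)).card := by
        apply card_le_mul_card_image
        intro b hb
        obtain ⟨p, hp, rfl⟩ := mem_image.1 hb
        refine le_trans (card_le_card ?_) (hD p (mem_filter.1 hp).1)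
        exact filter_subset_filter _ (filter_subset _ _)
      have h2 : (Rlt.image (nb f)).card ≤
          ∑ j ∈ univ.filter (fun j : Fin l => j.val ≤ i - 1), nn j := by
        have : Rlt.image (nb f) ⊆ (univ.filter (fun j : Fin l => j.val ≤ i - 1)).sigma
            (fun j => (univ : Finset (Fin (nn j)))) := by
          intro b hb
          obtain ⟨p, hp, rfl⟩ := mem_image.1 hb
          have := (mem_filter.1 hp).2
          simp only [mem_sigma, mem_filter, mem_univ, true_and, and_true, nb]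
          omega
        refine (card_le_card this).trans ?_
        rw [card_sigma]
        simp
      have h3 := hmin.2
      unfold thr at h3
      calc 5 * Rlt.card ≤ 5 * (D * ∑ j ∈ univ.filter (fun j : Fin l => j.val ≤ i - 1), nn j) :=
            Nat.mul_le_mul_left _ (h1.trans (Nat.mul_le_mul_left _ h2))
        _ < A.card := by rwa [← mul_assoc]
  have heq : Req.card ≤ A.card := by
    apply card_le_card_of_injOn Prod.fst
    · intro p hp
      exact mem_coe.2 (mem_image_of_mem _ (mem_filter.1 (mem_coe.1 hp)).1)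
    · intro p hp p' hp' h
      have h1 := (mem_filter.1 (mem_coe.1 hp)).2
      have h2 := (mem_filter.1 (mem_coe.1 hp')).2
      exact Prod.ext h (Fin.ext (h1.trans h2.symm))
  have hgt : 9 * A.card ≤ 5 * Rgt.card := by omega
  have hil : i < l := by
    have : Rgt.Nonempty := card_pos.1 (by omega)
    obtain ⟨p, hp⟩ := this
    have h1 := (mem_filter.1 hp).2
    have h2 := p.2.isLt
    omega
  have hthr : A.card ≤ thr nn D i := hspec.resolve_left (by omega)
  refine ⟨i, hil, ?_⟩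
  set B := Rgt.image (nb f) with hBdef
  by_cases hcase : 5 * B.card ≤ 3 * A.card
  · refine ⟨A, B, Rgt, ha, hthr, by omega, ?_, fun p hp => mem_image_of_mem _ hp, by omega⟩
    intro p hp
    rw [mem_filter] at hp
    exact mem_product.2 ⟨mem_image_of_mem _ hp.1, by simpa [above] using hp.2⟩
  · obtain ⟨B', hB'B, hB'c⟩ := exists_subset_card_eq (s := B) (n := (3 * A.card + 4) / 5)
      (by omega)
    refine ⟨A, B', R.filter fun p => nb f p ∈ B', ha, hthr, by omega, ?_,
      fun p hp => (mem_filter.1 hp).2, ?_⟩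
    · intro p hp
      rw [mem_filter] at hp
      refine mem_product.2 ⟨mem_image_of_mem _ hp.1, ?_⟩
      obtain ⟨p', hp', h⟩ := mem_image.1 (hB'B hp.2)
      have h1 : p'.2 = p.2 := congrArg Sigma.fst h
      have h2 := (mem_filter.1 hp').2
      rw [h1] at h2
      simpa [above] using h2
    · have h1 : 3 * B'.card ≤ (R.filter fun p => nb f p ∈ B').card := by
        apply mul_card_image_le_card_of_maps_to (f := nb f) (fun p hp => (mem_filter.1 hp).2)
        intro b hb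
        obtain ⟨p, hp, rfl⟩ := mem_image.1 (hB'B hb)
        refine (hB p (mem_filter.1 hp).1).trans (card_le_card ?_)
        intro p' hp'
        rw [mem_filter] at hp'
        exact mem_filter.2 ⟨mem_filter.2 ⟨hp'.1, hp'.2 ▸ hb⟩, hp'.2⟩
      omega

/-- Sizes of the layers. -/
def sz (Q l j : ℕ) : ℕ := Q ^ (12 ^ l - 12 ^ (l - j))

lemma sz_mono {Q : ℕ} (hQ : 1 ≤ Q) (l : ℕ) {j j' : ℕ} (h : j ≤ j') : sz Q l j ≤ sz Q l j' := by
  unfold sz
  apply Nat.pow_le_pow_right hQ
  have : 12 ^ (l - j') ≤ 12 ^ (l - j) := Nat.pow_le_pow_right (by norm_num) (by omega)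
  omega

lemma sum_sz_le {Q l : ℕ} (hQ : 1 ≤ Q) (hl : l ≤ Q) : ∑ j : Fin l, sz Q l j ≤ Q ^ 12 ^ l := by
  have h1 : ∀ j ∈ (univ : Finset (Fin l)), sz Q l j ≤ Q ^ (12 ^ l - 1) := by
    intro j _
    have := sz_mono hQ l (j.isLt.le)
    simpa [sz] using this
  refine (sum_le_card_nsmul _ _ _ h1).trans ?_
  rw [card_univ, Fintype.card_fin, smul_eq_mul]
  have h2 : 1 ≤ 12 ^ l := Nat.one_le_pow _ _ (by norm_num)
  calc l * Q ^ (12 ^ l - 1) ≤ Q * Q ^ (12 ^ l - 1) := Nat.mul_le_mul_right _ hl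
    _ = Q ^ 12 ^ l := by
      rw [← pow_succ']
      congr 1
      omega

theorem exists_good (D l : ℕ) (hD : 1 ≤ D) (hl : 1 ≤ l) :
    ∃ (n : ℕ) (nn : Fin l → ℕ) (f : Om n nn), 1 ≤ n ∧ ∑ j, nn j ≤ n ∧
      ∀ i < l, ¬ Bad (above l i) (thr nn D i) f := by
  classical
  set K : ℕ := 72 * 2 ^ l * l with hK
  have hK1 : 1 ≤ K := by
    have : 0 < K := by positivity
    omega
  set Q : ℕ := 5 * D * l * K ^ 5 with hQ
  have hQ1 : 1 ≤ Q := by
    have : 0 < Q := by positivity
    omega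
  have hlQ : l ≤ Q := by
    have h1 : 0 < 5 * D * K ^ 5 := by positivity
    calc l = 1 * l := (one_mul _).symm
      _ ≤ (5 * D * K ^ 5) * l := Nat.mul_le_mul_right _ h1
      _ = Q := by rw [hQ]; ring
  set n := Q ^ 12 ^ l with hn
  let nn : Fin l → ℕ := fun j => sz Q l j
  have hsum : ∑ j, nn j ≤ n := sum_sz_le hQ1 hlQ
  have hn1 : 1 ≤ n := Nat.one_le_pow _ _ hQ1
  set W : ℝ := (Fintype.card (Om n nn) : ℝ) with hW
  have hWpos : 0 < W := by
    rw [hW, Fintype.card_pi]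
    push_cast
    apply prod_pos
    intro p _
    rw [Fintype.card_fin]
    have : 0 < nn p.2 := Nat.one_le_pow _ _ hQ1
    exact_mod_cast this
  have hlR : (1 : ℝ) ≤ l := by exact_mod_cast hl
  have hlevel : ∀ i ∈ range l,
      (((univ : Finset (Om n nn)).filter (Bad (above l i) (thr nn D i))).card : ℝ) ≤
        W * (1 / (2 * l)) := by
    intro i hi
    rw [mem_range] at hi
    set u := 12 ^ (l - (i + 1)) with hu
    have hu1 : 1 ≤ u := Nat.one_le_pow _ _ (by norm_num)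
    have hu12 : 12 ^ (l - i) = 12 * u := by
      rw [hu, ← pow_succ']
      congr 1
      omega
    have huE : 12 * u ≤ 12 ^ l := by
      rw [← hu12]
      exact Nat.pow_le_pow_right (by norm_num) (by omega)
    set x := Q ^ u with hx
    set m := sz Q l (i + 1) with hm
    have hm' : m = Q ^ (12 ^ l - u) := rfl
    have hm0 : 0 < m := Nat.one_le_pow _ _ hQ1
    have hx1 : 1 ≤ x := Nat.one_le_pow _ _ hQ1
    have hxm : x * m = n := by
      rw [hx, hm', hn, ← pow_add]
      congr 1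
      omega
    have hxR : (1 : ℝ) ≤ x := by exact_mod_cast hx1
    have hKR : (1 : ℝ) ≤ K := by exact_mod_cast hK1
    have hq : 18 * 2 ^ l * (x : ℝ) ^ 2 * (1 / (K * (x : ℝ) ^ 2)) = 1 / (4 * l) := by
      rw [hK]
      push_cast
      field_simp
      norm_num
    have hthr : thr nn D i * (K * x ^ 2) ^ 5 ≤ m := by
      have h1 : ∑ j ∈ univ.filter (fun j : Fin l => j.val ≤ i), nn j ≤ l * sz Q l i := by
        refine (sum_le_card_nsmul _ _ (sz Q l i) ?_).trans ?_
        · intro j hj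
          exact sz_mono hQ1 l (mem_filter.1 hj).2
        · rw [smul_eq_mul]
          apply Nat.mul_le_mul_right
          simpa using card_filter_le (univ : Finset (Fin l)) (fun j : Fin l => j.val ≤ i)
      have h2 : Q ≤ Q ^ u := by
        calc Q = Q ^ 1 := (pow_one _).symm
          _ ≤ Q ^ u := Nat.pow_le_pow_right hQ1 hu1
      calc thr nn D i * (K * x ^ 2) ^ 5 ≤ 5 * D * (l * sz Q l i) * (K * x ^ 2) ^ 5 :=
            Nat.mul_le_mul_right _ (Nat.mul_le_mul_left _ h1)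
        _ = Q * (sz Q l i * x ^ 10) := by rw [hQ]; ring
        _ ≤ Q ^ u * (sz Q l i * x ^ 10) := Nat.mul_le_mul_right _ h2
        _ = m := by
            rw [hm', sz, hu12, hx, ← pow_mul, ← pow_add, ← pow_add]
            congr 1
            omega
    have hKx : (1 : ℝ) ≤ K * (x : ℝ) ^ 2 := one_le_mul_of_one_le_of_one_le hKR (one_le_pow₀ hxR)
    have := card_Bad_le (n := n) (nn := nn) (above l i) (thr nn D i) m x (1 / (K * (x : ℝ) ^ 2))
      hm0 (fun j hj => sz_mono hQ1 l (by simpa [above] using hj)) hxm.ge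
      (by rw [hxm, Fintype.card_sigma]; simpa using hsum) hx1 (by positivity)
      (by rw [div_le_one (by positivity)]; exact hKx)
      (by
        rw [div_pow, one_pow, mul_one_div, le_div_iff₀ (by positivity)]
        exact_mod_cast hthr)
      (by
        rw [hq, div_le_div_iff₀ (by positivity) (by positivity)]
        linarith)
    rw [hq] at this
    refine this.trans (le_of_eq ?_)
    rw [← hW]
    congr 1
    field_simp
    norm_num
  by_contra hcon
  push Not at hcon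
  have hsub : (univ : Finset (Om n nn)) ⊆ (range l).biUnion fun i =>
      (univ : Finset (Om n nn)).filter (Bad (above l i) (thr nn D i)) := by
    intro f _
    obtain ⟨i, hi, hb⟩ := hcon n nn f hn1 hsum
    exact mem_biUnion.2 ⟨i, mem_range.2 hi, mem_filter.2 ⟨mem_univ _, hb⟩⟩
  have h1 : W ≤ ∑ i ∈ range l,
      (((univ : Finset (Om n nn)).filter (Bad (above l i) (thr nn D i))).card : ℝ) := by
    have := (card_le_card hsub).trans card_biUnion_le
    rw [card_univ] at this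
    rw [hW]
    exact_mod_cast this
  have h2 := h1.trans (sum_le_card_nsmul _ _ _ hlevel)
  rw [card_range, nsmul_eq_mul] at h2
  have h3 : (l : ℝ) * (W * (1 / (2 * l))) = W / 2 := by
    field_simp
  linarith

end Pool.Agent.Work.MP_78fef3_co
end

-- merged part: Pool.Agent.Work.MP_78fef3_co.Main
section
namespace Pool.Agent.Work.MP_78fef3_co

open Finset

variable {n l : ℕ} {nn : Fin l → ℕ} {V : Type}

/-- The layered bipartite graph, transported along an equivalence. -/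
def graph (e : (Fin n ⊕ BB nn) ≃ V) (f : Om n nn) : SimpleGraph V where
  Adj u v := ∃ p : Fin n × Fin l,
    (u = e (Sum.inl p.1) ∧ v = e (Sum.inr (nb f p))) ∨
      (v = e (Sum.inl p.1) ∧ u = e (Sum.inr (nb f p)))
  symm := ⟨fun _ _ ⟨p, h⟩ => ⟨p, h.symm⟩⟩
  loopless := ⟨by
    rintro u ⟨p, ⟨h1, h2⟩ | ⟨h1, h2⟩⟩ <;>
    · have := e.injective (h1.symm.trans h2)
      simp at this⟩

lemma nb_fst (f : Om n nn) (p : Fin n × Fin l) : (nb f p).1 = p.2 := rfl

lemma card_edges [Finite V] (e : (Fin n ⊕ BB nn) ≃ V) (f : Om n nn) :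
    n * l ≤ (graph e f).edgeSet.ncard := by
  have h := Set.ncard_le_ncard_of_injOn (s := (Set.univ : Set (Fin n × Fin l)))
    (t := (graph e f).edgeSet) (fun p => s(e (Sum.inl p.1), e (Sum.inr (nb f p))))
    (fun p _ => ⟨p, Or.inl ⟨rfl, rfl⟩⟩) (by
      intro p _ p' _ h
      simp only [Sym2.eq_iff, EmbeddingLike.apply_eq_iff_eq, Sum.inl.injEq, Sum.inr.injEq,
        reduceCtorEq, and_self, or_false] at h
      exact Prod.ext h.1 (congrArg Sigma.fst h.2)) (Set.toFinite _)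
  simpa [Set.ncard_univ] using h

open Classical in
/-- The edges of a subgraph, as pairs (vertex, layer). -/
noncomputable def edges {e : (Fin n ⊕ BB nn) ≃ V} {f : Om n nn} (H : (graph e f).Subgraph) :
    Finset (Fin n × Fin l) :=
  univ.filter fun p => H.Adj (e (Sum.inl p.1)) (e (Sum.inr (nb f p)))

lemma mem_edges {e : (Fin n ⊕ BB nn) ≃ V} {f : Om n nn} {H : (graph e f).Subgraph}
    {p : Fin n × Fin l} : p ∈ edges H ↔ H.Adj (e (Sum.inl p.1)) (e (Sum.inr (nb f p))) := by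
  simp [edges]

lemma ncard_left {e : (Fin n ⊕ BB nn) ≃ V} {f : Om n nn} (H : (graph e f).Subgraph) (v : Fin n) :
    (H.neighborSet (e (Sum.inl v))).ncard = ((edges H).filter fun p => p.1 = v).card := by
  have h1 : H.neighborSet (e (Sum.inl v)) =
      (fun p => e (Sum.inr (nb f p))) '' (((edges H).filter fun p => p.1 = v : Finset _) : Set _) := by
    ext y
    simp only [SimpleGraph.Subgraph.mem_neighborSet, coe_filter, Set.mem_image, Set.mem_ofPred_eq,
      mem_edges]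
    constructor
    · intro h
      obtain ⟨p, ⟨h1, h2⟩ | ⟨h1, h2⟩⟩ := H.adj_sub h
      · have hv : v = p.1 := by simpa using h1
        exact ⟨p, ⟨by rw [← hv, ← h2]; exact h, hv.symm⟩, h2.symm⟩
      · simp at h2
    · rintro ⟨p, ⟨h1, rfl⟩, rfl⟩
      exact h1
  rw [h1, Set.InjOn.ncard_image, Set.ncard_coe_finset]
  intro p hp p' hp' h
  have h2 := (mem_filter.1 (mem_coe.1 hp)).2
  have h3 := (mem_filter.1 (mem_coe.1 hp')).2
  simp only [EmbeddingLike.apply_eq_iff_eq, Sum.inr.injEq] at h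
  exact Prod.ext (h2.trans h3.symm) (congrArg Sigma.fst h)

lemma ncard_right {e : (Fin n ⊕ BB nn) ≃ V} {f : Om n nn} (H : (graph e f).Subgraph) (b : BB nn) :
    (H.neighborSet (e (Sum.inr b))).ncard = ((edges H).filter fun p => nb f p = b).card := by
  have h1 : H.neighborSet (e (Sum.inr b)) =
      (fun p : Fin n × Fin l => e (Sum.inl p.1)) ''
        (((edges H).filter fun p => nb f p = b : Finset _) : Set _) := by
    ext y
    simp only [SimpleGraph.Subgraph.mem_neighborSet, coe_filter, Set.mem_image, Set.mem_ofPred_eq,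
      mem_edges]
    constructor
    · intro h
      obtain ⟨p, ⟨h1, h2⟩ | ⟨h1, h2⟩⟩ := H.adj_sub h
      · simp at h1
      · have hb : b = nb f p := by simpa using h2
        exact ⟨p, ⟨by rw [← hb, ← h1]; exact h.symm, hb.symm⟩, h1.symm⟩
    · rintro ⟨p, ⟨h1, rfl⟩, rfl⟩
      exact h1.symm
  rw [h1, Set.InjOn.ncard_image, Set.ncard_coe_finset]
  intro p hp p' hp' h
  have h2 := (mem_filter.1 (mem_coe.1 hp)).2
  have h3 := (mem_filter.1 (mem_coe.1 hp')).2
  simp only [EmbeddingLike.apply_eq_iff_eq, Sum.inl.injEq] at h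
  exact Prod.ext h (congrArg Sigma.fst (h2.trans h3.symm))

theorem main (D : ℕ) (F : ℝ) :
    ∃ (N : ℕ) (G : SimpleGraph (Fin N)), 0 < N ∧ F * N ≤ G.edgeSet.ncard ∧
      ∀ H : G.Subgraph, H.verts.Nonempty →
        ¬ ∀ x ∈ H.verts, 3 ≤ (H.neighborSet x).ncard ∧ (H.neighborSet x).ncard ≤ D := by
  set l := 2 * ⌈F⌉₊ + 1 with hl
  obtain ⟨n, nn, f, hn, hsum, hgood⟩ := exists_good (D + 1) l (by omega) (by omega)
  set N := Fintype.card (Fin n ⊕ BB nn) with hN
  have hN' : N = n + ∑ j, nn j := by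
    rw [hN, Fintype.card_sum, Fintype.card_fin, Fintype.card_sigma]
    simp
  let e : (Fin n ⊕ BB nn) ≃ Fin N := Fintype.equivFin _
  refine ⟨N, graph e f, by omega, ?_, ?_⟩
  · have h1 : ⌈F⌉₊ * N ≤ (graph e f).edgeSet.ncard := by
      refine le_trans ?_ (card_edges e f)
      calc ⌈F⌉₊ * N ≤ ⌈F⌉₊ * (2 * n) := Nat.mul_le_mul_left _ (by omega)
        _ = n * (2 * ⌈F⌉₊) := by ring
        _ ≤ n * l := Nat.mul_le_mul_left _ (by omega)
    calc F * N ≤ (⌈F⌉₊ : ℝ) * N := mul_le_mul_of_nonneg_right (Nat.le_ceil F) (by positivity)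
      _ ≤ _ := by exact_mod_cast h1
  · rintro H ⟨x, hx⟩ hdeg
    have hne : (edges H).Nonempty := by
      have h1 : (H.neighborSet x).Nonempty := Set.nonempty_of_ncard_ne_zero (by
        have := (hdeg x hx).1
        omega)
      obtain ⟨y, hy⟩ := h1
      obtain ⟨p, ⟨h1, h2⟩ | ⟨h1, h2⟩⟩ := H.adj_sub hy
      · exact ⟨p, mem_edges.2 (by rw [← h1, ← h2]; exact hy)⟩
      · exact ⟨p, mem_edges.2 (by rw [← h1, ← h2]; exact hy.symm)⟩
    obtain ⟨i, hi, hbad⟩ := exists_bad f (D + 1) (edges H) hne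
      (fun p hp => by
        rw [← ncard_left]
        exact (hdeg _ (H.edge_vert (mem_edges.1 hp))).1)
      (fun p hp => by
        rw [← ncard_right]
        exact (hdeg _ (H.edge_vert (mem_edges.1 hp).symm)).1)
      (fun p hp => by
        rw [← ncard_right]
        exact (hdeg _ (H.edge_vert (mem_edges.1 hp).symm)).2.trans (Nat.le_succ _))
    exact hgood i hi hbad

end Pool.Agent.Work.MP_78fef3_co
end

-- merged part: Pool.Agent.Work.MP_78fef3_co.S.LUnion
section
/-! The union bound of the lower bound construction.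

PLAN. `layer_sum`: group `T` by `t = T.card` (`Finset.sum_powerset`, `card_powersetCard`); for
`t ≤ N`, `r t ≤ e ≤ a`: `N.choose t (t / N) ^ t ≤ 3 ^ t ≤ 3 ^ a` (`choose_mul_pow_le` with
`x = 1`), `(t / N) ^ (e - t) ≤ min 1 (a / N) ^ (e - t) = exp (-(e - t) max (log (N / a)) 0)` and
`e - t ≥ (r - 1) / r * e`; at most `a + 1 ≤ 2 ^ a` values of `t` occur.
`card_ev`: the event is `Fintype.piFinset` of `if p ∈ R then T p.2 else univ`
(see `card_Ev_mul` in `Count.lean`); regroup the product over `R` by layers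
(`Finset.prod_fiberwise`).
`lower_union`: suppose every `f` has such an `R`. `A = R.image Prod.fst`, `a = A.card ∈ [1, n]`,
`e i = (R.filter (p.2 = i)).card ≤ a`, `r a ≤ ∑ e`, `T i = univ.filter (∃ p ∈ R, nb f p = ⟨i, y⟩)`,
`r (T i).card ≤ e i ≤ D (T i).card ≤ D nn i`. So `univ` is covered by the events over `a`, `A`,
`R ⊆ A ×ˢ univ` satisfying the three conditions on `e`, and `T ∈ piFinset` of the filtered
powersets. For fixed `R`: `∑ T, ∏ i = ∏ i, ∑ T i` (`Finset.prod_univ_sum`)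
`≤ 6 ^ (a m) exp (-a (log (n / a) + 3 m + 3))`. Number of `R` at most `2 ^ (a m)`, `12 ≤ exp 3`,
`n.choose a (a / n) ^ a ≤ 3 ^ a`, so the total is at most `∑ a ∈ Icc 1 n, (3 / exp 3) ^ a ≤ 1 / 2`
(`geom_le`) times the positive number `Fintype.card (Om n nn)`. -/

namespace Pool.Agent.Work.MP_78fef3_co.S

open Finset

theorem LUnion_term {N r e a t : ℕ} (hN : 0 < N) (hr : 1 ≤ r) (ha : 1 ≤ a) (he : e ≤ a)
    (ht : r * t ≤ e) (htN : t ≤ N) : ((t : ℝ) / N) ^ e ≤ ((t : ℝ) / N) ^ t *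
      Real.exp (-(((r : ℝ) - 1) / r * (e * max (Real.log ((N : ℝ) / a)) 0))) := by
  have h1 : t ≤ e := (Nat.le_mul_of_pos_left _ hr).trans ht
  have h2 : (t : ℝ) / N ≤ Real.exp (-max (Real.log ((N : ℝ) / a)) 0) := by
    rcases max_choice (Real.log ((N : ℝ) / a)) 0 with h | h
    · rw [h, Real.exp_neg, Real.exp_log (by positivity), inv_div]
      exact div_le_div_of_nonneg_right (Nat.cast_le.2 (h1.trans he)) (Nat.cast_nonneg _)
    · rw [h, neg_zero, Real.exp_zero]
      exact div_le_one_of_le₀ (Nat.cast_le.2 htN) (Nat.cast_nonneg _)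
  obtain ⟨s, rfl⟩ := Nat.exists_eq_add_of_le h1
  rw [pow_add]
  refine mul_le_mul_of_nonneg_left ((pow_le_pow_left₀ (by positivity) h2 s).trans ?_)
    (by positivity)
  rw [← Real.exp_nat_mul, mul_neg, ← mul_assoc]
  refine Real.exp_le_exp.2 (neg_le_neg (mul_le_mul_of_nonneg_right ?_ (le_max_right _ _)))
  have h3 : (r : ℝ) * t ≤ t + s := by exact_mod_cast ht
  rw [div_mul_eq_mul_div, div_le_iff₀ (by positivity), Nat.cast_add]
  linarith

theorem layer_sum (N r e a : ℕ) (hN : 0 < N) (hr : 1 ≤ r) (ha : 1 ≤ a) (he : e ≤ a) :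
    ∑ T ∈ (univ : Finset (Finset (Fin N))).filter (fun T => r * T.card ≤ e),
      ((T.card : ℝ) / N) ^ e ≤
      6 ^ a * Real.exp (-(((r : ℝ) - 1) / r * (e * max (Real.log ((N : ℝ) / a)) 0))) := by
  refine le_trans (sum_le_sum fun T hT => LUnion_term hN hr ha he (mem_filter.1 hT).2
    ((card_le_univ T).trans (Fintype.card_fin N).le)) ?_
  rw [← sum_mul]
  refine mul_le_mul_of_nonneg_right ?_ (Real.exp_pos _).le
  rw [← sum_fiberwise_of_maps_to (g := card) (t := range (a + 1)) fun T hT => mem_range.2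
    (Nat.lt_succ_of_le (((Nat.le_mul_of_pos_left _ hr).trans (mem_filter.1 hT).2).trans he))]
  refine (sum_le_card_nsmul _ _ (3 ^ a) fun t ht => ?_).trans ?_
  · calc _ = ∑ T ∈ ((univ : Finset (Finset (Fin N))).filter (fun T => r * T.card ≤ e)).filter
          (fun T => T.card = t), ((t : ℝ) / N) ^ t :=
          sum_congr rfl fun T hT => by rw [(mem_filter.1 hT).2]
      _ ≤ ∑ T ∈ powersetCard t (univ : Finset (Fin N)), ((t : ℝ) / N) ^ t :=
          sum_le_sum_of_subset_of_nonneg (fun T hT => mem_powersetCard.2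
            ⟨subset_univ _, (mem_filter.1 hT).2⟩) fun _ _ _ => by positivity
      _ ≤ (3 * (1 : ℕ)) ^ t := by
          rw [sum_const, card_powersetCard, card_univ, Fintype.card_fin, nsmul_eq_mul]
          exact choose_mul_pow_le N t N 1 hN (one_mul N).ge
      _ ≤ 3 ^ a := by
          rw [Nat.cast_one, mul_one]
          exact pow_le_pow_right₀ (by norm_num) (Nat.le_of_lt_succ (mem_range.1 ht))
  · have h2 : ((a + 1 : ℕ) : ℝ) ≤ 2 ^ a := by exact_mod_cast Nat.lt_two_pow_self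
    rw [card_range, nsmul_eq_mul, show (6 : ℝ) = 2 * 3 by norm_num, mul_pow]
    exact mul_le_mul_of_nonneg_right h2 (by positivity)

theorem card_ev {n m : ℕ} (nn : Fin m → ℕ) (hnn : ∀ i, 0 < nn i) (R : Finset (Fin n × Fin m))
    (T : (i : Fin m) → Finset (Fin (nn i))) :
    (((univ : Finset (Om n nn)).filter fun f => ∀ p ∈ R, f p ∈ T p.2).card : ℝ) =
      Fintype.card (Om n nn) *
        ∏ i, (((T i).card : ℝ) / nn i) ^ (R.filter fun p => p.2 = i).card := by
  have h1 : ((univ : Finset (Om n nn)).filter fun f => ∀ p ∈ R, f p ∈ T p.2) =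
      Fintype.piFinset fun p => if p ∈ R then T p.2 else univ := by
    ext f
    rw [mem_filter, and_iff_right (mem_univ _), Fintype.mem_piFinset]
    refine forall_congr' fun p => ?_
    split_ifs with hp
    · exact imp_iff_right hp
    · exact iff_of_true (fun h => absurd h hp) (mem_univ _)
  have h2 : ∏ i, (((T i).card : ℝ) / nn i) ^ (R.filter fun p => p.2 = i).card =
      ∏ p : Fin n × Fin m, if p ∈ R then ((T p.2).card : ℝ) / nn p.2 else 1 := by
    rw [prod_ite_mem, univ_inter, ← prod_fiberwise R Prod.snd]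
    refine prod_congr rfl fun i _ => ?_
    rw [← prod_const]
    exact prod_congr rfl fun p hp => by rw [(mem_filter.1 hp).2]
  rw [h1, h2, Fintype.card_piFinset, Fintype.card_pi, Nat.cast_prod, Nat.cast_prod,
    ← prod_mul_distrib]
  refine prod_congr rfl fun p _ => ?_
  split_ifs
  · rw [Fintype.card_fin, mul_div_cancel₀ _ (Nat.cast_ne_zero.2 (hnn _).ne')]
  · rw [mul_one, card_univ]

theorem LUnion_layer {n m r D : ℕ} {nn : Fin m → ℕ} (f : Om n nn) (R : Finset (Fin n × Fin m))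
    (h : ∀ p ∈ R, r ≤ (R.filter fun p' => nb f p' = nb f p).card ∧
      (R.filter fun p' => nb f p' = nb f p).card ≤ D) (i : Fin m) :
    ∃ T : Finset (Fin (nn i)), r * T.card ≤ (R.filter fun p => p.2 = i).card ∧
      (R.filter fun p => p.2 = i).card ≤ D * nn i ∧ ∀ x, (x, i) ∈ R → f (x, i) ∈ T := by
  let T : Finset (Fin (nn i)) := univ.filter fun y => ∃ p ∈ R, nb f p = ⟨i, y⟩
  have h1 : ∀ x, (x, i) ∈ R → f (x, i) ∈ T := fun x hx => mem_filter.2 ⟨mem_univ _, _, hx, rfl⟩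
  have h2 : ∀ p ∈ R.filter fun p => p.2 = i,
      nb f p ∈ T.map (Function.Embedding.sigmaMk (β := fun j => Fin (nn j)) i) := by
    rintro ⟨x, j⟩ hp
    obtain ⟨h3, rfl⟩ := mem_filter.1 hp
    exact mem_map_of_mem _ (h1 x h3)
  have h3 : ∀ b ∈ T.map (Function.Embedding.sigmaMk (β := fun j => Fin (nn j)) i),
      r ≤ ((R.filter fun p => p.2 = i).filter fun p => nb f p = b).card ∧
        ((R.filter fun p => p.2 = i).filter fun p => nb f p = b).card ≤ D := by
    intro b hb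
    obtain ⟨y, hy, rfl⟩ := mem_map.1 hb
    obtain ⟨p, hp, e⟩ := (mem_filter.1 hy).2
    rw [filter_filter, filter_congr (q := fun p' => nb f p' = nb f p) fun q _ =>
      ⟨fun h4 => h4.2.trans e.symm, fun h4 => ⟨congrArg Sigma.fst (h4.trans e), h4.trans e⟩⟩]
    exact h p hp
  refine ⟨T, (card_map _).symm ▸ mul_card_image_le_card_of_maps_to h2 r fun b hb => (h3 b hb).1,
    (card_le_mul_card_image_of_maps_to h2 D fun b hb => (h3 b hb).2).trans
      (Nat.mul_le_mul_left _ ?_), h1⟩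
  rw [card_map]
  exact (card_le_univ T).trans (Fintype.card_fin _).le

theorem LUnion_num {n a : ℕ} (m : ℕ) (ha : 1 ≤ a) (hn : a ≤ n) :
    (n.choose a : ℝ) * ((2 ^ m) ^ a * ((6 ^ a) ^ m *
      Real.exp (-(a * (Real.log ((n : ℝ) / a) + 3 * m + 3))))) ≤ (1 / 4) ^ a := by
  have h0 : 0 < n := ha.trans hn
  have h1 : 12 * Real.exp (-3) ≤ 1 := by
    have h2 := Real.sum_le_exp_of_nonneg (x := 3) (by norm_num) 4
    norm_num [sum_range_succ, Nat.factorial] at h2
    rw [Real.exp_neg, ← div_eq_mul_inv, div_le_one (Real.exp_pos _)]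
    linarith
  have h3 := choose_mul_pow_le n a n 1 h0 (one_mul n).ge
  have h4 : Real.exp (-(a * (Real.log ((n : ℝ) / a) + 3 * m + 3))) =
      ((a : ℝ) / n * Real.exp (-3) ^ m * Real.exp (-3)) ^ a := by
    have h6 : (a : ℝ) / n = Real.exp (-Real.log ((n : ℝ) / a)) := by
      rw [Real.exp_neg, Real.exp_log (by positivity), inv_div]
    rw [h6, ← Real.exp_nat_mul, ← Real.exp_add, ← Real.exp_add, ← Real.exp_nat_mul]
    exact congrArg _ (by ring)
  rw [Nat.cast_one, mul_one] at h3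
  have h5 := Real.exp_pos (-3)
  rw [h4]
  generalize Real.exp (-3) = u at h1 h5
  calc _ = (n.choose a * ((a : ℝ) / n) ^ a) * (((12 * u) ^ m) ^ a * u ^ a) := by
        rw [show (12 : ℝ) = 2 * 6 by norm_num]
        simp only [mul_pow, ← pow_mul, mul_comm a m]
        ring
    _ ≤ 3 ^ a * (1 * u ^ a) := mul_le_mul h3 (mul_le_mul_of_nonneg_right
        (pow_le_one₀ (by positivity) (pow_le_one₀ (by positivity) h1)) (by positivity))
        (by positivity) (by positivity)
    _ ≤ _ := by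
        rw [one_mul, ← mul_pow]
        exact pow_le_pow_left₀ (by positivity) (by linarith) a

theorem lower_union (n m r D : ℕ) (nn : Fin m → ℕ) (hr : 1 ≤ r) (hnn : ∀ i, 0 < nn i)
    (h : ∀ a : ℕ, 1 ≤ a → a ≤ n → ∀ e : Fin m → ℕ, (∀ i, e i ≤ a ∧ e i ≤ D * nn i) →
      r * a ≤ ∑ i, e i → (a : ℝ) * (Real.log ((n : ℝ) / a) + 3 * m + 3) ≤
        ((r : ℝ) - 1) / r * ∑ i, (e i : ℝ) * max (Real.log ((nn i : ℝ) / a)) 0) :
    ∃ f : Om n nn, ∀ R : Finset (Fin n × Fin m), R.Nonempty →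
      ¬ ∀ p ∈ R, r ≤ (R.filter fun p' => p'.1 = p.1).card ∧
        r ≤ (R.filter fun p' => nb f p' = nb f p).card ∧
        (R.filter fun p' => nb f p' = nb f p).card ≤ D := by
  by_contra hne
  have hall : ∀ f : Om n nn, ∃ R : Finset (Fin n × Fin m), R.Nonempty ∧
      ∀ p ∈ R, r ≤ (R.filter fun p' => p'.1 = p.1).card ∧
        r ≤ (R.filter fun p' => nb f p' = nb f p).card ∧
        (R.filter fun p' => nb f p' = nb f p).card ≤ D := fun f => by
    by_contra h0
    exact hne ⟨f, fun R h1 h2 => h0 ⟨R, h1, h2⟩⟩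
  let e : Finset (Fin n × Fin m) → Fin m → ℕ := fun R i => (R.filter fun p => p.2 = i).card
  have hsub : (univ : Finset (Om n nn)) ⊆ (Icc 1 n).biUnion fun a =>
      (powersetCard a (univ : Finset (Fin n))).biUnion fun A =>
        ((A ×ˢ (univ : Finset (Fin m))).powerset.filter fun R =>
          (∀ i, e R i ≤ a ∧ e R i ≤ D * nn i) ∧ r * a ≤ ∑ i, e R i).biUnion fun R =>
            (Fintype.piFinset fun i => (univ : Finset (Finset (Fin (nn i)))).filter
              fun T => r * T.card ≤ e R i).biUnion fun T =>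
                univ.filter fun f => ∀ p ∈ R, f p ∈ T p.2 := by
    intro f _
    obtain ⟨R, h1, h2⟩ := hall f
    choose T h3 h4 h5 using LUnion_layer f R fun p hp => (h2 p hp).2
    simp only [mem_biUnion, mem_filter, mem_powerset, Fintype.mem_piFinset, mem_univ, true_and]
    refine ⟨(R.image Prod.fst).card, mem_Icc.2 ⟨card_pos.2 (h1.image _),
      (card_le_univ _).trans (Fintype.card_fin n).le⟩, R.image Prod.fst,
      mem_powersetCard.2 ⟨subset_univ _, rfl⟩, R, ⟨fun p hp => mem_product.2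
        ⟨mem_image_of_mem _ hp, mem_univ _⟩, fun i => ⟨?_, h4 i⟩, ?_⟩, T, h3, fun p hp => h5 _ _ hp⟩
    · exact card_le_card_of_injOn Prod.fst (fun p hp => mem_image_of_mem _ (mem_filter.1 hp).1)
        fun p hp q hq h => Prod.ext h ((mem_filter.1 hp).2.trans (mem_filter.1 hq).2.symm)
    · rw [← card_eq_sum_card_fiberwise (s := R) (f := Prod.snd) fun _ _ => mem_univ _]
      refine mul_card_image_le_card _ _ fun b hb => ?_
      obtain ⟨p, hp, rfl⟩ := mem_image.1 hb
      exact (h2 p hp).1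
  have hW : (0 : ℝ) < Fintype.card (Om n nn) := by
    rw [Fintype.card_pi, Nat.cast_pos]
    exact prod_pos fun p _ => (hnn _).trans_eq (Fintype.card_fin _).symm
  have h6 := Nat.cast_le (α := ℝ).2 ((card_le_card hsub).trans (card_biUnion_le.trans
    (sum_le_sum fun a _ => card_biUnion_le.trans (sum_le_sum fun A _ => card_biUnion_le.trans
      (sum_le_sum fun R _ => card_biUnion_le)))))
  simp only [Nat.cast_sum, card_ev nn hnn, ← mul_sum, card_univ] at h6
  have h7 := ((le_mul_iff_one_le_right hW).1 h6).trans ((sum_le_sum fun a ha => ?_).trans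
    (geom_le (1 / 4) (by norm_num) (by norm_num) n))
  · norm_num at h7
  obtain ⟨h8, h9⟩ := mem_Icc.1 ha
  refine (sum_le_card_nsmul _ _ ((2 ^ m) ^ a * ((6 ^ a) ^ m *
    Real.exp (-(a * (Real.log ((n : ℝ) / a) + 3 * m + 3))))) fun A hA => ?_).trans ?_
  · refine (sum_le_card_nsmul _ _ ((6 ^ a) ^ m *
      Real.exp (-(a * (Real.log ((n : ℝ) / a) + 3 * m + 3)))) fun R hR => ?_).trans ?_
    · obtain ⟨h10, h11⟩ := (mem_filter.1 hR).2
      rw [← prod_univ_sum (f := fun i (T : Finset (Fin (nn i))) =>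
        ((T.card : ℝ) / nn i) ^ e R i)]
      refine (prod_le_prod (fun i _ => sum_nonneg fun _ _ => by positivity) fun i _ =>
        layer_sum _ r _ a (hnn i) hr h8 (h10 i).1).trans ?_
      rw [prod_mul_distrib, prod_const, card_univ, Fintype.card_fin, ← Real.exp_sum,
        sum_neg_distrib, ← mul_sum]
      exact mul_le_mul_of_nonneg_left (Real.exp_le_exp.2 (neg_le_neg (h a h8 h9 _ h10 h11)))
        (by positivity)
    · rw [nsmul_eq_mul]
      refine mul_le_mul_of_nonneg_right ((Nat.cast_le.2 (card_filter_le _ _)).trans ?_)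
        (by positivity)
      rw [card_powerset, card_product, (mem_powersetCard.1 hA).2, card_univ, Fintype.card_fin,
        ← pow_mul, mul_comm m, Nat.cast_pow, Nat.cast_ofNat]
  · rw [card_powersetCard, card_univ, Fintype.card_fin, nsmul_eq_mul]
    exact LUnion_num m h8 h9

end Pool.Agent.Work.MP_78fef3_co.S
end

-- merged part: Pool.Agent.Work.MP_78fef3_co.S.LLP
section
/-! The linear programme behind the lower bound.

PLAN. `s = 2 / (k (k - 1) + 1)`. `lower_sum`: `1 - exp (-y) ≥ y - y ^ 2 / 2` for `y ≥ 0`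
(`Real.quadratic_le_exp_of_nonneg`, `(1 + y + y ^ 2 / 2) (1 - y + y ^ 2 / 2) = 1 + y ^ 4 / 4`),
sums of `t + 1` and `(t + 1) ^ 2`, and `k ^ 3 - 7 k ^ 2 + 6 k - 3 > 0` for `k ≥ 7`.
`lower_lp`: fix `0 < ζ < 1` with `1 + 2 ζ ≤ k / (k + 1) * ∑ ..`. `h = log (2 D m / ζ) ≥ 0`,
`X = X0 + h`, `x i = xx k m i` increasing, `x (j - t) = x j exp (-s t)`. Indices with `X ≤ x i`
have `u i ≤ ζ / m`, total at most `ζ`. The set `Lo = {i | x i < X}` has `∑ u ≥ k + 1 - ζ > k`,
so at least `k + 1` elements; let `j` be its largest element, `k ≤ j`, `Lo = {i ≤ j}`.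
`c i = X - x i`, `θ = c (j - k)`, `0 < θ ≤ X`. For `i ∈ Lo`:
`u i c i ≥ u i θ + min (c i - θ) 0`, and `min (c i - θ) 0 = 0` for `i ≤ j - k`. So
`∑ Lo u c ≥ θ (k + 1 - ζ) + ∑ t < k, (c (j - t) - θ) = ∑ t ≤ k, c (j - t) - ζ θ
≥ X (∑ t ∈ range k, (1 - exp (-s (t + 1))) - ζ)` (`c (j - t) ≥ X (1 - exp (-s t))` as
`x j < X`). `max (X0 - x i) 0 ≥ c i - h`, `∑ u ≤ m`. Hence the right side is at least
`X (1 + ζ) - h m`, and `ζ X > ζ m ^ 2 ≥ (h + 3) m + 3` for large `m` (`X > x 0 = m ^ 2`;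
`h ≤ log (2 D / ζ) + 2 sqrt m` or `Real.isLittleO_log_id_atTop`). It may help to move to
`u' : ℕ → ℝ` and sums over `range m` (`Fin.sum_univ_eq_sum_range`). -/

namespace Pool.Agent.Work.MP_78fef3_co.S

open Finset

lemma LLP_exp {y : ℝ} (hy : 0 ≤ y) : y - y ^ 2 / 2 ≤ 1 - Real.exp (-y) := by
  have h1 := Real.quadratic_le_exp_of_nonneg hy
  have h2 : Real.exp (-y) ≤ 1 - y + y ^ 2 / 2 := by
    rw [Real.exp_neg, inv_le_iff_one_le_mul₀ (Real.exp_pos y)]
    have h3 : 0 ≤ 1 - y + y ^ 2 / 2 := by nlinarith [sq_nonneg (y - 1)]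
    nlinarith [mul_le_mul_of_nonneg_left h1 h3, sq_nonneg (y ^ 2)]
  linarith

lemma LLP_sum (s : ℝ) (k : ℕ) : ∑ t ∈ range k, (s * ((t : ℝ) + 1) - (s * ((t : ℝ) + 1)) ^ 2 / 2) =
    s * (k * (k + 1) / 2) - s ^ 2 * (k * (k + 1) * (2 * k + 1) / 12) := by
  induction k with
  | zero => simp
  | succ n ih => rw [sum_range_succ, ih]; push_cast; ring

theorem lower_sum (k : ℕ) (hk : 7 ≤ k) : 1 < (k : ℝ) / (k + 1) *
    ∑ t ∈ range k, (1 - Real.exp (-(2 * ((t : ℝ) + 1) / ((k : ℝ) * (k - 1) + 1)))) := by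
  have k7 : (7 : ℝ) ≤ k := by exact_mod_cast hk
  have d0 : 0 < (k : ℝ) * (k - 1) + 1 := by nlinarith
  have h1 := sum_le_sum (s := range k) fun t _ => LLP_exp
    (y := 2 / ((k : ℝ) * (k - 1) + 1) * ((t : ℝ) + 1)) (by positivity)
  rw [LLP_sum] at h1
  simp only [div_mul_eq_mul_div (2 : ℝ)] at h1
  refine lt_of_lt_of_le ?_ (mul_le_mul_of_nonneg_left h1 (by positivity))
  rw [← sub_pos]
  have h2 : (k : ℝ) / (k + 1) * (2 * (k * (k + 1) / 2) / ((k : ℝ) * (k - 1) + 1) -
      (2 / ((k : ℝ) * (k - 1) + 1)) ^ 2 * (k * (k + 1) * (2 * k + 1) / 12)) - 1 =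
      (k ^ 2 * (k - 7) + (6 * k - 3)) / (3 * ((k : ℝ) * (k - 1) + 1) ^ 2) := by
    field_simp
    ring
  rw [h2]
  exact div_pos (by nlinarith [mul_nonneg (sq_nonneg (k : ℝ)) (sub_nonneg.2 k7)]) (by positivity)

lemma LLP_core {k m : ℕ} {x u e : ℕ → ℝ} {X h ζ : ℝ} (hx : Monotone x) (x0 : ∀ i, 0 ≤ x i)
    (hkm : k < m) (hh : 0 ≤ h) (z0 : 0 ≤ ζ) (z1 : ζ < 1)
    (hu : ∀ i < m, 0 ≤ u i ∧ u i ≤ 1 ∧ (X ≤ x i → u i ≤ ζ / m))
    (hs : (k : ℝ) + 1 ≤ ∑ i ∈ range m, u i)
    (he : ∀ a t, t < k → x (a + (k - 1 - t)) = x (a + k) * e t) (e0 : ∀ t, 0 ≤ e t) :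
    x 0 < X ∧ X * (∑ t ∈ range k, (1 - e t) - ζ) - h * m ≤
      ∑ i ∈ range m, u i * max (X - h - x i) 0 := by
  classical
  have m0 : (0 : ℝ) < m := by exact_mod_cast (by omega : 0 < m)
  have zm : (m : ℝ) * (ζ / m) = ζ := mul_div_cancel₀ _ m0.ne'
  have zp : 0 ≤ ζ / m := by positivity
  have hk : x k < X := by
    by_contra hc
    rw [← sum_range_add_sum_Ico _ hkm.le] at hs
    have h1 := sum_le_card_nsmul (range k) u 1 fun i hi =>
      (hu i ((mem_range.1 hi).trans hkm)).2.1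
    have h2 := sum_le_card_nsmul (Ico k m) u (ζ / m) fun i hi =>
      (hu i (mem_Ico.1 hi).2).2.2 ((not_lt.1 hc).trans (hx (mem_Ico.1 hi).1))
    rw [card_range, nsmul_eq_mul] at h1
    rw [Nat.card_Ico, nsmul_eq_mul] at h2
    have h3 : ((m - k : ℕ) : ℝ) ≤ m := by exact_mod_cast Nat.sub_le m k
    nlinarith
  refine ⟨(hx (Nat.zero_le k)).trans_lt hk, ?_⟩
  obtain ⟨a, ha⟩ := Nat.exists_eq_add_of_le'
    (Nat.le_findGreatest (P := fun i => x i < X) (Nat.le_sub_one_of_lt hkm) hk)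
  have j1 : x (a + k) < X :=
    ha ▸ Nat.findGreatest_spec (P := fun i => x i < X) (Nat.le_sub_one_of_lt hkm) hk
  have j2 : a + k ≤ m - 1 := ha ▸ Nat.findGreatest_le _
  have j3 : ∀ i < m, a + k < i → X ≤ x i := fun i hi hj => not_lt.1
    (Nat.findGreatest_is_greatest (P := fun i => x i < X) (ha ▸ hj) (Nat.le_sub_one_of_lt hi))
  have t0 : 0 ≤ X - x a := by linarith [hx (Nat.le_add_right a k)]
  have h1 : ∑ i ∈ range m, (u i * (X - x a) - (ζ / m * (X - x a) + h) +
      if i ∈ Ico a (a + k + 1) then x a - x i else 0) ≤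
      ∑ i ∈ range m, u i * max (X - h - x i) 0 := by
    refine sum_le_sum fun i hi => ?_
    obtain ⟨u0, u1, u2⟩ := hu i (mem_range.1 hi)
    have p1 := mul_le_mul_of_nonneg_left (le_max_left (X - h - x i) 0) u0
    have p2 := mul_nonneg u0 (le_max_right (X - h - x i) 0)
    have p3 := mul_nonneg zp t0
    split_ifs with hi2
    · have := hx (mem_Ico.1 hi2).1
      nlinarith
    · rw [mem_Ico, not_and_or] at hi2
      rcases hi2 with hi2 | hi2
      · have := hx (not_le.1 hi2).le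
        nlinarith
      · have := u2 (j3 i (mem_range.1 hi) (by omega))
        nlinarith
  rw [sum_add_distrib, sum_sub_distrib, ← sum_mul, sum_const, card_range, nsmul_eq_mul,
    sum_ite_mem, inter_eq_right.2 (fun i hi => mem_range.2 (by have := mem_Ico.1 hi; omega)),
    sum_Ico_eq_sum_range, show a + k + 1 - a = k + 1 by omega, sum_range_succ, sum_sub_distrib,
    sum_const, card_range, nsmul_eq_mul, ← sum_range_reflect (fun i => x (a + i))] at h1
  have h2 : ∑ t ∈ range k, x (a + (k - 1 - t)) ≤ X * ∑ t ∈ range k, e t := by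
    rw [mul_sum]
    exact sum_le_sum fun t ht => by
      rw [he a t (mem_range.1 ht)]; exact mul_le_mul_of_nonneg_right j1.le (e0 t)
  rw [sum_sub_distrib, sum_const, card_range, nsmul_eq_mul]
  have h3 : (m : ℝ) * (ζ / m * (X - x a) + h) = ζ * (X - x a) + h * m := by
    rw [mul_add, ← mul_assoc, zm, mul_comm h]
  nlinarith [mul_le_mul_of_nonneg_right hs t0, mul_nonneg z0 (x0 a)]

theorem lower_lp (k D : ℕ) (hk : 7 ≤ k) (hD : 1 ≤ D) : ∃ m0 : ℕ, ∀ m ≥ m0,
    ∀ (X0 : ℝ) (u : Fin m → ℝ),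
      (∀ i, 0 ≤ u i ∧ u i ≤ 1 ∧ u i ≤ 2 * D * Real.exp (X0 - xx k m i)) →
      (k : ℝ) + 1 ≤ ∑ i, u i →
      X0 + 3 * m + 3 ≤ (k : ℝ) / (k + 1) * ∑ i, u i * max (X0 - xx k m i) 0 := by
  have k7 : (7 : ℝ) ≤ k := by exact_mod_cast hk
  have D1 : (1 : ℝ) ≤ D := by exact_mod_cast hD
  have d0 : 0 < (k : ℝ) * (k - 1) + 1 := by nlinarith
  have hσ := lower_sum k hk
  generalize hS : ∑ t ∈ range k, (1 - Real.exp (-(2 * ((t : ℝ) + 1) /
    ((k : ℝ) * (k - 1) + 1)))) = σ at hσ
  obtain ⟨ζ, z0, z1, z2⟩ : ∃ ζ : ℝ, 0 < ζ ∧ ζ < 1 ∧ 1 + 2 * ζ ≤ (k : ℝ) / (k + 1) * σ :=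
    ⟨min (1 / 2) (((k : ℝ) / (k + 1) * σ - 1) / 2), lt_min (by norm_num) (by linarith),
      (min_le_left _ _).trans_lt (by norm_num),
      by linarith [min_le_right (1 / 2 : ℝ) (((k : ℝ) / (k + 1) * σ - 1) / 2)]⟩
  have ev : ∀ᶠ m : ℕ in Filter.atTop, k < m ∧ ‖Real.log m‖ ≤ ζ / 2 * ‖(m : ℝ)‖ ∧
      (Real.log (2 * D / ζ) + 6) / (ζ / 2) ≤ m :=
    (Filter.eventually_gt_atTop k).and ((tendsto_natCast_atTop_atTop.eventually
      (Real.isLittleO_log_id_atTop.bound (half_pos z0))).and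
      (tendsto_natCast_atTop_atTop.eventually_ge_atTop _))
  obtain ⟨m0, hm0⟩ := Filter.eventually_atTop.1 ev
  refine ⟨m0, fun m hm X0 u hu hs => ?_⟩
  obtain ⟨hkm, l1, l2⟩ := hm0 m hm
  have m1 : (1 : ℝ) ≤ m := by exact_mod_cast (by omega : 1 ≤ m)
  rw [div_le_iff₀ (half_pos z0)] at l2
  rw [Real.norm_natCast] at l1
  have l3 := (le_abs_self _).trans l1
  have q1 : 1 ≤ 2 * D / ζ * m :=
    one_le_mul_of_one_le_of_one_le ((one_le_div z0).2 (by linarith)) m1
  have hh := Real.log_nonneg q1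
  have hx : Monotone (xx k m) := fun i j hij => by
    have : (i : ℝ) ≤ j := by exact_mod_cast hij
    unfold xx
    gcongr
  obtain ⟨c1, c2⟩ := LLP_core (k := k) (m := m) (x := xx k m)
    (u := fun i => if h : i < m then u ⟨i, h⟩ else 0)
    (e := fun t => Real.exp (-(2 * ((t : ℝ) + 1) / ((k : ℝ) * (k - 1) + 1))))
    (X := X0 + Real.log (2 * D / ζ * m)) hx (fun i => by unfold xx; positivity) hkm hh z0.le z1
    (fun i hi => by
      obtain ⟨u0, u1, u2⟩ := hu ⟨i, hi⟩
      rw [dif_pos hi]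
      refine ⟨u0, u1, fun h => u2.trans ?_⟩
      have h1 : Real.exp (X0 - xx k m i) ≤ (2 * D / ζ * m)⁻¹ := by
        rw [← Real.exp_log (zero_lt_one.trans_le q1), ← Real.exp_neg]
        exact Real.exp_le_exp.2 (by linarith)
      refine (mul_le_mul_of_nonneg_left h1 (by positivity)).trans (le_of_eq ?_)
      field_simp)
    (by
      rw [← Fin.sum_univ_eq_sum_range (fun i => if h : i < m then u ⟨i, h⟩ else 0)]
      simpa using hs)
    (fun a t ht => by
      unfold xx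
      rw [mul_assoc, ← Real.exp_add, Nat.cast_add, Nat.cast_add, Nat.sub_sub,
        Nat.cast_sub (by omega)]
      push_cast
      congr 2
      ring) fun t => (Real.exp_pos _).le
  rw [hS, ← Fin.sum_univ_eq_sum_range (fun i => (if h : i < m then u ⟨i, h⟩ else 0) *
    max (X0 + Real.log (2 * D / ζ * m) - Real.log (2 * D / ζ * m) - xx k m i) 0)] at c2
  simp only [Fin.is_lt, dif_pos, Fin.eta, add_sub_cancel_right] at c2
  have c3 : xx k m 0 = (m : ℝ) ^ 2 := by simp [xx]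
  have c4 : Real.log (2 * D / ζ * m) + 6 ≤ ζ * m := by
    rw [Real.log_mul (by positivity) (by positivity)]; linarith
  generalize Real.log (2 * D / ζ * m) = h at *
  have κ0 : 0 ≤ (k : ℝ) / (k + 1) := by positivity
  have κ1 : (k : ℝ) / (k + 1) ≤ 1 := (div_le_one (by positivity)).2 (by linarith)
  generalize (k : ℝ) / (k + 1) = κ at *
  rw [c3] at c1
  have X1 : 0 ≤ X0 + h := (sq_nonneg _).trans c1.le
  refine le_trans ?_ (mul_le_mul_of_nonneg_left c2 κ0)
  have y1 := mul_le_mul_of_nonneg_left z2 X1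
  have y2 := mul_le_mul_of_nonneg_left κ1 (mul_nonneg X1 z0.le)
  have y3 := mul_le_mul_of_nonneg_left κ1 (mul_nonneg hh (zero_le_one.trans m1))
  have y4 := mul_le_mul_of_nonneg_left c1.le z0.le
  have y5 := mul_le_mul_of_nonneg_right c4 (zero_le_one.trans m1)
  nlinarith

end Pool.Agent.Work.MP_78fef3_co.S
end

-- merged part: Pool.Agent.Work.MP_78fef3_co.S.LAsy
section
/-! Parameters of the lower bound.

PLAN. `y = log (log N) → ∞`, `κ = k (k - 1) / 2`, `s = 1 / (κ + 1 / 2)`, `m = ⌈(κ + 1 / 4) y⌉₊`.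
For `i < m`: `i ≤ (κ + 1 / 4) y`, so `s i ≤ (1 - s / 4) y` and
`xx k m i ≤ m ^ 2 exp (-(s / 4) y) exp y ≤ exp y = log N` once
`((κ + 1 / 4) y + 1) ^ 2 ≤ exp (s y / 4)`. Then `1 ≤ N exp (-xx)`, so the ceiling is at most
`2 N exp (-xx) ≤ 2 N exp (-m ^ 2)`, the sum is at most `2 N m exp (-m ^ 2) ≤ 2 N / m`
(`m ^ 2 ≤ exp (m ^ 2)`), and `(N - 2 N / m) m = N (m - 2) ≥ κ N y` once `8 ≤ y`. -/

namespace Pool.Agent.Work.MP_78fef3_co.S

open Finset

lemma LAsy_term {N x m : ℝ} (hN : 0 < N) (hm : 0 < m) (h1 : m ^ 2 ≤ x) (h2 : x ≤ Real.log N) :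
    (⌈N * Real.exp (-x)⌉₊ : ℝ) ≤ 2 * N / m ^ 2 := by
  have a : 1 ≤ N * Real.exp (-x) := by
    rw [Real.exp_neg, ← div_eq_mul_inv, one_le_div (Real.exp_pos x)]
    exact (Real.le_log_iff_exp_le hN).1 h2
  have b : N * Real.exp (-x) ≤ N / m ^ 2 := by
    rw [Real.exp_neg, ← div_eq_mul_inv]
    exact div_le_div_of_nonneg_left hN.le (by positivity)
      (by linarith [Real.add_one_le_exp x])
  rw [mul_div_assoc]
  linarith [Nat.ceil_lt_add_one (zero_le_one.trans a)]

theorem lower_params (k m0 : ℕ) (hk : 1 ≤ k) : ∃ N0 : ℕ, ∀ N ≥ N0, ∃ m ≥ m0, 0 < N ∧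
    (∀ i < m, xx k m i ≤ Real.log N) ∧
    ∑ i : Fin m, ⌈(N : ℝ) * Real.exp (-xx k m i)⌉₊ ≤ N ∧
    (k : ℝ) * (k - 1) / 2 * N * Real.log (Real.log N) ≤
      (((N - ∑ i : Fin m, ⌈(N : ℝ) * Real.exp (-xx k m i)⌉₊) * m : ℕ) : ℝ) := by
  obtain ⟨κ, hκ⟩ : ∃ κ : ℝ, κ = (k : ℝ) * (k - 1) / 2 := ⟨_, rfl⟩
  have k1 : (1 : ℝ) ≤ k := by exact_mod_cast hk
  have κ0 : 0 ≤ κ := by
    rw [hκ]
    exact div_nonneg (mul_nonneg (by linarith) (by linarith)) zero_le_two
  obtain ⟨a, ha⟩ : ∃ a : ℝ, a = 1 / (2 * (2 * κ + 1)) := ⟨_, rfl⟩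
  have a0 : 0 < a := by rw [ha]; positivity
  obtain ⟨N0, hN0⟩ := Filter.eventually_atTop.1 (((Real.tendsto_log_atTop.comp
    Real.tendsto_log_atTop).comp tendsto_natCast_atTop_atTop).eventually_ge_atTop
      (8 + 4 * m0 + 6 * (κ + 2) ^ 2 / a ^ 3))
  refine ⟨N0, fun N hN => ?_⟩
  have hy := hN0 N hN
  simp only [Function.comp] at hy
  obtain ⟨y, hy0⟩ : ∃ y, y = Real.log (Real.log N) := ⟨_, rfl⟩
  rw [← hy0] at hy
  have p1 : (0 : ℝ) ≤ m0 := Nat.cast_nonneg _
  have p2 : 0 ≤ 6 * (κ + 2) ^ 2 / a ^ 3 := by positivity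
  have y8 : 8 ≤ y := by linarith
  have l0 : 0 < Real.log N := (Real.log_natCast_nonneg N).lt_of_ne fun e => by
    rw [← e, Real.log_zero] at hy0
    linarith
  have N0' : 0 < N := Nat.pos_of_ne_zero fun e => by simp [e] at l0
  have N1 : (0 : ℝ) < N := Nat.cast_pos.2 N0'
  obtain ⟨m, hm⟩ : ∃ m, m = ⌈(κ + 1 / 4) * y⌉₊ := ⟨_, rfl⟩
  have κy : 0 ≤ κ * y := mul_nonneg κ0 (by linarith)
  have m1 : (κ + 1 / 4) * y ≤ m := hm ▸ Nat.le_ceil _
  have m2 : (m : ℝ) ≤ (κ + 2) * y := by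
    have := Nat.ceil_lt_add_one (a := (κ + 1 / 4) * y) (by positivity)
    rw [← hm] at this
    linarith
  have m3 : (2 : ℝ) ≤ m := by linarith
  have e1 : (m : ℝ) ^ 2 ≤ Real.exp (a * y) := by
    refine le_trans ?_ (Real.pow_div_factorial_le_exp _ (by positivity) 3)
    have h : 6 * (κ + 2) ^ 2 ≤ y * a ^ 3 := (div_le_iff₀ (by positivity)).1 (by linarith)
    have h2 := mul_le_mul_of_nonneg_right h (sq_nonneg y)
    have h3 := pow_le_pow_left₀ (Nat.cast_nonneg m) m2 2
    norm_num [Nat.factorial]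
    nlinarith
  have x1 : ∀ i < m, xx k m i ≤ Real.log N := fun i hi => by
    have h : (i : ℝ) < (κ + 1 / 4) * y := Nat.lt_ceil.1 (hm ▸ hi)
    rw [xx, ← Real.exp_log l0, ← hy0]
    refine (mul_le_mul_of_nonneg_right e1 (Real.exp_pos _).le).trans ?_
    rw [← Real.exp_add, Real.exp_le_exp, show (k : ℝ) * (k - 1) + 1 = 2 * κ + 1 by rw [hκ]; ring,
      ← le_sub_iff_add_le', div_le_iff₀ (by positivity),
      show (y - a * y) * (2 * κ + 1) = 2 * ((κ + 1 / 4) * y) by rw [ha]; field_simp; ring]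
    linarith
  have s1 : ((∑ i : Fin m, ⌈(N : ℝ) * Real.exp (-xx k m i)⌉₊ : ℕ) : ℝ) * m ≤ 2 * N := by
    rw [Nat.cast_sum]
    have h := sum_le_card_nsmul (univ : Finset (Fin m))
      (fun i => (⌈(N : ℝ) * Real.exp (-xx k m i)⌉₊ : ℝ)) (2 * N / (m : ℝ) ^ 2) fun i _ =>
        LAsy_term N1 (by linarith) (le_mul_of_one_le_right (sq_nonneg _)
          (Real.one_le_exp (div_nonneg (by positivity) (by linarith)))) (x1 i i.2)
    refine (mul_le_mul_of_nonneg_right h (Nat.cast_nonneg m)).trans_eq ?_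
    rw [card_univ, Fintype.card_fin, nsmul_eq_mul]
    field_simp
  have s2 : ∑ i : Fin m, ⌈(N : ℝ) * Real.exp (-xx k m i)⌉₊ ≤ N := by
    have := mul_le_mul_of_nonneg_left m3
      (Nat.cast_nonneg (α := ℝ) (∑ i : Fin m, ⌈(N : ℝ) * Real.exp (-xx k m i)⌉₊))
    exact Nat.cast_le.1 (by linarith : (_ : ℝ) ≤ _)
  refine ⟨m, Nat.cast_le.1 (by linarith : (m0 : ℝ) ≤ m), N0', x1, s2, ?_⟩
  rw [Nat.cast_mul, Nat.cast_sub s2, ← hκ, ← hy0]
  have := mul_le_mul_of_nonneg_left (show κ * y + 2 ≤ m by linarith) N1.le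
  linarith

end Pool.Agent.Work.MP_78fef3_co.S
end

-- merged part: Pool.Agent.Work.MP_78fef3_co.S.Lower
section
/-! The lower bound. -/

namespace Pool.Agent.Work.MP_78fef3_co.S

open Finset

theorem lower (C : ℝ) (k : ℕ) (hk : 7 ≤ k) : ∃ N0 : ℕ, ∀ N ≥ N0,
    ∃ G : SimpleGraph (Fin N), ¬ QR G k C ∧
      (k : ℝ) * (k - 1) / 2 * N * Real.log (Real.log N) ≤ G.edgeSet.ncard := by
  set D := ⌈C * k⌉₊ + 1 with hD
  obtain ⟨m0, hm0⟩ := lower_lp k D hk (by omega)
  obtain ⟨N0, hN0⟩ := lower_params k m0 (by omega)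
  refine ⟨N0, fun N hN => ?_⟩
  obtain ⟨m, hm, hNpos, hx, hsum, hedge⟩ := hN0 N hN
  let nn : Fin m → ℕ := fun i => ⌈(N : ℝ) * Real.exp (-xx k m i)⌉₊
  set n := N - ∑ i : Fin m, ⌈(N : ℝ) * Real.exp (-xx k m i)⌉₊ with hn
  have hNR : (0 : ℝ) < N := Nat.cast_pos.2 hNpos
  have hpos : ∀ i : Fin m, 0 < (N : ℝ) * Real.exp (-xx k m i) := fun i => by positivity
  have hnn : ∀ i, 0 < nn i := fun i => Nat.ceil_pos.2 (hpos i)
  have hlo : ∀ i : Fin m, (N : ℝ) * Real.exp (-xx k m i) ≤ nn i := fun i => Nat.le_ceil _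
  have hup : ∀ i : Fin m, (nn i : ℝ) ≤ 2 * ((N : ℝ) * Real.exp (-xx k m i)) := by
    intro i
    have h1 : (nn i : ℝ) < (N : ℝ) * Real.exp (-xx k m i) + 1 := Nat.ceil_lt_add_one (hpos i).le
    have h2 : (1 : ℝ) ≤ (N : ℝ) * Real.exp (-xx k m i) := by
      have h3 : Real.exp (-Real.log N) ≤ Real.exp (-xx k m i) :=
        Real.exp_le_exp.2 (neg_le_neg (hx i i.isLt))
      rw [Real.exp_neg, Real.exp_log hNR] at h3
      calc (1 : ℝ) = N * (N : ℝ)⁻¹ := (mul_inv_cancel₀ hNR.ne').symm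
        _ ≤ _ := mul_le_mul_of_nonneg_left h3 hNR.le
    linarith
  obtain ⟨f, hf⟩ := lower_union n m (k + 1) D nn (by omega) hnn (by
    intro a ha han e he hs
    have haR : (0 : ℝ) < a := Nat.cast_pos.2 ha
    have hexp : ∀ i : Fin m, Real.exp (Real.log ((N : ℝ) / a) - xx k m i) =
        (N : ℝ) * Real.exp (-xx k m i) / a := by
      intro i
      rw [sub_eq_add_neg, Real.exp_add, Real.exp_log (by positivity)]
      ring
    have h1 := hm0 m hm (Real.log ((N : ℝ) / a)) (fun i => (e i : ℝ) / a) (fun i => by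
      refine ⟨by positivity, (div_le_one haR).2 (by exact_mod_cast (he i).1), ?_⟩
      rw [hexp, ← mul_div_assoc]
      refine div_le_div_of_nonneg_right ?_ haR.le
      have h2 : (e i : ℝ) ≤ D * nn i := by exact_mod_cast (he i).2
      have h3 := mul_le_mul_of_nonneg_left (hup i) (Nat.cast_nonneg (α := ℝ) D)
      linarith) (by
      rw [← sum_div, le_div_iff₀ haR]
      exact_mod_cast hs)
    have h2 : Real.log ((n : ℝ) / a) ≤ Real.log ((N : ℝ) / a) := by
      have h3 : (a : ℝ) ≤ n := by exact_mod_cast han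
      have h4 : (n : ℝ) ≤ N := by exact_mod_cast (Nat.sub_le _ _ : n ≤ N)
      exact Real.log_le_log (div_pos (by linarith) haR) (div_le_div_of_nonneg_right h4 haR.le)
    have h3 : ∑ i : Fin m, (e i : ℝ) / a * max (Real.log ((N : ℝ) / a) - xx k m i) 0 ≤
        (∑ i, (e i : ℝ) * max (Real.log ((nn i : ℝ) / a)) 0) / a := by
      rw [sum_div]
      refine sum_le_sum fun i _ => ?_
      rw [mul_div_right_comm]
      refine mul_le_mul_of_nonneg_left (max_le_max_right _ ?_) (by positivity)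
      rw [Real.le_log_iff_exp_le (div_pos (Nat.cast_pos.2 (hnn i)) haR), hexp]
      exact div_le_div_of_nonneg_right (hlo i) haR.le
    have h4 : (((k + 1 : ℕ) : ℝ) - 1) / (k + 1 : ℕ) = (k : ℝ) / (k + 1) := by
      push_cast
      ring
    have h5 := h1.trans (mul_le_mul_of_nonneg_left h3 (by positivity))
    rw [← mul_div_assoc, le_div_iff₀ haR] at h5
    rw [h4]
    nlinarith)
  have hcard : Fintype.card (Fin n ⊕ BB nn) = N := by
    rw [Fintype.card_sum, Fintype.card_fin, Fintype.card_sigma]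
    simp only [Fintype.card_fin]
    exact Nat.sub_add_cancel hsum
  let e : (Fin n ⊕ BB nn) ≃ Fin N := Fintype.equivFinOfCardEq hcard
  refine ⟨graph e f, ?_, hedge.trans (by exact_mod_cast card_edges e f)⟩
  rintro ⟨H, ⟨x, hx⟩, hdeg⟩
  have hne : (edges H).Nonempty := by
    have h1 : (H.neighborSet x).Nonempty := Set.nonempty_of_ncard_ne_zero (by
      have := (hdeg x hx).1
      omega)
    obtain ⟨y, hy⟩ := h1
    obtain ⟨p, ⟨h1, h2⟩ | ⟨h1, h2⟩⟩ := H.adj_sub hy
    · exact ⟨p, mem_edges.2 (by rw [← h1, ← h2]; exact hy)⟩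
    · exact ⟨p, mem_edges.2 (by rw [← h1, ← h2]; exact hy.symm)⟩
  refine hf (edges H) hne fun p hp => ⟨?_, ?_, ?_⟩
  · rw [← ncard_left]
    exact (hdeg _ (H.edge_vert (mem_edges.1 hp))).1
  · rw [← ncard_right]
    exact (hdeg _ (H.edge_vert (mem_edges.1 hp).symm)).1
  · rw [← ncard_right]
    have h1 := (hdeg _ (H.edge_vert (mem_edges.1 hp).symm)).2.le.trans (Nat.le_ceil (C * k))
    have h2 : (H.neighborSet (e (Sum.inr (nb f p)))).ncard ≤ ⌈C * k⌉₊ := by exact_mod_cast h1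
    omega

end Pool.Agent.Work.MP_78fef3_co.S
end
end

-- merged part: Pool.Agent.Work.MP_78fef3_co.S.Sharp
section
/-! The sharp edge bound in finite form.

PLAN. `classical`; `n = Fintype.card V`, `d u = G.degree u = (univ.filter (G.Adj u)).card`,
`D1 = 16 (J1 + 2) ^ (g + 1)`, `D2 = 16 (J2 + 2) ^ (g + 1)`, `Z = 2 D1 ^ 2`, `Q = 4 D1 ^ 3`,
`Y = Q ^ g ≥ Z`. `crude` on `univ`: `∑ d ≤ 2 D1 n`. `High = {Z ≤ d}` has `D1 High.card ≤ n`, so
`crude` (with `J1, L1`) gives at most `2 n` ordered adjacent pairs inside `High`.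
`U = {d < Y}`: `crude` with `J2, L2` gives at most `2 D2 n` ordered pairs inside `U`.
`B = {Y ≤ d} ⊆ High`, `A = {a | d a < Z ∧ J1 + 1 ≤ (B.filter (G.Adj a)).card}`. If `0 < n` and
`n ≤ Z A.card`, then `hcore` applies with `ω = d`, `N a ⊆ B.filter (G.Adj a)` of size `J1 + 1`
(`∑ w ∈ B, d w ≤ 2 D1 n ≤ Q A.card`), contradiction. Otherwise
`∑ a with d a < Z, (B.filter (G.Adj a)).card ≤ Z A.card + J1 n ≤ (J1 + 1) n`. An ordered adjacent
pair lies in `U × U`, in `High × High`, or is (low, `B`) or (`B`, low). So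
`2 e = ∑ d ≤ 2 D2 n + 2 n + 2 (J1 + 1) n` (`SimpleGraph.sum_degrees_eq_twice_card_edges`,
`SimpleGraph.coe_edgeFinset`, `Set.ncard_coe_finset`). -/

namespace Pool.Agent.Work.MP_78fef3_co.S

open Finset

theorem Sharp_e {V : Type} [Fintype V] [DecidableEq V] (G : SimpleGraph V) [DecidableRel G.Adj]
    (S T : Finset V) : ∑ u ∈ S, (T.filter (G.Adj u)).card =
      ∑ u, ∑ v, if u ∈ S ∧ v ∈ T ∧ G.Adj u v then 1 else 0 := by
  rw [← univ_inter S, ← sum_ite_mem, univ_inter]
  refine sum_congr rfl fun u _ => ?_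
  by_cases hu : u ∈ S
  · rw [if_pos hu, ← card_filter]
    refine congrArg _ ?_
    ext v
    simp [hu]
  · simp [hu]

theorem Sharp_symm {V : Type} [Fintype V] [DecidableEq V] (G : SimpleGraph V) [DecidableRel G.Adj]
    (S T : Finset V) :
    ∑ u ∈ S, (T.filter (G.Adj u)).card = ∑ u ∈ T, (S.filter (G.Adj u)).card := by
  rw [Sharp_e, Sharp_e, sum_comm]
  refine sum_congr rfl fun u _ => sum_congr rfl fun v _ => if_congr ?_ rfl rfl
  rw [G.adj_comm]
  tauto

theorem Sharp_split {V : Type} [Fintype V] [DecidableEq V] (G : SimpleGraph V)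
    [DecidableRel G.Adj] (U Hi Lo B : Finset V) (h1 : ∀ u, u ∉ U → u ∈ B)
    (h2 : ∀ u, u ∉ Hi → u ∈ Lo) (h3 : ∀ u, u ∈ B → u ∈ Hi) :
    ∑ u, (univ.filter (G.Adj u)).card ≤ ∑ u ∈ U, (U.filter (G.Adj u)).card +
      ∑ u ∈ Hi, (Hi.filter (G.Adj u)).card + 2 * ∑ u ∈ Lo, (B.filter (G.Adj u)).card := by
  rw [two_mul]
  nth_rewrite 2 [Sharp_symm G Lo B]
  simp only [Sharp_e, ← sum_add_distrib]
  refine sum_le_sum fun u _ => sum_le_sum fun v _ => ?_
  have := h1 u
  have := h1 v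
  have := h2 u
  have := h2 v
  have := h3 u
  have := h3 v
  split_ifs <;> first | omega | tauto

theorem sharp {k : ℕ} {C : ℝ} {g : ℕ} (hcore : Core k C g) (hg : 1 ≤ g) {V : Type} [Fintype V]
    (G : SimpleGraph V) (hG : ¬ QR G k C) (J1 L1 J2 L2 : ℕ) (h1 : Enough k J1 L1)
    (h2 : Enough k J2 L2) (hL1 : Fintype.card V ≤ 2 ^ L1)
    (hL2 : (4 * (16 * (J1 + 2) ^ (g + 1)) ^ 3) ^ g ≤ 2 ^ L2) :
    G.edgeSet.ncard ≤ (J1 + 2 + 16 * (J2 + 2) ^ (g + 1)) * Fintype.card V := by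
  classical
  set n := Fintype.card V with hn
  set D1 := 16 * (J1 + 2) ^ (g + 1) with hD1
  set D2 := 16 * (J2 + 2) ^ (g + 1) with hD2
  have p1 : 0 < D1 := by positivity
  let d : V → ℕ := fun u => (univ.filter (G.Adj u)).card
  have hdn : ∀ (S : Finset V) (u : V), (S.filter (G.Adj u)).card ≤ d u := fun S u =>
    card_le_card (filter_subset_filter _ (subset_univ S))
  have hd1 : ∀ u, d u ≤ 2 ^ L1 := fun u => (card_le_univ _).trans hL1
  have h0 : ∑ u, d u ≤ 2 * D1 * n := crude hcore G hG J1 L1 h1 univ fun u _ => hd1 u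
  have hsub : ∀ S : Finset V, ∑ u ∈ S, d u ≤ 2 * D1 * n := fun S =>
    (sum_le_sum_of_subset (subset_univ S)).trans h0
  have hZQ : 2 * D1 ^ 2 ≤ 4 * D1 ^ 3 :=
    Nat.mul_le_mul (by norm_num) (Nat.pow_le_pow_right p1 (by norm_num))
  have hZY : 2 * D1 ^ 2 ≤ (4 * D1 ^ 3) ^ g := hZQ.trans (Nat.le_self_pow (by omega) _)
  let Hi := univ.filter fun u => 2 * D1 ^ 2 ≤ d u
  let U := univ.filter fun u => d u < (4 * D1 ^ 3) ^ g
  let B := univ.filter fun u => (4 * D1 ^ 3) ^ g ≤ d u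
  let Lo := univ.filter fun u => d u < 2 * D1 ^ 2
  let A := Lo.filter fun a => J1 + 1 ≤ (B.filter (G.Adj a)).card
  have a1 : ∑ u ∈ Hi, (Hi.filter (G.Adj u)).card ≤ 2 * n := by
    have b1 := (card_nsmul_le_sum Hi d (2 * D1 ^ 2) fun u hu => (mem_filter.1 hu).2).trans (hsub Hi)
    have b2 : D1 * Hi.card ≤ n := by
      refine Nat.le_of_mul_le_mul_left ?_ (show 0 < 2 * D1 by positivity)
      rw [smul_eq_mul] at b1
      nlinarith
    have b3 := crude hcore G hG J1 L1 h1 Hi fun u _ => (hdn Hi u).trans (hd1 u)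
    rw [← hD1] at b3
    nlinarith
  have a2 : ∑ u ∈ U, (U.filter (G.Adj u)).card ≤ 2 * D2 * n :=
    (crude hcore G hG J2 L2 h2 U fun u hu =>
      (hdn U u).trans ((mem_filter.1 hu).2.le.trans hL2)).trans
        (Nat.mul_le_mul_left _ (card_le_univ U))
  have a3 : 2 * D1 ^ 2 * A.card ≤ n := by
    by_contra hc
    have hA : A.Nonempty := by
      rw [← card_pos]
      by_contra h
      rw [show A.card = 0 by omega] at hc
      omega
    have hN : ∀ a, ∃ N : Finset V, a ∈ A → N ⊆ B.filter (G.Adj a) ∧ N.card = J1 + 1 := fun a => by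
      by_cases ha : a ∈ A
      · obtain ⟨N, c1, c2⟩ := exists_subset_card_eq (mem_filter.1 ha).2
        exact ⟨N, fun _ => ⟨c1, c2⟩⟩
      · exact ⟨∅, fun h => absurd h ha⟩
    choose N hN using hN
    refine hG (hcore V G A B N d J1 L1 (4 * D1 ^ 3) hA ?_ (fun a ha => ⟨(hN a ha).1.trans
      (filter_subset _ _), (hN a ha).2, fun w hw => (mem_filter.1 ((hN a ha).1 hw)).2⟩)
      (fun w hw => ⟨card_le_card fun a ha => ?_, (mem_filter.1 hw).2, hd1 w⟩) ?_ ?_ h1)
    · refine disjoint_left.2 fun a ha hb => ?_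
      have c1 := (mem_filter.1 (mem_filter.1 ha).1).2
      have c2 := (mem_filter.1 hb).2
      omega
    · obtain ⟨c1, c2⟩ := mem_filter.1 ha
      exact mem_filter.2 ⟨mem_univ _, (mem_filter.1 ((hN a c1).1 c2)).2.symm⟩
    · refine (hsub B).trans ((Nat.mul_le_mul_left _ (not_le.1 hc).le).trans (le_of_eq ?_))
      ring
    · have := Nat.pow_pos (n := 3) p1
      omega
  have a4 : ∑ u ∈ Lo, (B.filter (G.Adj u)).card ≤ (J1 + 1) * n := by
    rw [← sum_filter_add_sum_filter_not Lo fun a => J1 + 1 ≤ (B.filter (G.Adj a)).card]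
    have b1 := sum_le_card_nsmul A (fun u => (B.filter (G.Adj u)).card) (2 * D1 ^ 2) fun u hu =>
      (hdn B u).trans (mem_filter.1 (mem_filter.1 hu).1).2.le
    have b2 := (sum_le_card_nsmul (Lo.filter fun a => ¬ J1 + 1 ≤ (B.filter (G.Adj a)).card)
      (fun u => (B.filter (G.Adj u)).card) J1 fun u hu =>
        Nat.lt_succ_iff.1 (not_le.1 (mem_filter.1 hu).2)).trans
      (Nat.mul_le_mul_right J1 (card_le_univ _))
    rw [smul_eq_mul, mul_comm] at b1
    refine (add_le_add (b1.trans a3) b2).trans (le_of_eq ?_)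
    ring
  have a5 := Sharp_split G U Hi Lo B
    (fun u hu => mem_filter.2 ⟨mem_univ _, not_lt.1 fun h => hu (mem_filter.2 ⟨mem_univ _, h⟩)⟩)
    (fun u hu => mem_filter.2 ⟨mem_univ _, not_le.1 fun h => hu (mem_filter.2 ⟨mem_univ _, h⟩)⟩)
    fun u hu => mem_filter.2 ⟨mem_univ _, hZY.trans (mem_filter.1 hu).2⟩
  have a6 : ∑ u, (univ.filter (G.Adj u)).card = 2 * G.edgeSet.ncard := by
    rw [← SimpleGraph.coe_edgeFinset, Set.ncard_coe_finset,
      ← SimpleGraph.sum_degrees_eq_twice_card_edges]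
    refine sum_congr rfl fun u _ => ?_
    rw [← SimpleGraph.card_neighborFinset_eq_degree, SimpleGraph.neighborFinset_eq_filter]
  nlinarith

end Pool.Agent.Work.MP_78fef3_co.S
end

-- merged part: Pool.Agent.Work.MP_78fef3_co.R.LowerR
section
/-! The lower bound with an arbitrary admissible growth rate of the layers. -/

namespace Pool.Agent.Work.MP_78fef3_co.R

open Finset Pool.Agent.Work.MP_78fef3_co.S

/-- Logarithmic sizes of the layers. -/
noncomputable def xs (z : ℝ) (m i : ℕ) : ℝ := (m : ℝ) ^ 2 * Real.exp (z * (i : ℝ))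

theorem lower_lpS (k D : ℕ) (hD : 1 ≤ D) {z : ℝ} (d0 : 0 < z)
    (hσ : 1 < (k : ℝ) / (k + 1) * ∑ t ∈ range k, (1 - Real.exp (-(z * ((t : ℝ) + 1))))) :
    ∃ m0 : ℕ, ∀ m ≥ m0,
    ∀ (X0 : ℝ) (u : Fin m → ℝ),
      (∀ i, 0 ≤ u i ∧ u i ≤ 1 ∧ u i ≤ 2 * D * Real.exp (X0 - xs z m i)) →
      (k : ℝ) + 1 ≤ ∑ i, u i →
      X0 + 3 * m + 3 ≤ (k : ℝ) / (k + 1) * ∑ i, u i * max (X0 - xs z m i) 0 := by
  have D1 : (1 : ℝ) ≤ D := by exact_mod_cast hD
  generalize hS : ∑ t ∈ range k, (1 - Real.exp (-(z * ((t : ℝ) + 1)))) = σ at hσ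
  obtain ⟨ζ, z0, z1, z2⟩ : ∃ ζ : ℝ, 0 < ζ ∧ ζ < 1 ∧ 1 + 2 * ζ ≤ (k : ℝ) / (k + 1) * σ :=
    ⟨min (1 / 2) (((k : ℝ) / (k + 1) * σ - 1) / 2), lt_min (by norm_num) (by linarith),
      (min_le_left _ _).trans_lt (by norm_num),
      by linarith [min_le_right (1 / 2 : ℝ) (((k : ℝ) / (k + 1) * σ - 1) / 2)]⟩
  have ev : ∀ᶠ m : ℕ in Filter.atTop, k < m ∧ ‖Real.log m‖ ≤ ζ / 2 * ‖(m : ℝ)‖ ∧
      (Real.log (2 * D / ζ) + 6) / (ζ / 2) ≤ m :=
    (Filter.eventually_gt_atTop k).and ((tendsto_natCast_atTop_atTop.eventually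
      (Real.isLittleO_log_id_atTop.bound (half_pos z0))).and
      (tendsto_natCast_atTop_atTop.eventually_ge_atTop _))
  obtain ⟨m0, hm0⟩ := Filter.eventually_atTop.1 ev
  refine ⟨m0, fun m hm X0 u hu hs => ?_⟩
  obtain ⟨hkm, l1, l2⟩ := hm0 m hm
  have m1 : (1 : ℝ) ≤ m := by exact_mod_cast (by omega : 1 ≤ m)
  rw [div_le_iff₀ (half_pos z0)] at l2
  rw [Real.norm_natCast] at l1
  have l3 := (le_abs_self _).trans l1
  have q1 : 1 ≤ 2 * D / ζ * m :=
    one_le_mul_of_one_le_of_one_le ((one_le_div z0).2 (by linarith)) m1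
  have hh := Real.log_nonneg q1
  have hx : Monotone (xs z m) := fun i j hij => by
    have : (i : ℝ) ≤ j := by exact_mod_cast hij
    unfold xs
    gcongr
  obtain ⟨c1, c2⟩ := LLP_core (k := k) (m := m) (x := xs z m)
    (u := fun i => if h : i < m then u ⟨i, h⟩ else 0)
    (e := fun t => Real.exp (-(z * ((t : ℝ) + 1))))
    (X := X0 + Real.log (2 * D / ζ * m)) hx (fun i => by unfold xs; positivity) hkm hh z0.le z1
    (fun i hi => by
      obtain ⟨u0, u1, u2⟩ := hu ⟨i, hi⟩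
      rw [dif_pos hi]
      refine ⟨u0, u1, fun h => u2.trans ?_⟩
      have h1 : Real.exp (X0 - xs z m i) ≤ (2 * D / ζ * m)⁻¹ := by
        rw [← Real.exp_log (zero_lt_one.trans_le q1), ← Real.exp_neg]
        exact Real.exp_le_exp.2 (by linarith)
      refine (mul_le_mul_of_nonneg_left h1 (by positivity)).trans (le_of_eq ?_)
      field_simp)
    (by
      rw [← Fin.sum_univ_eq_sum_range (fun i => if h : i < m then u ⟨i, h⟩ else 0)]
      simpa using hs)
    (fun a t ht => by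
      unfold xs
      rw [mul_assoc, ← Real.exp_add, Nat.cast_add, Nat.cast_add, Nat.sub_sub,
        Nat.cast_sub (by omega)]
      push_cast
      congr 2
      ring) fun t => (Real.exp_pos _).le
  rw [hS, ← Fin.sum_univ_eq_sum_range (fun i => (if h : i < m then u ⟨i, h⟩ else 0) *
    max (X0 + Real.log (2 * D / ζ * m) - Real.log (2 * D / ζ * m) - xs z m i) 0)] at c2
  simp only [Fin.is_lt, dif_pos, Fin.eta, add_sub_cancel_right] at c2
  have c3 : xs z m 0 = (m : ℝ) ^ 2 := by simp [xs]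
  have c4 : Real.log (2 * D / ζ * m) + 6 ≤ ζ * m := by
    rw [Real.log_mul (by positivity) (by positivity)]; linarith
  generalize Real.log (2 * D / ζ * m) = h at *
  have κ0 : 0 ≤ (k : ℝ) / (k + 1) := by positivity
  have κ1 : (k : ℝ) / (k + 1) ≤ 1 := (div_le_one (by positivity)).2 (by linarith)
  generalize (k : ℝ) / (k + 1) = κ at *
  rw [c3] at c1
  have X1 : 0 ≤ X0 + h := (sq_nonneg _).trans c1.le
  refine le_trans ?_ (mul_le_mul_of_nonneg_left c2 κ0)
  have y1 := mul_le_mul_of_nonneg_left z2 X1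
  have y2 := mul_le_mul_of_nonneg_left κ1 (mul_nonneg X1 z0.le)
  have y3 := mul_le_mul_of_nonneg_left κ1 (mul_nonneg hh (zero_le_one.trans m1))
  have y4 := mul_le_mul_of_nonneg_left c1.le z0.le
  have y5 := mul_le_mul_of_nonneg_right c4 (zero_le_one.trans m1)
  nlinarith

theorem lower_paramsS (m0 : ℕ) {z κ : ℝ} (z0 : 0 < z) (κ0 : 0 ≤ κ) (hz : z * κ < 1) :
    ∃ N0 : ℕ, ∀ N ≥ N0, ∃ m ≥ m0, 0 < N ∧
    (∀ i < m, xs z m i ≤ Real.log N) ∧
    ∑ i : Fin m, ⌈(N : ℝ) * Real.exp (-xs z m i)⌉₊ ≤ N ∧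
    κ * N * Real.log (Real.log N) ≤
      (((N - ∑ i : Fin m, ⌈(N : ℝ) * Real.exp (-xs z m i)⌉₊) * m : ℕ) : ℝ) := by
  obtain ⟨a, ha⟩ : ∃ a : ℝ, a = (1 - z * κ) / 2 := ⟨_, rfl⟩
  have a0 : 0 < a := by rw [ha]; linarith
  obtain ⟨η, hη⟩ : ∃ η : ℝ, η = a / z := ⟨_, rfl⟩
  have η0 : 0 < η := by rw [hη]; positivity
  have η1 : z * η = a := by rw [hη]; field_simp
  obtain ⟨N0, hN0⟩ := Filter.eventually_atTop.1 (((Real.tendsto_log_atTop.comp
    Real.tendsto_log_atTop).comp tendsto_natCast_atTop_atTop).eventually_ge_atTop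
      (1 + (2 + m0) / η + 6 * (κ + η + 1) ^ 2 / a ^ 3))
  refine ⟨N0, fun N hN => ?_⟩
  have hy := hN0 N hN
  simp only [Function.comp] at hy
  obtain ⟨y, hy0⟩ : ∃ y, y = Real.log (Real.log N) := ⟨_, rfl⟩
  rw [← hy0] at hy
  have p1 : (0 : ℝ) ≤ m0 := Nat.cast_nonneg _
  have p2 : 0 ≤ 6 * (κ + η + 1) ^ 2 / a ^ 3 := by positivity
  have p3 : 0 ≤ (2 + m0) / η := by positivity
  have y8 : 1 ≤ y := by linarith
  have y9 : 2 + m0 ≤ y * η := (div_le_iff₀ η0).1 (by linarith)
  have l0 : 0 < Real.log N := (Real.log_natCast_nonneg N).lt_of_ne fun e => by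
    rw [← e, Real.log_zero] at hy0
    linarith
  have N0' : 0 < N := Nat.pos_of_ne_zero fun e => by simp [e] at l0
  have N1 : (0 : ℝ) < N := Nat.cast_pos.2 N0'
  obtain ⟨m, hm⟩ : ∃ m, m = ⌈(κ + η) * y⌉₊ := ⟨_, rfl⟩
  have κy : 0 ≤ κ * y := mul_nonneg κ0 (by linarith)
  have m1 : (κ + η) * y ≤ m := hm ▸ Nat.le_ceil _
  have m2 : (m : ℝ) ≤ (κ + η + 1) * y := by
    have := Nat.ceil_lt_add_one (a := (κ + η) * y) (by positivity)
    rw [← hm] at this
    linarith
  have m3 : (2 : ℝ) ≤ m := by linarith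
  have e1 : (m : ℝ) ^ 2 ≤ Real.exp (a * y) := by
    refine le_trans ?_ (Real.pow_div_factorial_le_exp _ (by positivity) 3)
    have h : 6 * (κ + η + 1) ^ 2 ≤ y * a ^ 3 := (div_le_iff₀ (by positivity)).1 (by linarith)
    have h2 := mul_le_mul_of_nonneg_right h (sq_nonneg y)
    have h3 := pow_le_pow_left₀ (Nat.cast_nonneg m) m2 2
    norm_num [Nat.factorial]
    nlinarith
  have x1 : ∀ i < m, xs z m i ≤ Real.log N := fun i hi => by
    have h : (i : ℝ) < (κ + η) * y := Nat.lt_ceil.1 (hm ▸ hi)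
    rw [xs, ← Real.exp_log l0, ← hy0]
    refine (mul_le_mul_of_nonneg_right e1 (Real.exp_pos _).le).trans ?_
    rw [← Real.exp_add, Real.exp_le_exp]
    have h2 := mul_le_mul_of_nonneg_left h.le z0.le
    have h3 : z * ((κ + η) * y) = y - a * y := by
      rw [← mul_assoc, mul_add, η1, show z * κ = 1 - 2 * a by linarith]
      ring
    linarith
  have s1 : ((∑ i : Fin m, ⌈(N : ℝ) * Real.exp (-xs z m i)⌉₊ : ℕ) : ℝ) * m ≤ 2 * N := by
    rw [Nat.cast_sum]
    have h := sum_le_card_nsmul (univ : Finset (Fin m))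
      (fun i => (⌈(N : ℝ) * Real.exp (-xs z m i)⌉₊ : ℝ)) (2 * N / (m : ℝ) ^ 2) fun i _ =>
        LAsy_term N1 (by linarith) (le_mul_of_one_le_right (sq_nonneg _)
          (Real.one_le_exp (by positivity))) (x1 i i.2)
    refine (mul_le_mul_of_nonneg_right h (Nat.cast_nonneg m)).trans_eq ?_
    rw [card_univ, Fintype.card_fin, nsmul_eq_mul]
    field_simp
  have s2 : ∑ i : Fin m, ⌈(N : ℝ) * Real.exp (-xs z m i)⌉₊ ≤ N := by
    have := mul_le_mul_of_nonneg_left m3
      (Nat.cast_nonneg (α := ℝ) (∑ i : Fin m, ⌈(N : ℝ) * Real.exp (-xs z m i)⌉₊))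
    exact Nat.cast_le.1 (by linarith : (_ : ℝ) ≤ _)
  refine ⟨m, Nat.cast_le.1 (by linarith : (m0 : ℝ) ≤ m), N0', x1, s2, ?_⟩
  rw [Nat.cast_mul, Nat.cast_sub s2, ← hy0]
  have := mul_le_mul_of_nonneg_left (show κ * y + 2 ≤ m by linarith) N1.le
  linarith

theorem lowerR (C : ℝ) (k : ℕ) (hk : 1 ≤ k) {κ : ℝ} (hκ : 0 < κ)
    (h : ∑ t ∈ range k, Real.exp (-((t : ℝ) + 1) / κ) < k - 1 - 1 / k) : ∃ N0 : ℕ, ∀ N ≥ N0,
    ∃ G : SimpleGraph (Fin N), ¬ QR G k C ∧
      κ * N * Real.log (Real.log N) ≤ G.edgeSet.ncard := by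
  obtain ⟨z, hz, z0, z1⟩ : ∃ z : ℝ,
      ∑ t ∈ range k, Real.exp (-(z * ((t : ℝ) + 1))) < k - 1 - 1 / k ∧ 0 < z ∧ z < κ⁻¹ := by
    have hc : Continuous fun z : ℝ => ∑ t ∈ range k, Real.exp (-(z * ((t : ℝ) + 1))) := by
      fun_prop
    obtain ⟨z, a1, a2, a3⟩ := (((hc.tendsto κ⁻¹).eventually (gt_mem_nhds (lt_of_eq_of_lt
      (sum_congr rfl fun t _ => by rw [neg_div, div_eq_inv_mul]) h))).and
        (lt_mem_nhds (inv_pos.2 hκ))).exists_lt
    exact ⟨z, a2, a3, a1⟩
  have k1 : (0 : ℝ) < k := by exact_mod_cast hk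
  set D := ⌈C * k⌉₊ + 1 with hD
  obtain ⟨m0, hm0⟩ := lower_lpS k D (by omega) z0 (by
    rw [sum_sub_distrib, sum_const, card_range, nsmul_eq_mul, mul_one, div_mul_eq_mul_div,
      lt_div_iff₀ (by positivity)]
    have a := mul_lt_mul_of_pos_left hz k1
    have b : (k : ℝ) * (1 / k) = 1 := mul_one_div_cancel k1.ne'
    nlinarith)
  obtain ⟨N0, hN0⟩ := lower_paramsS m0 z0 hκ.le (by
    rwa [← one_div, lt_div_iff₀ hκ] at z1)
  refine ⟨N0, fun N hN => ?_⟩
  obtain ⟨m, hm, hNpos, hx, hsum, hedge⟩ := hN0 N hN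
  let nn : Fin m → ℕ := fun i => ⌈(N : ℝ) * Real.exp (-xs z m i)⌉₊
  set n := N - ∑ i : Fin m, ⌈(N : ℝ) * Real.exp (-xs z m i)⌉₊ with hn
  have hNR : (0 : ℝ) < N := Nat.cast_pos.2 hNpos
  have hpos : ∀ i : Fin m, 0 < (N : ℝ) * Real.exp (-xs z m i) := fun i => by positivity
  have hnn : ∀ i, 0 < nn i := fun i => Nat.ceil_pos.2 (hpos i)
  have hlo : ∀ i : Fin m, (N : ℝ) * Real.exp (-xs z m i) ≤ nn i := fun i => Nat.le_ceil _
  have hup : ∀ i : Fin m, (nn i : ℝ) ≤ 2 * ((N : ℝ) * Real.exp (-xs z m i)) := by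
    intro i
    have h1 : (nn i : ℝ) < (N : ℝ) * Real.exp (-xs z m i) + 1 := Nat.ceil_lt_add_one (hpos i).le
    have h2 : (1 : ℝ) ≤ (N : ℝ) * Real.exp (-xs z m i) := by
      have h3 : Real.exp (-Real.log N) ≤ Real.exp (-xs z m i) :=
        Real.exp_le_exp.2 (neg_le_neg (hx i i.isLt))
      rw [Real.exp_neg, Real.exp_log hNR] at h3
      calc (1 : ℝ) = N * (N : ℝ)⁻¹ := (mul_inv_cancel₀ hNR.ne').symm
        _ ≤ _ := mul_le_mul_of_nonneg_left h3 hNR.le
    linarith
  obtain ⟨f, hf⟩ := lower_union n m (k + 1) D nn (by omega) hnn (by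
    intro a ha han e he hs
    have haR : (0 : ℝ) < a := Nat.cast_pos.2 ha
    have hexp : ∀ i : Fin m, Real.exp (Real.log ((N : ℝ) / a) - xs z m i) =
        (N : ℝ) * Real.exp (-xs z m i) / a := by
      intro i
      rw [sub_eq_add_neg, Real.exp_add, Real.exp_log (by positivity)]
      ring
    have h1 := hm0 m hm (Real.log ((N : ℝ) / a)) (fun i => (e i : ℝ) / a) (fun i => by
      refine ⟨by positivity, (div_le_one haR).2 (by exact_mod_cast (he i).1), ?_⟩
      rw [hexp, ← mul_div_assoc]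
      refine div_le_div_of_nonneg_right ?_ haR.le
      have h2 : (e i : ℝ) ≤ D * nn i := by exact_mod_cast (he i).2
      have h3 := mul_le_mul_of_nonneg_left (hup i) (Nat.cast_nonneg (α := ℝ) D)
      linarith) (by
      rw [← sum_div, le_div_iff₀ haR]
      exact_mod_cast hs)
    have h2 : Real.log ((n : ℝ) / a) ≤ Real.log ((N : ℝ) / a) := by
      have h3 : (a : ℝ) ≤ n := by exact_mod_cast han
      have h4 : (n : ℝ) ≤ N := by exact_mod_cast (Nat.sub_le _ _ : n ≤ N)
      exact Real.log_le_log (div_pos (by linarith) haR) (div_le_div_of_nonneg_right h4 haR.le)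
    have h3 : ∑ i : Fin m, (e i : ℝ) / a * max (Real.log ((N : ℝ) / a) - xs z m i) 0 ≤
        (∑ i, (e i : ℝ) * max (Real.log ((nn i : ℝ) / a)) 0) / a := by
      rw [sum_div]
      refine sum_le_sum fun i _ => ?_
      rw [mul_div_right_comm]
      refine mul_le_mul_of_nonneg_left (max_le_max_right _ ?_) (by positivity)
      rw [Real.le_log_iff_exp_le (div_pos (Nat.cast_pos.2 (hnn i)) haR), hexp]
      exact div_le_div_of_nonneg_right (hlo i) haR.le
    have h4 : (((k + 1 : ℕ) : ℝ) - 1) / (k + 1 : ℕ) = (k : ℝ) / (k + 1) := by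
      push_cast
      ring
    have h5 := h1.trans (mul_le_mul_of_nonneg_left h3 (by positivity))
    rw [← mul_div_assoc, le_div_iff₀ haR] at h5
    rw [h4]
    nlinarith)
  have hcard : Fintype.card (Fin n ⊕ BB nn) = N := by
    rw [Fintype.card_sum, Fintype.card_fin, Fintype.card_sigma]
    simp only [Fintype.card_fin]
    exact Nat.sub_add_cancel hsum
  let e : (Fin n ⊕ BB nn) ≃ Fin N := Fintype.equivFinOfCardEq hcard
  refine ⟨graph e f, ?_, hedge.trans (by exact_mod_cast card_edges e f)⟩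
  rintro ⟨H, ⟨x, hx⟩, hdeg⟩
  have hne : (edges H).Nonempty := by
    have h1 : (H.neighborSet x).Nonempty := Set.nonempty_of_ncard_ne_zero (by
      have := (hdeg x hx).1
      omega)
    obtain ⟨y, hy⟩ := h1
    obtain ⟨p, ⟨h1, h2⟩ | ⟨h1, h2⟩⟩ := H.adj_sub hy
    · exact ⟨p, mem_edges.2 (by rw [← h1, ← h2]; exact hy)⟩
    · exact ⟨p, mem_edges.2 (by rw [← h1, ← h2]; exact hy.symm)⟩
  refine hf (edges H) hne fun p hp => ⟨?_, ?_, ?_⟩
  · rw [← ncard_left]
    exact (hdeg _ (H.edge_vert (mem_edges.1 hp))).1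
  · rw [← ncard_right]
    exact (hdeg _ (H.edge_vert (mem_edges.1 hp).symm)).1
  · rw [← ncard_right]
    have h1 := (hdeg _ (H.edge_vert (mem_edges.1 hp).symm)).2.le.trans (Nat.le_ceil (C * k))
    have h2 : (H.neighborSet (e (Sum.inr (nb f p)))).ncard ≤ ⌈C * k⌉₊ := by exact_mod_cast h1
    omega

end Pool.Agent.Work.MP_78fef3_co.R
end
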