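import Mathlib

/-! Explicit admissible constants. -/

namespace Pool.Agent.Work.MP_78fef3_co.R

open Finset

theorem exp_neg_le {y : ℝ} (hy : 0 ≤ y) :
    Real.exp (-y) ≤ 1 - y + y ^ 2 / 2 - y ^ 3 / 6 + y ^ 4 / 24 := by
  have h1 := Real.sum_le_exp_of_nonneg hy 5
  simp only [sum_range_succ, range_zero, sum_empty, Nat.factorial] at h1
  norm_num at h1
  have h2 : 0 < 1 + y + y ^ 2 / 2 + y ^ 3 / 6 + y ^ 4 / 24 := by positivity
  rw [Real.exp_neg]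
  refine (inv_anti₀ h2 h1).trans ?_
  rw [inv_le_iff_one_le_mul₀ h2]
  have h3 : 0 ≤ y ^ 6 / 72 + y ^ 8 / 576 := by positivity
  nlinarith

theorem le_exp_neg {y : ℝ} (hy : 0 ≤ y) (h1 : y ≤ 1) :
    1 - y + y ^ 2 / 2 - 2 / 9 * y ^ 3 ≤ Real.exp (-y) := by
  have h := Real.exp_bound (x := -y) (by rwa [abs_neg, abs_of_nonneg hy]) (n := 3) (by norm_num)
  simp only [sum_range_succ, range_zero, sum_empty, Nat.factorial] at h
  rw [abs_neg, abs_of_nonneg hy] at h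
  norm_num at h
  linarith [(abs_le.1 h).1]

theorem sum_poly (s c3 c4 : ℝ) (k : ℕ) : ∑ t ∈ range k, (1 - ((t : ℝ) + 1) * s +
    (((t : ℝ) + 1) * s) ^ 2 / 2 - c3 * (((t : ℝ) + 1) * s) ^ 3 + c4 * (((t : ℝ) + 1) * s) ^ 4) =
    k - k * (k + 1) / 2 * s + k * (k + 1) * (2 * k + 1) / 12 * s ^ 2 -
      c3 * (k * (k + 1) / 2) ^ 2 * s ^ 3 +
      c4 * (k * (k + 1) * (2 * k + 1) * (3 * k ^ 2 + 3 * k - 1) / 30) * s ^ 4 := by
  induction k with
  | zero => simp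
  | succ n ih => rw [sum_range_succ, ih]; push_cast; ring

theorem num_a (k : ℕ) (hk : 2 ≤ k) {a : ℝ} (ha : a = (k : ℝ) ^ 2 / 2 - k / 3 - 1 / 2) :
    0 < a ∧ ∑ t ∈ range k, Real.exp (-((t : ℝ) + 1) / a) < k - 1 - 1 / k := by
  have k2 : (2 : ℝ) ≤ k := by exact_mod_cast hk
  have a0 : 0 < a := by nlinarith
  refine ⟨a0, ?_⟩
  rcases hk.eq_or_lt with rfl | hk
  · have h1 : Real.exp (-(6 / 5)) ≤ 7 / 20 := by
      have := Real.quadratic_le_exp_of_nonneg (x := 6 / 5) (by norm_num)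
      rw [Real.exp_neg, inv_le_comm₀ (Real.exp_pos _) (by norm_num)]
      linarith
    have h2 : Real.exp (-(12 / 5)) = Real.exp (-(6 / 5)) * Real.exp (-(6 / 5)) := by
      rw [← Real.exp_add]
      norm_num
    have h3 := Real.exp_pos (-(6 / 5))
    simp only [sum_range_succ, range_zero, sum_empty, ha]
    norm_num
    nlinarith
  obtain ⟨j, rfl⟩ := Nat.exists_eq_add_of_le' (show 3 ≤ k from hk)
  have h1 := sum_le_sum (s := range (j + 3)) fun t _ =>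
    exp_neg_le (y := ((t : ℝ) + 1) * a⁻¹) (by positivity)
  have h2 := sum_poly a⁻¹ (1 / 6) (1 / 24) (j + 3)
  refine lt_of_le_of_lt ((le_of_eq (sum_congr rfl fun t _ => by rw [neg_div, div_eq_mul_inv])).trans
    (h1.trans_eq ((sum_congr rfl fun t _ => by ring).trans h2))) ?_
  obtain ⟨x, hx⟩ : ∃ x : ℝ, x = j := ⟨_, rfl⟩
  have x0 : 0 ≤ x := hx ▸ Nat.cast_nonneg j
  push_cast at ha ⊢
  rw [← hx] at ha ⊢
  have h3 : 0 < 59 / 4 + 12521 / 240 * x + 52231 / 720 * x ^ 2 + 1901 / 36 * x ^ 3 +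
      14191 / 648 * x ^ 4 + 33733 / 6480 * x ^ 5 + 1427 / 2160 * x ^ 6 + 5 / 144 * x ^ 7 := by
    positivity
  rw [← sub_pos]
  refine (div_pos h3 (show 0 < (x + 3) * a ^ 4 by positivity)).trans_eq ?_
  field_simp
  rw [ha]
  ring

theorem num_b (k : ℕ) (hk : 2 ≤ k) {b : ℝ} (hb : b = (k : ℝ) ^ 2 / 2 + k / 6) :
    0 < b ∧ (k : ℝ) - 1 < ∑ t ∈ range k, Real.exp (-((t : ℝ) + 1) / b) := by
  have k2 : (2 : ℝ) ≤ k := by exact_mod_cast hk
  have b0 : 0 < b := by nlinarith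
  refine ⟨b0, ?_⟩
  have h1 := sum_le_sum (s := range k) fun t ht =>
    le_exp_neg (y := ((t : ℝ) + 1) * b⁻¹) (by positivity) (by
      have : (t : ℝ) + 1 ≤ k := by exact_mod_cast mem_range.1 ht
      rw [← div_eq_mul_inv, div_le_one b0]
      nlinarith)
  have h2 := sum_poly b⁻¹ (2 / 9) 0 k
  refine lt_of_lt_of_le ?_ ((h2.symm.trans (sum_congr rfl fun t _ => by ring)).trans_le
    (h1.trans_eq (sum_congr rfl fun t _ => by rw [neg_div, div_eq_mul_inv])))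
  obtain ⟨j, rfl⟩ := Nat.exists_eq_add_of_le' hk
  obtain ⟨x, hx⟩ : ∃ x : ℝ, x = j := ⟨_, rfl⟩
  have x0 : 0 ≤ x := hx ▸ Nat.cast_nonneg j
  push_cast at hb ⊢
  rw [← hx] at hb ⊢
  have h3 : 0 < 11 / 54 + 13 / 18 * x + 53 / 72 * x ^ 2 + 8 / 27 * x ^ 3 + 1 / 24 * x ^ 4 := by
    positivity
  rw [← sub_pos]
  refine (div_pos h3 (show 0 < b ^ 3 by positivity)).trans_eq ?_
  field_simp
  rw [hb]
  ring

end Pool.Agent.Work.MP_78fef3_co.R
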