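import Pool.Agent.Results.MP_78fef3_co.RegularThreshold

/-! The earlier hand-in `SharpThreshold` follows from `RegularThreshold`. -/

namespace Pool.Agent.Work.MP_78fef3_co.R

open Pool.Agent.Results.MP_78fef3_co.RegularThreshold

theorem old_of_new :
    ∀ C : ℝ, 1 < C → ∃ k₀ : ℕ, ∀ k ≥ k₀, ∃ n₀ : ℕ, ∀ n ≥ n₀,
      (k : ℝ) * (k - 1) / 2 * n * Real.log (Real.log n) ≤ qex n k C ∧
        (qex n k C : ℝ) ≤ (k : ℝ) * (k + 1) / 2 * n * Real.log (Real.log n) := by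
  intro C hC
  obtain ⟨k1, hk1⟩ := exists_nat_gt (1 / (C - 1))
  refine ⟨k1 + 3, fun k hk => ?_⟩
  have h1 : (k1 : ℝ) + 3 ≤ k := by exact_mod_cast hk
  have h0 : (0 : ℝ) ≤ k1 := Nat.cast_nonneg _
  have hCk : (k : ℝ) + 1 < C * k := by
    have h2 : 0 < C - 1 := by linarith
    rw [div_lt_iff₀ h2] at hk1
    nlinarith
  obtain ⟨n0, hn0⟩ := result k C _ _ (by omega) hCk (Or.inl rfl) (Or.inl rfl)
  refine ⟨n0 + 3, fun n hn => ?_⟩
  obtain ⟨a, b⟩ := hn0 n (by omega)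
  have h3 : (3 : ℝ) ≤ n := by exact_mod_cast (by omega : 3 ≤ n)
  have h4 : 0 ≤ Real.log (Real.log n) := Real.log_nonneg (by
    rw [Real.le_log_iff_exp_le (by linarith)]
    linarith [Real.exp_one_lt_d9])
  refine ⟨le_trans ?_ a, b.trans ?_⟩ <;>
    refine mul_le_mul_of_nonneg_right (mul_le_mul_of_nonneg_right ?_ (by linarith)) h4 <;>
    nlinarith

end Pool.Agent.Work.MP_78fef3_co.R
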