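import Pool.Agent.Work.MP_78fef3_co.R.LowerR
import Pool.Agent.Work.MP_0b08b2_co.LLL

-- merged part: Pool.Agent.Work.MP_78fef3_co.R.Law
section
/-! Biased random subsets of a finite set. -/

namespace Pool.Agent.Work.MP_78fef3_co.R

open Finset Pool.Agent.Work.MP_78fef3_co.S

variable {α : Type} [Fintype α] [DecidableEq α]

/-- The probability of `W` when every point is taken with probability `p`. -/
noncomputable def w (p : ℝ) (W : Finset α) : ℝ := ∏ x, if x ∈ W then p else 1 - p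

/-- The law of `A ∪ W`. -/
noncomputable def pl (p : ℝ) (A V : Finset α) : ℝ :=
  ∏ x, if x ∈ A then (if x ∈ V then 1 else 0) else (if x ∈ V then p else 1 - p)

theorem sum_prod (a b : α → ℝ) :
    ∑ W : Finset α, ∏ x, (if x ∈ W then a x else b x) = ∏ x, (a x + b x) := by
  rw [Fintype.prod_add]
  refine sum_congr rfl fun W _ => ?_
  rw [prod_ite]
  congr 2 <;> ext x <;> simp

theorem w_nonneg {p : ℝ} (h0 : 0 ≤ p) (h1 : p ≤ 1) (W : Finset α) : 0 ≤ w p W :=
  prod_nonneg fun x _ => by split_ifs <;> linarith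

theorem w_sum (p : ℝ) : ∑ W : Finset α, w p W = 1 := by
  unfold w
  rw [sum_prod]
  simp

theorem ind_all (P : Prop) [Decidable P] (R : α → Prop) [DecidablePred R] (h : P ↔ ∀ x, R x) :
    (if P then (1 : ℝ) else 0) = ∏ x, if R x then 1 else 0 := by
  by_cases hP : P
  · rw [if_pos hP]
    exact (prod_eq_one fun x _ => if_pos (h.1 hP x)).symm
  · obtain ⟨x, hx⟩ := not_forall.1 fun h' => hP (h.2 h')
    rw [if_neg hP]
    exact (prod_eq_zero (mem_univ x) (if_neg hx)).symm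

theorem ind_eq (U V : Finset α) :
    (if U = V then (1 : ℝ) else 0) = ∏ x, if (x ∈ U ↔ x ∈ V) then 1 else 0 :=
  ind_all _ _ Finset.ext_iff

theorem push {Ω β : Type} [Fintype Ω] [Fintype β] [DecidableEq β] (m : Ω → ℝ) (X : Ω → β)
    (F : β → ℝ) : ∑ ω, m ω * F (X ω) = ∑ V, (∑ ω, m ω * if X ω = V then 1 else 0) * F V := by
  simp only [sum_mul]
  rw [sum_comm]
  refine sum_congr rfl fun ω _ => ?_
  simp

theorem law_union (p : ℝ) (A : Finset α) (F : Finset α → ℝ) :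
    ∑ W, w p W * F (A ∪ W) = ∑ V, pl p A V * F V := by
  rw [push (w p) (fun W => A ∪ W) F]
  refine sum_congr rfl fun V _ => ?_
  congr 1
  have h : ∀ W : Finset α, (w p W * if A ∪ W = V then 1 else 0) =
      ∏ x, if x ∈ W then p * (if x ∈ V then 1 else 0)
        else (1 - p) * (if (x ∈ A ↔ x ∈ V) then 1 else 0) := by
    intro W
    rw [ind_eq, w, ← prod_mul_distrib]
    refine prod_congr rfl fun x _ => ?_
    by_cases h1 : x ∈ W <;> simp [h1]
  rw [sum_congr rfl fun W _ => h W, sum_prod, pl]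
  refine prod_congr rfl fun x _ => ?_
  by_cases h1 : x ∈ A <;> by_cases h2 : x ∈ V <;> simp [h1, h2]

theorem pl_eq (p : ℝ) (A V : Finset α) :
    p ^ A.card * pl p A V = w p V * if A ⊆ V then 1 else 0 := by
  have h1 : p ^ A.card = ∏ x, if x ∈ A then p else 1 := by
    rw [prod_ite_mem, univ_inter, prod_const]
  have h2 : (if A ⊆ V then (1 : ℝ) else 0) = ∏ x, if (x ∈ A → x ∈ V) then 1 else 0 :=
    ind_all _ _ Finset.subset_iff
  rw [h1, h2, pl, w, ← prod_mul_distrib, ← prod_mul_distrib]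
  refine prod_congr rfl fun x _ => ?_
  by_cases h1 : x ∈ A <;> by_cases h2 : x ∈ V <;> simp [h1, h2]

theorem pl_sum {p ρ ρ' : ℝ} (h : 1 - ρ = (1 - p) * (1 - ρ')) (V : Finset α) :
    ∑ A, w p A * pl ρ' A V = w ρ V := by
  have h1 : ∀ A : Finset α, w p A * pl ρ' A V = ∏ x, if x ∈ A then p * (if x ∈ V then 1 else 0)
      else (1 - p) * (if x ∈ V then ρ' else 1 - ρ') := by
    intro A
    rw [w, pl, ← prod_mul_distrib]
    refine prod_congr rfl fun x _ => ?_
    by_cases h1 : x ∈ A <;> simp [h1]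
  rw [sum_congr rfl fun A _ => h1 A, sum_prod, w]
  refine prod_congr rfl fun x _ => ?_
  by_cases h2 : x ∈ V <;> simp only [h2, if_true, if_false] <;> linarith

theorem law_two {p ρ ρ' : ℝ} (h : 1 - ρ = (1 - p) * (1 - ρ')) (F : Finset α → ℝ) :
    ∑ V, w ρ V * F V = ∑ W, w p W * ∑ W', w ρ' W' * F (W ∪ W') := by
  simp only [law_union, mul_sum]
  rw [sum_comm]
  refine sum_congr rfl fun V _ => ?_
  rw [← pl_sum h, sum_mul]
  exact sum_congr rfl fun W _ => mul_assoc _ _ _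

theorem law_sub (p : ℝ) (T : Finset α) :
    ∑ V, w p V * (if T ⊆ V then 1 else 0) = p ^ T.card := by
  have h := law_union p T fun _ => 1
  simp only [mul_one, w_sum] at h
  simp only [← pl_eq]
  rw [← mul_sum, ← h, mul_one]

theorem law_plant {p : ℝ} (hp : p ≠ 0) (A : Finset α) (F : Finset α → ℝ) :
    ∑ W, w p W * F (A ∪ W) =
      ∑ V, w p V * ((if A ⊆ V then 1 else 0) * p⁻¹ ^ A.card * F V) := by
  rw [law_union]
  refine sum_congr rfl fun V _ => ?_
  rw [← mul_assoc, ← mul_assoc, ← pl_eq, inv_pow]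
  field_simp

theorem law_colour {q : ℕ} (i : Fin q) (F : Finset α → ℝ) :
    av (fun χ : α → Fin q => F (univ.filter fun x => χ x = i)) = ∑ V, w (1 / q) V * F V := by
  have : Nonempty (Fin q) := ⟨i⟩
  have h := push (fun _ : α → Fin q => (Fintype.card (α → Fin q) : ℝ)⁻¹)
    (fun χ => univ.filter fun x => χ x = i) F
  rw [av, div_eq_inv_mul, mul_sum, h]
  refine sum_congr rfl fun V _ => ?_
  congr 1
  rw [← mul_sum, ← div_eq_inv_mul]
  have h1 := av_prod (univ : Finset α)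
    fun x (c : Fin q) => if (c = i ↔ x ∈ V) then (1 : ℝ) else 0
  have h2 : ∀ χ : α → Fin q, (if (univ.filter fun x => χ x = i) = V then (1 : ℝ) else 0) =
      ∏ x, if (χ x = i ↔ x ∈ V) then 1 else 0 := by
    intro χ
    rw [ind_eq]
    simp
  simp only [h2]
  refine h1.trans ?_
  rw [w]
  refine prod_congr rfl fun x _ => ?_
  have h3 : av (fun c : Fin q => if c = i then (1 : ℝ) else 0) = 1 / q := by simp [av]
  by_cases hx : x ∈ V
  · simpa [hx] using h3
  · have h4 := av_sub (fun _ : Fin q => (1 : ℝ)) fun c => if c = i then (1 : ℝ) else 0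
    rw [av_const, h3] at h4
    rw [if_neg hx, ← h4]
    refine congrArg av (funext fun c => ?_)
    by_cases hc : c = i <;> simp [hc, hx]

end Pool.Agent.Work.MP_78fef3_co.R
end

-- merged part: Pool.Agent.Work.MP_78fef3_co.R.Sun
section
/-! The spread lemma, by the second moment argument, and families with disjoint petals. -/

namespace Pool.Agent.Work.MP_78fef3_co.R

open Finset Pool.Agent.Work.MP_78fef3_co.S

variable {α : Type} [Fintype α] [DecidableEq α] {ι : Type} [Fintype ι]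

theorem Sun_over {p u : ℝ} (hp : 0 < p) (hu : 0 ≤ u) (h4 : 4 * (u * p⁻¹) ≤ 1) (μ : ι → ℝ)
    (S : ι → Finset α) (h0 : ∀ i, 0 ≤ μ i)
    (hs : ∀ T : Finset α, ∑ i, (if T ⊆ S i then μ i else 0) ≤ u ^ T.card) {s : ℕ} (hs1 : 1 ≤ s)
    (A : Finset α) (hA : A.card ≤ 2 * s) :
    ∑ j, (if s ≤ (A ∩ S j).card then μ j * p⁻¹ ^ (A ∩ S j).card else 0) ≤ 4 * (u * p⁻¹) := by
  have hq : 0 ≤ p⁻¹ := by positivity
  have h1 : ∀ j, (if s ≤ (A ∩ S j).card then μ j * p⁻¹ ^ (A ∩ S j).card else 0) ≤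
      ∑ T ∈ A.powerset.filter (fun T => s ≤ T.card),
        p⁻¹ ^ T.card * (if T ⊆ S j then μ j else 0) := by
    intro j
    have hn : ∀ T ∈ A.powerset.filter (fun T => s ≤ T.card),
        0 ≤ p⁻¹ ^ T.card * (if T ⊆ S j then μ j else 0) := fun T _ =>
      mul_nonneg (pow_nonneg hq _) (by split_ifs; exacts [h0 j, le_rfl])
    split_ifs with h
    · refine le_trans (le_of_eq ?_) (single_le_sum hn
        (mem_filter.2 ⟨mem_powerset.2 (inter_subset_left (s₂ := S j)), h⟩))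
      rw [if_pos inter_subset_right, mul_comm]
    · exact sum_nonneg hn
  refine (sum_le_sum fun j _ => h1 j).trans ?_
  rw [sum_comm]
  have hup : 0 ≤ u * p⁻¹ := mul_nonneg hu hq
  have h2 : ∀ T ∈ A.powerset.filter (fun T => s ≤ T.card),
      ∑ j, p⁻¹ ^ T.card * (if T ⊆ S j then μ j else 0) ≤ (u * p⁻¹) ^ s := by
    intro T hT
    rw [← mul_sum]
    refine (mul_le_mul_of_nonneg_left (hs T) (pow_nonneg hq _)).trans ?_
    rw [← mul_pow, mul_comm]
    exact pow_le_pow_of_le_one hup (by linarith) (mem_filter.1 hT).2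
  refine (sum_le_card_nsmul _ _ _ h2).trans ?_
  have h3 : ((A.powerset.filter (fun T => s ≤ T.card)).card : ℝ) ≤ 4 ^ s := by
    have : (A.powerset.filter (fun T => s ≤ T.card)).card ≤ 4 ^ s := by
      refine (card_filter_le _ _).trans ?_
      rw [card_powerset, show 4 = 2 ^ 2 by norm_num, ← pow_mul]
      exact Nat.pow_le_pow_right two_pos hA
    exact_mod_cast this
  rw [nsmul_eq_mul]
  refine (mul_le_mul_of_nonneg_right h3 (pow_nonneg hup _)).trans ?_
  rw [← mul_pow]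
  exact pow_le_of_le_one (by linarith) h4 (by omega)

open Classical in
theorem Sun_bad {p u d : ℝ} (hp : 0 < p) (hp1 : p ≤ 1) (hu : 0 ≤ u) (hd : 0 < d) (hd1 : d ≤ 1)
    (h16 : 16 * u ≤ d ^ 2 * p) (μ : ι → ℝ) (S : ι → Finset α) (h0 : ∀ i, 0 ≤ μ i)
    (hs : ∀ T : Finset α, ∑ i, (if T ⊆ S i then μ i else 0) ≤ u ^ T.card) {s : ℕ} (hs1 : 1 ≤ s)
    (hA : ∀ i, μ i ≠ 0 → (S i).card ≤ 2 * s) :
    ∑ W, w p W * ∑ i,
      (if ∃ j, μ j ≠ 0 ∧ S j ⊆ S i ∪ W ∧ (S i ∩ S j).card < s then 0 else μ i) ≤ d := by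
  have hq : 0 ≤ p⁻¹ := by positivity
  have hup : u * p⁻¹ ≤ d ^ 2 / 16 := by
    rw [← div_eq_mul_inv, div_le_div_iff₀ hp (by norm_num)]
    linarith
  have hw : ∀ V : Finset α, 0 ≤ w p V := w_nonneg hp.le hp1
  have hm : ∑ i, μ i ≤ 1 := by simpa using hs ∅
  let Z : Finset α → ℝ := fun V => ∑ j, μ j * ((if S j ⊆ V then 1 else 0) * p⁻¹ ^ (S j).card)
  let Y : ι → Finset α → ℝ := fun i V => ∑ j, if s ≤ (S i ∩ S j).card then
    μ j * ((if S j ⊆ V then 1 else 0) * p⁻¹ ^ (S j).card) else 0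
  have hY : ∀ i V, 0 ≤ Y i V := fun i V => sum_nonneg fun j _ => by
    have := h0 j
    split_ifs <;> positivity
  have h1 : ∀ (W : Finset α) i,
      (if ∃ j, μ j ≠ 0 ∧ S j ⊆ S i ∪ W ∧ (S i ∩ S j).card < s then 0 else μ i) ≤
      μ i * ((if Z (S i ∪ W) ≤ d / 2 then 1 else 0) + 2 / d * Y i (S i ∪ W)) := by
    intro W i
    have a := hY i (S i ∪ W)
    have b := h0 i
    by_cases h : ∃ j, μ j ≠ 0 ∧ S j ⊆ S i ∪ W ∧ (S i ∩ S j).card < s
    · rw [if_pos h]
      split_ifs <;> positivity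
    · rw [if_neg h]
      refine le_mul_of_one_le_right b ?_
      have e : Z (S i ∪ W) = Y i (S i ∪ W) := by
        refine sum_congr rfl fun j _ => ?_
        by_cases c : s ≤ (S i ∩ S j).card
        · rw [if_pos c]
        · rw [if_neg c]
          by_cases c1 : μ j = 0
          · rw [c1, zero_mul]
          · rw [if_neg fun c2 => h ⟨j, c1, c2, not_le.1 c⟩, zero_mul, mul_zero]
      split_ifs with c
      · have : 0 ≤ 2 / d * Y i (S i ∪ W) := by positivity
        linarith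
      · rw [zero_add, div_mul_eq_mul_div, le_div_iff₀ hd]
        rw [e] at c
        linarith [not_le.1 c]
  have h2 : ∑ i, μ i * ∑ W, w p W * (if Z (S i ∪ W) ≤ d / 2 then 1 else 0) ≤ d / 2 := by
    have e : ∀ i, ∑ W, w p W * (if Z (S i ∪ W) ≤ d / 2 then (1 : ℝ) else 0) = _ := fun i =>
      law_plant hp.ne' (S i) fun V => if Z V ≤ d / 2 then 1 else 0
    simp only [e, mul_sum]
    rw [sum_comm]
    calc _ ≤ ∑ V : Finset α, w p V * (d / 2) := sum_le_sum fun V _ => by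
          have e1 : ∑ i, μ i * (w p V * ((if S i ⊆ V then 1 else 0) * p⁻¹ ^ (S i).card *
              if Z V ≤ d / 2 then 1 else 0)) = w p V * (Z V * if Z V ≤ d / 2 then 1 else 0) := by
            simp only [Z, sum_mul, mul_sum]
            exact sum_congr rfl fun i _ => by ring
          rw [e1]
          refine mul_le_mul_of_nonneg_left ?_ (hw V)
          split_ifs with c <;> linarith
      _ = d / 2 := by rw [← sum_mul, w_sum, one_mul]
  have h3 : ∀ i, μ i * ∑ W, w p W * Y i (S i ∪ W) ≤ μ i * (d ^ 2 / 4) := by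
    intro i
    by_cases c : μ i = 0
    · rw [c, zero_mul, zero_mul]
    refine mul_le_mul_of_nonneg_left ?_ (h0 i)
    refine le_trans (le_of_eq ?_) ((Sun_over hp hu (by nlinarith) μ S h0 hs hs1 (S i)
      (hA i c)).trans (by linarith))
    rw [law_plant hp.ne' (S i) (Y i)]
    simp only [Y, mul_sum]
    rw [sum_comm]
    refine sum_congr rfl fun j _ => ?_
    by_cases c1 : s ≤ (S i ∩ S j).card
    · simp only [if_pos c1]
      have e1 : ∀ V : Finset α, w p V * ((if S i ⊆ V then 1 else 0) * p⁻¹ ^ (S i).card *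
          (μ j * ((if S j ⊆ V then 1 else 0) * p⁻¹ ^ (S j).card))) =
          μ j * p⁻¹ ^ ((S i).card + (S j).card) *
            (w p V * if S i ∪ S j ⊆ V then 1 else 0) := by
        intro V
        by_cases c2 : S i ⊆ V <;> by_cases c3 : S j ⊆ V <;>
          simp only [union_subset_iff, c2, c3, and_self, and_false, false_and, if_true,
            if_false] <;> ring
      rw [sum_congr rfl fun V _ => e1 V, ← mul_sum, law_sub, ← card_union_add_card_inter, pow_add,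
        mul_assoc, mul_right_comm, ← mul_pow, inv_mul_cancel₀ hp.ne', one_pow, one_mul]
    · simp [if_neg c1]
  calc _ ≤ ∑ W, w p W * ∑ i,
        μ i * ((if Z (S i ∪ W) ≤ d / 2 then 1 else 0) + 2 / d * Y i (S i ∪ W)) :=
        sum_le_sum fun W _ => mul_le_mul_of_nonneg_left (sum_le_sum fun i _ => h1 W i) (hw W)
    _ = ∑ i, μ i * ∑ W, w p W * (if Z (S i ∪ W) ≤ d / 2 then 1 else 0) +
        2 / d * ∑ i, μ i * ∑ W, w p W * Y i (S i ∪ W) := by
        simp only [mul_sum]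
        rw [sum_comm, ← sum_add_distrib]
        refine sum_congr rfl fun i _ => ?_
        rw [← sum_add_distrib]
        exact sum_congr rfl fun W _ => by ring
    _ ≤ d / 2 + 2 / d * (d ^ 2 / 4) := by
        refine add_le_add h2 (mul_le_mul_of_nonneg_left ?_ (by positivity))
        refine (sum_le_sum fun i _ => h3 i).trans ?_
        rw [← sum_mul]
        exact mul_le_of_le_one_left (by positivity) hm
    _ = d := by field_simp; ring

open Classical in
theorem spread {p u d : ℝ} (hp : 0 < p) (hp1 : p < 1) (hu : 0 ≤ u) (hd : 0 < d) (hd1 : d ≤ 1)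
    (h16 : 16 * u ≤ d ^ 2 * p) (t : ℕ) : ∀ (μ : ι → ℝ) (S : ι → Finset α) (ρ : ℝ),
    (∀ i, 0 ≤ μ i) → (∀ T : Finset α, ∑ i, (if T ⊆ S i then μ i else 0) ≤ u ^ T.card) →
    (∀ i, μ i ≠ 0 → (S i).card < 2 ^ t) → ρ ≤ 1 → 1 - ρ ≤ (1 - p) ^ t →
    (∑ i, μ i) * ∑ V, w ρ V * (if ∃ i, μ i ≠ 0 ∧ S i ⊆ V then 0 else 1) ≤ t * d := by
  induction t with
  | zero =>
    intro μ S ρ h0 hs hc h1 h2
    by_cases h : ∃ i, μ i ≠ 0
    · obtain ⟨i, hi⟩ := h
      have h3 : S i = ∅ := card_eq_zero.1 (by simpa using hc i hi)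
      have h4 : ∀ V : Finset α, ∃ i, μ i ≠ 0 ∧ S i ⊆ V := fun V => ⟨i, hi, h3 ▸ empty_subset V⟩
      simp [h4]
    · push Not at h
      simp [h]
  | succ t ih =>
    intro μ S ρ h0 hs hc h1 h2
    have hp' : 0 < 1 - p := by linarith
    obtain ⟨ρ', hρ⟩ : ∃ ρ', 1 - ρ = (1 - p) * (1 - ρ') :=
      ⟨1 - (1 - ρ) / (1 - p), by field_simp; ring⟩
    have a1 : ρ' ≤ 1 := by
      have : 0 ≤ (1 - p) * (1 - ρ') := by linarith
      linarith [nonneg_of_mul_nonneg_right this hp']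
    have a2 : 1 - ρ' ≤ (1 - p) ^ t := by
      rw [hρ, pow_succ'] at h2
      exact le_of_mul_le_mul_left h2 hp'
    have a0 : 0 ≤ ρ' := by
      linarith [pow_le_one₀ hp'.le (by linarith : 1 - p ≤ 1) (n := t)]
    have hw : ∀ V : Finset α, 0 ≤ w p V := w_nonneg hp.le hp1.le
    have hw' : ∀ V : Finset α, 0 ≤ w ρ' V := w_nonneg a0 a1
    have hbad := Sun_bad hp hp1.le hu hd hd1 h16 μ S h0 hs (s := 2 ^ t) Nat.one_le_two_pow
      fun i hi => by have := hc i hi; omega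
    have key : ∀ W : Finset α, (∑ i, μ i) * ∑ W', w ρ' W' *
        (if ∃ i, μ i ≠ 0 ∧ S i ⊆ W ∪ W' then 0 else 1) ≤ t * d + ∑ i,
        (if ∃ j, μ j ≠ 0 ∧ S j ⊆ S i ∪ W ∧ (S i ∩ S j).card < 2 ^ t then 0 else μ i) := by
      intro W
      have hJ : ∀ i, ∃ j, (∃ j, μ j ≠ 0 ∧ S j ⊆ S i ∪ W ∧ (S i ∩ S j).card < 2 ^ t) →
          μ j ≠ 0 ∧ S j ⊆ S i ∪ W ∧ (S i ∩ S j).card < 2 ^ t := fun i => by
        by_cases h : ∃ j, μ j ≠ 0 ∧ S j ⊆ S i ∪ W ∧ (S i ∩ S j).card < 2 ^ t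
        · obtain ⟨j, hj⟩ := h
          exact ⟨j, fun _ => hj⟩
        · exact ⟨i, fun h' => absurd h' h⟩
      choose J hJ using hJ
      let μ' : ι → ℝ := fun i =>
        if ∃ j, μ j ≠ 0 ∧ S j ⊆ S i ∪ W ∧ (S i ∩ S j).card < 2 ^ t then μ i else 0
      have b0 : ∀ i, 0 ≤ μ' i := fun i => by
        simp only [μ']
        split_ifs
        exacts [h0 i, le_rfl]
      have b1 : ∀ i, μ' i ≤ μ i := fun i => by
        simp only [μ']
        split_ifs
        exacts [le_rfl, h0 i]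
      have b2 : ∀ i, μ' i ≠ 0 → μ (J i) ≠ 0 ∧ S (J i) ⊆ S i ∪ W ∧ (S i ∩ S (J i)).card < 2 ^ t :=
        fun i hi => hJ i (by
          by_contra h
          exact hi (if_neg h))
      have b3 := ih μ' (fun i => S i ∩ S (J i)) ρ' b0 (fun T => le_trans (sum_le_sum fun i _ => by
        by_cases c : T ⊆ S i ∩ S (J i)
        · rw [if_pos c, if_pos (c.trans inter_subset_left)]
          exact b1 i
        · rw [if_neg c]
          split_ifs
          exacts [h0 i, le_rfl]) (hs T)) (fun i hi => (b2 i hi).2.2) a1 a2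
      have b4 : ∑ i, μ i = ∑ i, μ' i + ∑ i,
          (if ∃ j, μ j ≠ 0 ∧ S j ⊆ S i ∪ W ∧ (S i ∩ S j).card < 2 ^ t then 0 else μ i) := by
        rw [← sum_add_distrib]
        refine sum_congr rfl fun i _ => ?_
        simp only [μ']
        split_ifs <;> simp
      have b5 : ∑ W', w ρ' W' * (if ∃ i, μ i ≠ 0 ∧ S i ⊆ W ∪ W' then 0 else 1) ≤
          ∑ V, w ρ' V * (if ∃ i, μ' i ≠ 0 ∧ S i ∩ S (J i) ⊆ V then 0 else 1) := by
        refine sum_le_sum fun V _ => mul_le_mul_of_nonneg_left ?_ (hw' V)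
        by_cases c : ∃ i, μ' i ≠ 0 ∧ S i ∩ S (J i) ⊆ V
        · obtain ⟨i, c1, c2⟩ := id c
          have c4 : S (J i) ⊆ W ∪ V := fun x hx => by
            rcases mem_union.1 ((b2 i c1).2.1 hx) with c3 | c3
            · exact mem_union_right _ (c2 (mem_inter.2 ⟨c3, hx⟩))
            · exact mem_union_left _ c3
          rw [if_pos c, if_pos ⟨J i, (b2 i c1).1, c4⟩]
        · rw [if_neg c]
          split_ifs <;> norm_num
      have b6 : ∑ W', w ρ' W' * (if ∃ i, μ i ≠ 0 ∧ S i ⊆ W ∪ W' then 0 else 1) ≤ 1 := by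
        refine le_trans (sum_le_sum fun V _ => mul_le_of_le_one_right (hw' V) ?_) (w_sum ρ').le
        split_ifs <;> norm_num
      rw [b4, add_mul]
      refine add_le_add ((mul_le_mul_of_nonneg_left b5 (sum_nonneg fun i _ => b0 i)).trans b3)
        (mul_le_of_le_one_right (sum_nonneg fun i _ => ?_) b6)
      split_ifs
      exacts [le_rfl, h0 i]
    rw [law_two hρ, mul_sum]
    calc _ ≤ ∑ W, w p W * (t * d + ∑ i,
          (if ∃ j, μ j ≠ 0 ∧ S j ⊆ S i ∪ W ∧ (S i ∩ S j).card < 2 ^ t then 0 else μ i)) :=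
          sum_le_sum fun W _ => by
            rw [mul_left_comm]
            exact mul_le_mul_of_nonneg_left (key W) (hw W)
      _ ≤ _ := by
          simp only [mul_add, sum_add_distrib]
          rw [← sum_mul, w_sum]
          push_cast
          linarith

end Pool.Agent.Work.MP_78fef3_co.R
end

-- merged part: Pool.Agent.Work.MP_78fef3_co.R.Flower
section
/-! A large family of `m`-sets has `q` members with a common kernel and disjoint petals. -/

namespace Pool.Agent.Work.MP_78fef3_co.R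

open Finset Pool.Agent.Work.MP_78fef3_co.S

variable {α : Type} [Fintype α] [DecidableEq α]

theorem flower (F : Finset (Finset α)) (m q t : ℕ) (hq : 1 ≤ q) (ht : 1 ≤ t) (hm : m < 2 ^ t)
    (hF : ∀ A ∈ F, A.card = m) (hc : (128 * (q * t) ^ 3) ^ m < F.card) :
    ∃ (K : Finset α) (P : Fin q → Finset α), K.card < m ∧ (∀ i, P i ∈ F ∧ K ⊆ P i) ∧
      ∀ i j, i ≠ j → Disjoint (P i \ K) (P j \ K) := by
  classical
  obtain ⟨R, hR⟩ : ∃ R, R = 128 * (q * t) ^ 3 := ⟨_, rfl⟩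
  have hqt : 1 ≤ q * t := Nat.mul_pos hq ht
  have hR0 : 0 < R := by rw [hR]; positivity
  rw [← hR] at hc
  obtain ⟨K, -, hK⟩ := exists_max_image (univ : Finset (Finset α))
    (fun K => (F.filter (K ⊆ ·)).card * R ^ K.card) univ_nonempty
  have h0 : R ^ m < (F.filter (K ⊆ ·)).card * R ^ K.card := by
    refine hc.trans_le (le_trans (le_of_eq ?_) (hK ∅ (mem_univ _)))
    simp
  have hpos : 0 < (F.filter (K ⊆ ·)).card := Nat.pos_of_mul_pos_right ((Nat.zero_le _).trans_lt h0)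
  have hKm : K.card < m := by
    by_contra h
    have h1 : ∀ A ∈ F.filter (K ⊆ ·), A = K := fun A hA =>
      (eq_of_subset_of_card_le (mem_filter.1 hA).2
        ((hF A (mem_filter.1 hA).1).trans_le (not_lt.1 h))).symm
    obtain ⟨A, hA⟩ := card_pos.1 hpos
    have h2 : K.card = m := h1 A hA ▸ hF A (mem_filter.1 hA).1
    have h3 : (F.filter (K ⊆ ·)).card ≤ 1 :=
      card_le_one.2 fun a ha b hb => (h1 a ha).trans (h1 b hb).symm
    rw [h2] at h0
    have := Nat.mul_le_mul_right (R ^ m) h3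
    omega
  obtain ⟨n, hn⟩ : ∃ n : ℝ, n = (F.filter (K ⊆ ·)).card := ⟨_, rfl⟩
  have hn0 : 0 < n := by rw [hn]; exact_mod_cast hpos
  let μ : Finset α → ℝ := fun A => if A ∈ F ∧ K ⊆ A then n⁻¹ else 0
  have hq' : (1 : ℝ) ≤ q := by exact_mod_cast hq
  have ht' : (1 : ℝ) ≤ t := by exact_mod_cast ht
  have hx : (1 : ℝ) ≤ q * t := by exact_mod_cast hqt
  have hR' : (0 : ℝ) < R := by exact_mod_cast hR0
  have hp : 1 / (2 * ((q : ℝ) * t)) < 1 := by
    rw [div_lt_one (by positivity)]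
    linarith
  have hmass : ∑ A, μ A = 1 := by
    simp only [μ]
    rw [← sum_filter, sum_const, nsmul_eq_mul,
      show univ.filter (fun A => A ∈ F ∧ K ⊆ A) = F.filter (K ⊆ ·) by ext; simp, ← hn]
    exact mul_inv_cancel₀ hn0.ne'
  have hs := spread (α := α) (ι := Finset α) (p := 1 / (2 * ((q : ℝ) * t))) (u := (R : ℝ)⁻¹)
    (d := 1 / (2 * ((q : ℝ) * t))) (by positivity) hp (by positivity) (by positivity) hp.le
    (by
      rw [hR]
      push_cast
      refine le_of_eq ?_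
      field_simp
      norm_num) t μ (fun A => A \ K) (1 / q)
    (fun A => by
      simp only [μ]
      split_ifs <;> positivity)
    (fun T => by
      by_cases hT : Disjoint K T
      · have h1 := hK (K ∪ T) (mem_univ _)
        rw [card_union_of_disjoint hT, pow_add, mul_comm (R ^ K.card), ← mul_assoc] at h1
        have h2 : (((F.filter (K ∪ T ⊆ ·)).card : ℕ) : ℝ) * R ^ T.card ≤ n := by
          rw [hn]
          exact_mod_cast Nat.le_of_mul_le_mul_right h1 (by positivity)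
        calc _ ≤ ∑ A : Finset α, if A ∈ F.filter (K ∪ T ⊆ ·) then n⁻¹ else 0 :=
              sum_le_sum fun A _ => by
                simp only [μ]
                by_cases c : A ∈ F.filter (K ∪ T ⊆ ·)
                · rw [if_pos c]
                  split_ifs <;> first | exact le_rfl | positivity
                · rw [if_neg c]
                  split_ifs with c1 c2
                  · exact absurd (mem_filter.2
                      ⟨c2.1, union_subset c2.2 (c1.trans sdiff_subset)⟩) c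
                  · exact le_rfl
                  · exact le_rfl
          _ ≤ _ := by
              rw [sum_ite_mem, univ_inter, sum_const, nsmul_eq_mul, inv_pow, ← div_eq_mul_inv,
                ← one_div, div_le_div_iff₀ hn0 (by positivity), one_mul]
              exact h2
      · refine le_trans (le_of_eq (sum_eq_zero fun A _ => if_neg fun c => hT ?_)) (by positivity)
        exact disjoint_sdiff.mono_right c)
    (fun A hA => by
      have : A ∈ F ∧ K ⊆ A := by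
        by_contra h
        exact hA (if_neg h)
      exact (card_le_card sdiff_subset).trans_lt (hF A this.1 ▸ hm))
    (by rw [div_le_one (by positivity)]; exact hq')
    (by
      have h1 := one_add_mul_le_pow (a := -(1 / (2 * ((q : ℝ) * t)))) (by linarith) t
      rw [← sub_eq_add_neg] at h1
      refine le_trans ?_ h1
      have : (t : ℝ) * (1 / (2 * (q * t))) ≤ 1 / q := by
        rw [mul_one_div, div_le_div_iff₀ (by positivity) (by positivity)]
        nlinarith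
      linarith)
  rw [hmass, one_mul] at hs
  have : Nonempty (Fin q) := ⟨⟨0, hq⟩⟩
  obtain ⟨χ, hχ⟩ := exists_le_av fun χ : α → Fin q => ∑ i : Fin q,
    (if ∃ A, μ A ≠ 0 ∧ A \ K ⊆ univ.filter fun x => χ x = i then (0 : ℝ) else 1)
  rw [av_sum] at hχ
  have h1 : ∀ i : Fin q, av (fun χ : α → Fin q =>
      if ∃ A, μ A ≠ 0 ∧ A \ K ⊆ univ.filter fun x => χ x = i then (0 : ℝ) else 1) ≤
      t * (1 / (2 * ((q : ℝ) * t))) := fun i =>
    (law_colour i fun V => if ∃ A, μ A ≠ 0 ∧ A \ K ⊆ V then (0 : ℝ) else 1).trans_le hs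
  have h2 := hχ.trans (sum_le_card_nsmul _ _ _ fun i _ => h1 i)
  rw [card_univ, Fintype.card_fin, nsmul_eq_mul] at h2
  have h3 : (q : ℝ) * (t * (1 / (2 * ((q : ℝ) * t)))) = 1 / 2 := by field_simp
  have h4 : ∀ i : Fin q, ∃ A, μ A ≠ 0 ∧ A \ K ⊆ univ.filter fun x => χ x = i := by
    intro i
    by_contra h
    have h5 := single_le_sum (f := fun i : Fin q =>
      if ∃ A, μ A ≠ 0 ∧ A \ K ⊆ univ.filter fun x => χ x = i then (0 : ℝ) else 1)
      (fun j _ => by split_ifs <;> norm_num) (mem_univ i)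
    rw [if_neg h] at h5
    linarith
  choose P hP using h4
  refine ⟨K, P, hKm, fun i => ?_, fun i j hij => disjoint_left.2 fun x hi hj => hij ?_⟩
  · by_contra h
    exact (hP i).1 (if_neg h)
  · exact (mem_filter.1 ((hP i).2 hi)).2.symm.trans (mem_filter.1 ((hP j).2 hj)).2

end Pool.Agent.Work.MP_78fef3_co.R
end

-- merged part: Pool.Agent.Work.MP_78fef3_co.S.Final
section
-- merged part: Pool.Agent.Work.MP_78fef3_co.S.Round
section
/-! Randomised rounding with the local lemma.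

PLAN. Pick `Q` with `M * B / Q ≤ lam / 2` (`Q ≥ 1`), `n v = ⌊p v * Q⌋₊ ≤ Q`, `p' v = n v / Q`, so
`p v - 1 / Q ≤ p' v ≤ p v`. Sample `ω : V → Fin Q`, `X ω = univ.filter (ω v < n v)`.
`Z i ω = ∑ v ∈ T i, (if ω v < n v then a i v else 0)`, `m i = ∑ v ∈ T i, p' v * a i v ≤ μ`,
`|m i - ∑ v, p v * a i v| ≤ lam / 2`. Bad event `lam / 2 < |Z i ω - m i|`, query set `T i`
(nonempty when the event holds). Chernoff with `θ = lam / (4 * B * μ)`, `θ * a ≤ 1`: for
`ε = 1` and `ε = -1`, by `av_prod` and `av_fin_lt`,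
`av (exp (ε θ (Z - m))) = ∏ (1 + p' (exp (ε θ a) - 1)) exp (-ε θ p' a) ≤ exp (∑ p' θ ^ 2 a ^ 2)
≤ exp (θ ^ 2 B μ)` using `Real.abs_exp_sub_one_sub_id_le` and `Real.add_one_le_exp`. The
indicator of the bad event is at most
`(exp (θ (Z - m)) + exp (-θ (Z - m))) * exp (-θ lam / 2)`, so (`Pool.Agent.TC.prob_sum` turns
`pr` into `av` of an indicator) `pr ≤ 2 exp (-lam ^ 2 / (16 B μ))`. Then `Pool.Agent.TC.lll_fun`:
`∑ i, pr (B i ∧ v ∈ T i) ≤ M * 2 exp (..) ≤ 1 / (3 M)`. -/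

namespace Pool.Agent.Work.MP_78fef3_co.S

open Finset

theorem round_mgf {V : Type} [Fintype V] [DecidableEq V] {Q : ℕ} [NeZero Q] (n : V → ℕ)
    (hn : ∀ v, n v ≤ Q) (T : Finset V) (c : V → ℝ) (hc : ∀ v, |c v| ≤ 1) :
    av (fun ω : V → Fin Q => Real.exp (∑ v ∈ T, ((if (ω v).val < n v then c v else 0) -
      (n v : ℝ) / Q * c v))) ≤ Real.exp (∑ v ∈ T, (n v : ℝ) / Q * c v ^ 2) := by
  have hQ : 0 < Q := Nat.pos_of_ne_zero (NeZero.ne Q)
  have h1 := av_prod (A := Fin Q) T fun v z =>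
    Real.exp ((if z.val < n v then c v else 0) - (n v : ℝ) / Q * c v)
  simp only [Real.exp_sum]
  rw [h1]
  refine prod_le_prod (fun v _ => div_nonneg (sum_nonneg fun _ _ => (Real.exp_pos _).le)
    (Nat.cast_nonneg _)) fun v _ => ?_
  have h2 : (fun z : Fin Q => Real.exp ((if z.val < n v then c v else 0) - (n v : ℝ) / Q * c v)) =
      fun z : Fin Q => if z.val < n v then Real.exp (c v) * Real.exp (-((n v : ℝ) / Q * c v))
        else Real.exp (-((n v : ℝ) / Q * c v)) := by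
    funext z
    split_ifs
    · rw [sub_eq_add_neg, Real.exp_add]
    · rw [zero_sub]
  rw [h2, av_fin_lt hQ (hn v)]
  have hp : (0 : ℝ) ≤ (n v : ℝ) / Q := by positivity
  generalize (n v : ℝ) / Q = p at hp ⊢
  have h3 := (abs_le.1 (Real.abs_exp_sub_one_sub_id_le (hc v))).2
  have h4 := Real.add_one_le_exp (p * c v + p * c v ^ 2)
  have h5 : p * Real.exp (c v) + (1 - p) ≤ Real.exp (p * c v + p * c v ^ 2) := by
    nlinarith [mul_le_mul_of_nonneg_left h3 hp]
  calc _ = (p * Real.exp (c v) + (1 - p)) * Real.exp (-(p * c v)) := by ring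
    _ ≤ Real.exp (p * c v + p * c v ^ 2) * Real.exp (-(p * c v)) :=
        mul_le_mul_of_nonneg_right h5 (Real.exp_pos _).le
    _ = _ := by
        rw [← Real.exp_add]
        congr 1
        ring

theorem round_tail {V : Type} [Fintype V] [DecidableEq V] {Q : ℕ} [NeZero Q] (n : V → ℕ)
    (hn : ∀ v, n v ≤ Q) (T : Finset V) (a : V → ℝ) (B μ l : ℝ) (ha : ∀ v, 0 ≤ a v ∧ a v ≤ B)
    (hμ : ∑ v ∈ T, (n v : ℝ) / Q * a v ≤ μ) (hB : 0 < B) (hl : 0 < l) (hlm : l ≤ μ) :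
    Pool.Agent.TC.pr (fun ω : V → Fin Q => l < |∑ v ∈ T, ((if (ω v).val < n v then a v else 0) -
      (n v : ℝ) / Q * a v)|) ≤ 2 * Real.exp (-(l ^ 2 / (4 * B * μ))) := by
  classical
  have hμ0 : 0 < μ := hl.trans_le hlm
  set θ := l / (2 * B * μ) with hθ
  have hθ0 : 0 < θ := by positivity
  have hθB : θ * B ≤ 1 := by
    rw [hθ, div_mul_eq_mul_div, div_le_one (by positivity)]
    nlinarith
  have key : ∀ ε : ℝ, |ε| = 1 → av (fun ω : V → Fin Q => Real.exp (ε * θ *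
      ∑ v ∈ T, ((if (ω v).val < n v then a v else 0) - (n v : ℝ) / Q * a v))) ≤
      Real.exp (θ ^ 2 * B * μ) := by
    intro ε hε
    have h1 := round_mgf n hn T (fun v => ε * θ * a v) fun v => by
      rw [abs_mul, abs_mul, hε, one_mul, abs_of_pos hθ0, abs_of_nonneg (ha v).1]
      exact (mul_le_mul_of_nonneg_left (ha v).2 hθ0.le).trans hθB
    have h2 : ∀ ω : V → Fin Q, ε * θ *
        ∑ v ∈ T, ((if (ω v).val < n v then a v else 0) - (n v : ℝ) / Q * a v) =
        ∑ v ∈ T, ((if (ω v).val < n v then ε * θ * a v else 0) -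
          (n v : ℝ) / Q * (ε * θ * a v)) := by
      intro ω
      rw [mul_sum]
      refine sum_congr rfl fun v _ => ?_
      split_ifs <;> ring
    simp only [h2]
    refine h1.trans (Real.exp_le_exp.2 ?_)
    have h3 : ε ^ 2 = 1 := by rw [← sq_abs, hε, one_pow]
    calc ∑ v ∈ T, (n v : ℝ) / Q * (ε * θ * a v) ^ 2
        ≤ ∑ v ∈ T, θ ^ 2 * B * ((n v : ℝ) / Q * a v) := by
          refine sum_le_sum fun v _ => ?_
          have h4 : a v ^ 2 ≤ B * a v := by nlinarith [(ha v).1, (ha v).2]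
          have h5 : (0 : ℝ) ≤ (n v : ℝ) / Q * θ ^ 2 := by positivity
          calc _ = (n v : ℝ) / Q * θ ^ 2 * a v ^ 2 := by rw [mul_pow, mul_pow, h3]; ring
            _ ≤ (n v : ℝ) / Q * θ ^ 2 * (B * a v) := mul_le_mul_of_nonneg_left h4 h5
            _ = _ := by ring
      _ ≤ θ ^ 2 * B * μ := by
          rw [← mul_sum]
          exact mul_le_mul_of_nonneg_left hμ (by positivity)
  rw [Pool.Agent.TC.prob_sum]
  set Z : (V → Fin Q) → ℝ := fun ω =>
    ∑ v ∈ T, ((if (ω v).val < n v then a v else 0) - (n v : ℝ) / Q * a v) with hZ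
  have h1 : av (fun ω => if l < |Z ω| then (1 : ℝ) else 0) ≤ av (fun ω =>
      Real.exp (-(θ * l)) * (Real.exp (1 * θ * Z ω) + Real.exp (-1 * θ * Z ω))) := by
    refine av_mono fun ω => ?_
    split_ifs with h
    · have e1 := Real.exp_pos (-(θ * l) + 1 * θ * Z ω)
      have e2 := Real.exp_pos (-(θ * l) + -1 * θ * Z ω)
      rw [mul_add, ← Real.exp_add, ← Real.exp_add]
      rcases lt_abs.1 h with h | h
      · have := Real.add_one_le_exp (-(θ * l) + 1 * θ * Z ω)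
        nlinarith
      · have := Real.add_one_le_exp (-(θ * l) + -1 * θ * Z ω)
        nlinarith
    · positivity
  rw [av_const_mul, av_add] at h1
  have h2 := key 1 abs_one
  have h3 := key (-1) (by simp)
  have h4 : Real.exp (-(θ * l)) * Real.exp (θ ^ 2 * B * μ) =
      Real.exp (-(l ^ 2 / (4 * B * μ))) := by
    rw [← Real.exp_add, hθ]
    congr 1
    field_simp
    ring
  have h5 := mul_le_mul_of_nonneg_left (add_le_add h2 h3) (Real.exp_pos (-(θ * l))).le
  refine le_trans (le_of_eq ?_) (h1.trans (h5.trans (le_of_eq ?_)))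
  · rfl
  · rw [← h4]
    ring

theorem round {V J : Type} [Fintype V] [DecidableEq V] [Fintype J]
    (a : J → V → ℝ) (p : V → ℝ) (T : J → Finset V) (M : ℕ) (B μ lam : ℝ)
    (hp : ∀ v, 0 ≤ p v ∧ p v ≤ 1) (ha : ∀ i v, 0 ≤ a i v ∧ a i v ≤ B)
    (hT : ∀ i v, v ∉ T i → a i v = 0) (hM : 0 < M) (hM1 : ∀ i, (T i).card ≤ M)
    (hM2 : ∀ v, (univ.filter fun i => v ∈ T i).card ≤ M)
    (hμ : ∀ i, ∑ v, p v * a i v ≤ μ) (hB : 0 < B) (hlam : 0 < lam) (hlm : lam ≤ μ)
    (hc : 6 * (M : ℝ) ^ 2 * Real.exp (-(lam ^ 2 / (16 * B * μ))) ≤ 1) :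
    ∃ X : Finset V, ∀ i, |∑ v ∈ X, a i v - ∑ v, p v * a i v| ≤ lam := by
  classical
  obtain ⟨Q0, hQ0⟩ := exists_nat_ge (2 * M * B / lam)
  set Q := Q0 + 1 with hQ
  have : NeZero Q := ⟨Nat.succ_ne_zero _⟩
  have hQR : (0 : ℝ) < Q := by positivity
  have hQ1 : (M : ℝ) * (B / Q) ≤ lam / 2 := by
    rw [div_le_iff₀ hlam] at hQ0
    rw [← mul_div_assoc, div_le_iff₀ hQR, hQ]
    push_cast
    nlinarith
  let n : V → ℕ := fun v => ⌊p v * Q⌋₊
  have hn1 : ∀ v, (n v : ℝ) / Q ≤ p v := fun v =>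
    (div_le_iff₀ hQR).2 (Nat.floor_le (mul_nonneg (hp v).1 hQR.le))
  have hn2 : ∀ v, p v - (n v : ℝ) / Q ≤ 1 / Q := by
    intro v
    have h1 : p v * Q < n v + 1 := Nat.lt_floor_add_one _
    rw [sub_le_iff_le_add, ← add_div, le_div_iff₀ hQR]
    linarith
  have hn : ∀ v, n v ≤ Q := by
    intro v
    have h1 := (div_le_one hQR).1 ((hn1 v).trans (hp v).2)
    exact_mod_cast h1
  have hsum : ∀ i, ∑ v, p v * a i v = ∑ v ∈ T i, p v * a i v := fun i =>
    (sum_subset (subset_univ _) fun v _ hv => by rw [hT i v hv, mul_zero]).symm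
  have hMR : (0 : ℝ) < M := Nat.cast_pos.2 hM
  obtain ⟨ω, hω⟩ := Pool.Agent.TC.lll_fun (V := V) (A := Fin Q) (I := J)
    (fun i ω => lam / 2 < |∑ v ∈ T i, ((if (ω v).val < n v then a i v else 0) -
      (n v : ℝ) / Q * a i v)|) (fun i _ => T i) M hM
    (fun i ω ω' h1 h2 => ⟨by
      refine h1.trans_eq (congrArg _ (sum_congr rfl fun v hv => ?_))
      rw [h2 v hv], rfl⟩)
    (fun i ω h1 => ⟨nonempty_iff_ne_empty.2 fun h0 => by
      rw [h0, sum_empty, abs_zero] at h1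
      linarith, hM1 i⟩)
    (fun v => by
      have h1 : ∀ i, Pool.Agent.TC.pr (fun ω : V → Fin Q => (lam / 2 <
          |∑ v ∈ T i, ((if (ω v).val < n v then a i v else 0) - (n v : ℝ) / Q * a i v)|) ∧
            v ∈ T i) ≤ if v ∈ T i then 2 * Real.exp (-(lam ^ 2 / (16 * B * μ))) else 0 := by
        intro i
        split_ifs with hv
        · refine (Pool.Agent.TC.pr_mono fun ω h => h.1).trans ?_
          have h2 := round_tail n hn (T i) (a i) B μ (lam / 2) (ha i) (by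
            refine le_trans (sum_le_sum fun v _ => ?_) ((hsum i).symm.trans_le (hμ i))
            exact mul_le_mul_of_nonneg_right (hn1 v) (ha i v).1) hB (by linarith) (by linarith)
          have h3 : (lam / 2) ^ 2 / (4 * B * μ) = lam ^ 2 / (16 * B * μ) := by ring
          rwa [h3] at h2
        · exact (Pool.Agent.TC.pr_eq_zero fun ω h => hv h.2).le
      refine (sum_le_sum fun i _ => h1 i).trans ?_
      rw [← sum_filter, sum_const, nsmul_eq_mul, le_div_iff₀ (by positivity)]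
      have h2 : ((univ.filter fun i => v ∈ T i).card : ℝ) ≤ M := by exact_mod_cast hM2 v
      have h3 := mul_le_mul_of_nonneg_right h2
        (show 0 ≤ 6 * M * Real.exp (-(lam ^ 2 / (16 * B * μ))) by positivity)
      nlinarith)
  refine ⟨univ.filter fun v => (ω v).val < n v, fun i => ?_⟩
  have h1 := abs_le.1 (not_lt.1 (hω i))
  have h2 : ∑ v ∈ univ.filter (fun v => (ω v).val < n v), a i v =
      ∑ v ∈ T i, if (ω v).val < n v then a i v else 0 := by
    rw [sum_filter]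
    exact (sum_subset (subset_univ _) fun v _ hv => by simp [hT i v hv]).symm
  have h3 : 0 ≤ ∑ v ∈ T i, (p v * a i v - (n v : ℝ) / Q * a i v) :=
    sum_nonneg fun v _ => sub_nonneg.2 (mul_le_mul_of_nonneg_right (hn1 v) (ha i v).1)
  have h4 : ∑ v ∈ T i, (p v * a i v - (n v : ℝ) / Q * a i v) ≤ lam / 2 := by
    refine (sum_le_card_nsmul _ _ (B / Q) fun v _ => ?_).trans ?_
    · rw [← sub_mul]
      calc _ ≤ 1 / Q * a i v := mul_le_mul_of_nonneg_right (hn2 v) (ha i v).1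
        _ ≤ 1 / Q * B := mul_le_mul_of_nonneg_left (ha i v).2 (by positivity)
        _ = _ := by ring
    · rw [nsmul_eq_mul]
      refine le_trans (mul_le_mul_of_nonneg_right ?_ (by positivity)) hQ1
      exact_mod_cast hM1 i
  rw [sum_sub_distrib] at h1 h3 h4
  rw [h2, hsum, abs_le]
  constructor <;> linarith [h1.1, h1.2]

end Pool.Agent.Work.MP_78fef3_co.S
end

-- merged part: Pool.Agent.Work.MP_78fef3_co.S.Step
section
/-! One equalising step for weights.

PLAN. `p u = wdeg (f t) w u / U ∈ [0, 1]`. Apply `round` with `V = β`, `J = ι × β`,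
`a (s, v) u = if s ∈ I ∧ s ≠ t then (∑ e with f s e = v ∧ f t e = u, w e) / p u else 0`,
`T (s, v) = if s ∈ I ∧ s ≠ t then (E.filter (f s e = v)).image (f t) else ∅`,
`M = I.card * Δ`, `B = γ * W * ρ`, `μ = U`. Bound on `a`: if the numerator is nonzero some `e`
with `0 < w e` has `f t e = u`, so `1 ≤ ρ * p u` by `hlow`; the numerator is at most `γ * W`
(only `e ∈ E` count). `∑ u, p u * a (s, v) u = wdeg (f s) w v` (if `p u = 0` all weights through
`u` vanish; `Finset.sum_fiberwise`). `u ∈ T (s, v)` forces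
`(s, v) ∈ I.biUnion fun s => (E.filter (f t e = u)).image fun e => (s, f s e)`, at most
`I.card * Δ` pairs. Put `w' e = if f t e ∈ X then w e / p (f t e) else 0`. Then
`wdeg (f t) w' u` is `0` or `wdeg (f t) w u / p u`, which is `U` if `p u ≠ 0` and `0` otherwise;
`wdeg (f s) w' v = ∑ u ∈ X, a (s, v) u`. -/

namespace Pool.Agent.Work.MP_78fef3_co.S

open Finset

theorem Step_fib {α β : Type} [Fintype α] [DecidableEq β] (g h : α → β) (w : α → ℝ) (q : β → ℝ)
    (X : Finset β) (v : β) : wdeg g (fun e => if h e ∈ X then w e / q (h e) else 0) v =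
      ∑ u ∈ X, (∑ e ∈ univ.filter (fun e => g e = v ∧ h e = u), w e) / q u := by
  simp only [wdeg, sum_div, sum_filter]
  rw [sum_comm]
  refine sum_congr rfl fun e _ => ?_
  by_cases hg : g e = v
  · simp only [hg, true_and, if_true, ite_div, zero_div]
    exact (sum_ite_eq X (h e) fun u => w e / q u).symm
  · simp [hg]

theorem step {α β ι : Type} [Fintype α] [DecidableEq α] [Fintype β] [DecidableEq β] [Fintype ι]
    [DecidableEq ι] (f : ι → α → β) (I : Finset ι) (E : Finset α) (t : ι) (ht : t ∈ I) (Δ : ℕ)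
    (γ W ρ U lam : ℝ) (w : α → ℝ) (hw : ∀ e, 0 ≤ w e ∧ w e ≤ W) (hE : ∀ e, e ∉ E → w e = 0)
    (hdeg : ∀ s ∈ I, ∀ v, deg (f s) E v ≤ Δ)
    (hco : ∀ s ∈ I, s ≠ t → ∀ u v, ((E.filter fun e => f s e = v ∧ f t e = u).card : ℝ) ≤ γ)
    (hU : ∀ s ∈ I, ∀ v, wdeg (f s) w v ≤ U)
    (hlow : ∀ e, 0 < w e → U ≤ ρ * wdeg (f t) w (f t e))
    (hΔ : 0 < Δ) (hγ : 0 < γ) (hW : 0 < W) (hρ : 0 < ρ) (hlam : 0 < lam) (hlU : lam ≤ U)
    (hc : 6 * ((I.card * Δ : ℕ) : ℝ) ^ 2 *
      Real.exp (-(lam ^ 2 / (16 * (γ * W * ρ) * U))) ≤ 1) :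
    ∃ w' : α → ℝ, (∀ e, 0 ≤ w' e ∧ w' e ≤ ρ * w e) ∧
      (∀ e, 0 < w' e → wdeg (f t) w' (f t e) = U) ∧ (∀ v, wdeg (f t) w' v ≤ U) ∧
      ∀ s ∈ I, s ≠ t → ∀ v, |wdeg (f s) w' v - wdeg (f s) w v| ≤ lam := by
  have hU0 : 0 < U := hlam.trans_le hlU
  obtain ⟨c, hcd⟩ : ∃ c : ι → β → β → ℝ, ∀ s v u,
      c s v u = ∑ e ∈ univ.filter (fun e => f s e = v ∧ f t e = u), w e := ⟨_, fun _ _ _ => rfl⟩
  obtain ⟨p, hp⟩ : ∃ p : β → ℝ, ∀ u, p u = wdeg (f t) w u / U := ⟨_, fun _ => rfl⟩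
  have hd0 : ∀ u, 0 ≤ wdeg (f t) w u := fun u => sum_nonneg fun e _ => (hw e).1
  have hp0 : ∀ u, 0 ≤ p u := fun u => hp u ▸ div_nonneg (hd0 u) hU0.le
  have hc0 : ∀ s v u, 0 ≤ c s v u := fun s v u => hcd s v u ▸ sum_nonneg fun e _ => (hw e).1
  have hcw : ∀ s v u, c s v u ≤ wdeg (f t) w u := fun s v u => by
    rw [hcd]
    refine sum_le_sum_of_subset_of_nonneg (fun e he => ?_) fun e _ _ => (hw e).1
    exact mem_filter.2 ⟨mem_univ _, (mem_filter.1 he).2.2⟩
  have hex : ∀ s v u, c s v u ≠ 0 → ∃ e ∈ E, 0 < w e ∧ f s e = v ∧ f t e = u := fun s v u h => by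
    rw [hcd] at h
    obtain ⟨e, he, h0⟩ := exists_ne_zero_of_sum_ne_zero h
    exact ⟨e, not_not.1 fun hn => h0 (hE e hn), (hw e).1.lt_of_ne' h0, (mem_filter.1 he).2⟩
  have hdiv : ∀ e, 0 < w e → ∀ x : ℝ, 0 ≤ x → x / p (f t e) ≤ ρ * x := fun e he x hx => by
    have h1 := hlow e he
    have h2 : 0 < wdeg (f t) w (f t e) := pos_of_mul_pos_right (hU0.trans_le h1) hρ.le
    rw [hp, div_div_eq_mul_div, div_le_iff₀ h2]
    nlinarith
  have hcγ : ∀ s ∈ I, s ≠ t → ∀ v u, c s v u ≤ γ * W := fun s hs hst v u => by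
    rw [hcd, ← sum_subset (s₁ := E.filter fun e => f s e = v ∧ f t e = u)
      (filter_subset_filter _ (subset_univ E)) fun e he hn =>
        hE e fun h => hn (mem_filter.2 ⟨h, (mem_filter.1 he).2⟩)]
    refine (sum_le_card_nsmul _ _ W fun e _ => (hw e).2).trans ?_
    rw [nsmul_eq_mul]
    exact mul_le_mul_of_nonneg_right (hco s hs hst u v) hW.le
  have hsum : ∀ s v, ∑ u, p u * (c s v u / p u) = wdeg (f s) w v := fun s v => by
    have h := Step_fib (f s) (f t) w (fun _ => 1) univ v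
    simp only [mem_univ, if_true, div_one, ← hcd] at h
    rw [h]
    refine sum_congr rfl fun u _ => ?_
    by_cases h0 : p u = 0
    · have h1 : wdeg (f t) w u = 0 := by
        rw [hp] at h0
        exact (div_eq_zero_iff.1 h0).resolve_right hU0.ne'
      rw [h0, zero_mul]
      exact le_antisymm (hc0 s v u) (h1 ▸ hcw s v u)
    · exact mul_div_cancel₀ _ h0
  have hI : 0 < I.card := card_pos.2 ⟨t, ht⟩
  obtain ⟨X, hX⟩ := round (V := β) (J := ι × β)
    (fun i u => if i.1 ∈ I ∧ i.1 ≠ t then c i.1 i.2 u / p u else 0) p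
    (fun i => if i.1 ∈ I ∧ i.1 ≠ t then (E.filter fun e => f i.1 e = i.2).image (f t) else ∅)
    (I.card * Δ) (γ * W * ρ) U lam
    (fun u => ⟨hp0 u, hp u ▸ (div_le_one hU0).2 (hU t ht u)⟩)
    (fun i u => by
      split_ifs with h
      · refine ⟨div_nonneg (hc0 _ _ _) (hp0 u), ?_⟩
        by_cases h0 : c i.1 i.2 u = 0
        · rw [h0, zero_div]
          positivity
        · obtain ⟨e, -, he, -, rfl⟩ := hex _ _ _ h0
          refine (hdiv e he _ (hc0 _ _ _)).trans ?_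
          rw [mul_comm ρ]
          exact mul_le_mul_of_nonneg_right (hcγ _ h.1 h.2 _ _) hρ.le
      · exact ⟨le_rfl, by positivity⟩)
    (fun i u hu => by
      split_ifs at hu ⊢ with h
      · by_contra h0
        obtain ⟨e, he, -, h1, h2⟩ := hex i.1 i.2 u fun h3 => h0 (by rw [h3, zero_div])
        exact hu (mem_image.2 ⟨e, mem_filter.2 ⟨he, h1⟩, h2⟩)
      · rfl)
    (Nat.mul_pos hI hΔ)
    (fun i => by
      split_ifs with h
      · exact (card_image_le.trans (hdeg _ h.1 _)).trans (Nat.le_mul_of_pos_left _ hI)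
      · exact Nat.zero_le _)
    (fun u => by
      refine (card_le_card (t := I.biUnion fun s =>
        (E.filter fun e => f t e = u).image fun e => (s, f s e)) fun i hi => ?_).trans
        (card_biUnion_le_card_mul _ _ _ fun s _ => card_image_le.trans (hdeg t ht u))
      have hi := (mem_filter.1 hi).2
      split_ifs at hi with h
      · obtain ⟨e, he, h1⟩ := mem_image.1 hi
        exact mem_biUnion.2 ⟨i.1, h.1, mem_image.2 ⟨e, mem_filter.2 ⟨(mem_filter.1 he).1, h1⟩,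
          Prod.ext rfl (mem_filter.1 he).2⟩⟩
      · exact absurd hi (notMem_empty _))
    (fun i => by
      by_cases h : i.1 ∈ I ∧ i.1 ≠ t
      · simp only [if_pos h]
        rw [hsum]
        exact hU _ h.1 _
      · simp only [if_neg h, mul_zero, sum_const_zero]
        exact hU0.le)
    (by positivity) hlam hlU hc
  have ht2 : ∀ u, wdeg (f t) (fun e => if f t e ∈ X then w e / p (f t e) else 0) u =
      if u ∈ X then wdeg (f t) w u / p u else 0 := fun u => by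
    unfold wdeg
    rw [sum_congr (g := fun e => if u ∈ X then w e / p u else 0) rfl
      fun e he => by simp only [(mem_filter.1 he).2]]
    split_ifs
    · rw [sum_div]
    · exact sum_const_zero
  have hq : ∀ u, p u ≠ 0 → wdeg (f t) w u / p u = U := fun u h => by
    rw [hp] at h ⊢
    exact div_div_cancel₀ (div_ne_zero_iff.1 h).1
  refine ⟨fun e => if f t e ∈ X then w e / p (f t e) else 0, fun e => ?_, fun e he => ?_,
    fun u => ?_, fun s hs hst v => ?_⟩
  · beta_reduce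
    split_ifs
    · refine ⟨div_nonneg (hw e).1 (hp0 _), ?_⟩
      rcases (hw e).1.eq_or_lt with h | h
      · rw [← h, zero_div, mul_zero]
      · exact hdiv e h _ h.le
    · exact ⟨le_rfl, mul_nonneg hρ.le (hw e).1⟩
  · rw [ht2]
    beta_reduce at he
    split_ifs at he ⊢
    · exact hq _ fun h => by simp [h] at he
    · exact absurd he (lt_irrefl _)
  · rw [ht2]
    split_ifs
    · by_cases h : p u = 0
      · rw [h, div_zero]
        exact hU0.le
      · exact (hq u h).le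
    · exact hU0.le
  · have h := hX (s, v)
    simp only [if_pos (And.intro hs hst), hsum] at h
    rw [Step_fib]
    simpa only [hcd] using h

end Pool.Agent.Work.MP_78fef3_co.S
end

-- merged part: Pool.Agent.Work.MP_78fef3_co.S.Weights
section
/-! All coordinates are equalised, one after the other.

PLAN. `lam = Δ / K ^ 3`, `ρ = 4 K ^ 2`, `γ = Δ / K ^ (3 r + 9)`. Induction over `P ⊆ I`
(`Finset.induction_on` on `P` with the hypothesis `P ⊆ I`), `i = P.card ≤ r`; invariant: there is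
`w` with (a) `0 ≤ w e ≤ ρ ^ i`, `w e = 0` off `E`; (b) `wdeg (f s) w v ≤ Δ + i lam` for `s ∈ I`;
(c) for `s ∈ I`, `s ∉ P`, `e ∈ E`: `Δ / K ^ 2 - i lam ≤ wdeg (f s) w (f s e)`;
(d) for `s ∈ P` and `0 < w e`: `Δ - i lam ≤ wdeg (f s) w (f s e)`; (e) some `0 < w e`.
Start: `w = indicator of E` (`wdeg = deg`). Step: `step` with `U = Δ + i lam ≤ 2 Δ`,
`W = ρ ^ i`; `r lam ≤ Δ / (2 K ^ 2)` since `2 r ≤ K`, hence `U ≤ 2 Δ ≤ ρ * (Δ / (2 K ^ 2))`.
(e): take `s ∈ I`, `s ≠ t`; by (c) or (d) `wdeg (f s) w (f s e) > lam`, so the new weighted degree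
is positive and some new weight is positive. Numerics: `W * ρ ≤ ρ ^ r ≤ K ^ (3 r)`, so
`lam ^ 2 / (16 γ W ρ U) ≥ K ^ 3 / 32 ≥ K ^ 2`, and
`6 (r Δ) ^ 2 ≤ 6 K ^ 2 4 ^ K ≤ 2 ^ (K ^ 2) ≤ exp (K ^ 2)`. -/

namespace Pool.Agent.Work.MP_78fef3_co.S

open Finset

theorem Weights_pow {K : ℝ} (hK : 32 ≤ K) {i r : ℕ} (h : i ≤ r) : (4 * K ^ 2) ^ i ≤ K ^ (3 * r) := by
  have h1 : 4 * K ^ 2 ≤ K ^ 3 := by nlinarith [sq_nonneg K]
  rw [pow_mul]
  exact (pow_le_pow_left₀ (by positivity) h1 i).trans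
    (pow_le_pow_right₀ (one_le_pow₀ (by linarith)) h)

theorem Weights_num {c K Δ : ℕ} (hK : 32 ≤ K) (hc : c ≤ K) (hΔ : Δ ≤ 2 ^ K) {x : ℝ}
    (hx : (K : ℝ) ^ 2 ≤ x) : 6 * ((c * Δ : ℕ) : ℝ) ^ 2 * Real.exp (-x) ≤ 1 := by
  have h1 : c * Δ ≤ 2 ^ K * 2 ^ K := Nat.mul_le_mul (hc.trans Nat.lt_two_pow_self.le) hΔ
  have h2 : 6 * (c * Δ) ^ 2 ≤ 2 ^ K ^ 2 :=
    calc 6 * (c * Δ) ^ 2 ≤ 2 ^ 3 * (2 ^ K * 2 ^ K) ^ 2 :=
          Nat.mul_le_mul (by norm_num) (Nat.pow_le_pow_left h1 2)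
      _ = 2 ^ (4 * K + 3) := by ring
      _ ≤ _ := Nat.pow_le_pow_right two_pos (by nlinarith)
  have h3 : (2 : ℝ) ^ K ^ 2 ≤ Real.exp x := by
    refine (pow_le_pow_left₀ two_pos.le (by linarith [Real.add_one_le_exp 1]) _).trans
      (?_ : Real.exp 1 ^ K ^ 2 ≤ _)
    rw [Real.exp_one_pow]
    exact Real.exp_le_exp.2 (by exact_mod_cast hx)
  rw [Real.exp_neg, ← div_eq_mul_inv, div_le_one (Real.exp_pos x)]
  exact le_trans (by exact_mod_cast h2) h3

theorem weights {α β ι : Type} [Fintype α] [DecidableEq α] [Fintype β] [DecidableEq β]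
    [Fintype ι] [DecidableEq ι] (f : ι → α → β) (I : Finset ι) (E : Finset α) (r K Δ : ℕ)
    (hI : 2 ≤ I.card) (hr : I.card ≤ r) (hE : E.Nonempty) (hK : 32 ≤ K) (hrK : 2 * r ≤ K)
    (hΔ : 0 < Δ) (hΔK : Δ ≤ 2 ^ K) (hdeg : ∀ s ∈ I, ∀ v, deg (f s) E v ≤ Δ)
    (hlow : ∀ s ∈ I, ∀ e ∈ E, Δ ≤ K ^ 2 * deg (f s) E (f s e))
    (hco : ∀ s ∈ I, ∀ t ∈ I, s ≠ t → ∀ u v,
      (E.filter fun e => f s e = v ∧ f t e = u).card * K ^ (3 * r + 9) ≤ Δ) :
    ∃ w : α → ℝ, (∀ e, 0 ≤ w e ∧ w e ≤ (K : ℝ) ^ (3 * r)) ∧ (∀ e, e ∉ E → w e = 0) ∧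
      (∃ e, 0 < w e) ∧ (∀ s ∈ I, ∀ v, wdeg (f s) w v ≤ Δ + r * ((Δ : ℝ) / K ^ 3)) ∧
      ∀ s ∈ I, ∀ e, 0 < w e → Δ - r * ((Δ : ℝ) / K ^ 3) ≤ wdeg (f s) w (f s e) := by
  have k0 : (32 : ℝ) ≤ K := by exact_mod_cast hK
  have d0 : (0 : ℝ) < Δ := by exact_mod_cast hΔ
  have r0 : 2 * (r : ℝ) ≤ K := by exact_mod_cast hrK
  obtain ⟨l, hl⟩ : ∃ l : ℝ, l = Δ / K ^ 3 := ⟨_, rfl⟩
  have l0 : 0 < l := hl ▸ by positivity
  have l1 : (Δ : ℝ) = K ^ 3 * l := by rw [hl]; field_simp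
  have l2 : K * l ≤ Δ := by
    rw [l1]
    exact mul_le_mul_of_nonneg_right (le_self_pow₀ (by linarith) three_ne_zero) l0.le
  rw [← hl]
  clear hl
  have key : ∀ P : Finset ι, P ⊆ I → ∃ w : α → ℝ,
      (∀ e, 0 ≤ w e ∧ w e ≤ (4 * (K : ℝ) ^ 2) ^ P.card) ∧ (∀ e, e ∉ E → w e = 0) ∧
      (∃ e, 0 < w e) ∧ (∀ s ∈ I, ∀ v, wdeg (f s) w v ≤ Δ + P.card * l) ∧
      (∀ s ∈ I, s ∉ P → ∀ e ∈ E, K * l - P.card * l ≤ wdeg (f s) w (f s e)) ∧
      ∀ s ∈ P, ∀ e, 0 < w e → Δ - P.card * l ≤ wdeg (f s) w (f s e) := by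
    intro P
    induction P using Finset.induction_on with
    | empty =>
      have e1 : ∀ s v, wdeg (f s) (fun e => if e ∈ E then (1 : ℝ) else 0) v = deg (f s) E v := by
        intro s v
        rw [wdeg, sum_boole, deg]
        congr 2
        ext e
        simp [and_comm]
      refine fun _ => ⟨fun e => if e ∈ E then 1 else 0, fun e => ?_, fun e he => if_neg he,
        hE.imp fun e he => by simp [he], fun s hs v => ?_, fun s hs _ e he => ?_, by simp⟩
      · dsimp only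
        split_ifs <;> simp
      · rw [e1]
        simpa using hdeg s hs v
      · have h1 : (Δ : ℝ) ≤ K ^ 2 * deg (f s) E (f s e) := by exact_mod_cast hlow s hs e he
        rw [e1, card_empty, Nat.cast_zero, zero_mul, sub_zero]
        refine le_of_mul_le_mul_left (le_trans (le_of_eq ?_) h1) (by positivity)
        rw [l1]
        ring
    | insert t P ht ih =>
      intro hP
      obtain ⟨w, a1, a2, ⟨e0, a3⟩, a4, a5, a6⟩ := ih ((subset_insert t P).trans hP)
      have htI := hP (mem_insert_self t P)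
      have i0 : P.card + 1 ≤ r := by
        rw [← card_insert_of_notMem ht]
        exact (card_le_card hP).trans hr
      have i1 : (P.card : ℝ) + 1 ≤ r := by exact_mod_cast i0
      have i2 : 0 ≤ (P.card : ℝ) * l := by positivity
      have i3 : 2 * (P.card * l) + 2 * l ≤ K * l := by nlinarith
      have mem : ∀ e, 0 < w e → e ∈ E := fun e he => by_contra fun h => he.ne' (a2 e h)
      obtain ⟨w', b1, b2, b3, b4⟩ := step f I E t htI Δ (Δ / K ^ (3 * r + 9))
        ((4 * (K : ℝ) ^ 2) ^ P.card) (4 * K ^ 2) (Δ + P.card * l) l w a1 a2 hdeg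
        (fun s hs h u v => (le_div_iff₀ (by positivity)).2 (by
          exact_mod_cast hco s hs t htI h u v)) a4 (fun e he => by
          have h1 := mul_le_mul_of_nonneg_left (a5 t htI ht e (mem e he))
            (by positivity : 0 ≤ 4 * (K : ℝ) ^ 2)
          have h2 := mul_le_mul_of_nonneg_left (by linarith : K * l / 2 ≤ K * l - P.card * l)
            (by positivity : 0 ≤ 4 * (K : ℝ) ^ 2)
          nlinarith) hΔ (by positivity) (by positivity) (by positivity) l0 (by nlinarith)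
        (Weights_num hK (by omega) hΔK (by
          have h1 := Weights_pow k0 i0
          have h2 : Δ / K ^ (3 * r + 9) * (4 * (K : ℝ) ^ 2) ^ P.card * (4 * K ^ 2) ≤ Δ / K ^ 9 := by
            rw [mul_assoc, ← pow_succ]
            refine (mul_le_mul_of_nonneg_left h1 (by positivity)).trans_eq ?_
            rw [pow_add]
            field_simp
          rw [le_div_iff₀ (by positivity)]
          calc _ ≤ (K : ℝ) ^ 2 * (16 * (Δ / K ^ 9) * (2 * Δ)) := by gcongr; linarith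
            _ = 32 / K * l ^ 2 := by rw [l1]; field_simp; ring
            _ ≤ _ := mul_le_of_le_one_left (by positivity) ((div_le_one (by linarith)).2 k0)))
      have pos : ∀ e, 0 < w' e → 0 < w e := fun e he =>
        pos_of_mul_pos_right (he.trans_le (b1 e).2) (by positivity)
      rw [card_insert_of_notMem ht, Nat.cast_succ, add_one_mul]
      refine ⟨w', fun e => ⟨(b1 e).1, (b1 e).2.trans ?_⟩, fun e he => ?_, ?_, fun s hs v => ?_,
        fun s hs h e he => ?_, fun s hs e he => ?_⟩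
      · rw [pow_succ' _ P.card]
        exact mul_le_mul_of_nonneg_left (a1 e).2 (by positivity)
      · exact ((b1 e).1.eq_or_lt.resolve_right fun h => he (mem e (pos e h))).symm
      · obtain ⟨s, hs, h⟩ := exists_mem_ne (by omega : 1 < I.card) t
        have h1 : K * l - P.card * l ≤ wdeg (f s) w (f s e0) := by
          by_cases h2 : s ∈ P
          · linarith [a6 s h2 e0 a3]
          · exact a5 s hs h2 e0 (mem e0 a3)
        by_contra h2
        push Not at h2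
        have h3 : wdeg (f s) w' (f s e0) ≤ 0 := sum_nonpos fun e _ => h2 e
        linarith [(abs_le.1 (b4 s hs h (f s e0))).1]
      · by_cases h : s = t
        · linarith [h ▸ b3 v]
        · linarith [(abs_le.1 (b4 s hs h v)).2, a4 s hs v]
      · rw [mem_insert, not_or] at h
        linarith [(abs_le.1 (b4 s hs h.1 (f s e))).1, a5 s hs h.2 e he]
      · rcases mem_insert.1 hs with rfl | h
        · linarith [b2 e he]
        · linarith [(abs_le.1 (b4 s (hP hs) (ne_of_mem_of_not_mem h ht) (f s e))).1,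
            a6 s h e (pos e he)]
  obtain ⟨w, a1, a2, a3, a4, -, a6⟩ := key I Subset.rfl
  have h1 : (I.card : ℝ) * l ≤ r * l := mul_le_mul_of_nonneg_right (by exact_mod_cast hr) l0.le
  exact ⟨w, fun e => ⟨(a1 e).1, (a1 e).2.trans (Weights_pow k0 hr)⟩, a2, a3,
    fun s hs v => by linarith [a4 s hs v], fun s hs e he => by linarith [a6 s hs e he]⟩

end Pool.Agent.Work.MP_78fef3_co.S
end

-- merged part: Pool.Agent.Work.MP_78fef3_co.S.Final
section
/-! The last sampling step: from degrees about `k ^ 3` to degrees in `(k, C k)`.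

PLAN. `γ = min 1 ((C - 1) / 4)`. `round` with `V = α`, `J = Fin (k + 1) × β`,
`T (t, v) = S.filter (f t · = v)`, `a (t, v) e = if e ∈ T (t, v) then 1 else 0`,
`p e = (1 + γ) / k ^ 2`, `M = 2 k ^ 3`, `B = 1`, `μ = 4 k`, `lam = γ k / 2`
(`e ∈ T (t, v)` forces `v = f t e`: at most `k + 1` pairs; a nonempty `T (t, v)` has at most
`k ^ 3 + 2 k + 3 ≤ 2 k ^ 3` elements). `S' = S ∩ X`, `deg (f t) S' v = ∑ e ∈ X, a (t, v) e`, which
lies between `(1 + γ / 2) k > k` and `(1 + 3 γ / 2) k + 2 (2 k + 3) / k ^ 2 < C k`. Side condition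
`24 k ^ 6 exp (-(γ ^ 2 k / 256)) ≤ 1` for large `k`
(`Real.tendsto_pow_mul_exp_neg_atTop_nhds_zero` or `Real.pow_div_factorial_le_exp` with
exponent 7). -/

namespace Pool.Agent.Work.MP_78fef3_co.S

open Finset

theorem Final_exp (γ k : ℝ) (hγ : 0 < γ) (hk : 0 < k)
    (h : 24 * 5040 * 256 ^ 7 ≤ γ ^ 14 * k) :
    6 * (2 * k ^ 3) ^ 2 * Real.exp (-((γ * k / 2) ^ 2 / (16 * 1 * (4 * k)))) ≤ 1 := by
  have h1 : (γ * k / 2) ^ 2 / (16 * 1 * (4 * k)) = γ ^ 2 * k / 256 := by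
    field_simp
    ring
  have h2 := Real.pow_div_factorial_le_exp (γ ^ 2 * k / 256) (by positivity) 7
  have h3 : ((Nat.factorial 7 : ℕ) : ℝ) = 5040 := by norm_num [Nat.factorial]
  rw [h3] at h2
  rw [h1, Real.exp_neg, ← div_eq_mul_inv, div_le_one (Real.exp_pos _)]
  refine le_trans ?_ h2
  have h4 : (γ ^ 2 * k / 256) ^ 7 / 5040 = (γ ^ 14 * k) * k ^ 6 / (5040 * 256 ^ 7) := by
    field_simp
  rw [h4, le_div_iff₀ (by positivity)]
  have h5 := mul_le_mul_of_nonneg_right h (pow_pos hk 6).le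
  calc 6 * (2 * k ^ 3) ^ 2 * (5040 * 256 ^ 7) = 24 * 5040 * 256 ^ 7 * k ^ 6 := by ring
    _ ≤ _ := h5

theorem Final_sum {α : Type} [DecidableEq α] (X T : Finset α) :
    ∑ e ∈ X, (if e ∈ T then (1 : ℝ) else 0) = ((X ∩ T).card : ℝ) := by
  rw [sum_ite_mem, sum_const, nsmul_eq_mul, mul_one]

theorem final (C : ℝ) (hC : 1 < C) : ∃ k0 : ℕ, ∀ k ≥ k0,
    ∀ (α β : Type) [Fintype α] [DecidableEq α] [Fintype β] [DecidableEq β]
      (f : Fin (k + 1) → α → β) (S : Finset α), S.Nonempty →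
      (∀ t, ∀ e ∈ S, k ^ 3 ≤ deg (f t) S (f t e) ∧
        deg (f t) S (f t e) ≤ k ^ 3 + 2 * (k + 1) + 1) →
      ∃ S' ⊆ S, S'.Nonempty ∧ ∀ t, ∀ e ∈ S',
        k < deg (f t) S' (f t e) ∧ (deg (f t) S' (f t e) : ℝ) < C * k := by
  set γ := min 1 ((C - 1) / 4) with hγ
  have hγ0 : 0 < γ := lt_min one_pos (by linarith)
  have hγ1 : γ ≤ 1 := min_le_left _ _
  have hγC : γ ≤ (C - 1) / 4 := min_le_right _ _
  obtain ⟨k0, hk0⟩ := exists_nat_ge (24 * 5040 * 256 ^ 7 / γ ^ 14)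
  refine ⟨k0 + 2, fun k hk α β _ _ _ _ f S hS hdeg => ?_⟩
  have hk2 : 2 ≤ k := by omega
  have hkR : (2 : ℝ) ≤ k := by exact_mod_cast hk2
  have hkp : (0 : ℝ) < k := by linarith
  have hbig : 24 * 5040 * 256 ^ 7 ≤ γ ^ 14 * k := by
    have h1 : (k0 : ℝ) ≤ k := by exact_mod_cast (by omega : k0 ≤ k)
    rw [div_le_iff₀ (pow_pos hγ0 14)] at hk0
    nlinarith [pow_pos hγ0 14]
  have hγk : 5 ≤ γ * k := by
    have h1 : γ ^ 14 ≤ γ := by
      calc γ ^ 14 ≤ γ ^ 1 := pow_le_pow_of_le_one hγ0.le hγ1 (by norm_num)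
        _ = γ := pow_one _
    have h2 := mul_le_mul_of_nonneg_right h1 hkp.le
    norm_num at hbig
    linarith
  have hk3 : 2 * k + 3 ≤ k ^ 3 := by
    have h1 : 4 ≤ k ^ 2 := by nlinarith
    have h2 : k ^ 3 = k ^ 2 * k := by ring
    nlinarith
  let T : Fin (k + 1) × β → Finset α := fun i => S.filter fun e => f i.1 e = i.2
  have hTle : ∀ i, (T i).card ≤ k ^ 3 + 2 * (k + 1) + 1 := by
    intro i
    rcases (T i).eq_empty_or_nonempty with h | ⟨e, he⟩
    · rw [h, card_empty]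
      exact Nat.zero_le _
    · obtain ⟨heS, hev⟩ := mem_filter.1 he
      have h1 := (hdeg i.1 e heS).2
      rw [hev] at h1
      exact h1
  have hp0 : 0 ≤ (1 + γ) / (k : ℝ) ^ 2 := by positivity
  have hmean : ∀ i, ∑ e, (1 + γ) / (k : ℝ) ^ 2 * (if e ∈ T i then (1 : ℝ) else 0) =
      (1 + γ) / (k : ℝ) ^ 2 * (T i).card := by
    intro i
    rw [← mul_sum, Final_sum, univ_inter]
  obtain ⟨X, hX⟩ := round (V := α) (J := Fin (k + 1) × β)
    (fun i e => if e ∈ T i then 1 else 0) (fun _ => (1 + γ) / (k : ℝ) ^ 2) T (2 * k ^ 3) 1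
    (4 * k) (γ * k / 2)
    (fun _ => ⟨hp0, by
      rw [div_le_one (by positivity)]
      nlinarith⟩)
    (fun i e => by split_ifs <;> norm_num)
    (fun i e he => if_neg he) (by positivity) (fun i => (hTle i).trans (by omega))
    (fun e => by
      have h1 : (univ.filter fun i : Fin (k + 1) × β => e ∈ T i) ⊆
          univ.image fun t : Fin (k + 1) => (t, f t e) := by
        intro i hi
        have h2 := (mem_filter.1 (mem_filter.1 hi).2).2
        exact mem_image.2 ⟨i.1, mem_univ _, Prod.ext rfl h2⟩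
      have h2 := (card_le_card h1).trans card_image_le
      rw [card_univ, Fintype.card_fin] at h2
      omega)
    (fun i => by
      rw [hmean]
      have h1 : ((T i).card : ℝ) ≤ 2 * k ^ 3 := by
        exact_mod_cast (hTle i).trans (by omega : _ ≤ 2 * k ^ 3)
      calc (1 + γ) / (k : ℝ) ^ 2 * (T i).card ≤ 2 / (k : ℝ) ^ 2 * (2 * k ^ 3) :=
            mul_le_mul (div_le_div_of_nonneg_right (by linarith) (by positivity)) h1
              (Nat.cast_nonneg _) (by positivity)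
        _ = 4 * k := by
            field_simp
            ring)
    one_pos (by positivity) (by nlinarith)
    (by
      push_cast
      exact Final_exp γ k hγ0 hkp hbig)
  have key : ∀ t, ∀ e ∈ S, k < deg (f t) (S ∩ X) (f t e) ∧
      (deg (f t) (S ∩ X) (f t e) : ℝ) < C * k := by
    intro t e he
    have h1 := hX (t, f t e)
    rw [hmean, Final_sum] at h1
    have h2 : X ∩ T (t, f t e) = (S ∩ X).filter fun e' => f t e' = f t e := by
      ext e'
      simp only [T, mem_inter, mem_filter]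
      tauto
    rw [h2] at h1
    obtain ⟨h3, h4⟩ := abs_le.1 h1
    have h5 : ((k : ℝ) ^ 3) ≤ (T (t, f t e)).card := by exact_mod_cast (hdeg t e he).1
    have h6 : ((T (t, f t e)).card : ℝ) ≤ k ^ 3 + 2 * (k + 1) + 1 := by
      exact_mod_cast hTle (t, f t e)
    have h7 := mul_le_mul_of_nonneg_left h5 hp0
    have h8 := mul_le_mul_of_nonneg_left h6 hp0
    have h9 : (1 + γ) / (k : ℝ) ^ 2 * k ^ 3 = (1 + γ) * k := by
      field_simp
    have h10 : (1 + γ) / (k : ℝ) ^ 2 * (2 * (k + 1) + 1) ≤ 10 := by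
      rw [div_mul_eq_mul_div, div_le_iff₀ (by positivity)]
      nlinarith
    rw [add_assoc, mul_add, h9] at h8
    rw [h9] at h7
    constructor
    · have h11 : (k : ℝ) < deg (f t) (S ∩ X) (f t e) := by
        unfold deg
        linarith
      exact_mod_cast h11
    · unfold deg
      nlinarith
  refine ⟨S ∩ X, inter_subset_left, ?_, fun t e he => key t e (mem_inter.1 he).1⟩
  obtain ⟨e, he⟩ := hS
  have h1 := (key 0 e he).1
  obtain ⟨e', he'⟩ := card_pos.1 (lt_of_le_of_lt (Nat.zero_le _) h1)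
  exact ⟨e', (mem_filter.1 he').1⟩

end Pool.Agent.Work.MP_78fef3_co.S
end
end

-- merged part: Pool.Agent.Work.MP_78fef3_co.S.Upper
section
-- merged part: Pool.Agent.Work.MP_78fef3_co.S.Sample
section
/-! Second moment sampling of one coordinate.

PLAN. `q = d / Q`. Sample `ω : β → Fin Q`, `ξ v = if ω v < d then 1 else 0`,
`X = univ.filter (ω v < d)`, `Ea = F.filter (f t e ∈ X)`, `Aa = E.filter (f t e ∈ X)`.
`av Ea.card = q F.card`, `av Aa.card = q E.card ≤ q R F.card` (`av_sum`, `av_coord`,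
`av_fin_lt`). For `s ∈ I`: `∑ e ∈ Ea, deg (f s) Ea (f s e) = ∑ e ∈ F, ∑ e' ∈ F with
f s e' = f s e, ξ (f t e) ξ (f t e')`, and `av (ξ u ξ v) ≤ q ^ 2 + (if u = v then q else 0)`
(`av_pair`), so its average is at most `F.card (q ^ 2 Q / 2 + q d) = (3 / 2) q d F.card`.
Potential `Φ = -Ea.card + (∑ s ∈ I, ∑ e ∈ Ea, deg (f s) Ea (f s e)) / (8 r d) + Aa.card / (4 R)`
has average at most `-(9 / 16) q F.card`; `exists_le_av`. Put
`E' = Ea.filter (∀ s ∈ I, deg (f s) Ea (f s e) ≤ 8 r d)`; every deleted edge contributes more than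
`8 r d` to the double sum, so `E'.card ≥ Ea.card - (double sum) / (8 r d)
≥ (9 / 16) q F.card + Aa.card / (4 R)`. -/

namespace Pool.Agent.Work.MP_78fef3_co.S

open Finset

/-- The coin at a vertex. -/
noncomputable def Sample_xi {β : Type} {Q : ℕ} (d : ℕ) (ω : β → Fin Q) (v : β) : ℝ :=
  if (ω v).val < d then 1 else 0

theorem Sample_nonneg {β : Type} {Q : ℕ} (d : ℕ) (ω : β → Fin Q) (v : β) :
    0 ≤ Sample_xi d ω v := by
  unfold Sample_xi
  split_ifs <;> norm_num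

theorem Sample_card {α β : Type} [Fintype β] [DecidableEq β] {Q : ℕ} (d : ℕ) (ω : β → Fin Q)
    (G : Finset α) (g : α → β) :
    ((G.filter fun e => g e ∈ univ.filter fun v => (ω v).val < d).card : ℝ) =
      ∑ e ∈ G, Sample_xi d ω (g e) := by
  rw [card_filter]
  push_cast
  refine sum_congr rfl fun e _ => ?_
  simp [Sample_xi]

theorem Sample_one {β : Type} [Fintype β] [DecidableEq β] {Q d : ℕ} (hQ : 0 < Q) (hdQ : d ≤ Q)
    (v : β) : av (fun ω : β → Fin Q => Sample_xi d ω v) = (d : ℝ) / Q := by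
  have : Nonempty (Fin Q) := ⟨⟨0, hQ⟩⟩
  have h := av_coord v fun z : Fin Q => if z.val < d then (1 : ℝ) else 0
  rw [av_fin_lt hQ hdQ, mul_one, mul_zero, add_zero] at h
  exact h

theorem Sample_two {β : Type} [Fintype β] [DecidableEq β] {Q d : ℕ} (hQ : 0 < Q) (hdQ : d ≤ Q)
    (u v : β) : av (fun ω : β → Fin Q => Sample_xi d ω u * Sample_xi d ω v) ≤
      ((d : ℝ) / Q) ^ 2 + if v = u then (d : ℝ) / Q else 0 := by
  have : Nonempty (Fin Q) := ⟨⟨0, hQ⟩⟩
  by_cases h : v = u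
  · subst h
    have e : (fun ω : β → Fin Q => Sample_xi d ω v * Sample_xi d ω v) =
        fun ω => Sample_xi d ω v := by
      funext ω
      unfold Sample_xi
      split_ifs <;> norm_num
    rw [e, Sample_one hQ hdQ, if_pos rfl]
    nlinarith [sq_nonneg ((d : ℝ) / Q)]
  · have k := av_pair (Ne.symm h) (fun z : Fin Q => if z.val < d then (1 : ℝ) else 0)
      fun z : Fin Q => if z.val < d then (1 : ℝ) else 0
    rw [av_fin_lt hQ hdQ, mul_one, mul_zero, add_zero] at k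
    rw [if_neg h, add_zero, sq]
    exact k.le

theorem Sample_lin {α β : Type} [Fintype β] [DecidableEq β] {Q d : ℕ} (hQ : 0 < Q) (hdQ : d ≤ Q)
    (G : Finset α) (g : α → β) :
    av (fun ω : β → Fin Q => ∑ e ∈ G, Sample_xi d ω (g e)) = G.card * ((d : ℝ) / Q) := by
  rw [av_sum G fun e (ω : β → Fin Q) => Sample_xi d ω (g e)]
  simp only [Sample_one hQ hdQ, sum_const, nsmul_eq_mul]

theorem Sample_quad {α β : Type} [Fintype β] [DecidableEq β] {Q d : ℕ} (hQ : 0 < Q)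
    (hdQ : d ≤ Q) (F : Finset α) (g k : α → β) (hk : ∀ v, 2 * deg k F v ≤ Q)
    (hg : ∀ v, deg g F v ≤ d) :
    av (fun ω : β → Fin Q => ∑ e ∈ F, ∑ e' ∈ F.filter (fun e' => k e' = k e),
      Sample_xi d ω (g e) * Sample_xi d ω (g e')) ≤ F.card * (3 / 2 * ((d : ℝ) / Q) * d) := by
  have hQ' : (0 : ℝ) < Q := Nat.cast_pos.2 hQ
  have hq : 0 ≤ (d : ℝ) / Q := by positivity
  rw [av_sum F fun e (ω : β → Fin Q) => ∑ e' ∈ F.filter (fun e' => k e' = k e),
    Sample_xi d ω (g e) * Sample_xi d ω (g e'), ← nsmul_eq_mul]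
  refine sum_le_card_nsmul _ _ _ fun e _ => ?_
  rw [av_sum _ fun e' (ω : β → Fin Q) => Sample_xi d ω (g e) * Sample_xi d ω (g e')]
  refine (sum_le_sum fun e' _ => Sample_two hQ hdQ (g e) (g e')).trans ?_
  rw [sum_add_distrib, sum_const, nsmul_eq_mul]
  have h1 : 2 * (((F.filter fun e' => k e' = k e).card : ℕ) : ℝ) ≤ Q := by
    exact_mod_cast hk (k e)
  have h2 : ∑ e' ∈ F.filter (fun e' => k e' = k e), (if g e' = g e then (d : ℝ) / Q else 0) ≤
      d * ((d : ℝ) / Q) := by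
    refine (sum_le_sum_of_subset_of_nonneg (filter_subset _ _) fun e' _ _ => by
      split_ifs
      · exact hq
      · exact le_rfl).trans ?_
    rw [← sum_filter, sum_const, nsmul_eq_mul]
    exact mul_le_mul_of_nonneg_right (by exact_mod_cast hg (g e)) hq
  have h3 : (Q : ℝ) * ((d : ℝ) / Q) = d := mul_div_cancel₀ _ hQ'.ne'
  have h4 := mul_le_mul_of_nonneg_right h1 (sq_nonneg ((d : ℝ) / Q))
  have h5 : (Q : ℝ) * ((d : ℝ) / Q) ^ 2 = d * ((d : ℝ) / Q) := by rw [sq, ← mul_assoc, h3]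
  linarith

theorem Sample_dbl {α β : Type} [Fintype β] [DecidableEq β] {Q : ℕ} (d : ℕ) (ω : β → Fin Q)
    (F : Finset α) (g k : α → β) :
    ∑ e ∈ F.filter (fun e => g e ∈ univ.filter fun v => (ω v).val < d),
      (deg k (F.filter fun e => g e ∈ univ.filter fun v => (ω v).val < d) (k e) : ℝ) =
      ∑ e ∈ F, ∑ e' ∈ F.filter (fun e' => k e' = k e),
        Sample_xi d ω (g e) * Sample_xi d ω (g e') := by
  rw [sum_filter]
  refine sum_congr rfl fun e _ => ?_
  rw [← mul_sum, ← Sample_card, deg, filter_comm]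
  by_cases h : (ω (g e)).val < d
  · simp [Sample_xi, h]
  · simp [Sample_xi, h]

theorem sample {α β ι : Type} [DecidableEq α] [Fintype β] [DecidableEq β] (f : ι → α → β)
    (I : Finset ι) (E F : Finset α) (t : ι) (d Q R : ℕ) (hI : I.Nonempty) (hd : 0 < d)
    (hdQ : d ≤ Q) (hR : 0 < R) (hEF : E.card ≤ R * F.card)
    (hdeg : ∀ s ∈ I, ∀ v, 2 * deg (f s) F v ≤ Q) (hdt : ∀ v, deg (f t) F v ≤ d) :
    ∃ (X : Finset β) (E' : Finset α), E' ⊆ F ∧ (∀ e ∈ E', f t e ∈ X) ∧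
      (∀ s ∈ I, ∀ v, deg (f s) E' v ≤ 8 * I.card * d) ∧ d * F.card ≤ 2 * Q * E'.card ∧
      (E.filter fun e => f t e ∈ X).card ≤ 4 * R * E'.card := by
  classical
  have hQ : 0 < Q := hd.trans_le hdQ
  have : Nonempty (Fin Q) := ⟨⟨0, hQ⟩⟩
  have hQ' : (0 : ℝ) < Q := Nat.cast_pos.2 hQ
  have hd' : (0 : ℝ) < d := Nat.cast_pos.2 hd
  have hR' : (0 : ℝ) < R := Nat.cast_pos.2 hR
  have hr' : (0 : ℝ) < I.card := Nat.cast_pos.2 hI.card_pos
  have hq : 0 < (d : ℝ) / Q := by positivity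
  obtain ⟨ω, hω⟩ := exists_le_av fun ω : β → Fin Q =>
    (∑ s ∈ I, ∑ e ∈ F, ∑ e' ∈ F.filter (fun e' => f s e' = f s e),
      Sample_xi d ω (f t e) * Sample_xi d ω (f t e')) / (8 * I.card * d) +
      (∑ e ∈ E, Sample_xi d ω (f t e)) / (4 * R) - ∑ e ∈ F, Sample_xi d ω (f t e)
  rw [av_sub, av_add, av_div_const, av_div_const, Sample_lin hQ hdQ, Sample_lin hQ hdQ,
    av_sum I fun s (ω : β → Fin Q) => ∑ e ∈ F, ∑ e' ∈ F.filter (fun e' => f s e' = f s e),
      Sample_xi d ω (f t e) * Sample_xi d ω (f t e')] at hω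
  have b1 : (∑ s ∈ I, av fun ω : β → Fin Q => ∑ e ∈ F,
      ∑ e' ∈ F.filter (fun e' => f s e' = f s e), Sample_xi d ω (f t e) * Sample_xi d ω (f t e')) /
      (8 * I.card * d) ≤ 3 / 16 * (F.card * ((d : ℝ) / Q)) := by
    rw [div_le_iff₀ (by positivity)]
    refine (sum_le_card_nsmul _ _ _ fun s hs =>
      Sample_quad hQ hdQ F (f t) (f s) (hdeg s hs) hdt).trans (le_of_eq ?_)
    rw [nsmul_eq_mul]
    ring
  have b2 : E.card * ((d : ℝ) / Q) / (4 * R) ≤ 1 / 4 * (F.card * ((d : ℝ) / Q)) := by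
    rw [div_le_iff₀ (by positivity)]
    have h1 : (E.card : ℝ) ≤ R * F.card := by exact_mod_cast hEF
    have h2 := mul_le_mul_of_nonneg_right h1 hq.le
    linarith
  replace hω := hω.trans (sub_le_sub_right (add_le_add b1 b2) _)
  simp only [← Sample_dbl, ← Sample_card] at hω
  generalize hX : (univ.filter fun v => (ω v).val < d) = X at hω
  generalize hEa : (F.filter fun e => f t e ∈ X) = Ea at hω
  have b3 : ((Ea.filter fun e => ¬ ∀ s ∈ I, deg (f s) Ea (f s e) ≤ 8 * I.card * d).card : ℝ) ≤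
      (∑ s ∈ I, ∑ e ∈ Ea, (deg (f s) Ea (f s e) : ℝ)) / (8 * I.card * d) := by
    rw [le_div_iff₀ (by positivity), sum_comm, ← nsmul_eq_mul]
    refine (card_nsmul_le_sum _ (fun e => ∑ s ∈ I, (deg (f s) Ea (f s e) : ℝ)) _
      fun e he => ?_).trans (sum_le_sum_of_subset_of_nonneg (filter_subset _ _)
        fun e _ _ => sum_nonneg fun s _ => Nat.cast_nonneg _)
    have h1 := (mem_filter.1 he).2
    push Not at h1
    obtain ⟨s, hs, h2⟩ := h1
    refine le_trans ?_ (single_le_sum (f := fun s => (deg (f s) Ea (f s e) : ℝ))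
      (fun s _ => Nat.cast_nonneg _) hs)
    exact_mod_cast h2.le
  have b4 : ((Ea.filter fun e => ∀ s ∈ I, deg (f s) Ea (f s e) ≤ 8 * I.card * d).card : ℝ) +
      (Ea.filter fun e => ¬ ∀ s ∈ I, deg (f s) Ea (f s e) ≤ 8 * I.card * d).card = Ea.card := by
    exact_mod_cast card_filter_add_card_filter_not (s := Ea) _
  have b5 : 0 ≤ ((E.filter fun e => f t e ∈ X).card : ℝ) / (4 * R) := by positivity
  have b6 : 0 ≤ F.card * ((d : ℝ) / Q) := by positivity
  refine ⟨X, Ea.filter fun e => ∀ s ∈ I, deg (f s) Ea (f s e) ≤ 8 * I.card * d,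
    (filter_subset _ _).trans (hEa ▸ filter_subset _ _), fun e he => ?_, fun s hs v => ?_, ?_, ?_⟩
  · have h1 := (mem_filter.1 he).1
    rw [← hEa] at h1
    exact (mem_filter.1 h1).2
  · rcases ((Ea.filter fun e => ∀ s ∈ I, deg (f s) Ea (f s e) ≤ 8 * I.card * d).filter
      fun e => f s e = v).eq_empty_or_nonempty with h | ⟨e, he⟩
    · rw [deg, h]
      exact Nat.zero_le _
    · obtain ⟨h1, rfl⟩ := mem_filter.1 he
      exact (card_le_card (filter_subset_filter _ (filter_subset _ _))).trans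
        ((mem_filter.1 h1).2 s hs)
  · have h1 : F.card * ((d : ℝ) / Q) ≤ 2 *
        (Ea.filter fun e => ∀ s ∈ I, deg (f s) Ea (f s e) ≤ 8 * I.card * d).card := by linarith
    rw [← mul_div_assoc, div_le_iff₀ hQ'] at h1
    have h2 : (d : ℝ) * F.card ≤ 2 * Q *
        (Ea.filter fun e => ∀ s ∈ I, deg (f s) Ea (f s e) ≤ 8 * I.card * d).card := by linarith
    exact_mod_cast h2
  · have h1 : ((E.filter fun e => f t e ∈ X).card : ℝ) / (4 * R) ≤
        (Ea.filter fun e => ∀ s ∈ I, deg (f s) Ea (f s e) ≤ 8 * I.card * d).card := by linarith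
    rw [div_le_iff₀ (by positivity)] at h1
    have h2 : ((E.filter fun e => f t e ∈ X).card : ℝ) ≤ 4 * R *
        (Ea.filter fun e => ∀ s ∈ I, deg (f s) Ea (f s e) ≤ 8 * I.card * d).card := by linarith
    exact_mod_cast h2

end Pool.Agent.Work.MP_78fef3_co.S
end

-- merged part: Pool.Agent.Work.MP_78fef3_co.S.EqOne
section
/-! One equalising step of the second moment method.

PLAN. `r = I.card`. For `e ∈ E` put `m e = deg (f t) E (f t e)` (`1 ≤ m e ≤ min Δ (2 ^ L)`),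
`Nat.log 2 (m e) ≤ L`. Pigeonhole on this logarithm: a class `F = E.filter (log = a)` with
`E.card ≤ R * F.card`, `R = L + 1` (`Finset.exists_le_card_fiber_of_mul_le_card_of_maps_to`, or
`card_le_mul_card_image` with a largest fibre). `d = 2 ^ (a + 1)`; for `e ∈ F`:
`m e < d ≤ 2 * m e`, so `d ≤ 2 Δ`, `d ≤ 2 * 2 ^ L`, and `deg (f t) F v ≤ d` for all `v`.
`sample` with `Q = 2 Δ`; `Δ' = 8 r d`.
Size: `Δ' E.card ≤ 8 r d R F.card ≤ 32 r R Δ E'.card`. Image: every vertex of `E'.image (f t)` is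
in `X` and has `E`-degree at least `d / 2`, so
`d * image card ≤ 2 (E.filter (f t e ∈ X)).card ≤ 8 R E'.card`
(`Finset.mul_card_image_le_card_of_maps_to` or a sum over the image). Last:
`E.card ≤ R F.card ≤ R d (F.image (f t)).card`. `E'` is nonempty by the size bound. -/

namespace Pool.Agent.Work.MP_78fef3_co.S

open Finset

theorem EqOne_deg_mono {α β : Type} [DecidableEq β] (g : α → β) {F E : Finset α} (h : F ⊆ E)
    (v : β) : deg g F v ≤ deg g E v :=
  card_le_card (filter_subset_filter _ h)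

theorem EqOne_class {α : Type} (E : Finset α) (c : α → ℕ) (L : ℕ) (hE : E.Nonempty)
    (hc : ∀ e ∈ E, c e ≤ L) :
    ∃ a, (E.filter fun e => c e = a).Nonempty ∧
      E.card ≤ (L + 1) * (E.filter fun e => c e = a).card := by
  classical
  obtain ⟨a, -, hmax⟩ := exists_max_image (range (L + 1))
    (fun a => (E.filter fun e => c e = a).card) ⟨0, by simp⟩
  have h1 : E.card = ∑ b ∈ range (L + 1), (E.filter fun e => c e = b).card :=
    card_eq_sum_card_fiberwise (fun e he => by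
      simpa using Nat.lt_succ_of_le (hc e he))
  have h2 : E.card ≤ (L + 1) * (E.filter fun e => c e = a).card := by
    rw [h1]
    calc ∑ b ∈ range (L + 1), (E.filter fun e => c e = b).card
        ≤ ∑ _b ∈ range (L + 1), (E.filter fun e => c e = a).card :=
          sum_le_sum fun b hb => hmax b hb
      _ = (L + 1) * (E.filter fun e => c e = a).card := by simp
  refine ⟨a, ?_, h2⟩
  rw [← card_pos]
  have := hE.card_pos
  rcases Nat.eq_zero_or_pos (E.filter fun e => c e = a).card with h0 | h0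
  · rw [h0] at h2; omega
  · exact h0

theorem EqOne_card_le {α β : Type} [DecidableEq β] (g : α → β) (F : Finset α) (d : ℕ)
    (h : ∀ v, deg g F v ≤ d) : F.card ≤ d * (F.image g).card :=
  card_le_mul_card_image F d fun v _ => h v

theorem EqOne_image {α β : Type} [DecidableEq β] (g : α → β) (E : Finset α) (X Y : Finset β)
    (d : ℕ) (hY : Y ⊆ X) (h : ∀ v ∈ Y, d ≤ 2 * deg g E v) :
    d * Y.card ≤ 2 * (E.filter fun e => g e ∈ X).card := by
  have h1 : (E.filter fun e => g e ∈ Y).card = ∑ v ∈ Y, deg g E v := by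
    rw [card_eq_sum_card_fiberwise (f := g) (s := E.filter fun e => g e ∈ Y) (t := Y)
      (fun e he => by simpa using (mem_filter.1 (mem_coe.1 he)).2)]
    refine sum_congr rfl fun v hv => ?_
    unfold deg
    rw [filter_filter]
    congr 1
    refine filter_congr fun e _ => ⟨fun hh => hh.2, fun hh => ⟨hh ▸ hv, hh⟩⟩
  have h2 : (E.filter fun e => g e ∈ Y).card ≤ (E.filter fun e => g e ∈ X).card :=
    card_le_card fun e he => mem_filter.2 ⟨(mem_filter.1 he).1, hY (mem_filter.1 he).2⟩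
  calc d * Y.card = ∑ _v ∈ Y, d := by simp [mul_comm]
    _ ≤ ∑ v ∈ Y, 2 * deg g E v := sum_le_sum h
    _ = 2 * (E.filter fun e => g e ∈ Y).card := by rw [h1, mul_sum]
    _ ≤ _ := by omega

theorem eq_one {α β ι : Type} [DecidableEq α] [Fintype β] [DecidableEq β]
    (f : ι → α → β) (I : Finset ι) (E : Finset α) (t : ι) (Δ L : ℕ) (ht : t ∈ I)
    (hE : E.Nonempty) (hΔ : ∀ s ∈ I, ∀ v, deg (f s) E v ≤ Δ) (hL : ∀ v, deg (f t) E v ≤ 2 ^ L) :
    ∃ (E' : Finset α) (Δ' : ℕ), E' ⊆ E ∧ E'.Nonempty ∧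
      Δ' ≤ 16 * I.card * 2 ^ L ∧ (∀ s ∈ I, ∀ v, deg (f s) E' v ≤ Δ') ∧
      Δ' * E.card ≤ 64 * I.card * (L + 1) * Δ * E'.card ∧
      (E'.image (f t)).card * Δ' ≤ 64 * I.card * (L + 1) * E'.card ∧
      E.card ≤ 64 * I.card * (L + 1) * Δ' * (E.image (f t)).card := by
  have hpos : ∀ e ∈ E, 0 < deg (f t) E (f t e) := fun e he =>
    card_pos.2 ⟨e, mem_filter.2 ⟨he, rfl⟩⟩
  obtain ⟨a, hFne, hEF⟩ := EqOne_class E (fun e => Nat.log 2 (deg (f t) E (f t e))) L hE
    (fun e _ => by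
      calc Nat.log 2 (deg (f t) E (f t e)) ≤ Nat.log 2 (2 ^ L) := Nat.log_mono_right (hL _)
        _ = L := Nat.log_pow (by norm_num) L)
  set F := E.filter fun e => Nat.log 2 (deg (f t) E (f t e)) = a with hF
  have hFE : F ⊆ E := filter_subset _ _
  have hlt : ∀ e ∈ F, deg (f t) E (f t e) < 2 ^ (a + 1) := fun e he => by
    have h := (mem_filter.1 he).2
    rw [← h]
    exact Nat.lt_pow_succ_log_self (by norm_num) _
  have hge : ∀ e ∈ F, 2 ^ (a + 1) ≤ 2 * deg (f t) E (f t e) := fun e he => by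
    have h := (mem_filter.1 he).2
    have h2 := Nat.pow_log_le_self 2 (hpos e (hFE he)).ne'
    rw [h] at h2
    rw [pow_succ]; omega
  set d := 2 ^ (a + 1) with hd
  have hd0 : 0 < d := by positivity
  obtain ⟨e0, he0⟩ := hFne
  have hdΔ : d ≤ 2 * Δ := (hge e0 he0).trans (by have := hΔ t ht (f t e0); omega)
  have hdL : d ≤ 2 * 2 ^ L := (hge e0 he0).trans (by have := hL (f t e0); omega)
  have hdt : ∀ v, deg (f t) F v ≤ d := fun v => by
    rcases (F.filter fun e => f t e = v).eq_empty_or_nonempty with h0 | ⟨e, he⟩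
    · unfold deg; rw [h0]; simp
    · have h1 := (mem_filter.1 he).2
      have h2 := hlt e (mem_filter.1 he).1
      rw [h1] at h2
      exact (EqOne_deg_mono _ hFE v).trans h2.le
  obtain ⟨X, E', hE'F, hX, hdeg, hsize, hA⟩ := sample f I E F t d (2 * Δ) (L + 1) ⟨t, ht⟩ hd0
    hdΔ (Nat.succ_pos L) hEF
    (fun s hs v => by have := (EqOne_deg_mono (f s) hFE v).trans (hΔ s hs v); omega) hdt
  have hr : 1 ≤ I.card := card_pos.2 ⟨t, ht⟩
  have hFpos : 0 < F.card := card_pos.2 ⟨e0, he0⟩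
  refine ⟨E', 8 * I.card * d, hE'F.trans hFE, ?_, ?_, hdeg, ?_, ?_, ?_⟩
  · rw [← card_pos]
    rcases Nat.eq_zero_or_pos E'.card with h0 | h0
    · rw [h0] at hsize
      have := Nat.mul_pos hd0 hFpos
      omega
    · exact h0
  · calc 8 * I.card * d ≤ 8 * I.card * (2 * 2 ^ L) := Nat.mul_le_mul_left _ hdL
      _ = 16 * I.card * 2 ^ L := by ring
  · calc 8 * I.card * d * E.card ≤ 8 * I.card * d * ((L + 1) * F.card) :=
          Nat.mul_le_mul_left _ hEF
      _ = 8 * I.card * (L + 1) * (d * F.card) := by ring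
      _ ≤ 8 * I.card * (L + 1) * (2 * (2 * Δ) * E'.card) := Nat.mul_le_mul_left _ hsize
      _ = 32 * (I.card * (L + 1) * Δ * E'.card) := by ring
      _ ≤ 64 * (I.card * (L + 1) * Δ * E'.card) := Nat.mul_le_mul_right _ (by norm_num)
      _ = _ := by ring
  · have h1 := EqOne_image (f t) E X (E'.image (f t)) d
      (fun v hv => by
        obtain ⟨e, he, rfl⟩ := mem_image.1 hv
        exact hX e he)
      (fun v hv => by
        obtain ⟨e, he, rfl⟩ := mem_image.1 hv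
        exact hge e (hE'F he))
    calc (E'.image (f t)).card * (8 * I.card * d)
        = 8 * I.card * (d * (E'.image (f t)).card) := by ring
      _ ≤ 8 * I.card * (2 * (4 * (L + 1) * E'.card)) :=
          Nat.mul_le_mul_left _ (h1.trans (Nat.mul_le_mul_left _ hA))
      _ = _ := by ring
  · have h1 := EqOne_card_le (f t) F d hdt
    have h2 : (F.image (f t)).card ≤ (E.image (f t)).card :=
      card_le_card (image_subset_image hFE)
    have h3 : 1 ≤ 512 * (I.card * I.card) := by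
      have := Nat.mul_le_mul hr hr
      omega
    calc E.card ≤ (L + 1) * F.card := hEF
      _ ≤ (L + 1) * (d * (E.image (f t)).card) :=
          Nat.mul_le_mul_left _ (h1.trans (Nat.mul_le_mul_left _ h2))
      _ = 1 * ((L + 1) * (d * (E.image (f t)).card)) := by ring
      _ ≤ 512 * (I.card * I.card) * ((L + 1) * (d * (E.image (f t)).card)) :=
          Nat.mul_le_mul_right _ h3
      _ = _ := by ring

end Pool.Agent.Work.MP_78fef3_co.S
end

-- merged part: Pool.Agent.Work.MP_78fef3_co.S.EqAll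
section
/-! Equalising all coordinates.

PLAN. `W = 64 r (L + 1)`, `r = I.card`. Induction over `P ⊆ I` (`Finset.induction_on` on `P` with
the hypothesis `P ⊆ I`), `i = P.card`: there are a nonempty `Ei ⊆ E` and `Δi ≤ 16 r 2 ^ L` with
(1) all degrees of `Ei` at most `Δi` (so `1 ≤ Δi`, as `Ei` and `I` are nonempty);
(2) `(Ei.image (f s)).card * Δi ≤ W ^ i * Ei.card` for `s ∈ P`;
(3) `E.card * Δi ≤ W ^ i * Ei.card * Δ`;
(4) `Δ * E.card ^ i ≤ W ^ (i ^ 2) * Δi * Δ ^ i * ∏ s ∈ P, N s`. Step by `eq_one` (degrees of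
`Ei ⊆ E` are at most `Δ ≤ 2 ^ L`). (2), (3): multiply by `Δi > 0`, use
`Δ' Ei.card ≤ W Δi E'.card`, cancel. (4): `Δ E.card ^ (i + 1) ≤ W ^ (i ^ 2) (E.card Δi) Δ ^ i ∏ N
≤ W ^ (i ^ 2 + i) Ei.card Δ ^ (i + 1) ∏ N ≤ W ^ (i ^ 2 + i + 1) Δ' N t Δ ^ (i + 1) ∏ N`.
Take `P = I`. -/

namespace Pool.Agent.Work.MP_78fef3_co.S

open Finset

theorem eq_all {α β ι : Type} [DecidableEq α] [Fintype β] [DecidableEq β] [DecidableEq ι]
    (f : ι → α → β) (I : Finset ι) (E : Finset α) (N : ι → ℕ) (Δ L : ℕ) (hI : I.Nonempty)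
    (hE : E.Nonempty) (hN : ∀ t ∈ I, (E.image (f t)).card ≤ N t)
    (hΔ : ∀ t ∈ I, ∀ v, deg (f t) E v ≤ Δ) (hL : Δ ≤ 2 ^ L) :
    ∃ (E' : Finset α) (Δ' : ℕ), E' ⊆ E ∧ E'.Nonempty ∧ Δ' ≤ 16 * I.card * 2 ^ L ∧
      (∀ t ∈ I, ∀ v, deg (f t) E' v ≤ Δ') ∧
      (∀ t ∈ I, (E'.image (f t)).card * Δ' ≤ (64 * I.card * (L + 1)) ^ I.card * E'.card) ∧
      Δ * E.card ^ I.card ≤
        (64 * I.card * (L + 1)) ^ (I.card ^ 2) * Δ' * Δ ^ I.card * ∏ t ∈ I, N t := by
  have hr : 0 < I.card := card_pos.2 hI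
  set W := 64 * I.card * (L + 1) with hW
  have hW1 : 0 < W := by positivity
  have key : ∀ P : Finset ι, P ⊆ I → ∃ (E' : Finset α) (Δ' : ℕ), E' ⊆ E ∧ E'.Nonempty ∧
      Δ' ≤ 16 * I.card * 2 ^ L ∧ (∀ t ∈ I, ∀ v, deg (f t) E' v ≤ Δ') ∧
      (∀ t ∈ P, (E'.image (f t)).card * Δ' ≤ W ^ P.card * E'.card) ∧
      E.card * Δ' ≤ W ^ P.card * E'.card * Δ ∧
      Δ * E.card ^ P.card ≤ W ^ (P.card ^ 2) * Δ' * Δ ^ P.card * ∏ t ∈ P, N t := by
    intro P
    induction P using Finset.induction_on with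
    | empty =>
      exact fun _ => ⟨E, Δ, Subset.rfl, hE, hL.trans (Nat.le_mul_of_pos_left _ (by positivity)),
        hΔ, by simp, by simp, by simp⟩
    | insert t P htP ih =>
      intro hsub
      have ht : t ∈ I := hsub (mem_insert_self _ _)
      obtain ⟨F, D, hFE, hF, -, h1, h2, h3, h4⟩ := ih ((subset_insert _ _).trans hsub)
      have hD : 0 < D := by
        obtain ⟨e, he⟩ := hF
        have : 0 < deg (f t) F (f t e) := card_pos.2 ⟨e, mem_filter.2 ⟨he, rfl⟩⟩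
        exact this.trans_le (h1 t ht (f t e))
      obtain ⟨E', Δ', a1, a2, a3, a4, a, b, c⟩ := eq_one f I F t D L ht hF h1 fun v =>
        (card_le_card (filter_subset_filter _ hFE)).trans ((hΔ t ht v).trans hL)
      rw [← hW] at a b c
      have c2 : F.card ≤ W * Δ' * N t := c.trans (Nat.mul_le_mul_left _
        ((card_le_card (image_subset_image hFE)).trans (hN t ht)))
      rw [card_insert_of_notMem htP, prod_insert htP]
      refine ⟨E', Δ', a1.trans hFE, a2, a3, a4, fun s hs => ?_, ?_, ?_⟩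
      · rcases mem_insert.1 hs with rfl | hs
        · exact b.trans (Nat.mul_le_mul_right _ (Nat.le_self_pow (Nat.succ_ne_zero _) _))
        · refine Nat.le_of_mul_le_mul_right ?_ hD
          calc (E'.image (f s)).card * Δ' * D ≤ (F.image (f s)).card * Δ' * D := by
                gcongr
            _ = (F.image (f s)).card * D * Δ' := by ring
            _ ≤ W ^ P.card * F.card * Δ' := Nat.mul_le_mul_right _ (h2 s hs)
            _ = W ^ P.card * (Δ' * F.card) := by ring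
            _ ≤ W ^ P.card * (W * D * E'.card) := Nat.mul_le_mul_left _ a
            _ = W ^ (P.card + 1) * E'.card * D := by ring
      · refine Nat.le_of_mul_le_mul_right ?_ hD
        calc E.card * Δ' * D = E.card * D * Δ' := by ring
          _ ≤ W ^ P.card * F.card * Δ * Δ' := Nat.mul_le_mul_right _ h3
          _ = W ^ P.card * Δ * (Δ' * F.card) := by ring
          _ ≤ W ^ P.card * Δ * (W * D * E'.card) := Nat.mul_le_mul_left _ a
          _ = W ^ (P.card + 1) * E'.card * Δ * D := by ring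
      · calc Δ * E.card ^ (P.card + 1) = Δ * E.card ^ P.card * E.card := by ring
          _ ≤ W ^ (P.card ^ 2) * D * Δ ^ P.card * (∏ s ∈ P, N s) * E.card :=
            Nat.mul_le_mul_right _ h4
          _ = W ^ (P.card ^ 2) * Δ ^ P.card * (∏ s ∈ P, N s) * (E.card * D) := by ring
          _ ≤ W ^ (P.card ^ 2) * Δ ^ P.card * (∏ s ∈ P, N s) * (W ^ P.card * F.card * Δ) :=
            Nat.mul_le_mul_left _ h3
          _ ≤ W ^ (P.card ^ 2) * Δ ^ P.card * (∏ s ∈ P, N s) *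
              (W ^ P.card * (W * Δ' * N t) * Δ) := by gcongr
          _ = W ^ (P.card ^ 2 + P.card + 1) * Δ' * Δ ^ (P.card + 1) * (N t * ∏ s ∈ P, N s) := by
            ring
          _ ≤ W ^ ((P.card + 1) ^ 2) * Δ' * Δ ^ (P.card + 1) * (N t * ∏ s ∈ P, N s) := by
            have : W ^ (P.card ^ 2 + P.card + 1) ≤ W ^ ((P.card + 1) ^ 2) :=
              Nat.pow_le_pow_right hW1 (by nlinarith)
            gcongr
  obtain ⟨E', Δ', h1, h2, h3, h4, h5, -, h6⟩ := key I Subset.rfl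
  exact ⟨E', Δ', h1, h2, h3, h4, h5, h6⟩

end Pool.Agent.Work.MP_78fef3_co.S
end

-- merged part: Pool.Agent.Work.MP_78fef3_co.S.BF
section
/-! The Beck-Fiala rounding (the induction is copied from the work folder of `MP_ede3c6_co`). -/

namespace Pool.Agent.Work.MP_78fef3_co.S

open Finset

theorem BF_move {a d : ℝ} (ha : |a| ≤ 1) (hd : d ≠ 0) :
    ∃ τ, 0 ≤ τ ∧ |a + τ * d| = 1 ∧ ∀ t, 0 ≤ t → t ≤ τ → |a + t * d| ≤ 1 := by
  obtain ⟨h1, h2⟩ := abs_le.mp ha
  rcases lt_or_gt_of_ne hd with h | h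
  · have h3 : (-1 - a) / d * d = -1 - a := div_mul_cancel₀ _ hd
    refine ⟨(-1 - a) / d, div_nonneg_of_nonpos (by linarith) h.le, ?_, fun t h4 h5 => ?_⟩
    · rw [h3]
      norm_num
    · have h6 := mul_le_mul_of_nonpos_right h5 h.le
      have h7 := mul_nonpos_of_nonneg_of_nonpos h4 h.le
      rw [abs_le]
      constructor <;> linarith
  · have h3 : (1 - a) / d * d = 1 - a := div_mul_cancel₀ _ hd
    refine ⟨(1 - a) / d, div_nonneg (by linarith) h.le, ?_, fun t h4 h5 => ?_⟩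
    · rw [h3]
      norm_num
    · have h6 := mul_le_mul_of_nonneg_right h5 h.le
      have h7 := mul_nonneg h4 h.le
      rw [abs_le]
      constructor <;> linarith

theorem BF_ker {I Y : Type} [Fintype I] (A : Y → I → ℝ) (L : Finset I) (H : Finset Y)
    (h : H.card < L.card) :
    ∃ d : I → ℝ, (∃ i, d i ≠ 0) ∧ (∀ i, i ∉ L → d i = 0) ∧ ∀ y ∈ H, ∑ i, A y i * d i = 0 := by
  classical
  let φ : (L → ℝ) →ₗ[ℝ] (H → ℝ) := Matrix.mulVecLin (Matrix.of fun (y : H) (i : L) => A y i)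
  have h1 : LinearMap.ker φ ≠ ⊥ := LinearMap.ker_ne_bot_of_finrank_lt (by simpa using h)
  obtain ⟨d, h2, h3⟩ := Submodule.exists_mem_ne_zero_of_ne_bot h1
  refine ⟨fun i => if hi : i ∈ L then d ⟨i, hi⟩ else 0, ?_, fun i hi => dif_neg hi, ?_⟩
  · obtain ⟨i, hi⟩ := Function.ne_iff.mp h3
    exact ⟨i.1, by simpa [i.2] using hi⟩
  · intro y hy
    have h4 : ∑ i : L, A y i * d i = 0 := congrFun (LinearMap.mem_ker.mp h2) ⟨y, hy⟩
    refine Eq.trans ?_ h4
    rw [← Finset.sum_subset (Finset.subset_univ L) (fun i _ hi => by simp [hi]),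
      ← Finset.sum_coe_sort]
    exact Finset.sum_congr rfl fun i _ => by simp [i.2]

theorem BF_heavy {I Y : Type} [Fintype Y] (A : Y → I → ℝ) {R : ℝ} (hR : 0 ≤ R)
    (h : ∀ i, ∑ y, |A y i| ≤ R) (L : Finset I) (hL : L.Nonempty) :
    #{y | R < ∑ i ∈ L, |A y i|} < L.card := by
  rcases (univ.filter fun y => R < ∑ i ∈ L, |A y i|).eq_empty_or_nonempty with h0 | h0
  · rw [h0]
    exact hL.card_pos
  have h1 : ∑ _y ∈ univ.filter fun y => R < ∑ i ∈ L, |A y i|, R <
      ∑ y ∈ univ.filter fun y => R < ∑ i ∈ L, |A y i|, ∑ i ∈ L, |A y i| :=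
    Finset.sum_lt_sum_of_nonempty h0 fun y hy => (Finset.mem_filter.mp hy).2
  have h2 : ∑ y ∈ univ.filter fun y => R < ∑ i ∈ L, |A y i|, ∑ i ∈ L, |A y i| ≤
      ∑ y, ∑ i ∈ L, |A y i| :=
    Finset.sum_le_sum_of_subset_of_nonneg (Finset.subset_univ _) fun y _ _ =>
      Finset.sum_nonneg fun i _ => abs_nonneg _
  have h3 : ∑ y, ∑ i ∈ L, |A y i| ≤ ∑ _i ∈ L, R := by
    rw [Finset.sum_comm]
    exact Finset.sum_le_sum fun i _ => h i
  have h4 := (h1.trans_le h2).trans_le h3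
  rw [Finset.sum_const, Finset.sum_const, nsmul_eq_mul, nsmul_eq_mul] at h4
  exact_mod_cast lt_of_mul_lt_mul_right h4 hR

theorem BF_ind {I Y : Type} [Fintype I] [Fintype Y] (A : Y → I → ℝ) {R : ℝ} (hR : 0 ≤ R)
    (h : ∀ i, ∑ y, |A y i| ≤ R) (n : ℕ) : ∀ x : I → ℝ, (∀ i, |x i| ≤ 1) →
    #{i | |x i| < 1} ≤ n → ∃ x' : I → ℝ, (∀ i, |x' i| = 1) ∧ (∀ i, |x i| = 1 → x' i = x i) ∧
      ∀ y, |∑ i, A y i * (x' i - x i)| ≤ 2 * R := by
  classical
  have base : ∀ x : I → ℝ, (∀ i, |x i| ≤ 1) → (univ.filter fun i => |x i| < 1) = ∅ →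
      ∃ x' : I → ℝ, (∀ i, |x' i| = 1) ∧ (∀ i, |x i| = 1 → x' i = x i) ∧
        ∀ y, |∑ i, A y i * (x' i - x i)| ≤ 2 * R := by
    intro x hx h0
    refine ⟨x, fun i => le_antisymm (hx i) (not_lt.mp fun hi => ?_), fun _ _ => rfl, fun y => ?_⟩
    · exact Finset.notMem_empty i (h0 ▸ Finset.mem_filter.mpr ⟨Finset.mem_univ i, hi⟩)
    · simpa using hR
  induction n with
  | zero => exact fun x hx h0 => base x hx (Finset.card_eq_zero.mp (Nat.le_zero.mp h0))
  | succ n ih =>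
    intro x hx hn
    rcases (univ.filter fun i => |x i| < 1).eq_empty_or_nonempty with h0 | h0
    · exact base x hx h0
    obtain ⟨d, ⟨i1, hi1⟩, hd1, hd2⟩ := BF_ker A _ _ (BF_heavy A hR h _ h0)
    have hd3 : ∀ i, |x i| = 1 → d i = 0 := fun i hi => hd1 i (by simp [hi])
    have hm : ∀ i, ∃ τ, d i ≠ 0 → 0 ≤ τ ∧ |x i + τ * d i| = 1 ∧
        ∀ t, 0 ≤ t → t ≤ τ → |x i + t * d i| ≤ 1 := by
      intro i
      by_cases hi : d i = 0
      · exact ⟨0, fun h => absurd hi h⟩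
      · obtain ⟨τ, hτ⟩ := BF_move (hx i) hi
        exact ⟨τ, fun _ => hτ⟩
    choose τ hτ using hm
    obtain ⟨i0, h1, h2⟩ := Finset.exists_min_image (univ.filter fun i => d i ≠ 0) τ
      ⟨i1, by simpa using hi1⟩
    have h3 : d i0 ≠ 0 := (Finset.mem_filter.mp h1).2
    have h4 : ∀ i, |x i + τ i0 * d i| ≤ 1 := by
      intro i
      by_cases hi : d i = 0
      · simpa [hi] using hx i
      · exact (hτ i hi).2.2 _ (hτ i0 h3).1 (h2 i (by simpa using hi))
    have h5 : (univ.filter fun i => |x i + τ i0 * d i| < 1) ⊆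
        (univ.filter fun i => |x i| < 1).erase i0 := by
      intro i hi
      have hi' := (Finset.mem_filter.mp hi).2
      refine Finset.mem_erase.mpr ⟨?_, Finset.mem_filter.mpr ⟨Finset.mem_univ i, ?_⟩⟩
      · rintro rfl
        exact hi'.ne (hτ i h3).2.1
      · refine lt_of_le_of_ne (hx i) fun he => ?_
        rw [hd3 i he, mul_zero, add_zero] at hi'
        exact hi'.ne he
    have h6 : i0 ∈ univ.filter fun i => |x i| < 1 := by
      by_contra hc
      exact h3 (hd1 i0 hc)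
    have h7 : #{i | |x i + τ i0 * d i| < 1} ≤ n := by
      have := Finset.card_le_card h5
      rw [Finset.card_erase_of_mem h6] at this
      omega
    obtain ⟨x', g1, g2, g3⟩ := ih (fun i => x i + τ i0 * d i) h4 h7
    have g4 : ∀ i, |x i| = 1 → x' i = x i := by
      intro i hi
      have := g2 i (by simpa [hd3 i hi] using hi)
      simpa [hd3 i hi] using this
    refine ⟨x', g1, g4, fun y => ?_⟩
    by_cases hy : R < ∑ i ∈ univ.filter fun i => |x i| < 1, |A y i|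
    · have g5 := hd2 y (Finset.mem_filter.mpr ⟨Finset.mem_univ y, hy⟩)
      have g6 : ∑ i, A y i * (x' i - x i) =
          ∑ i, A y i * (x' i - (x i + τ i0 * d i)) + τ i0 * ∑ i, A y i * d i := by
        rw [Finset.mul_sum, ← Finset.sum_add_distrib]
        exact Finset.sum_congr rfl fun i _ => by ring
      rw [g6, g5, mul_zero, add_zero]
      exact g3 y
    · have g7 : ∑ i ∈ univ.filter fun i => |x i| < 1, A y i * (x' i - x i) =
          ∑ i, A y i * (x' i - x i) := by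
        refine Finset.sum_subset (Finset.subset_univ _) fun i _ hi => ?_
        have : |x i| = 1 := le_antisymm (hx i) (by simpa using hi)
        rw [g4 i this, sub_self, mul_zero]
      rw [← g7]
      refine (Finset.abs_sum_le_sum_abs _ _).trans ?_
      have g8 : ∀ i ∈ univ.filter fun i => |x i| < 1, |A y i * (x' i - x i)| ≤ 2 * |A y i| := by
        intro i _
        have g9 : |x' i - x i| ≤ 2 := by
          have := abs_sub (x' i) (x i)
          linarith [g1 i, hx i]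
        rw [abs_mul, mul_comm]
        exact mul_le_mul_of_nonneg_right g9 (abs_nonneg _)
      refine (Finset.sum_le_sum g8).trans ?_
      rw [← Finset.mul_sum]
      linarith [not_lt.mp hy]

theorem bf_round {α β ι : Type} [Fintype α] [DecidableEq α] [Fintype β] [DecidableEq β]
    [Fintype ι] [DecidableEq ι] (f : ι → α → β) (I : Finset ι) (y : α → ℝ)
    (hy : ∀ e, 0 ≤ y e ∧ y e ≤ 1) :
    ∃ S : Finset α, (∀ e ∈ S, 0 < y e) ∧
      ∀ t ∈ I, ∀ v, |(deg (f t) S v : ℝ) - wdeg (f t) y v| ≤ I.card := by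
  classical
  let A : ι × β → α → ℝ := fun p e => if p.1 ∈ I ∧ f p.1 e = p.2 then 1 else 0
  have hA : ∀ e, ∑ p, |A p e| ≤ (I.card : ℝ) := by
    intro e
    rw [Fintype.sum_prod_type]
    have h1 : ∀ t, ∑ v, |A (t, v) e| = if t ∈ I then (1 : ℝ) else 0 := by
      intro t
      by_cases ht : t ∈ I
      · simp only [A, ht, true_and, if_true]
        rw [sum_eq_single (f t e)]
        · simp
        · intro v _ hv
          simp [Ne.symm hv]
        · simp
      · simp [A, ht]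
    simp [h1]
  obtain ⟨x, h1, h2, h3⟩ := BF_ind A (Nat.cast_nonneg _) hA _ (fun e => 2 * y e - 1)
    (fun e => abs_le.2 ⟨by linarith [(hy e).1], by linarith [(hy e).2]⟩) le_rfl
  refine ⟨univ.filter fun e => x e = 1, fun e he => ?_, fun t ht v => ?_⟩
  · refine lt_of_le_of_ne (hy e).1 fun h0 => ?_
    have h4 := h2 e (by rw [← h0]; norm_num)
    rw [(mem_filter.1 he).2, ← h0] at h4
    norm_num at h4
  · have h4 := h3 (t, v)
    have h5 : ∑ e, A (t, v) e * (x e - (2 * y e - 1)) =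
        2 * ((deg (f t) (univ.filter fun e => x e = 1) v : ℝ) - wdeg (f t) y v) := by
      rw [deg, wdeg, filter_filter, card_filter, sum_filter]
      push_cast
      rw [← sum_sub_distrib, mul_sum]
      refine sum_congr rfl fun e _ => ?_
      by_cases he : f t e = v
      · rcases (abs_eq zero_le_one).1 (h1 e) with h6 | h6
        · simp only [A, ht, he, h6, and_self, if_true]
          ring
        · have h7 : ¬ (-1 : ℝ) = 1 := by norm_num
          simp only [A, ht, he, h6, h7, and_self, if_true, false_and, if_false]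
          ring
      · simp [A, he]
    rw [h5, abs_mul, abs_two] at h4
    linarith

end Pool.Agent.Work.MP_78fef3_co.S
end

-- merged part: Pool.Agent.Work.MP_78fef3_co.S.Spread
section
/-! The case of small codegrees.

PLAN. `weights` gives `w`. With `ε = r / K ^ 3 ≤ 1 / 2` put `θ = (T + r) / (Δ (1 - ε))`,
`y = θ * w`; `y ≤ 2 (T + r) K ^ (3 r) / Δ ≤ K ^ (3 r + 1) / Δ ≤ 1`. For `0 < w e`:
`T + r ≤ wdeg (f s) y (f s e) ≤ (T + r) (1 + ε) / (1 - ε) ≤ (T + r) (1 + 4 ε) ≤ T + r + 1`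
as `4 r (T + r) ≤ K ≤ K ^ 3`. `bf_round` gives `S` (all its edges have `0 < y e`, so `0 < w e`
and `e ∈ E`), error `I.card ≤ r`. Nonempty: for `e` with `0 < w e` and `s ∈ I` the degree
`deg (f s) S (f s e)` is at least `T ≥ 1`. -/

namespace Pool.Agent.Work.MP_78fef3_co.S

open Finset

theorem Spread_wdeg {α β : Type} [Fintype α] [DecidableEq β] (g : α → β) (c : ℝ) (w : α → ℝ)
    (v : β) : wdeg g (fun e => c * w e) v = c * wdeg g w v := by
  simp only [wdeg, mul_sum]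

theorem spread {α β ι : Type} [Fintype α] [DecidableEq α] [Fintype β] [DecidableEq β]
    [Fintype ι] [DecidableEq ι] (f : ι → α → β) (I : Finset ι) (E : Finset α) (r T K Δ : ℕ)
    (hT : 1 ≤ T) (hI : 2 ≤ I.card) (hr : I.card ≤ r) (hE : E.Nonempty)
    (hK : 32 + 4 * r * (T + r) ≤ K) (hΔK : Δ ≤ 2 ^ K) (hKΔ : K ^ (3 * r + 1) ≤ Δ)
    (hdeg : ∀ s ∈ I, ∀ v, deg (f s) E v ≤ Δ)
    (hlow : ∀ s ∈ I, ∀ e ∈ E, Δ ≤ K ^ 2 * deg (f s) E (f s e))
    (hco : ∀ s ∈ I, ∀ t ∈ I, s ≠ t → ∀ u v,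
      (E.filter fun e => f s e = v ∧ f t e = u).card * K ^ (3 * r + 9) ≤ Δ) :
    ∃ S ⊆ E, S.Nonempty ∧ ∀ t ∈ I, ∀ e ∈ S,
      T ≤ deg (f t) S (f t e) ∧ deg (f t) S (f t e) ≤ T + 2 * r + 1 := by
  have hr2 : 2 ≤ r := hI.trans hr
  have hM : 1 ≤ T + r := by omega
  have h1 : 4 * r * (T + r) ≤ K := by omega
  have h2 : 2 * r ≤ K := by nlinarith
  have h3 : 2 * (T + r) ≤ K := by nlinarith
  have hK1 : 1 ≤ K := by omega
  have hΔ : 0 < Δ := lt_of_lt_of_le (pow_pos hK1 _) hKΔ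
  have h4 : 4 * r * (T + r) ≤ K ^ 3 := h1.trans (Nat.le_self_pow (by norm_num) K)
  have h5 : 2 * (T + r) * K ^ (3 * r) ≤ Δ := by
    refine le_trans ?_ hKΔ
    rw [pow_succ, mul_comm (K ^ (3 * r))]
    exact Nat.mul_le_mul_right _ h3
  obtain ⟨w, hw1, hw2, ⟨e0, he0⟩, hw4, hw5⟩ :=
    weights f I E r K Δ hI hr hE (by omega) h2 hΔ hΔK hdeg hlow hco
  have hD : (0 : ℝ) < Δ := by exact_mod_cast hΔ
  have hK3 : (0 : ℝ) < (K : ℝ) ^ 3 := by
    have : (0 : ℝ) < K := by exact_mod_cast hK1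
    positivity
  have hMr : (1 : ℝ) ≤ (T : ℝ) + r := by exact_mod_cast hM
  have h4r : 4 * (r : ℝ) * (T + r) ≤ (K : ℝ) ^ 3 := by exact_mod_cast h4
  have h5r : 2 * ((T : ℝ) + r) * (K : ℝ) ^ (3 * r) ≤ Δ := by exact_mod_cast h5
  have ha0 : (0 : ℝ) ≤ r * ((Δ : ℝ) / K ^ 3) := by positivity
  have ha1 : 4 * ((T : ℝ) + r) * (r * ((Δ : ℝ) / K ^ 3)) ≤ Δ := by
    have h6 : 4 * ((T : ℝ) + r) * (r * ((Δ : ℝ) / K ^ 3)) =
        4 * (r : ℝ) * (T + r) * ((Δ : ℝ) / K ^ 3) := by ring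
    have h7 : (K : ℝ) ^ 3 * ((Δ : ℝ) / K ^ 3) = Δ := mul_div_cancel₀ _ hK3.ne'
    rw [h6, ← h7, h7]
    calc 4 * (r : ℝ) * (T + r) * ((Δ : ℝ) / K ^ 3) ≤ (K : ℝ) ^ 3 * ((Δ : ℝ) / K ^ 3) :=
          mul_le_mul_of_nonneg_right h4r (by positivity)
      _ = Δ := h7
  generalize (r : ℝ) * ((Δ : ℝ) / K ^ 3) = a at hw4 hw5 ha0 ha1
  have ha2 : 4 * a ≤ Δ := by nlinarith
  have hlo : (0 : ℝ) < Δ - a := by linarith
  set θ : ℝ := ((T : ℝ) + r) / (Δ - a) with hθ
  have hθ0 : 0 < θ := div_pos (by linarith) hlo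
  have hθ1 : θ * (Δ - a) = T + r := div_mul_cancel₀ _ hlo.ne'
  have hθ2 : θ * (Δ + a) ≤ T + r + 1 := by
    rw [hθ, div_mul_eq_mul_div, div_le_iff₀ hlo]
    nlinarith
  have hθ3 : θ * (K : ℝ) ^ (3 * r) ≤ 1 := by
    rw [hθ, div_mul_eq_mul_div, div_le_one hlo]
    linarith
  obtain ⟨S, hS1, hS2⟩ := bf_round f I (fun e => θ * w e) fun e =>
    ⟨mul_nonneg hθ0.le (hw1 e).1, (mul_le_mul_of_nonneg_left (hw1 e).2 hθ0.le).trans hθ3⟩
  have hrr : (I.card : ℝ) ≤ r := by exact_mod_cast hr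
  have key : ∀ t ∈ I, ∀ e, 0 < w e →
      T ≤ deg (f t) S (f t e) ∧ deg (f t) S (f t e) ≤ T + 2 * r + 1 := by
    intro t ht e he
    have g1 := abs_le.1 (hS2 t ht (f t e))
    rw [Spread_wdeg] at g1
    have g2 := mul_le_mul_of_nonneg_left (hw4 t ht (f t e)) hθ0.le
    have g3 := mul_le_mul_of_nonneg_left (hw5 t ht e he) hθ0.le
    constructor
    · have : (T : ℝ) ≤ deg (f t) S (f t e) := by linarith [g1.1]
      exact_mod_cast this
    · have : (deg (f t) S (f t e) : ℝ) ≤ T + 2 * r + 1 := by linarith [g1.2]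
      exact_mod_cast this
  have hpos : ∀ e ∈ S, 0 < w e := fun e he => (mul_pos_iff_of_pos_left hθ0).1 (hS1 e he)
  refine ⟨S, fun e he => ?_, ?_, fun t ht e he => key t ht e (hpos e he)⟩
  · by_contra hc
    exact (hpos e he).ne' (hw2 e hc)
  · obtain ⟨t, ht⟩ : I.Nonempty := card_pos.1 (by omega)
    have g := (key t ht e0 he0).1
    obtain ⟨e, he⟩ : (S.filter fun e => f t e = f t e0).Nonempty := card_pos.1 (by
      unfold deg at g
      omega)
    exact ⟨e, (mem_filter.1 he).1⟩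

end Pool.Agent.Work.MP_78fef3_co.S
end

-- merged part: Pool.Agent.Work.MP_78fef3_co.S.Bal
section
/-! From almost regular on average to nearly regular.

PLAN. Induction on `j`; `b = 3 r + 9`, `c = 6 r + 20 = 2 b + 2`. `j = 1`, `I = {t}`: a largest
fibre has `E.card ≤ deg * image card`, so `Δ ≤ K * deg`; `K * T ≤ K ^ 2 ≤ K ^ c ≤ Δ` gives
`T ≤ deg`; take `T` edges of the fibre (`exists_subset_card_eq`). `j ≥ 2`: call `e ∈ E` heavy for
`(s, t)` (`s ≠ t` in `I`) if `Δ < (E.filter (f s e' = f s e ∧ f t e' = f t e)).card * K ^ b`.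
Let `E0` be the edges heavy for no pair. If `E.card ≤ 2 * E0.card`: `peel` on `E0` with `A = K ^ 2`,
`B = Δ` (`Δ * ∑ images ≤ j K E.card ≤ 2 j K E0.card < K ^ 2 E0.card`), then `spread` on the peeled
set (a codegree set in it is empty or contained in the codegree set in `E` of one of its edges;
`K ^ (3 r + 1) ≤ K ^ (c ^ j)`). Otherwise some pair `(s, t)` has a heavy set `F` with
`E.card ≤ 2 j ^ 2 F.card ≤ K F.card`; `glue` with `Q = K ^ b` gives `E2`,
`E.card ≤ K ^ (2 b + 1) E2.card`; apply the induction hypothesis to `I.erase t`, `E2`,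
`K' = K ^ c`, the same `Δ` (`(K ^ c) ^ (c ^ (j - 1)) = K ^ (c ^ j)`); in the result the
`t`-degree of an edge equals its `s`-degree. -/

namespace Pool.Agent.Work.MP_78fef3_co.S

open Finset

theorem Bal_deg_mono {α β : Type} [DecidableEq β] (g : α → β) {S E : Finset α} (h : S ⊆ E)
    (v : β) : deg g S v ≤ deg g E v := by
  unfold deg
  exact card_le_card (filter_subset_filter _ h)

theorem Bal_fibre {α β : Type} [DecidableEq α] [DecidableEq β] (g : α → β) (E : Finset α)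
    (hE : E.Nonempty) : ∃ v, E.card ≤ deg g E v * (E.image g).card := by
  obtain ⟨v, -, hv⟩ := exists_max_image (E.image g) (deg g E) (hE.image g)
  exact ⟨v, card_le_mul_card_image E _ (fun a ha => hv a ha)⟩

theorem Bal_base {α β : Type} [DecidableEq α] [DecidableEq β] (g : α → β) (E : Finset α)
    (T K Δ : ℕ) (hT : 1 ≤ T) (hE : E.Nonempty) (hK : 1 ≤ K) (hKT : K * T ≤ Δ)
    (him : (E.image g).card * Δ ≤ K * E.card) :
    ∃ S ⊆ E, S.Nonempty ∧ ∀ e ∈ S, deg g S (g e) = T := by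
  obtain ⟨v, hv⟩ := Bal_fibre g E hE
  have hpos : 0 < E.card := hE.card_pos
  have h1 : Δ * E.card ≤ (K * deg g E v) * E.card := by
    calc Δ * E.card ≤ Δ * (deg g E v * (E.image g).card) := Nat.mul_le_mul_left _ hv
      _ = deg g E v * ((E.image g).card * Δ) := by ring
      _ ≤ deg g E v * (K * E.card) := Nat.mul_le_mul_left _ him
      _ = (K * deg g E v) * E.card := by ring
  have h2 : Δ ≤ K * deg g E v := Nat.le_of_mul_le_mul_right h1 hpos
  have h3 : T ≤ deg g E v := Nat.le_of_mul_le_mul_left (hKT.trans h2) hK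
  obtain ⟨S, hS, hc⟩ := exists_subset_card_eq (s := E.filter fun e => g e = v) (n := T) h3
  refine ⟨S, hS.trans (filter_subset _ _), card_pos.mp (by omega), fun e he => ?_⟩
  have hv' : ∀ e ∈ S, g e = v := fun e he => (mem_filter.mp (hS he)).2
  unfold deg
  rw [filter_true_of_mem (fun e' he' => by rw [hv' e' he', hv' e he]), hc]

/-- Either half of the edges are heavy for no pair, or one pair has many heavy edges. -/
theorem Bal_split {α γ : Type} [DecidableEq α] (E : Finset α) (P : Finset γ)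
    (H : γ → α → Prop) [∀ p e, Decidable (H p e)] [DecidablePred fun e => ∀ p ∈ P, ¬ H p e] :
    E.card ≤ 2 * (E.filter fun e => ∀ p ∈ P, ¬ H p e).card ∨
      ∃ p ∈ P, E.card ≤ 2 * P.card * (E.filter fun e => H p e).card := by
  by_cases h : E.card ≤ 2 * (E.filter fun e => ∀ p ∈ P, ¬ H p e).card
  · exact Or.inl h
  right
  have hsub : E ⊆ (E.filter fun e => ∀ p ∈ P, ¬ H p e) ∪
      P.biUnion fun p => E.filter fun e => H p e := by
    intro e he
    by_cases h' : ∀ p ∈ P, ¬ H p e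
    · exact mem_union_left _ (mem_filter.mpr ⟨he, h'⟩)
    · simp only [not_forall, not_not] at h'
      obtain ⟨p, hp, hH⟩ := h'
      exact mem_union_right _ (mem_biUnion.mpr ⟨p, hp, mem_filter.mpr ⟨he, hH⟩⟩)
  have hc : E.card ≤ (E.filter fun e => ∀ p ∈ P, ¬ H p e).card +
      ∑ p ∈ P, (E.filter fun e => H p e).card :=
    (card_le_card hsub).trans ((card_union_le _ _).trans (Nat.add_le_add_left card_biUnion_le _))
  have hP : P.Nonempty := by
    rcases P.eq_empty_or_nonempty with h0 | h0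
    · have hz : ∑ p ∈ P, (E.filter fun e => H p e).card = 0 := by
        rw [h0, sum_empty]
      omega
    · exact h0
  obtain ⟨p, hp, hmax⟩ := exists_max_image P (fun p => (E.filter fun e => H p e).card) hP
  refine ⟨p, hp, ?_⟩
  have hs : ∑ q ∈ P, (E.filter fun e => H q e).card ≤ P.card * (E.filter fun e => H p e).card := by
    have := sum_le_card_nsmul P (fun q => (E.filter fun e => H q e).card) _ hmax
    simpa using this
  rw [mul_assoc]
  omega

theorem bal {α β ι : Type} [Fintype α] [DecidableEq α] [Fintype β] [DecidableEq β]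
    [Fintype ι] [DecidableEq ι] (f : ι → α → β) (r T : ℕ) (hT : 1 ≤ T) (j : ℕ) :
    ∀ (I : Finset ι) (E : Finset α) (K Δ : ℕ), I.card = j → 1 ≤ j → j ≤ r → E.Nonempty →
      32 + 4 * r * (T + r) ≤ K → Δ ≤ 2 ^ K → K ^ ((6 * r + 20) ^ j) ≤ Δ →
      (∀ t ∈ I, ∀ v, deg (f t) E v ≤ Δ) →
      (∀ t ∈ I, (E.image (f t)).card * Δ ≤ K * E.card) →
      ∃ S ⊆ E, S.Nonempty ∧ ∀ t ∈ I, ∀ e ∈ S,
        T ≤ deg (f t) S (f t e) ∧ deg (f t) S (f t e) ≤ T + 2 * r + 1 := by
  induction j with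
  | zero => intro I E K Δ _ h; omega
  | succ n ih =>
    intro I E K Δ hI _ hr hE hK hΔK hKΔ hdeg him
    have hr1 : 1 ≤ r := by omega
    have hK1 : 1 ≤ K := by omega
    have hrT : T + r ≤ r * (T + r) := Nat.le_mul_of_pos_left _ hr1
    have hrr : r * r ≤ r * (T + r) := Nat.mul_le_mul_left _ (by omega)
    have hK4 : 32 + 4 * (r * (T + r)) ≤ K := by rw [← mul_assoc]; exact hK
    have hcpow : 6 * r + 20 ≤ (6 * r + 20) ^ (n + 1) :=
      Nat.le_self_pow (by omega) _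
    have hpow : ∀ m, m ≤ 6 * r + 20 → K ^ m ≤ Δ := fun m hm =>
      (Nat.pow_le_pow_right hK1 (hm.trans hcpow)).trans hKΔ
    rcases Nat.eq_zero_or_pos n with hn | hn
    · subst hn
      obtain ⟨t, rfl⟩ := card_eq_one.mp hI
      have hKT : K * T ≤ Δ := by
        calc K * T ≤ K * K := Nat.mul_le_mul_left _ (by omega)
          _ = K ^ 2 := by ring
          _ ≤ Δ := hpow 2 (by omega)
      obtain ⟨S, hS, hne, h⟩ := Bal_base (f t) E T K Δ hT hE hK1 hKT (him t (mem_singleton_self t))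
      refine ⟨S, hS, hne, fun t' ht' e he => ?_⟩
      rw [mem_singleton.mp ht', h e he]
      omega
    rcases Bal_split E I.offDiag (fun (p : ι × ι) (e : α) =>
      Δ < (E.filter fun e' => f p.1 e' = f p.1 e ∧ f p.2 e' = f p.2 e).card * K ^ (3 * r + 9))
      with hA | ⟨p, hp, hB⟩
    · obtain ⟨E0, hE0⟩ : ∃ E0, E0 = E.filter fun e => ∀ p ∈ I.offDiag, ¬ Δ <
        (E.filter fun e' => f p.1 e' = f p.1 e ∧ f p.2 e' = f p.2 e).card * K ^ (3 * r + 9) :=
        ⟨_, rfl⟩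
      rw [← hE0] at hA
      have hE0E : E0 ⊆ E := by rw [hE0]; exact filter_subset _ _
      have hpos : 0 < E0.card := by have := hE.card_pos; omega
      have hsum : Δ * ∑ t ∈ I, (E0.image (f t)).card < K ^ 2 * E0.card := by
        have h1 : Δ * ∑ t ∈ I, (E0.image (f t)).card ≤ ∑ _t ∈ I, K * E.card := by
          rw [mul_sum]
          refine sum_le_sum fun t ht => le_trans ?_ (him t ht)
          rw [mul_comm]
          exact Nat.mul_le_mul_right _ (card_le_card (image_subset_image hE0E))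
        rw [sum_const, smul_eq_mul, hI] at h1
        have h2 : (n + 1) * (K * E.card) ≤ (n + 1) * (K * (2 * E0.card)) :=
          Nat.mul_le_mul_left _ (Nat.mul_le_mul_left _ hA)
        have h3 : 2 * (n + 1) * (K * E0.card) < K * (K * E0.card) :=
          Nat.mul_lt_mul_of_pos_right (by omega) (Nat.mul_pos hK1 hpos)
        calc _ ≤ (n + 1) * (K * (2 * E0.card)) := h1.trans h2
          _ = 2 * (n + 1) * (K * E0.card) := by ring
          _ < K * (K * E0.card) := h3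
          _ = K ^ 2 * E0.card := by ring
      obtain ⟨S1, hS1, hne1, hlow⟩ := peel f I E0 (K ^ 2) Δ hsum
      obtain ⟨S, hS, hne, h⟩ := spread f I S1 r T K Δ hT (by omega) (by omega) hne1 hK hΔK
        (hpow _ (by omega))
        (fun s hs v => (Bal_deg_mono _ (hS1.trans hE0E) v).trans (hdeg s hs v))
        (fun s hs e he => (hlow s hs e he).le)
        (fun s hs t ht hst u v => by
          rcases (S1.filter fun e => f s e = v ∧ f t e = u).eq_empty_or_nonempty with h0 | ⟨e, he⟩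
          · rw [h0, card_empty, zero_mul]
            exact Nat.zero_le _
          · obtain ⟨he1, hv, hu⟩ := mem_filter.mp he
            have he0 := hS1 he1
            rw [hE0] at he0
            have hn := (mem_filter.mp he0).2 (s, t) (mem_offDiag.mpr ⟨hs, ht, hst⟩)
            refine le_trans (Nat.mul_le_mul_right _ (card_le_card ?_)) (not_lt.mp hn)
            intro e' he'
            obtain ⟨he1', hv', hu'⟩ := mem_filter.mp he'
            exact mem_filter.mpr ⟨hE0E (hS1 he1'), hv'.trans hv.symm, hu'.trans hu.symm⟩)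
      exact ⟨S, hS.trans (hS1.trans hE0E), hne, h⟩
    · obtain ⟨s, t⟩ := p
      obtain ⟨hs, ht, hst⟩ := mem_offDiag.mp hp
      dsimp only at hs ht hst hB
      obtain ⟨F, hF⟩ : ∃ F, F = E.filter fun e => Δ <
        (E.filter fun e' => f s e' = f s e ∧ f t e' = f t e).card * K ^ (3 * r + 9) := ⟨_, rfl⟩
      rw [← hF] at hB
      have hFE : F ⊆ E := by rw [hF]; exact filter_subset _ _
      have hP : 2 * I.offDiag.card ≤ K := by
        have h1 : I.offDiag.card ≤ r * r := by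
          rw [offDiag_card, hI]
          exact (Nat.sub_le _ _).trans (Nat.mul_le_mul hr hr)
        omega
      have hEF : E.card ≤ K * F.card := hB.trans (Nat.mul_le_mul_right _ hP)
      obtain ⟨E2, hE2, hc2, hglue⟩ := glue (f s) (f t) E F (K ^ (3 * r + 9)) Δ hFE (hdeg s hs)
        (hdeg t ht) (fun e he => by rw [hF] at he; exact (mem_filter.mp he).2)
      have hE2E : E2 ⊆ E := hE2.trans hFE
      have hbig : K * E.card ≤ K ^ (6 * r + 20) * E2.card := by
        calc K * E.card ≤ K * (K * ((K ^ (3 * r + 9)) ^ 2 * E2.card)) :=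
              Nat.mul_le_mul_left _ (hEF.trans (Nat.mul_le_mul_left _ hc2))
          _ = K ^ (6 * r + 20) * E2.card := by ring
      have hne2 : E2.Nonempty := by
        rcases E2.eq_empty_or_nonempty with h0 | h0
        · rw [h0, card_empty, mul_zero] at hbig
          have := Nat.mul_pos hK1 hE.card_pos
          omega
        · exact h0
      have hKK : K ≤ K ^ (6 * r + 20) := Nat.le_self_pow (by omega) _
      obtain ⟨S, hS, hne, h⟩ := ih (I.erase t) E2 (K ^ (6 * r + 20)) Δ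
        (by rw [card_erase_of_mem ht, hI]; rfl) hn (by omega) hne2 (hK.trans hKK)
        (hΔK.trans (Nat.pow_le_pow_right (by omega) hKK))
        (by rw [← pow_mul, ← pow_succ']; exact hKΔ)
        (fun t' ht' v => (Bal_deg_mono _ hE2E v).trans (hdeg t' (mem_of_mem_erase ht') v))
        (fun t' ht' => le_trans (Nat.mul_le_mul_right _ (card_le_card (image_subset_image hE2E)))
          ((him t' (mem_of_mem_erase ht')).trans hbig))
      refine ⟨S, hS.trans hE2E, hne, fun t' ht' e he => ?_⟩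
      by_cases htt : t' = t
      · subst htt
        have heq : deg (f t') S (f t' e) = deg (f s) S (f s e) := by
          unfold deg
          rw [filter_congr (fun e' he' => (hglue e' (hS he') e (hS he)).symm)]
        rw [heq]
        exact h s (mem_erase.mpr ⟨hst, hs⟩) e he
      · exact h t' (mem_erase.mpr ⟨htt, ht'⟩) e he

end Pool.Agent.Work.MP_78fef3_co.S
end

-- merged part: Pool.Agent.Work.MP_78fef3_co.S.HypA
section
/-! The hypergraph statement.

PLAN. `k0` from `final` (and at least 1). `r = k + 1`, `T = k ^ 3`, `I = univ`,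
`W = 64 r (L + 1)`, `K = W ^ r`, `c0 = (6 r + 20) ^ r`, `c = 2 (r ^ 2 + r c0)`,
`L0 = 128 r + 32 + 4 r (T + r)`; then `L ≤ W ≤ K` and `W ≤ 128 r L ≤ L ^ 2`. `eq_all`
gives `E'`, `Δ'`. From `L ^ c Δ ^ k ∏ N ≤ E.card ^ r` and the last inequality of `eq_all`:
`L ^ c (Δ ^ r ∏ N) ≤ W ^ (r ^ 2) Δ' (Δ ^ r ∏ N)` with `Δ ^ r ∏ N > 0` (`E` nonempty), so
`W ^ (r ^ 2 + r c0) ≤ L ^ c ≤ W ^ (r ^ 2) Δ'` and `K ^ c0 ≤ Δ'`. Also
`Δ' ≤ 16 r 2 ^ L ≤ 2 ^ (4 + r + L) ≤ 2 ^ W ≤ 2 ^ K`. Then `bal` with `j = r` and `final`. -/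

namespace Pool.Agent.Work.MP_78fef3_co.S

open Finset

theorem hyp_holds (C : ℝ) (hC : 1 < C) : ∃ k0 : ℕ, ∀ k ≥ k0, ∃ c L0 : ℕ, Hyp k C c L0 := by
  obtain ⟨k0, hk0⟩ := final C hC
  refine ⟨k0 + 1, fun k hk => ⟨2 * ((k + 1) ^ 2 + (k + 1) * (6 * (k + 1) + 20) ^ (k + 1)),
    128 * (k + 1) + (32 + 4 * (k + 1) * (k ^ 3 + (k + 1))), ?_⟩⟩
  intro α β _ _ _ _ f E N Δ L hL hE hN hΔ h2 h
  obtain ⟨E', Δ', h3, h4, h5, h6, h7, h8⟩ := eq_all f univ E N Δ L univ_nonempty hE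
    (fun t _ => hN t) (fun t _ => hΔ t) h2
  rw [card_univ, Fintype.card_fin] at h5 h7 h8
  obtain ⟨W, hW⟩ : ∃ W, 64 * (k + 1) * (L + 1) = W := ⟨_, rfl⟩
  rw [hW, mul_assoc] at h8
  have w1 : 4 + (k + 1) + L ≤ W := by nlinarith [Nat.zero_le (k * L)]
  have w2 : W ≤ L ^ 2 := by
    nlinarith [Nat.mul_le_mul_right L (show 128 * (k + 1) ≤ L by omega),
      Nat.mul_le_mul_left (k + 1) (show 1 ≤ L by omega)]
  have w3 : W ≤ W ^ (k + 1) := Nat.le_self_pow k.succ_ne_zero _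
  obtain ⟨e, he⟩ := id hE
  have d0 : 0 < Δ := lt_of_lt_of_le (card_pos.2 ⟨e, by simp [he]⟩) (hΔ 0 (f 0 e))
  have p0 := Nat.pos_of_mul_pos_left ((mul_pos d0 (pow_pos hE.card_pos _)).trans_le h8)
  have l0 := (Nat.mul_le_mul_left Δ h).trans h8
  rw [pow_mul, mul_assoc, mul_left_comm, ← mul_assoc Δ, ← pow_succ'] at l0
  have l1 := Nat.le_of_mul_le_mul_right l0 p0
  have l2 := (Nat.pow_le_pow_left w2 _).trans l1
  rw [pow_add, pow_mul W (k + 1)] at l2
  obtain ⟨S, s1, s2, s3⟩ := bal f (k + 1) (k ^ 3) (Nat.one_le_pow _ _ (by omega)) (k + 1) univ E'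
    (W ^ (k + 1)) Δ' (by simp) (by omega) le_rfl h4 (by omega) (h5.trans (le_trans (by
      rw [pow_add, pow_add]
      exact Nat.mul_le_mul_right _ (Nat.mul_le_mul_left _ Nat.lt_two_pow_self.le))
      (Nat.pow_le_pow_right two_pos (w1.trans w3))))
    (Nat.le_of_mul_le_mul_left l2 (pow_pos (by omega) _)) h6 (hW ▸ h7)
  obtain ⟨S', t1, t2⟩ := hk0 k (by omega) α β f S s2 fun t => s3 t (mem_univ _)
  exact ⟨S', t1.trans (s1.trans h3), t2⟩

end Pool.Agent.Work.MP_78fef3_co.S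
end

-- merged part: Pool.Agent.Work.MP_78fef3_co.S.Window
section
/-! A window of `k + 1` neighbours with close logarithmic weights.

PLAN. `s = 2 / (k (k + 1) - 1)`. `window_sum`: `exp (-y) = exp (-y / 2) ^ 2 ≥ (1 - y / 2) ^ 2` for
`y = s t ≤ 2` (`Real.add_one_le_exp`), `∑ t ∈ range k, (t + 1) = k (k + 1) / 2`,
`∑ (t + 1) ^ 2 = k (k + 1) (2 k + 1) / 6`; so the sum is at least
`k - 1 - 1 / D + k (k + 1) (2 k + 1) / (6 D ^ 2)` with `D = k (k + 1) - 1`, and
`k (k + 1) (2 k + 1) > 6 D` for `k ≥ 3`.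
`window`: choose `b ≥ 1` with `k - 1 + 1 / b ≤ ∑ ..` (`exists_nat_one_div_lt`). List `s` as
`e : Fin (J + 1) → V` (`Finset.equivFinOfCardEq`), sort with `σ0 = Tuple.sort (x ∘ e)`
(`Tuple.monotone_sort`), `y j = x (e (σ0 j))` monotone; extend to `ℕ` by `min j J`. If no
`j ∈ [k, J]` has `(b k + 1) y j ≤ b ∑ t ∈ range (k + 1), y (j - t)`, strong induction gives
`exp (s (j - k)) ≤ y j` for `j ≤ J` (`j ≤ k`: left side at most 1; `j > k`:
`(k - 1 + 1 / b) y j > ∑ t ∈ range k, y (j - (t + 1)) ≥ exp (s (j - k)) ∑ exp (-s (t + 1))`),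
contradicting `y J ≤ L`. The window is `σ t = e (σ0 (j - t))`. -/

namespace Pool.Agent.Work.MP_78fef3_co.S

open Finset

lemma Window_sq (D : ℝ) (n : ℕ) : ∑ t ∈ range n, (1 - ((t : ℝ) + 1) / D) ^ 2 =
    n - n * (n + 1) / D + n * (n + 1) * (2 * n + 1) / (6 * D ^ 2) := by
  induction n with
  | zero => simp
  | succ n ih =>
    rw [sum_range_succ, ih]
    push_cast
    ring

theorem window_sum (k : ℕ) (hk : 3 ≤ k) : (k : ℝ) - 1 <
    ∑ t ∈ range k, Real.exp (-(2 * ((t : ℝ) + 1) / ((k : ℝ) * (k + 1) - 1))) := by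
  have h3 : (3 : ℝ) ≤ k := by exact_mod_cast hk
  obtain ⟨D, hD⟩ : ∃ D : ℝ, D = k * (k + 1) - 1 := ⟨_, rfl⟩
  have h1 : (k : ℝ) ≤ D := by nlinarith
  have h0 : 0 < D := by linarith
  rw [← hD]
  refine lt_of_lt_of_le ?_ (sum_le_sum (f := fun t : ℕ => (1 - ((t : ℝ) + 1) / D) ^ 2)
    fun t ht => ?_)
  · rw [Window_sq, show (k : ℝ) * (k + 1) = D + 1 by linarith, add_div, div_self h0.ne']
    have : 1 / D < (D + 1) * (2 * k + 1) / (6 * D ^ 2) := by
      rw [div_lt_div_iff₀ h0 (by positivity)]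
      nlinarith [mul_le_mul_of_nonneg_left h3 (sq_nonneg D), mul_pos h0 (h0.trans_le le_rfl),
        mul_le_mul_of_nonneg_left h3 h0.le]
    linarith
  · have h2 : (t : ℝ) + 1 ≤ k := by exact_mod_cast mem_range.1 ht
    rw [mul_div_assoc, ← mul_neg, show (2 : ℝ) = (2 : ℕ) by norm_num, Real.exp_nat_mul]
    refine pow_le_pow_left₀ (sub_nonneg.2 ((div_le_one h0).2 (h2.trans h1))) ?_ 2
    linarith [Real.add_one_le_exp (-(((t : ℝ) + 1) / D))]

theorem window (k : ℕ) (hk : 3 ≤ k) : ∃ b : ℕ, 1 ≤ b ∧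
    ∀ (V : Type) (s : Finset V) (x : V → ℕ) (J L : ℕ), s.card = J + 1 →
      (∀ w ∈ s, 1 ≤ x w ∧ x w ≤ L) → Enough k J L →
      ∃ σ : Fin (k + 1) → V, Function.Injective σ ∧ (∀ t, σ t ∈ s) ∧
        (∀ t, x (σ t) ≤ x (σ 0)) ∧ (b * k + 1) * x (σ 0) ≤ b * ∑ t, x (σ t) := by
  obtain ⟨n, hn⟩ := exists_nat_one_div_lt (sub_pos.2 (window_sum k hk))
  refine ⟨n + 1, n.succ_pos, fun V s x J L hs hx hE => ?_⟩
  obtain ⟨p, p1, p2, p3⟩ : ∃ p : ℕ → V, (∀ j, p j ∈ s) ∧ (Monotone fun j => x (p j)) ∧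
      ∀ i j, i ≤ J → j ≤ J → p i = p j → i = j := by
    obtain ⟨e⟩ : Nonempty (Fin (J + 1) ≃ s) := ⟨(equivFinOfCardEq hs).symm⟩
    refine ⟨fun j => e (Tuple.sort (fun i => x (e i)) ⟨min j J, by omega⟩), fun j => (e _).2,
      fun i j h => Tuple.monotone_sort (fun i => x (e i)) (min_le_min_right J h), fun i j a b h => ?_⟩
    have := congrArg Fin.val ((Tuple.sort fun i => x (e i)).injective (e.injective (Subtype.ext h)))
    simp only at this
    omega
  have h3 : (3 : ℝ) ≤ k := by exact_mod_cast hk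
  have h0 : (0 : ℝ) < k * (k + 1) - 1 := by nlinarith
  by_cases h : ∃ j, k ≤ j ∧ j ≤ J ∧
      ((n + 1) * k + 1) * x (p j) ≤ (n + 1) * ∑ t ∈ range (k + 1), x (p (j - t))
  · obtain ⟨j, a, b, c⟩ := h
    refine ⟨fun t => p (j - t), fun t t' e => Fin.ext ?_, fun t => p1 _,
      fun t => p2 (Nat.sub_le_sub_left (Nat.zero_le _) j), ?_⟩
    · have := p3 _ _ (by omega) (by omega) e
      omega
    · rw [Fin.sum_univ_eq_sum_range fun t => x (p (j - t))]
      exact c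
  exfalso
  push Not at h
  have key : ∀ j ≤ J, Real.exp (2 * ((j : ℝ) - k) / (k * (k + 1) - 1)) ≤ x (p j) := fun j => by
    induction j using Nat.strong_induction_on with
    | h j ih =>
      intro hj
      rcases le_or_gt j k with a | a
      · refine (Real.exp_le_one_iff.2 (div_nonpos_of_nonpos_of_nonneg ?_ h0.le)).trans
          (Nat.one_le_cast.2 (hx _ (p1 j)).1)
        linarith [Nat.cast_le (α := ℝ).2 a]
      have b := (Nat.cast_lt (α := ℝ)).2 (h j a.le hj)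
      rw [sum_range_succ', Nat.sub_zero] at b
      push_cast at b
      have c : Real.exp (2 * ((j : ℝ) - k) / (k * (k + 1) - 1)) *
          ∑ t ∈ range k, Real.exp (-(2 * ((t : ℝ) + 1) / ((k : ℝ) * (k + 1) - 1))) ≤
          ∑ t ∈ range k, (x (p (j - (t + 1))) : ℝ) := by
        rw [mul_sum]
        refine sum_le_sum fun t ht => le_trans (le_of_eq ?_) (ih _ (by omega) (by omega))
        rw [← Real.exp_add, Nat.cast_sub ((mem_range.1 ht).trans a)]
        push_cast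
        ring_nf
      have n0 : (0 : ℝ) < n + 1 := by positivity
      rw [div_lt_iff₀ n0] at hn
      have d := mul_lt_mul_of_pos_left hn (Real.exp_pos (2 * ((j : ℝ) - k) / (k * (k + 1) - 1)))
      have e := mul_le_mul_of_nonneg_left c n0.le
      refine le_of_mul_le_mul_left ?_ (show 0 < ((n : ℝ) + 1) * (k - 1) + 1 by
        have : (0 : ℝ) < k - 1 := by linarith
        positivity)
      linarith
  exact (hE.2.trans_le (key J le_rfl)).not_ge (Nat.cast_le.2 (hx _ (p1 J)).2)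

end Pool.Agent.Work.MP_78fef3_co.S
end

-- merged part: Pool.Agent.Work.MP_78fef3_co.S.CoreA
section
/-! From the hypergraph statement to the graph statement.

PLAN. `r = k + 1`, `b` from `window`. `core_num` fixes `i0`; `g = 2 r b + 1 + i0 + L0`.
`x w = Nat.log 2 (ω w)`; on `B`: `2 ^ g ≤ Q ^ g ≤ ω w`, so `g ≤ x w ≤ L`, and
`2 ^ x w ≤ ω w < 2 ^ (x w + 1)`. For `a ∈ A` choose `σ a` by `window` (for `a ∉ A` anything, use
`choose!` or a default value). `pigeon` on `h a = x (σ a 0)` gives `i` and a class `Ai`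
(nonempty, so `g ≤ i` and `Q ^ g < 2 ^ (i + 1)`). Pigeonhole on the type
`fun t => x (σ a t) ∈ Fintype.piFinset (fun _ => range (i + 1))`: a class `Aτ` with
`Ai.card ≤ (i + 1) ^ r Aτ.card`. `colour` gives `χ` and `E ⊆ Aτ`, so
`A.card ≤ R E.card`, `R = (i + 1) (i + 2) (i + 1) ^ r r ^ r`. Use `Hyp` with `f t a = σ a t`,
`N t = (B.filter (x · = τ t)).card` (`N t * 2 ^ τ t ≤ ∑ ω ≤ Q A.card`), `Δ = 2 ^ (i + 1)`,
`L = i + 1`; `deg (f t) E v ≤ (A.filter (v ∈ N a)).card ≤ ω v < 2 ^ (τ t + 1)` when the fibre is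
nonempty. Density: `∏ N t * 2 ^ ∑ τ ≤ (Q R) ^ r E.card ^ r`, so it is enough that
`(i + 1) ^ c 2 ^ ((i + 1) k) (Q R) ^ r ≤ 2 ^ ∑ τ`; take `b`-th powers
(`Nat.pow_le_pow_iff_left`), use `(b k + 1) i ≤ b ∑ τ`: enough
`(((i + 1) ^ c 2 ^ k R ^ r) ^ b Q ^ (r b)) ≤ 2 ^ i`, whose square is at most `2 ^ i * 2 ^ i` by
`core_num` and `2 Q ^ (2 r b) ≤ Q ^ g < 2 ^ (i + 1)`. Finish with `bridge`. -/

namespace Pool.Agent.Work.MP_78fef3_co.S

open Finset

theorem CoreA_poly (K d : ℕ) : ∃ i0 : ℕ, ∀ i ≥ i0, K * (i + 2) ^ d ≤ 2 ^ i := by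
  have h := (tendsto_pow_const_div_const_pow_of_one_lt d (r := 2) one_lt_two).const_mul
    (4 * (K : ℝ))
  rw [mul_zero] at h
  obtain ⟨i0, hi0⟩ := Filter.eventually_atTop.1 (h.eventually (gt_mem_nhds one_pos))
  refine ⟨i0, fun i hi => ?_⟩
  have h1 := hi0 (i + 2) (by omega)
  rw [← mul_div_assoc, div_lt_one (by positivity), pow_add] at h1
  have h2 : (K : ℝ) * ((i + 2 : ℕ) : ℝ) ^ d ≤ 2 ^ i := by nlinarith
  exact_mod_cast h2

theorem core_num (k b c : ℕ) : ∃ i0 : ℕ, ∀ i ≥ i0,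
    ((i + 1) ^ c * 2 ^ k * ((i + 1) * (i + 2) * (i + 1) ^ (k + 1) * (k + 1) ^ (k + 1)) ^ (k + 1))
      ^ (2 * b) ≤ 2 ^ i := by
  obtain ⟨i0, h⟩ := CoreA_poly ((2 ^ k * ((k + 1) ^ (k + 1)) ^ (k + 1)) ^ (2 * b))
    ((c + (k + 3) * (k + 1)) * (2 * b))
  refine ⟨i0, fun i hi => le_trans ?_ (h i hi)⟩
  rw [pow_mul (i + 2), ← mul_pow]
  refine Nat.pow_le_pow_left ?_ _
  calc _ ≤ (i + 2) ^ c * 2 ^ k *
        ((i + 2) * (i + 2) * (i + 2) ^ (k + 1) * (k + 1) ^ (k + 1)) ^ (k + 1) := by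
        gcongr <;> omega
    _ = _ := by
        rw [show (i + 2) * (i + 2) * (i + 2) ^ (k + 1) = (i + 2) ^ (k + 3) by ring, mul_pow,
          ← pow_mul (i + 2), pow_add (i + 2) c]
        generalize ((k + 1) ^ (k + 1)) ^ (k + 1) = u
        generalize (i + 2) ^ ((k + 3) * (k + 1)) = v
        ring

theorem CoreA_fib {α β : Type} [DecidableEq β] (A : Finset α) (T : Finset β) (hT : T.Nonempty)
    (p : α → β) (hp : ∀ a ∈ A, p a ∈ T) :
    ∃ τ, A.card ≤ T.card * (A.filter fun a => p a = τ).card := by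
  obtain ⟨τ, -, h⟩ := exists_max_image T (fun τ => (A.filter fun a => p a = τ).card) hT
  refine ⟨τ, ?_⟩
  rw [card_eq_sum_card_fiberwise (f := p) (t := T) hp]
  exact sum_le_card_nsmul _ _ _ h

theorem CoreA_arith {k b c i s Q R : ℕ} (hb : 1 ≤ b)
    (hP : ((i + 1) ^ c * 2 ^ k * R ^ (k + 1)) ^ (2 * b) ≤ 2 ^ i)
    (hQ : Q ^ (2 * (k + 1) * b) ≤ 2 ^ i) (hs : (b * k + 1) * i ≤ b * s) :
    (i + 1) ^ c * (2 ^ (i + 1)) ^ k * (Q * R) ^ (k + 1) ≤ 2 ^ s := by
  have e1 : (i + 1) ^ c * (2 ^ (i + 1)) ^ k * (Q * R) ^ (k + 1) =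
      (i + 1) ^ c * 2 ^ k * R ^ (k + 1) * Q ^ (k + 1) * 2 ^ (i * k) := by
    rw [pow_succ 2 i, mul_pow, mul_pow, ← pow_mul]
    generalize (i + 1) ^ c = u
    ring
  rw [e1]
  generalize (i + 1) ^ c * 2 ^ k * R ^ (k + 1) = P at hP ⊢
  have h1 : (P * Q ^ (k + 1)) ^ b ≤ 2 ^ i := by
    rw [← Nat.pow_le_pow_iff_left two_ne_zero, ← pow_mul, mul_pow, ← pow_mul, sq, mul_comm b 2,
      show (k + 1) * (2 * b) = 2 * (k + 1) * b by ring]
    exact Nat.mul_le_mul hP hQ
  rw [← Nat.pow_le_pow_iff_left (Nat.one_le_iff_ne_zero.1 hb), mul_pow, ← pow_mul, ← pow_mul]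
  refine (Nat.mul_le_mul_right _ h1).trans ?_
  rw [← pow_add]
  refine Nat.pow_le_pow_right two_pos ?_
  nlinarith

theorem core_holds (k : ℕ) (C : ℝ) (c L0 : ℕ) (hk : 3 ≤ k) (hC : (k : ℝ) + 1 < C * k)
    (h : Hyp k C c L0) : ∃ g : ℕ, 1 ≤ g ∧ Core k C g := by
  classical
  obtain ⟨b, hb, hw⟩ := window k hk
  obtain ⟨i0, hi0⟩ := core_num k b c
  refine ⟨2 * (k + 1) * b + 1 + i0 + L0, by omega, ?_⟩
  intro V _ _ G A B N ω J L Q hA hAB hN hω hsum hQ hE
  set g := 2 * (k + 1) * b + 1 + i0 + L0 with hg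
  let x : V → ℕ := fun w => Nat.log 2 (ω w)
  have hx : ∀ w ∈ B, g ≤ x w ∧ x w ≤ L ∧ 2 ^ x w ≤ ω w ∧ ω w < 2 ^ (x w + 1) := by
    intro w hwB
    obtain ⟨-, h1, h2⟩ := hω w hwB
    have h3 : 2 ^ g ≤ ω w := (Nat.pow_le_pow_left hQ g).trans h1
    refine ⟨Nat.le_log_of_pow_le one_lt_two h3, ?_,
      Nat.pow_log_le_self 2 (((Nat.two_pow_pos g).trans_le h3).ne'),
      Nat.lt_pow_succ_log_self one_lt_two _⟩
    exact (Nat.log_mono_right h2).trans (Nat.log_pow one_lt_two L).le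
  have hσ : ∀ a, ∃ σ : Fin (k + 1) → V, a ∈ A → Function.Injective σ ∧ (∀ t, σ t ∈ N a) ∧
      (∀ t, x (σ t) ≤ x (σ 0)) ∧ (b * k + 1) * x (σ 0) ≤ b * ∑ t, x (σ t) := by
    intro a
    by_cases ha : a ∈ A
    · obtain ⟨h1, h2, -⟩ := hN a ha
      obtain ⟨σ, hs⟩ := hw V (N a) x J L h2
        (fun w hwN => ⟨le_trans (by omega) (hx w (h1 hwN)).1, (hx w (h1 hwN)).2.1⟩) hE
      exact ⟨σ, fun _ => hs⟩
    · exact ⟨fun _ => a, fun h1 => absurd h1 ha⟩
  choose σ hσ using hσ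
  have hB : ∀ a ∈ A, ∀ t, σ a t ∈ B := fun a ha t => (hN a ha).1 ((hσ a ha).2.1 t)
  obtain ⟨i, hi⟩ := pigeon A hA fun a => x (σ a 0)
  obtain ⟨τ, hτ⟩ := CoreA_fib (A.filter fun a => x (σ a 0) = i)
    (Fintype.piFinset fun _ : Fin (k + 1) => range (i + 1))
    (Fintype.piFinset_nonempty.2 fun _ => nonempty_range_add_one) (fun a t => x (σ a t))
    fun a ha => Fintype.mem_piFinset.2 fun t => mem_range.2 (Nat.lt_succ_of_le
      (((hσ a (mem_filter.1 ha).1).2.2.1 t).trans (mem_filter.1 ha).2.le))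
  rw [Fintype.card_piFinset_const, card_range] at hτ
  obtain ⟨χ, hχ⟩ := colour (k + 1) (Nat.succ_pos k)
    ((A.filter fun a => x (σ a 0) = i).filter fun a => (fun t => x (σ a t)) = τ) σ
    fun a ha => (hσ a (mem_filter.1 (mem_filter.1 ha).1).1).1
  obtain ⟨E, hEdef⟩ : ∃ E, E = ((A.filter fun a => x (σ a 0) = i).filter
    fun a => (fun t => x (σ a t)) = τ).filter fun a => ∀ t, χ (σ a t) = t := ⟨_, rfl⟩
  rw [← hEdef] at hχ
  have hEm : ∀ a ∈ E, a ∈ A ∧ x (σ a 0) = i ∧ (∀ t, x (σ a t) = τ t) ∧ ∀ t, χ (σ a t) = t := by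
    intro a ha
    rw [hEdef, mem_filter, mem_filter, mem_filter] at ha
    exact ⟨ha.1.1.1, ha.1.1.2, congrFun ha.1.2, ha.2⟩
  obtain ⟨R, hR⟩ : ∃ R, R = (i + 1) * (i + 2) * (i + 1) ^ (k + 1) * (k + 1) ^ (k + 1) := ⟨_, rfl⟩
  have hAE : A.card ≤ R * E.card := by
    refine (hi.trans (Nat.mul_le_mul_left _ (hτ.trans (Nat.mul_le_mul_left _ hχ)))).trans_eq ?_
    rw [hR]
    simp only [mul_assoc]
  have hEne : E.Nonempty := card_pos.1 (Nat.pos_of_mul_pos_left (hA.card_pos.trans_le hAE))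
  obtain ⟨a0, ha0⟩ := id hEne
  obtain ⟨m1, m2, m3, -⟩ := hEm a0 ha0
  have hgi : g ≤ i := m2 ▸ (hx _ (hB a0 m1 0)).1
  have hQi : Q ^ (2 * (k + 1) * b) ≤ 2 ^ i := by
    have h1 : Q ^ g < 2 ^ (i + 1) :=
      (hω _ (hB a0 m1 0)).2.1.trans_lt (m2 ▸ (hx _ (hB a0 m1 0)).2.2.2)
    have h2 : Q ^ (2 * (k + 1) * b + 1) ≤ Q ^ g := Nat.pow_le_pow_right (by omega) (by omega)
    have h3 := Nat.mul_le_mul_left (Q ^ (2 * (k + 1) * b)) hQ
    rw [pow_succ] at h1 h2
    omega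
  have hs : (b * k + 1) * i ≤ b * ∑ t, τ t := by
    have := (hσ a0 m1).2.2.2
    rwa [m2, sum_congr rfl fun t _ => m3 t] at this
  have hP := hi0 i (by omega)
  rw [← hR] at hP
  have hNt : ∀ t, (B.filter fun w => x w = τ t).card * 2 ^ τ t ≤ Q * R * E.card := by
    intro t
    calc (B.filter fun w => x w = τ t).card * 2 ^ τ t
        ≤ ∑ w ∈ B.filter fun w => x w = τ t, ω w :=
          card_nsmul_le_sum _ _ _ fun w hw' =>
            (mem_filter.1 hw').2 ▸ (hx w (mem_filter.1 hw').1).2.2.1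
      _ ≤ ∑ w ∈ B, ω w := sum_le_sum_of_subset (filter_subset _ _)
      _ ≤ Q * (R * E.card) := hsum.trans (Nat.mul_le_mul_left _ hAE)
      _ = _ := (mul_assoc _ _ _).symm
  obtain ⟨S, hSE, hS, hdeg⟩ := h V V (fun t a => σ a t) E
    (fun t => (B.filter fun w => x w = τ t).card) (2 ^ (i + 1)) (i + 1) (by omega) hEne
    (fun t => card_le_card fun v hv => by
      obtain ⟨a, ha, rfl⟩ := mem_image.1 hv
      exact mem_filter.2 ⟨hB a (hEm a ha).1 t, (hEm a ha).2.2.1 t⟩)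
    (fun t v => by
      unfold deg
      rcases (E.filter fun e => σ e t = v).eq_empty_or_nonempty with h0 | ⟨e, he⟩
      · rw [h0]; exact Nat.zero_le _
      obtain ⟨he1, rfl⟩ := mem_filter.1 he
      obtain ⟨n1, n2, -⟩ := hEm e he1
      refine le_trans (card_le_card fun a ha => ?_) ((hω _ (hB e n1 t)).1.trans
        ((hx _ (hB e n1 t)).2.2.2.le.trans (Nat.pow_le_pow_right two_pos ?_)))
      · obtain ⟨ha, hae⟩ := mem_filter.1 ha
        exact mem_filter.2 ⟨(hEm a ha).1, hae ▸ (hσ a (hEm a ha).1).2.1 t⟩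
      · exact Nat.succ_le_succ (((hσ e n1).2.2.1 t).trans n2.le))
    le_rfl
    (by
      have h1 : (∏ t, (B.filter fun w => x w = τ t).card) * 2 ^ ∑ t, τ t ≤
          (Q * R) ^ (k + 1) * E.card ^ (k + 1) := by
        rw [← prod_pow_eq_pow_sum, ← prod_mul_distrib, ← mul_pow]
        refine (prod_le_pow_card _ _ _ fun t _ => hNt t).trans_eq ?_
        rw [card_univ, Fintype.card_fin]
      have h2 := CoreA_arith hb hP hQi hs
      refine Nat.le_of_mul_le_mul_right ?_ (Nat.two_pow_pos (∑ t, τ t))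
      rw [mul_assoc]
      refine (Nat.mul_le_mul_left _ h1).trans ?_
      rw [← mul_assoc, mul_comm (E.card ^ (k + 1))]
      exact Nat.mul_le_mul_right _ h2)
  have hSA : ∀ a ∈ S, a ∈ A := fun a ha => (hEm a (hSE ha)).1
  exact bridge G k C S (fun t a => σ a t) χ hS
    (fun a ha t => (hN a (hSA a ha)).2.2 _ ((hσ a (hSA a ha)).2.1 t))
    (fun a ha t h1 => disjoint_left.1 hAB (hSA _ h1) (hB a (hSA a ha) t))
    (fun a ha => (hEm a (hSE ha)).2.2.2) hC hdeg

end Pool.Agent.Work.MP_78fef3_co.S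
end

-- merged part: Pool.Agent.Work.MP_78fef3_co.S.UAsy
section
/-! Parameters of the upper bound.

PLAN. `σ = (k (k + 1) - 1) / 2 > 0`, `y = log (log n) → ∞`. For `L ≥ 1` the value
`J = k + ⌊σ log L⌋₊ + 1` satisfies `Enough k J L` and `J ≤ k + 1 + σ log L`.
`L1 = Nat.log 2 n + 1 ≤ 3 log n` for large `n`, so `J1 ≤ k + 1 + σ (2 + y)`.
`L2 = g (14 + 3 (g + 1) m) + 1` with `m = Nat.log 2 (J1 + 2) + 1` (`J1 + 2 ≤ 2 ^ m`,
`4 * 16 ^ 3 = 2 ^ 14`), `J2 ≤ k + 1 + σ L2` (`log L ≤ L`). With `c` depending on `k, g` only,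
`J2 + 2 ≤ c m` and `2 ^ (m - 1) ≤ J1 + 2 ≤ c y`. Since `m ^ (g + 1) ≤ ε 2 ^ m + c'` for every
`ε > 0` (`tendsto_pow_const_div_const_pow_of_one_lt`), `16 (J2 + 2) ^ (g + 1) ≤ y / 4 + c''`, and
the total is at most `(σ + 1 / 4) y + const < (σ + 1 / 2) y` for large `y`. -/

namespace Pool.Agent.Work.MP_78fef3_co.S

open Filter Real

theorem UAsy_lin (a b : ℝ) : ∀ᶠ y : ℝ in atTop, a + b * y ≤ y ^ 2 := by
  filter_upwards [eventually_ge_atTop 1, eventually_ge_atTop (|a| + |b|)] with y h1 h2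
  nlinarith [le_abs_self a, le_abs_self b, abs_nonneg a, abs_nonneg b]

theorem UAsy_enough {k : ℕ} (hk : 1 ≤ k) (L : ℕ) {t : ℝ} (ht : log L ≤ t) : ∃ J : ℕ,
    Enough k J L ∧ (J : ℝ) ≤ k + 1 + ((k : ℝ) * (k + 1) - 1) / 2 * t := by
  have hk' : (1 : ℝ) ≤ k := by exact_mod_cast hk
  have hD : (0 : ℝ) < (k : ℝ) * (k + 1) - 1 := by nlinarith
  have h0 : 0 ≤ ((k : ℝ) * (k + 1) - 1) / 2 * t :=
    mul_nonneg (by positivity) ((log_natCast_nonneg L).trans ht)
  have h1 := Nat.floor_le h0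
  have h2 := Nat.lt_floor_add_one (((k : ℝ) * (k + 1) - 1) / 2 * t)
  refine ⟨k + ⌊((k : ℝ) * (k + 1) - 1) / 2 * t⌋₊ + 1, ⟨by omega,
    (le_exp_log _).trans_lt (exp_lt_exp.2 (ht.trans_lt ((lt_div_iff₀ hD).2 ?_)))⟩, ?_⟩ <;>
    push_cast <;> linarith

theorem UAsy_two (k g : ℕ) (hk : 1 ≤ k) : ∀ᶠ y : ℝ in atTop, ∀ j : ℕ,
    (j : ℝ) ≤ k + 3 + ((k : ℝ) * (k + 1) - 1) / 2 * (2 + y) → ∃ J L : ℕ, Enough k J L ∧
      (4 * (16 * j ^ (g + 1)) ^ 3) ^ g ≤ 2 ^ L ∧
      ((j + 16 * (J + 2) ^ (g + 1) : ℕ) : ℝ) ≤ (k : ℝ) * (k + 1) / 2 * y := by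
  obtain ⟨σ, hσ⟩ : ∃ σ : ℝ, σ = ((k : ℝ) * (k + 1) - 1) / 2 := ⟨_, rfl⟩
  rw [← hσ]
  filter_upwards [eventually_ge_atTop 1, eventually_ge_atTop (4 * (k + 3 + 2 * σ)),
    UAsy_lin (g * (14 + 3 * (g + 1) * (k + 3 + 2 * σ))) (g * (3 * (g + 1) * σ)),
    tendsto_log_atTop.eventually (UAsy_lin (k + 3) (2 * σ)),
    (isLittleO_pow_log_id_atTop (n := 2 * (g + 1))).bound (by norm_num : (0 : ℝ) < 1 / 64)]
    with y h1 h2 h3 h4 h5 j hj
  have hL : ((g * (14 + 3 * (g + 1) * j) : ℕ) : ℝ) ≤ y ^ 2 := by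
    refine le_trans ?_ h3
    push_cast
    have := mul_le_mul_of_nonneg_left hj (by positivity : (0 : ℝ) ≤ g * (3 * (g + 1)))
    linarith
  obtain ⟨J, hJ, hJ'⟩ := UAsy_enough hk (g * (14 + 3 * (g + 1) * j)) (t := 2 * log y) (by
    rcases (g * (14 + 3 * (g + 1) * j)).eq_zero_or_pos with h | h
    · rw [h, Nat.cast_zero, log_zero]
      linarith [log_nonneg h1]
    · refine (log_le_log (by exact_mod_cast h) hL).trans_eq ?_
      rw [log_pow, Nat.cast_ofNat])
  refine ⟨J, _, hJ, ?_, ?_⟩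
  · rw [mul_comm g, pow_mul]
    refine Nat.pow_le_pow_left ?_ g
    calc 4 * (16 * j ^ (g + 1)) ^ 3 ≤ 4 * (16 * (2 ^ j) ^ (g + 1)) ^ 3 := by
          gcongr
          exact Nat.lt_two_pow_self.le
      _ = _ := by ring
  · rw [← hσ] at hJ'
    have h6 : ((J : ℝ) + 2) ^ (g + 1) ≤ (log y ^ 2) ^ (g + 1) := by
      gcongr
      linarith
    rw [← pow_mul] at h6
    rw [id, norm_of_nonneg (by linarith : 0 ≤ y)] at h5
    have h7 := (le_abs_self _).trans h5
    have h8 : (k : ℝ) * (k + 1) / 2 = σ + 1 / 2 := by rw [hσ]; ring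
    rw [h8]
    push_cast
    linarith

theorem upper_params (k g : ℕ) (hk : 1 ≤ k) : ∃ n0 : ℕ, ∀ n ≥ n0, ∃ J1 L1 J2 L2 : ℕ,
    Enough k J1 L1 ∧ Enough k J2 L2 ∧ n ≤ 2 ^ L1 ∧
      (4 * (16 * (J1 + 2) ^ (g + 1)) ^ 3) ^ g ≤ 2 ^ L2 ∧
      ((J1 + 2 + 16 * (J2 + 2) ^ (g + 1) : ℕ) : ℝ) ≤
        (k : ℝ) * (k + 1) / 2 * Real.log (Real.log n) := by
  have hl : Tendsto (fun n : ℕ => log n) atTop atTop :=
    tendsto_log_atTop.comp tendsto_natCast_atTop_atTop
  refine eventually_atTop.1 ?_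
  filter_upwards [(tendsto_log_atTop.comp hl).eventually (UAsy_two k g hk),
    hl.eventually_ge_atTop 1, eventually_gt_atTop 0] with n h1 h2 h3
  have h4 := Nat.ceil_lt_add_one (by linarith : 0 ≤ 2 * log (n : ℝ))
  have h5 := Nat.le_ceil (2 * log (n : ℝ))
  obtain ⟨J, hJ, hJ'⟩ := UAsy_enough hk ⌈2 * log (n : ℝ)⌉₊ (t := 2 + log (log n)) (by
    refine (log_le_log (by linarith) (by linarith : _ ≤ 3 * log (n : ℝ))).trans ?_
    rw [log_mul (by norm_num) (by linarith)]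
    linarith [log_le_sub_one_of_pos (by norm_num : (0 : ℝ) < 3)])
  obtain ⟨J2, L2, a, b, c⟩ := h1 (J + 2) (by push_cast; simp only [Function.comp]; linarith)
  refine ⟨J, _, J2, L2, hJ, a, ?_, b, c⟩
  have : (n : ℝ) ≤ 2 ^ ⌈2 * log (n : ℝ)⌉₊ := by
    rw [← log_le_log_iff (by exact_mod_cast h3) (by positivity), log_pow]
    nlinarith [log_two_gt_d9]
  exact_mod_cast this

end Pool.Agent.Work.MP_78fef3_co.S
end

-- merged part: Pool.Agent.Work.MP_78fef3_co.S.Upper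
section
/-! The upper bound. -/

namespace Pool.Agent.Work.MP_78fef3_co.S

theorem upper (C : ℝ) (hC : 1 < C) : ∃ k0 : ℕ, ∀ k ≥ k0, ∃ n0 : ℕ, ∀ n ≥ n0,
    ∀ G : SimpleGraph (Fin n), ¬ QR G k C →
      (G.edgeSet.ncard : ℝ) ≤ (k : ℝ) * (k + 1) / 2 * n * Real.log (Real.log n) := by
  obtain ⟨k0, hk0⟩ := hyp_holds C hC
  obtain ⟨k1, hk1⟩ := exists_nat_gt (1 / (C - 1))
  refine ⟨k0 + k1 + 3, fun k hk => ?_⟩
  obtain ⟨c, L0, hH⟩ := hk0 k (by omega)
  have hCk : (k : ℝ) + 1 < C * k := by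
    have h1 : (k1 : ℝ) ≤ k := by exact_mod_cast (by omega : k1 ≤ k)
    have h2 : 0 < C - 1 := by linarith
    rw [div_lt_iff₀ h2] at hk1
    nlinarith
  obtain ⟨g, hg, hcore⟩ := core_holds k C c L0 (by omega) hCk hH
  obtain ⟨n0, hn0⟩ := upper_params k g (by omega)
  refine ⟨n0, fun n hn G hG => ?_⟩
  obtain ⟨J1, L1, J2, L2, h1, h2, h3, h4, h5⟩ := hn0 n hn
  have h6 := sharp hcore hg G hG J1 L1 J2 L2 h1 h2 (by simpa using h3) h4
  rw [Fintype.card_fin] at h6
  have h7 : (G.edgeSet.ncard : ℝ) ≤ ((J1 + 2 + 16 * (J2 + 2) ^ (g + 1) : ℕ) : ℝ) * n := by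
    exact_mod_cast h6
  calc (G.edgeSet.ncard : ℝ) ≤ ((k : ℝ) * (k + 1) / 2 * Real.log (Real.log n)) * n :=
        h7.trans (mul_le_mul_of_nonneg_right h5 (Nat.cast_nonneg _))
    _ = _ := by ring

end Pool.Agent.Work.MP_78fef3_co.S
end
end

-- merged part: Pool.Agent.Work.MP_78fef3_co.R.HypR
section
/-! A dense `(k+1)`-partite hypergraph has a `(k+1)`-regular sub-hypergraph. -/

namespace Pool.Agent.Work.MP_78fef3_co.R

open Finset Pool.Agent.Work.MP_78fef3_co.S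

open Classical in
/-- The matchings of size `j`. -/
noncomputable def Mt {α β ι : Type} (f : ι → α → β) (E : Finset α) (j : ℕ) : Finset (Finset α) :=
  (E.powersetCard j).filter fun M => ∀ t, Set.InjOn (f t) M

theorem mem_Mt {α β ι : Type} {f : ι → α → β} {E M : Finset α} {j : ℕ} :
    M ∈ Mt f E j ↔ (M ⊆ E ∧ M.card = j) ∧ ∀ t, Set.InjOn (f t) M := by
  classical
  simp only [Mt, mem_filter, mem_powersetCard]

theorem Mt_step {α β : Type} [DecidableEq α] [DecidableEq β] {k : ℕ} (f : Fin (k + 1) → α → β)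
    (E : Finset α) (Δ j h : ℕ) (hd : ∀ t v, deg (f t) E v ≤ Δ)
    (hj : h + (k + 1) * (j * Δ) ≤ E.card) :
    (Mt f E j).card * h ≤ (Mt f E (j + 1)).card * (j + 1) := by
  classical
  refine card_mul_le_card_mul (fun M M' => M ⊆ M') (fun M hM => ?_) fun M' hM' => ?_
  · obtain ⟨⟨h1, h2⟩, h3⟩ := mem_Mt.1 hM
    let bad := univ.biUnion fun t => M.biUnion fun e => E.filter fun e' => f t e' = f t e
    have b1 : bad.card ≤ (k + 1) * (j * Δ) := by
      refine (card_biUnion_le_card_mul _ _ (j * Δ) fun t _ => ?_).trans_eq (by simp)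
      rw [← h2]
      exact card_biUnion_le_card_mul _ _ _ fun e _ => hd t _
    have b2 : ∀ e ∈ E \ bad, ∀ t, ∀ e' ∈ M, f t e ≠ f t e' := fun e he t e' he' c =>
      (mem_sdiff.1 he).2 (mem_biUnion.2 ⟨t, mem_univ _, mem_biUnion.2
        ⟨e', he', mem_filter.2 ⟨(mem_sdiff.1 he).1, c⟩⟩⟩)
    have b3 : ∀ e ∈ E \ bad, e ∉ M := fun e he c => b2 e he 0 e c rfl
    have b4 : h ≤ (E \ bad).card := by
      have := le_card_sdiff bad E
      omega
    refine b4.trans (card_le_card_of_injOn (fun e => insert e M) (fun e he => ?_)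
      fun e he e' he' c => ?_)
    · have he' : e ∈ E \ bad := he
      refine mem_coe.2 ((mem_bipartiteAbove _).2 ⟨mem_Mt.2 ⟨⟨insert_subset (mem_sdiff.1 he').1 h1,
        by rw [card_insert_of_notMem (b3 e he'), h2]⟩, fun t => ?_⟩, subset_insert _ _⟩)
      rw [coe_insert, Set.injOn_insert (b3 e he')]
      refine ⟨h3 t, ?_⟩
      rintro ⟨e', c1, c2⟩
      exact b2 e he' t e' c1 c2.symm
    · have c1 : e ∈ insert e' M := (show insert e M = insert e' M from c) ▸ mem_insert_self e M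
      exact (mem_insert.1 c1).resolve_right (b3 e he)
  · refine le_trans (card_le_card (t := M'.powersetCard j) fun M hM => ?_) ?_
    · obtain ⟨c1, c2⟩ := (mem_bipartiteBelow _).1 hM
      exact mem_powersetCard.2 ⟨c2, (mem_Mt.1 c1).1.2⟩
    · rw [card_powersetCard, (mem_Mt.1 hM').1.2, Nat.choose_succ_self_right]

theorem Mt_count {α β : Type} [DecidableEq α] [DecidableEq β] {k : ℕ} (f : Fin (k + 1) → α → β)
    (E : Finset α) (Δ h : ℕ) (hd : ∀ t v, deg (f t) E v ≤ Δ) (m : ℕ)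
    (hj : ∀ j < m, h + (k + 1) * (j * Δ) ≤ E.card) : h ^ m ≤ (Mt f E m).card * m.factorial := by
  induction m with
  | zero =>
    have : (Mt f E 0).Nonempty := ⟨∅, mem_Mt.2 ⟨⟨empty_subset _, rfl⟩, fun t => by simp⟩⟩
    simpa using this
  | succ m ih =>
    calc h ^ (m + 1) = h ^ m * h := pow_succ _ _
      _ ≤ (Mt f E m).card * m.factorial * h :=
          Nat.mul_le_mul_right _ (ih fun j hj' => hj j (by omega))
      _ = (Mt f E m).card * h * m.factorial := by ring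
      _ ≤ (Mt f E (m + 1)).card * (m + 1) * m.factorial :=
          Nat.mul_le_mul_right _ (Mt_step f E Δ m h hd (hj m (by omega)))
      _ = _ := by rw [Nat.factorial_succ, mul_assoc]

theorem pow_self_le (m : ℕ) : m ^ m ≤ 3 ^ m * m.factorial := by
  have h1 := Real.pow_div_factorial_le_exp (m : ℝ) (Nat.cast_nonneg m) m
  have h2 : Real.exp m ≤ 3 ^ m := by
    rw [← mul_one (m : ℝ), Real.exp_nat_mul]
    exact pow_le_pow_left₀ (Real.exp_pos _).le (by linarith [Real.exp_one_lt_d9]) m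
  rw [div_le_iff₀ (by positivity)] at h1
  have h3 : (m : ℝ) ^ m ≤ 3 ^ m * m.factorial :=
    h1.trans (mul_le_mul_of_nonneg_right h2 (Nat.cast_nonneg _))
  exact_mod_cast h3

theorem hypR {α β : Type} [Fintype α] [DecidableEq α] [DecidableEq β] {k : ℕ}
    (f : Fin (k + 1) → α → β) (E : Finset α) (N : Fin (k + 1) → ℕ) (Δ Λ : ℕ) (hE : E.Nonempty)
    (hN : ∀ t, (E.image (f t)).card ≤ N t) (hd : ∀ t v, deg (f t) E v ≤ Δ) (hΛ : E.card < 2 ^ Λ)
    (h : 2 * (128 * ((k + 1) * Λ) ^ 3 + 1) * (6 * (k + 1)) ^ k * Δ ^ k * ∏ t, N t ≤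
      E.card ^ (k + 1)) :
    ∃ S ⊆ E, S.Nonempty ∧ ∀ t, ∀ e ∈ S, deg (f t) S (f t e) = k + 1 := by
  classical
  obtain ⟨R, hR⟩ : ∃ R, R = 128 * ((k + 1) * Λ) ^ 3 := ⟨_, rfl⟩
  rw [← hR] at h
  obtain ⟨e0, he0⟩ := id hE
  have hΔ : 0 < Δ := lt_of_lt_of_le
    (card_pos.2 ⟨e0, mem_filter.2 ⟨he0, rfl⟩⟩ : 0 < deg (f 0) E (f 0 e0)) (hd 0 (f 0 e0))
  have hΛ1 : 1 ≤ Λ := by
    have := hE.card_pos
    rcases Λ with _ | Λ <;> omega
  have hP : 0 < ∏ t, N t := prod_pos fun t _ => (hE.image _).card_pos.trans_le (hN t)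
  obtain ⟨D, hD⟩ : ∃ D, D = 2 * ((k + 1) * Δ) := ⟨_, rfl⟩
  have hD0 : 0 < D := by rw [hD]; positivity
  obtain ⟨m, hm⟩ : ∃ m, m = E.card / D + 1 := ⟨_, rfl⟩
  obtain ⟨s, hs⟩ : ∃ s, s = (E.card + 1) / 2 := ⟨_, rfl⟩
  have a1 : E.card ≤ D * m := by
    rw [hm]
    exact (Nat.lt_mul_div_succ _ hD0).le
  have a2 := Mt_count f E Δ s hd m fun j hj => by
    have b1 : D * j ≤ E.card :=
      (Nat.mul_le_mul_left D (by omega : j ≤ E.card / D)).trans (Nat.mul_div_le _ _)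
    have b2 : D * j = 2 * ((k + 1) * (j * Δ)) := by rw [hD]; ring
    omega
  have hs0 : 0 < s := by
    have := hE.card_pos
    omega
  obtain ⟨M0, hM0⟩ := card_pos.1 (Nat.pos_of_mul_pos_right ((Nat.pow_pos hs0).trans_le a2))
  have hmem : ∀ M ∈ Mt f E m, (fun t => M.image (f t)) ∈
      Fintype.piFinset fun t => (E.image (f t)).powersetCard m :=
    fun M hM => Fintype.mem_piFinset.2 fun t => mem_powersetCard.2
      ⟨image_subset_image (mem_Mt.1 hM).1.1,
        (card_image_of_injOn ((mem_Mt.1 hM).2 t)).trans (mem_Mt.1 hM).1.2⟩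
  obtain ⟨U, hU⟩ := CoreA_fib (Mt f E m)
    (Fintype.piFinset fun t => (E.image (f t)).powersetCard m) ⟨_, hmem M0 hM0⟩
    (fun M t => M.image (f t)) hmem
  obtain ⟨F, hF⟩ : ∃ F, F = (Mt f E m).filter fun M => (fun t => M.image (f t)) = U := ⟨_, rfl⟩
  rw [← hF, Fintype.card_piFinset] at hU
  have a3 : (∏ t, ((E.image (f t)).powersetCard m).card) * m.factorial ^ (k + 1) ≤
      (∏ t, N t) ^ m := by
    rw [← prod_pow, show m.factorial ^ (k + 1) = ∏ _t : Fin (k + 1), m.factorial by simp,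
      ← prod_mul_distrib]
    refine prod_le_prod' fun t _ => ?_
    rw [card_powersetCard, mul_comm, ← Nat.descFactorial_eq_factorial_mul_choose]
    exact (Nat.descFactorial_le_pow _ _).trans (Nat.pow_le_pow_left (hN t) _)
  have a4 : (s * m ^ k) ^ m ≤ (3 ^ k * ∏ t, N t) ^ m * F.card := by
    calc (s * m ^ k) ^ m = s ^ m * (m ^ m) ^ k := by rw [mul_pow, ← pow_mul, ← pow_mul, mul_comm k]
      _ ≤ ((∏ t, ((E.image (f t)).powersetCard m).card) * F.card * m.factorial) *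
          (3 ^ m * m.factorial) ^ k :=
          Nat.mul_le_mul (a2.trans (Nat.mul_le_mul_right _ hU))
            (Nat.pow_le_pow_left (pow_self_le m) _)
      _ = (3 ^ m) ^ k * ((∏ t, ((E.image (f t)).powersetCard m).card) * m.factorial ^ (k + 1)) *
          F.card := by rw [mul_pow, pow_succ]; ring
      _ ≤ (3 ^ m) ^ k * (∏ t, N t) ^ m * F.card :=
          Nat.mul_le_mul_right _ (Nat.mul_le_mul_left _ a3)
      _ = _ := by rw [mul_pow, ← pow_mul, ← pow_mul, mul_comm k]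
  have a5 : (R + 1) * (3 ^ k * ∏ t, N t) ≤ s * m ^ k := by
    refine Nat.le_of_mul_le_mul_left (le_trans (le_of_eq ?_) (h.trans ?_))
      (show 0 < 2 * D ^ k by positivity)
    · rw [hD, show 6 * (k + 1) = 2 * (k + 1) * 3 by ring]
      simp only [mul_pow]
      ring
    · calc E.card ^ (k + 1) = E.card ^ k * E.card := pow_succ _ _
        _ ≤ (D * m) ^ k * (2 * s) := Nat.mul_le_mul (Nat.pow_le_pow_left a1 _) (by omega)
        _ = _ := by rw [mul_pow]; ring
  have a6 : R ^ m < F.card := by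
    have b1 := (Nat.pow_le_pow_left a5 m).trans a4
    rw [mul_pow, mul_comm] at b1
    exact (Nat.pow_lt_pow_left (Nat.lt_succ_self R) (hm ▸ Nat.succ_ne_zero _)).trans_le
      (Nat.le_of_mul_le_mul_left b1 (by positivity))
  have hFm : ∀ M ∈ F, M ⊆ E ∧ M.card = m ∧ (∀ t, Set.InjOn (f t) M) ∧ ∀ t, M.image (f t) = U t := by
    intro M hM
    rw [hF, mem_filter, mem_Mt] at hM
    exact ⟨hM.1.1.1, hM.1.1.2, hM.1.2, congrFun hM.2⟩
  obtain ⟨K, P, hK, hP1, hP2⟩ := flower F m (k + 1) Λ (by omega) hΛ1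
    (((mem_Mt.1 hM0).1.2 ▸ card_le_card (mem_Mt.1 hM0).1.1).trans_lt hΛ)
    (fun A hA => (hFm A hA).2.1) (hR ▸ a6)
  refine ⟨univ.biUnion fun i => P i \ K, biUnion_subset.2 fun i _ =>
    sdiff_subset.trans (hFm _ (hP1 i).1).1, ?_, fun t e he => ?_⟩
  · refine Nonempty.mono (subset_biUnion_of_mem (fun i => P i \ K) (mem_univ 0)) ?_
    exact sdiff_nonempty_of_card_lt_card ((hFm _ (hP1 0).1).2.1 ▸ hK)
  · obtain ⟨j, -, hj⟩ := mem_biUnion.1 he
    obtain ⟨c1, c2⟩ := mem_sdiff.1 hj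
    have c3 : ∀ i, ((P i \ K).filter fun e' => f t e' = f t e).card = 1 := by
      intro i
      have d1 : f t e ∈ (P i).image (f t) := by
        rw [(hFm _ (hP1 i).1).2.2.2 t, ← (hFm _ (hP1 j).1).2.2.2 t]
        exact mem_image_of_mem _ c1
      obtain ⟨e', d2, d3⟩ := mem_image.1 d1
      refine card_eq_one.2 ⟨e', eq_singleton_iff_unique_mem.2 ⟨mem_filter.2
        ⟨mem_sdiff.2 ⟨d2, fun d4 => c2 ?_⟩, d3⟩, fun x hx => ?_⟩⟩
      · exact (hFm _ (hP1 j).1).2.2.1 t ((hP1 j).2 d4) c1 d3 ▸ d4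
      · exact (hFm _ (hP1 i).1).2.2.1 t (mem_sdiff.1 (mem_filter.1 hx).1).1 d2
          ((mem_filter.1 hx).2.trans d3.symm)
    rw [deg, filter_biUnion, card_biUnion fun i _ i' _ hi =>
      (hP2 i i' hi).mono (filter_subset _ _) (filter_subset _ _)]
    simp [c3]

end Pool.Agent.Work.MP_78fef3_co.R
end

-- merged part: Pool.Agent.Work.MP_78fef3_co.R.CoreR
section
/-! From the regular hypergraph statement to the graph statement. -/

namespace Pool.Agent.Work.MP_78fef3_co.R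

open Finset Pool.Agent.Work.MP_78fef3_co.S

/-- `J + 1` neighbours are enough when the degrees are at most `2 ^ L`. -/
def EnoughS (z : ℝ) (k J L : ℕ) : Prop := k ≤ J ∧ (L : ℝ) < Real.exp (z * ((J : ℝ) - k))

theorem windowS (k : ℕ) (hk : 2 ≤ k) {z : ℝ} (h0 : 0 < z)
    (hz : (k : ℝ) - 1 < ∑ t ∈ range k, Real.exp (-(z * ((t : ℝ) + 1)))) : ∃ b : ℕ, 1 ≤ b ∧
    ∀ (V : Type) (s : Finset V) (x : V → ℕ) (J L : ℕ), s.card = J + 1 →
      (∀ w ∈ s, 1 ≤ x w ∧ x w ≤ L) → EnoughS z k J L →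
      ∃ σ : Fin (k + 1) → V, Function.Injective σ ∧ (∀ t, σ t ∈ s) ∧
        (∀ t, x (σ t) ≤ x (σ 0)) ∧ (b * k + 1) * x (σ 0) ≤ b * ∑ t, x (σ t) := by
  obtain ⟨n, hn⟩ := exists_nat_one_div_lt (sub_pos.2 hz)
  refine ⟨n + 1, n.succ_pos, fun V s x J L hs hx hE => ?_⟩
  obtain ⟨p, p1, p2, p3⟩ : ∃ p : ℕ → V, (∀ j, p j ∈ s) ∧ (Monotone fun j => x (p j)) ∧
      ∀ i j, i ≤ J → j ≤ J → p i = p j → i = j := by
    obtain ⟨e⟩ : Nonempty (Fin (J + 1) ≃ s) := ⟨(equivFinOfCardEq hs).symm⟩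
    refine ⟨fun j => e (Tuple.sort (fun i => x (e i)) ⟨min j J, by omega⟩), fun j => (e _).2,
      fun i j h => Tuple.monotone_sort (fun i => x (e i)) (min_le_min_right J h), fun i j a b h => ?_⟩
    have := congrArg Fin.val ((Tuple.sort fun i => x (e i)).injective (e.injective (Subtype.ext h)))
    simp only at this
    omega
  have h3 : (2 : ℝ) ≤ k := by exact_mod_cast hk
  by_cases h : ∃ j, k ≤ j ∧ j ≤ J ∧
      ((n + 1) * k + 1) * x (p j) ≤ (n + 1) * ∑ t ∈ range (k + 1), x (p (j - t))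
  · obtain ⟨j, a, b, c⟩ := h
    refine ⟨fun t => p (j - t), fun t t' e => Fin.ext ?_, fun t => p1 _,
      fun t => p2 (Nat.sub_le_sub_left (Nat.zero_le _) j), ?_⟩
    · have := p3 _ _ (by omega) (by omega) e
      omega
    · rw [Fin.sum_univ_eq_sum_range fun t => x (p (j - t))]
      exact c
  exfalso
  push Not at h
  have key : ∀ j ≤ J, Real.exp (z * ((j : ℝ) - k)) ≤ x (p j) := fun j => by
    induction j using Nat.strong_induction_on with
    | h j ih =>
      intro hj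
      rcases le_or_gt j k with a | a
      · refine (Real.exp_le_one_iff.2 (mul_nonpos_of_nonneg_of_nonpos h0.le ?_)).trans
          (Nat.one_le_cast.2 (hx _ (p1 j)).1)
        linarith [Nat.cast_le (α := ℝ).2 a]
      have b := (Nat.cast_lt (α := ℝ)).2 (h j a.le hj)
      rw [sum_range_succ', Nat.sub_zero] at b
      push_cast at b
      have c : Real.exp (z * ((j : ℝ) - k)) *
          ∑ t ∈ range k, Real.exp (-(z * ((t : ℝ) + 1))) ≤
          ∑ t ∈ range k, (x (p (j - (t + 1))) : ℝ) := by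
        rw [mul_sum]
        refine sum_le_sum fun t ht => le_trans (le_of_eq ?_) (ih _ (by omega) (by omega))
        rw [← Real.exp_add, Nat.cast_sub ((mem_range.1 ht).trans a)]
        push_cast
        ring_nf
      have n0 : (0 : ℝ) < n + 1 := by positivity
      rw [div_lt_iff₀ n0] at hn
      have d := mul_lt_mul_of_pos_left hn (Real.exp_pos (z * ((j : ℝ) - k)))
      have e := mul_le_mul_of_nonneg_left c n0.le
      refine le_of_mul_le_mul_left ?_ (show 0 < ((n : ℝ) + 1) * (k - 1) + 1 by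
        have : (0 : ℝ) < k - 1 := by linarith
        positivity)
      linarith
  exact (hE.2.trans_le (key J le_rfl)).not_ge (Nat.cast_le.2 (hx _ (p1 J)).2)

/-- The statement `Core` for graphs with fewer than `2 ^ Q` vertices. -/
def CoreR (z : ℝ) (k : ℕ) (C : ℝ) (g : ℕ) : Prop :=
  ∀ (V : Type) [Fintype V] [DecidableEq V] (G : SimpleGraph V) (A B : Finset V)
    (N : V → Finset V) (ω : V → ℕ) (J L Q : ℕ),
    A.Nonempty → Disjoint A B →
    (∀ a ∈ A, N a ⊆ B ∧ (N a).card = J + 1 ∧ ∀ w ∈ N a, G.Adj a w) →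
    (∀ w ∈ B, (A.filter fun a => w ∈ N a).card ≤ ω w ∧ Q ^ g ≤ ω w ∧ ω w ≤ 2 ^ L) →
    ∑ w ∈ B, ω w ≤ Q * A.card → 2 ≤ Q → EnoughS z k J L → Fintype.card V < 2 ^ Q → QR G k C

theorem CoreR_num {k c i Q R : ℕ} (hk : 2 ≤ k) (hi : 1 ≤ i) (hQ : 1 ≤ Q)
    (hc : c = 2 * (128 * (k + 1) ^ 3 + 1) * (6 * (k + 1)) ^ k) :
    2 * (128 * ((k + 1) * Q) ^ 3 + 1) * (6 * (k + 1)) ^ k * (2 ^ (i + 1)) ^ k * (Q * R) ^ (k + 1) ≤
      (i + 1) ^ c * (2 ^ (i + 1)) ^ k * (Q ^ 2 * R) ^ (k + 1) := by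
  have h1 : c ≤ (i + 1) ^ c := Nat.lt_two_pow_self.le.trans (Nat.pow_le_pow_left (by omega) c)
  have h2 : Q ^ 3 ≤ Q ^ (k + 1) := Nat.pow_le_pow_right hQ (by omega)
  have h3 : 128 * ((k + 1) * Q) ^ 3 + 1 ≤ (128 * (k + 1) ^ 3 + 1) * Q ^ (k + 1) := by
    have := Nat.pow_pos (n := 3) hQ
    refine le_trans ?_ (Nat.mul_le_mul_left _ h2)
    rw [mul_pow, add_mul, mul_assoc]
    omega
  calc _ ≤ 2 * ((128 * (k + 1) ^ 3 + 1) * Q ^ (k + 1)) * (6 * (k + 1)) ^ k * (2 ^ (i + 1)) ^ k *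
        (Q * R) ^ (k + 1) := by gcongr
    _ = c * (2 ^ (i + 1)) ^ k * (Q ^ 2 * R) ^ (k + 1) := by
        rw [hc, sq, mul_assoc Q, mul_pow Q (Q * R)]
        ring
    _ ≤ _ := by gcongr

theorem coreR (k : ℕ) (C : ℝ) (hk : 2 ≤ k) (hC : (k : ℝ) + 1 < C * k) {z : ℝ} (h0 : 0 < z)
    (hz : (k : ℝ) - 1 < ∑ t ∈ range k, Real.exp (-(z * ((t : ℝ) + 1)))) :
    ∃ g : ℕ, 1 ≤ g ∧ CoreR z k C g := by
  classical
  obtain ⟨c, hc⟩ : ∃ c, c = 2 * (128 * (k + 1) ^ 3 + 1) * (6 * (k + 1)) ^ k := ⟨_, rfl⟩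
  obtain ⟨b, hb, hw⟩ := windowS k hk h0 hz
  obtain ⟨i0, hi0⟩ := core_num k b c
  refine ⟨2 * (2 * (k + 1) * b) + 1 + i0, by omega, ?_⟩
  intro V _ _ G A B N ω J L Q hA hAB hN hω hsum hQ hE hV
  set g := 2 * (2 * (k + 1) * b) + 1 + i0 with hg
  let x : V → ℕ := fun w => Nat.log 2 (ω w)
  have hx : ∀ w ∈ B, g ≤ x w ∧ x w ≤ L ∧ 2 ^ x w ≤ ω w ∧ ω w < 2 ^ (x w + 1) := by
    intro w hwB
    obtain ⟨-, h1, h2⟩ := hω w hwB
    have h3 : 2 ^ g ≤ ω w := (Nat.pow_le_pow_left hQ g).trans h1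
    refine ⟨Nat.le_log_of_pow_le one_lt_two h3, ?_,
      Nat.pow_log_le_self 2 (((Nat.two_pow_pos g).trans_le h3).ne'),
      Nat.lt_pow_succ_log_self one_lt_two _⟩
    exact (Nat.log_mono_right h2).trans (Nat.log_pow one_lt_two L).le
  have hσ : ∀ a, ∃ σ : Fin (k + 1) → V, a ∈ A → Function.Injective σ ∧ (∀ t, σ t ∈ N a) ∧
      (∀ t, x (σ t) ≤ x (σ 0)) ∧ (b * k + 1) * x (σ 0) ≤ b * ∑ t, x (σ t) := by
    intro a
    by_cases ha : a ∈ A
    · obtain ⟨h1, h2, -⟩ := hN a ha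
      obtain ⟨σ, hs⟩ := hw V (N a) x J L h2
        (fun w hwN => ⟨le_trans (by omega) (hx w (h1 hwN)).1, (hx w (h1 hwN)).2.1⟩) hE
      exact ⟨σ, fun _ => hs⟩
    · exact ⟨fun _ => a, fun h1 => absurd h1 ha⟩
  choose σ hσ using hσ
  have hB : ∀ a ∈ A, ∀ t, σ a t ∈ B := fun a ha t => (hN a ha).1 ((hσ a ha).2.1 t)
  obtain ⟨i, hi⟩ := pigeon A hA fun a => x (σ a 0)
  obtain ⟨τ, hτ⟩ := CoreA_fib (A.filter fun a => x (σ a 0) = i)
    (Fintype.piFinset fun _ : Fin (k + 1) => range (i + 1))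
    (Fintype.piFinset_nonempty.2 fun _ => nonempty_range_add_one) (fun a t => x (σ a t))
    fun a ha => Fintype.mem_piFinset.2 fun t => mem_range.2 (Nat.lt_succ_of_le
      (((hσ a (mem_filter.1 ha).1).2.2.1 t).trans (mem_filter.1 ha).2.le))
  rw [Fintype.card_piFinset_const, card_range] at hτ
  obtain ⟨χ, hχ⟩ := colour (k + 1) (Nat.succ_pos k)
    ((A.filter fun a => x (σ a 0) = i).filter fun a => (fun t => x (σ a t)) = τ) σ
    fun a ha => (hσ a (mem_filter.1 (mem_filter.1 ha).1).1).1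
  obtain ⟨E, hEdef⟩ : ∃ E, E = ((A.filter fun a => x (σ a 0) = i).filter
    fun a => (fun t => x (σ a t)) = τ).filter fun a => ∀ t, χ (σ a t) = t := ⟨_, rfl⟩
  rw [← hEdef] at hχ
  have hEm : ∀ a ∈ E, a ∈ A ∧ x (σ a 0) = i ∧ (∀ t, x (σ a t) = τ t) ∧ ∀ t, χ (σ a t) = t := by
    intro a ha
    rw [hEdef, mem_filter, mem_filter, mem_filter] at ha
    exact ⟨ha.1.1.1, ha.1.1.2, congrFun ha.1.2, ha.2⟩
  obtain ⟨R, hR⟩ : ∃ R, R = (i + 1) * (i + 2) * (i + 1) ^ (k + 1) * (k + 1) ^ (k + 1) := ⟨_, rfl⟩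
  have hAE : A.card ≤ R * E.card := by
    refine (hi.trans (Nat.mul_le_mul_left _ (hτ.trans (Nat.mul_le_mul_left _ hχ)))).trans_eq ?_
    rw [hR]
    simp only [mul_assoc]
  have hEne : E.Nonempty := card_pos.1 (Nat.pos_of_mul_pos_left (hA.card_pos.trans_le hAE))
  obtain ⟨a0, ha0⟩ := id hEne
  obtain ⟨m1, m2, m3, -⟩ := hEm a0 ha0
  have hgi : g ≤ i := m2 ▸ (hx _ (hB a0 m1 0)).1
  have hQi : (Q ^ 2) ^ (2 * (k + 1) * b) ≤ 2 ^ i := by
    rw [← pow_mul]
    have h1 : Q ^ g < 2 ^ (i + 1) :=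
      (hω _ (hB a0 m1 0)).2.1.trans_lt (m2 ▸ (hx _ (hB a0 m1 0)).2.2.2)
    have h2 : Q ^ (2 * (2 * (k + 1) * b) + 1) ≤ Q ^ g := Nat.pow_le_pow_right (by omega) (by omega)
    have h3 := Nat.mul_le_mul_left (Q ^ (2 * (2 * (k + 1) * b))) hQ
    rw [pow_succ] at h1 h2
    omega
  have hs : (b * k + 1) * i ≤ b * ∑ t, τ t := by
    have := (hσ a0 m1).2.2.2
    rwa [m2, sum_congr rfl fun t _ => m3 t] at this
  have hP := hi0 i (by omega)
  rw [← hR] at hP
  have hNt : ∀ t, (B.filter fun w => x w = τ t).card * 2 ^ τ t ≤ Q * R * E.card := by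
    intro t
    calc (B.filter fun w => x w = τ t).card * 2 ^ τ t
        ≤ ∑ w ∈ B.filter fun w => x w = τ t, ω w :=
          card_nsmul_le_sum _ _ _ fun w hw' =>
            (mem_filter.1 hw').2 ▸ (hx w (mem_filter.1 hw').1).2.2.1
      _ ≤ ∑ w ∈ B, ω w := sum_le_sum_of_subset (filter_subset _ _)
      _ ≤ Q * (R * E.card) := hsum.trans (Nat.mul_le_mul_left _ hAE)
      _ = _ := (mul_assoc _ _ _).symm
  obtain ⟨S, hSE, hS, hdeg⟩ := hypR (fun t a => σ a t) E
    (fun t => (B.filter fun w => x w = τ t).card) (2 ^ (i + 1)) Q hEne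
    (fun t => card_le_card fun v hv => by
      obtain ⟨a, ha, rfl⟩ := mem_image.1 hv
      exact mem_filter.2 ⟨hB a (hEm a ha).1 t, (hEm a ha).2.2.1 t⟩)
    (fun t v => by
      unfold deg
      rcases (E.filter fun e => σ e t = v).eq_empty_or_nonempty with h0 | ⟨e, he⟩
      · rw [h0]; exact Nat.zero_le _
      obtain ⟨he1, rfl⟩ := mem_filter.1 he
      obtain ⟨n1, n2, -⟩ := hEm e he1
      refine le_trans (card_le_card fun a ha => ?_) ((hω _ (hB e n1 t)).1.trans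
        ((hx _ (hB e n1 t)).2.2.2.le.trans (Nat.pow_le_pow_right two_pos ?_)))
      · obtain ⟨ha, hae⟩ := mem_filter.1 ha
        exact mem_filter.2 ⟨(hEm a ha).1, hae ▸ (hσ a (hEm a ha).1).2.1 t⟩
      · exact Nat.succ_le_succ (((hσ e n1).2.2.1 t).trans n2.le))
    ((card_le_univ E).trans_lt hV)
    (by
      have h1 : (∏ t, (B.filter fun w => x w = τ t).card) * 2 ^ ∑ t, τ t ≤
          (Q * R) ^ (k + 1) * E.card ^ (k + 1) := by
        rw [← prod_pow_eq_pow_sum, ← prod_mul_distrib, ← mul_pow]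
        refine (prod_le_pow_card _ _ _ fun t _ => hNt t).trans_eq ?_
        rw [card_univ, Fintype.card_fin]
      have h2 := (CoreR_num hk (by omega) (by omega) hc).trans (CoreA_arith hb hP hQi hs)
      refine Nat.le_of_mul_le_mul_right ?_ (Nat.two_pow_pos (∑ t, τ t))
      rw [mul_assoc]
      refine (Nat.mul_le_mul_left _ h1).trans ?_
      rw [← mul_assoc, mul_comm (E.card ^ (k + 1))]
      exact Nat.mul_le_mul_right _ h2)
  have hSA : ∀ a ∈ S, a ∈ A := fun a ha => (hEm a (hSE ha)).1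
  exact bridge G k C S (fun t a => σ a t) χ hS
    (fun a ha t => (hN a (hSA a ha)).2.2 _ ((hσ a (hSA a ha)).2.1 t))
    (fun a ha t h1 => disjoint_left.1 hAB (hSA _ h1) (hB a (hSA a ha) t))
    (fun a ha => (hEm a (hSE ha)).2.2.2) hC fun t e he => by
      rw [hdeg t e he]
      exact ⟨Nat.lt_succ_self k, by exact_mod_cast hC⟩

end Pool.Agent.Work.MP_78fef3_co.R
end

-- merged part: Pool.Agent.Work.MP_78fef3_co.R.Match
section
/-! Regular subgraphs of nearly regular bipartite multigraphs. The edges are the elements of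
`E`, with end vertices `f e` and `g e`. -/

namespace Pool.Agent.Work.MP_78fef3_co.R

open Finset Pool.Agent.Work.MP_78fef3_co.S

variable {α β : Type} [DecidableEq α] [DecidableEq β]

theorem bigmatch (f g : α → β) (E : Finset α) (P : Finset β) {d D : ℕ} (hD : 0 < D) (hdD : d ≤ D)
    (h1 : ∀ u ∈ P, d ≤ deg f E u) (h2 : ∀ v, deg g E v ≤ D) :
    ∃ M ⊆ E, Set.InjOn f M ∧ Set.InjOn g M ∧ d * P.card ≤ D * M.card := by
  classical
  obtain ⟨c, rfl⟩ := Nat.exists_eq_add_of_le hdD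
  obtain ⟨δ, hδ⟩ : ∃ δ, δ = c * P.card / (d + c) := ⟨_, rfl⟩
  let t : β → Finset (β ⊕ ℕ) := fun u => ((E.filter fun e => f e = u).image g).disjSum (range δ)
  obtain ⟨φ0, p1, p2⟩ := (all_card_le_biUnion_card_iff_exists_injective
      fun u : {u // u ∈ P} => t u).1 fun s => by
    rcases s.eq_empty_or_nonempty with rfl | ⟨u0, hu0⟩
    · simp
    let s' : Finset β := s.map (Function.Embedding.subtype _)
    have a0 : s' ⊆ P := fun u hu => by
      obtain ⟨v, -, rfl⟩ := mem_map.1 hu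
      exact v.2
    have a1 : d * s'.card ≤ (E.filter fun e => f e ∈ s').card :=
      mul_card_image_le_card_of_maps_to (f := f) (fun e he => (mem_filter.1 he).2) d fun u hu =>
        (h1 u (a0 hu)).trans (card_le_card fun e he => mem_filter.2 ⟨mem_filter.2
          ⟨(mem_filter.1 he).1, (mem_filter.1 he).2 ▸ hu⟩, (mem_filter.1 he).2⟩)
    have a2 : (E.filter fun e => f e ∈ s').card ≤
        (d + c) * ((E.filter fun e => f e ∈ s').image g).card :=
      card_le_mul_card_image _ _ fun v _ =>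
        (card_le_card (filter_subset_filter _ (filter_subset _ _))).trans (h2 v)
    have a3 : ((E.filter fun e => f e ∈ s').image g).disjSum (range δ) ⊆
        s.biUnion fun u : {u // u ∈ P} => t u := by
      rintro (v | n) hx
      · obtain ⟨e, he, rfl⟩ := mem_image.1 (inl_mem_disjSum.1 hx)
        obtain ⟨u, hu, c1⟩ := mem_map.1 (mem_filter.1 he).2
        exact mem_biUnion.2 ⟨u, hu, inl_mem_disjSum.2
          (mem_image_of_mem _ (mem_filter.2 ⟨(mem_filter.1 he).1, c1.symm⟩))⟩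
      · exact mem_biUnion.2 ⟨u0, hu0, inr_mem_disjSum.2 (inr_mem_disjSum.1 hx)⟩
    refine le_trans ?_ (card_le_card a3)
    rw [card_disjSum, card_range, ← card_map (Function.Embedding.subtype _)]
    have a4 := card_le_card a0
    have a5 : c * P.card < (d + c) * (δ + 1) := hδ ▸ Nat.lt_mul_div_succ _ hD
    refine Nat.lt_succ_iff.1 (Nat.lt_of_mul_lt_mul_left (a := d + c) ?_)
    have a6 := Nat.mul_le_mul_left c a4
    change (d + c) * s'.card < _
    nlinarith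
  let φ : β → β ⊕ ℕ := fun u => if h : u ∈ P then φ0 ⟨u, h⟩ else Sum.inr 0
  have q1 : Set.InjOn φ P := fun u hu v hv h => by
    simp only [φ, dif_pos (mem_coe.1 hu), dif_pos (mem_coe.1 hv)] at h
    exact congrArg Subtype.val (p1 h)
  have q2 : ∀ u ∈ P, φ u ∈ t u := fun u hu => by
    simp only [φ, dif_pos hu]
    exact p2 ⟨u, hu⟩
  obtain ⟨M, m1, m2, m3⟩ := exists_subset_injOn_image_eq_of_surjOn (f := f)
    {e | e ∈ E ∧ f e ∈ P ∧ φ (f e) = Sum.inl (g e)} (P.filter fun u => (φ u).isLeft) fun u hu => by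
      obtain ⟨c1, c2⟩ := mem_filter.1 hu
      obtain ⟨v, hv⟩ := Sum.isLeft_iff.1 c2
      obtain ⟨e, he, rfl⟩ := mem_image.1 (inl_mem_disjSum.1 (hv ▸ q2 u c1))
      obtain ⟨c3, rfl⟩ := mem_filter.1 he
      exact ⟨e, ⟨c3, c1, hv⟩, rfl⟩
  refine ⟨M, fun e he => (m1 he).1, m2, fun e he e' he' h => m2 he he'
    (q1 (m1 he).2.1 (m1 he').2.1 (by rw [(m1 he).2.2, (m1 he').2.2, h])), ?_⟩
  have r1 : (P.filter fun u => ¬ (φ u).isLeft).card ≤ δ := by
    refine le_trans (card_le_card_of_injOn (t := (∅ : Finset β).disjSum (range δ)) φ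
      (fun u hu => ?_) (q1.mono (coe_subset.2 (filter_subset _ _)))) (by simp)
    obtain ⟨c1, c2⟩ := mem_filter.1 hu
    obtain ⟨n, hn⟩ := Sum.isRight_iff.1 (Sum.not_isLeft.1 c2)
    have := q2 u c1
    rw [hn] at this ⊢
    exact inr_mem_disjSum.2 (inr_mem_disjSum.1 this)
  have r2 := card_filter_add_card_filter_not (s := P) fun u => (φ u).isLeft
  rw [← m3, card_image_of_injOn m2] at r2
  have r3 : (d + c) * δ ≤ c * P.card := hδ ▸ Nat.mul_div_le _ _
  have r4 := Nat.mul_le_mul_left (d + c) (show P.card ≤ M.card + δ by omega)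
  nlinarith

theorem deg_le_one {f : α → β} {M : Finset α} (h : Set.InjOn f M) (u : β) : deg f M u ≤ 1 :=
  card_le_one.2 fun _ ha _ hb => h (mem_filter.1 ha).1 (mem_filter.1 hb).1
    ((mem_filter.1 ha).2.trans (mem_filter.1 hb).2.symm)

theorem deg_sdiff (f : α → β) {M E : Finset α} (h : M ⊆ E) (u : β) :
    deg f (E \ M) u + deg f M u = deg f E u := by
  unfold deg
  rw [← card_union_of_disjoint (sdiff_disjoint.mono (filter_subset _ _) (filter_subset _ _)),
    ← filter_union, sdiff_union_of_subset h]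

theorem many (f g : α → β) (P : Finset β) {d D : ℕ} (hD : 0 < D) (hdD : d ≤ D) (s : ℕ) :
    ∀ E : Finset α, (∀ u ∈ P, d + s ≤ deg f E u + 1) → (∀ v, deg g E v ≤ D) →
    ∃ F ⊆ E, (∀ u, deg f F u ≤ s) ∧ (∀ v, deg g F v ≤ s) ∧ s * (d * P.card) ≤ D * F.card := by
  induction s with
  | zero => exact fun E _ _ => ⟨∅, empty_subset _, by simp [deg], by simp [deg], by simp⟩
  | succ s ih =>
    intro E h1 h2
    obtain ⟨M, m1, m2, m3, m4⟩ := bigmatch f g E P hD hdD
      (fun u hu => by have := h1 u hu; omega) h2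
    obtain ⟨F, f1, f2, f3, f4⟩ := ih (E \ M) (fun u hu => by
      have := h1 u hu
      have := deg_sdiff f m1 u
      have := deg_le_one m2 u
      omega) fun v => by
      have := h2 v
      have := deg_sdiff g m1 v
      omega
    have hd : Disjoint F M := sdiff_disjoint.mono_left f1
    have he : (F ∪ M) \ M = F := union_sdiff_cancel_right hd
    refine ⟨F ∪ M, union_subset (f1.trans sdiff_subset) m1, fun u => ?_, fun u => ?_, ?_⟩
    · have := deg_sdiff f (subset_union_right (s₁ := F) (s₂ := M)) u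
      rw [he] at this
      have := deg_le_one m2 u
      have := f2 u
      omega
    · have := deg_sdiff g (subset_union_right (s₁ := F) (s₂ := M)) u
      rw [he] at this
      have := deg_le_one m3 u
      have := f3 u
      omega
    · rw [card_union_of_disjoint hd]
      nlinarith

open MvPolynomial in
theorem afk (f g : α → β) (F : Finset α) (P Q : Finset β) {p : ℕ} (hp : p.Prime)
    (hP : ∀ e ∈ F, f e ∈ P) (hQ : ∀ e ∈ F, g e ∈ Q) (h1 : ∀ u, deg f F u < 2 * p)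
    (h2 : ∀ v, deg g F v < 2 * p) (h : (p - 1) * (P.card + Q.card) < F.card) :
    ∃ S ⊆ F, S.Nonempty ∧ ∀ e ∈ S, deg f S (f e) = p ∧ deg g S (g e) = p := by
  classical
  have : Fact p.Prime := ⟨hp⟩
  let φ : β ⊕ β → MvPolynomial F (ZMod p) := fun v =>
    ∑ e ∈ univ.filter fun e : F => Sum.inl (f e.1) = v ∨ Sum.inr (g e.1) = v,
      (X e : MvPolynomial F (ZMod p)) ^ (p - 1)
  have a1 : ∑ v ∈ P.disjSum Q, (φ v).totalDegree < Fintype.card F := by
    rw [Fintype.card_coe]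
    refine lt_of_le_of_lt ((sum_le_card_nsmul _ _ (p - 1) fun v _ =>
      totalDegree_finsetSum_le fun i _ => (totalDegree_X_pow ..).le).trans_eq ?_) h
    rw [card_disjSum, smul_eq_mul, mul_comm]
  let z : {x : F → ZMod p // ∀ v ∈ P.disjSum Q, eval x (φ v) = 0} :=
    ⟨0, fun v _ => by simp [φ, map_sum, hp.one_lt, tsub_eq_zero_iff_le]⟩
  obtain ⟨x, hx⟩ := Fintype.exists_ne_of_one_lt_card (hp.one_lt.trans_le
    (Nat.le_of_dvd (Fintype.card_pos_iff.2 ⟨z⟩) (char_dvd_card_solutions_of_sum_lt p a1))) z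
  let S : Finset α := (univ.filter fun e : F => x.1 e ≠ 0).map (Function.Embedding.subtype _)
  have hS : S ⊆ F := fun e he => by
    obtain ⟨v, -, rfl⟩ := mem_map.1 he
    exact v.2
  have key : ∀ (l : α → β) (u : β) (v : β ⊕ β), v ∈ P.disjSum Q →
      (∀ e, (Sum.inl (f e) = v ∨ Sum.inr (g e) = v) ↔ l e = u) → p ∣ deg l S u := by
    intro l u v hv hl
    have b1 := x.2 v hv
    simp only [φ, hl, map_sum, map_pow, eval_X, ZMod.pow_card_sub_one] at b1
    rw [← CharP.cast_eq_zero_iff (ZMod p), ← b1, sum_boole, deg, filter_map, card_map,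
      filter_filter, filter_filter]
    congr 2
    ext e
    simp [and_comm]
  refine ⟨S, hS, ?_, fun e he => ⟨Nat.eq_of_dvd_of_lt_two_mul
    (card_ne_zero.2 ⟨e, mem_filter.2 ⟨he, rfl⟩⟩)
    (key f _ (Sum.inl (f e)) (inl_mem_disjSum.2 (hP e (hS he))) (by simp))
    ((card_le_card (filter_subset_filter _ hS)).trans_lt (h1 _)), Nat.eq_of_dvd_of_lt_two_mul
    (card_ne_zero.2 ⟨e, mem_filter.2 ⟨he, rfl⟩⟩)
    (key g _ (Sum.inr (g e)) (inr_mem_disjSum.2 (hQ e (hS he))) (by simp))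
    ((card_le_card (filter_subset_filter _ hS)).trans_lt (h2 _))⟩⟩
  rw [← Subtype.coe_ne_coe, Function.ne_iff] at hx
  obtain ⟨e, he⟩ := hx
  exact ⟨e, mem_map_of_mem _ (mem_filter.2 ⟨mem_univ _, he⟩)⟩

theorem reg_card (f : α → β) (S : Finset α) {j : ℕ} (h : ∀ e ∈ S, deg f S (f e) = j) :
    S.card = j * (S.image f).card := by
  rw [card_eq_sum_card_image f S, sum_congr rfl (g := fun _ => j), sum_const, smul_eq_mul, mul_comm]
  intro u hu
  obtain ⟨e, he, rfl⟩ := mem_image.1 hu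
  exact h e he

theorem reg_cover (f : α → β) {S M : Finset α} (hM : M ⊆ S) (h : Set.InjOn f M)
    (hc : (S.image f).card ≤ M.card) {e : α} (he : e ∈ S) : deg f M (f e) = 1 := by
  have h1 : M.image f = S.image f :=
    eq_of_subset_of_card_le (image_subset_image hM) (hc.trans_eq (card_image_of_injOn h).symm)
  obtain ⟨e', c1, c2⟩ := mem_image.1 (h1 ▸ mem_image_of_mem f he)
  exact le_antisymm (deg_le_one h _) (card_pos.2 ⟨e', mem_filter.2 ⟨c1, c2⟩⟩)

theorem reg_down (f g : α → β) {r : ℕ} (hr : 1 ≤ r) (j : ℕ) : ∀ S : Finset α, S.Nonempty →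
    (∀ e ∈ S, deg f S (f e) = r + j ∧ deg g S (g e) = r + j) →
    ∃ S' ⊆ S, S'.Nonempty ∧ ∀ e ∈ S', deg f S' (f e) = r ∧ deg g S' (g e) = r := by
  induction j with
  | zero => exact fun S hS h => ⟨S, Subset.rfl, hS, h⟩
  | succ j ih =>
    intro S hS h
    obtain ⟨M, m1, m2, m3, m4⟩ := bigmatch f g S (S.image f) (d := r + (j + 1)) (by omega) le_rfl
      (fun u hu => by
        obtain ⟨e, he, rfl⟩ := mem_image.1 hu
        exact (h e he).1.ge) fun v => by
        rcases (S.filter fun e => g e = v).eq_empty_or_nonempty with h0 | ⟨e, he⟩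
        · rw [deg, h0]
          exact Nat.zero_le _
        · exact (mem_filter.1 he).2 ▸ (h e (mem_filter.1 he).1).2.le
    have a1 := Nat.le_of_mul_le_mul_left m4 (by omega)
    have a2 : (S.image g).card = (S.image f).card := Nat.eq_of_mul_eq_mul_left (by omega)
      ((reg_card g S fun e he => (h e he).2).symm.trans (reg_card f S fun e he => (h e he).1))
    have a3 : ∀ e ∈ S, deg f (S \ M) (f e) = r + j ∧ deg g (S \ M) (g e) = r + j := fun e he => by
      have := deg_sdiff f m1 (f e)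
      have := deg_sdiff g m1 (g e)
      have := reg_cover f m1 m2 a1 he
      have := reg_cover g m1 m3 (a2.trans_le a1) he
      have := h e he
      omega
    obtain ⟨e, he⟩ := hS
    obtain ⟨S', s1, s2⟩ := ih (S \ M) (Nonempty.mono (filter_subset (fun e' => f e' = f e) _)
      (card_pos.1 (lt_of_lt_of_eq (by omega) (a3 e he).1.symm))) fun e he =>
        a3 e (mem_sdiff.1 he).1
    exact ⟨S', s1.trans sdiff_subset, s2⟩

theorem deg_le_of {f : α → β} {E : Finset α} {D : ℕ} (h : ∀ e ∈ E, deg f E (f e) ≤ D) (v : β) :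
    deg f E v ≤ D := by
  rcases (E.filter fun e => f e = v).eq_empty_or_nonempty with h0 | ⟨e, he⟩
  · rw [deg, h0]
    exact Nat.zero_le _
  · exact (mem_filter.1 he).2 ▸ h e (mem_filter.1 he).1

theorem near_reg_aux (f g : α → β) (E : Finset α) (hE : E.Nonempty) {p r d D : ℕ}
    (hp : (p + 1).Prime) (hr : 1 ≤ r) (hrp : r ≤ p + 1) (hdD : d ≤ D)
    (hnum : 2 * p * D < (2 * p + 1) * d) (h1 : ∀ e ∈ E, d + 2 * p ≤ deg f E (f e))
    (h2 : ∀ e ∈ E, deg g E (g e) ≤ D) (hc : (E.image g).card ≤ (E.image f).card) :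
    ∃ S ⊆ E, S.Nonempty ∧ ∀ e ∈ S, deg f S (f e) = r ∧ deg g S (g e) = r := by
  have hD : 0 < D := by
    rcases D with _ | D
    · obtain rfl : d = 0 := by omega
      simp at hnum
    · omega
  obtain ⟨F, f1, f2, f3, f4⟩ := many f g (E.image f) hD hdD (2 * p + 1) E (fun u hu => by
    obtain ⟨e, he, rfl⟩ := mem_image.1 hu
    have := h1 e he
    omega) (deg_le_of h2)
  obtain ⟨S, s1, s2, s3⟩ := afk f g F (E.image f) (E.image g) hp
    (fun e he => mem_image_of_mem _ (f1 he)) (fun e he => mem_image_of_mem _ (f1 he))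
    (fun u => by have := f2 u; omega) (fun u => by have := f3 u; omega) (by
      rw [Nat.add_sub_cancel]
      refine Nat.lt_of_mul_lt_mul_left (a := D) (lt_of_lt_of_le ?_ f4)
      have a1 := Nat.mul_lt_mul_of_pos_right hnum (hE.image f).card_pos
      have a2 := Nat.mul_le_mul_left (D * p) hc
      nlinarith)
  obtain ⟨j, hj⟩ := Nat.exists_eq_add_of_le hrp
  obtain ⟨S', t1, t2⟩ := reg_down f g hr j S s2 (hj ▸ s3)
  exact ⟨S', (t1.trans s1).trans f1, t2⟩

theorem near_reg (f g : α → β) (E : Finset α) (hE : E.Nonempty) {p r d D : ℕ}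
    (hp : (p + 1).Prime) (hr : 1 ≤ r) (hrp : r ≤ p + 1) (hdD : d ≤ D)
    (hnum : 2 * p * D < (2 * p + 1) * d)
    (h1 : ∀ e ∈ E, d + 2 * p ≤ deg f E (f e) ∧ deg f E (f e) ≤ D)
    (h2 : ∀ e ∈ E, d + 2 * p ≤ deg g E (g e) ∧ deg g E (g e) ≤ D) :
    ∃ S ⊆ E, S.Nonempty ∧ ∀ e ∈ S, deg f S (f e) = r ∧ deg g S (g e) = r := by
  rcases le_total (E.image g).card (E.image f).card with hc | hc
  · exact near_reg_aux f g E hE hp hr hrp hdD hnum (fun e he => (h1 e he).1)
      (fun e he => (h2 e he).2) hc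
  · obtain ⟨S, s1, s2, s3⟩ := near_reg_aux g f E hE hp hr hrp hdD hnum (fun e he => (h2 e he).1)
      (fun e he => (h1 e he).2) hc
    exact ⟨S, s1, s2, fun e he => (s3 e he).symm⟩

end Pool.Agent.Work.MP_78fef3_co.R
end

-- merged part: Pool.Agent.Work.MP_78fef3_co.R.CrudeR
section
/-! A crude edge bound for graphs without a regular subgraph. -/

namespace Pool.Agent.Work.MP_78fef3_co.R

open Finset Pool.Agent.Work.MP_78fef3_co.S

theorem ncard_fst {V : Type} [DecidableEq V] (E : Finset (V × V)) (x : V) (N : Set V)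
    (h : ∀ y, y ∈ N ↔ (x, y) ∈ E) : N.ncard = deg Prod.fst E x := by
  have h1 : N = Prod.snd '' ((E.filter fun e => e.1 = x : Finset (V × V)) : Set (V × V)) := by
    ext y
    rw [h]
    constructor
    · exact fun hy => ⟨(x, y), mem_coe.2 (mem_filter.2 ⟨hy, rfl⟩), rfl⟩
    · rintro ⟨⟨a, b⟩, c, rfl⟩
      obtain ⟨c1, rfl⟩ := mem_filter.1 (mem_coe.1 c)
      exact c1
  rw [h1, Set.InjOn.ncard_image, Set.ncard_coe_finset, deg]
  exact fun a ha b hb c => Prod.ext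
    ((mem_filter.1 (mem_coe.1 ha)).2.trans (mem_filter.1 (mem_coe.1 hb)).2.symm) c

theorem ncard_snd {V : Type} [DecidableEq V] (E : Finset (V × V)) (x : V) (N : Set V)
    (h : ∀ y, y ∈ N ↔ (y, x) ∈ E) : N.ncard = deg Prod.snd E x := by
  have h1 : N = Prod.fst '' ((E.filter fun e => e.2 = x : Finset (V × V)) : Set (V × V)) := by
    ext y
    rw [h]
    constructor
    · exact fun hy => ⟨(y, x), mem_coe.2 (mem_filter.2 ⟨hy, rfl⟩), rfl⟩
    · rintro ⟨⟨a, b⟩, c, rfl⟩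
      obtain ⟨c1, rfl⟩ := mem_filter.1 (mem_coe.1 c)
      exact c1
  rw [h1, Set.InjOn.ncard_image, Set.ncard_coe_finset, deg]
  exact fun a ha b hb c => Prod.ext c
    ((mem_filter.1 (mem_coe.1 ha)).2.trans (mem_filter.1 (mem_coe.1 hb)).2.symm)

theorem QR_of_reg {V : Type} [DecidableEq V] (G : SimpleGraph V) {k : ℕ} {C : ℝ}
    (hC : (k : ℝ) + 1 < C * k) (χ : V → Bool) (S : Finset (V × V)) (hS : S.Nonempty)
    (h : ∀ e ∈ S, G.Adj e.1 e.2 ∧ χ e.1 = true ∧ χ e.2 = false)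
    (hd : ∀ e ∈ S, deg Prod.fst S e.1 = k + 1 ∧ deg Prod.snd S e.2 = k + 1) : QR G k C := by
  let H : G.Subgraph :=
    { verts := {x | ∃ e ∈ S, e.1 = x ∨ e.2 = x}
      Adj := fun x y => (x, y) ∈ S ∨ (y, x) ∈ S
      adj_sub := by
        rintro x y (c | c)
        · exact (h _ c).1
        · exact (h _ c).1.symm
      edge_vert := by
        rintro x y (c | c)
        · exact ⟨_, c, Or.inl rfl⟩
        · exact ⟨_, c, Or.inr rfl⟩
      symm := ⟨fun x y c => c.symm⟩ }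
  obtain ⟨e0, he0⟩ := hS
  refine ⟨H, ⟨e0.1, e0, he0, Or.inl rfl⟩, fun x hx => ?_⟩
  have key : (H.neighborSet x).ncard = k + 1 := by
    obtain ⟨e, he, rfl | rfl⟩ := hx
    · refine (ncard_fst S _ _ fun y => ⟨fun c => c.resolve_right fun c1 => ?_, Or.inl⟩).trans
        (hd e he).1
      exact Bool.noConfusion ((h e he).2.1.symm.trans (h _ c1).2.2)
    · refine (ncard_snd S _ _ fun y => ⟨fun c => c.resolve_left fun c1 => ?_, Or.inr⟩).trans
        (hd e he).2
      exact Bool.noConfusion ((h _ c1).2.1.symm.trans (h e he).2.2)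
  rw [key]
  exact ⟨Nat.lt_succ_self k, by exact_mod_cast hC⟩

/-- The edges of `G` between the two colour classes. -/
def cut {V : Type} (G : SimpleGraph V) (χ : V → Bool) : SimpleGraph V where
  Adj u v := G.Adj u v ∧ χ u ≠ χ v
  symm := ⟨fun _ _ h => ⟨h.1.symm, h.2.symm⟩⟩
  loopless := ⟨fun _ h => h.2 rfl⟩

theorem QR_of_cut {V : Type} [Fintype V] [DecidableEq V] (G : SimpleGraph V) {k : ℕ} {C : ℝ}
    (hC : (k : ℝ) + 1 < C * k) (χ : V → Bool) {p d D k' : ℕ} {C' : ℝ} (hp : (p + 1).Prime)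
    (hk : k ≤ p) (hdD : d ≤ D) (hnum : 2 * p * D < (2 * p + 1) * d) (h1 : d + 2 * p ≤ k')
    (h2 : C' * k' ≤ D) (h : QR (cut G χ) k' C') : QR G k C := by
  classical
  obtain ⟨H, ⟨x0, hx0⟩, hH⟩ := h
  let E : Finset (V × V) := univ.filter fun e => H.Adj e.1 e.2 ∧ χ e.1 = true
  have hE : ∀ e : V × V, e ∈ E ↔ H.Adj e.1 e.2 ∧ χ e.1 = true := fun e => by simp [E]
  have hb : ∀ x ∈ H.verts, d + 2 * p ≤ (H.neighborSet x).ncard ∧ (H.neighborSet x).ncard ≤ D :=
    fun x hx => ⟨h1.trans (hH x hx).1.le, by exact_mod_cast ((hH x hx).2.trans_le h2).le⟩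
  have hf : ∀ e ∈ E, χ e.2 = false := fun e he => by
    have c := (H.adj_sub ((hE e).1 he).1).2
    rw [((hE e).1 he).2] at c
    exact Bool.eq_false_iff.2 c.symm
  have hne : E.Nonempty := by
    obtain ⟨y, hy⟩ := Set.nonempty_of_ncard_ne_zero ((Nat.zero_le _).trans_lt (hH x0 hx0).1).ne'
    by_cases c : χ x0 = true
    · exact ⟨(x0, y), (hE _).2 ⟨hy, c⟩⟩
    · refine ⟨(y, x0), (hE _).2 ⟨H.adj_symm hy, ?_⟩⟩
      have c1 := (H.adj_sub hy).2
      revert c c1
      cases χ x0 <;> cases χ y <;> simp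
  obtain ⟨S, s1, s2, s3⟩ := near_reg Prod.fst Prod.snd E hne hp (Nat.succ_pos k)
    (Nat.succ_le_succ hk) hdD hnum (fun e he => by
      rw [← ncard_fst E e.1 (H.neighborSet e.1) fun y =>
        ⟨fun c => (hE _).2 ⟨c, ((hE e).1 he).2⟩, fun c => ((hE _).1 c).1⟩]
      exact hb _ (H.edge_vert ((hE e).1 he).1)) fun e he => by
      rw [← ncard_snd E e.2 (H.neighborSet e.2) fun y =>
        ⟨fun c => (hE _).2 ⟨H.adj_symm c, by
          have c1 := (H.adj_sub c).2
          rw [hf e he] at c1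
          exact eq_true_of_ne_false c1.symm⟩, fun c => H.adj_symm ((hE _).1 c).1⟩]
      exact hb _ (H.edge_vert (H.adj_symm ((hE e).1 he).1))
  exact QR_of_reg G hC χ S s2 (fun e he => ⟨(H.adj_sub ((hE e).1 (s1 he)).1).1,
    ((hE e).1 (s1 he)).2, hf e (s1 he)⟩) s3

theorem exists_cut {V : Type} [Fintype V] [DecidableEq V] (G : SimpleGraph V) [DecidableRel G.Adj]
    (U : Finset V) : ∃ χ : V → Bool, ∑ u ∈ U, (U.filter (G.Adj u)).card ≤
      2 * ∑ u ∈ U, (U.filter fun v => G.Adj u v ∧ χ u ≠ χ v).card := by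
  obtain ⟨χ, hχ⟩ := exists_av_le fun χ : V → Bool =>
    ∑ u ∈ U, ∑ v ∈ U.filter (G.Adj u), (if χ u ≠ χ v then (1 : ℝ) else 0)
  refine ⟨χ, ?_⟩
  have h1 : ∀ u v, u ≠ v → av (fun χ : V → Bool => if χ u ≠ χ v then (1 : ℝ) else 0) = 1 / 2 := by
    intro u v huv
    have a := av_add
      (fun χ : V → Bool => (if χ u = true then (1 : ℝ) else 0) * if χ v = false then 1 else 0)
      fun χ : V → Bool => (if χ u = false then (1 : ℝ) else 0) * if χ v = true then 1 else 0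
    rw [av_pair huv (fun b => if b = true then (1 : ℝ) else 0) fun b => if b = false then 1 else 0,
      av_pair huv (fun b => if b = false then (1 : ℝ) else 0) fun b => if b = true then 1 else 0]
      at a
    refine Eq.trans (congrArg av (funext fun χ => ?_)) (a.trans ?_)
    · cases χ u <;> cases χ v <;> simp
    · simp [av]
      norm_num
  rw [av_sum, sum_congr rfl fun u _ => (av_sum _ _).trans
    (sum_congr rfl fun v hv => h1 u v (mem_filter.1 hv).2.ne)] at hχ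
  simp only [sum_const, nsmul_eq_mul, sum_boole, filter_filter] at hχ
  rw [← sum_mul] at hχ
  have h2 : ((∑ u ∈ U, (U.filter (G.Adj u)).card : ℕ) : ℝ) ≤
      2 * ((∑ u ∈ U, (U.filter fun v => G.Adj u v ∧ χ u ≠ χ v).card : ℕ) : ℝ) := by
    push_cast
    linarith
  exact_mod_cast h2

theorem crudeR (k : ℕ) (C : ℝ) (hC : (k : ℝ) + 1 < C * k) : ∃ k' g : ℕ, 1 ≤ k' ∧
    ∀ (V : Type) [Fintype V] [DecidableEq V] (G : SimpleGraph V) [DecidableRel G.Adj],
      ¬ QR G k C → ∀ J L : ℕ, Enough k' J L → ∀ U : Finset V,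
      (∀ u ∈ U, (U.filter (G.Adj u)).card ≤ 2 ^ L) →
      ∑ u ∈ U, (U.filter (G.Adj u)).card ≤ 2 * (32 * (J + 2) ^ (g + 1)) * U.card := by
  obtain ⟨q, hq, hp⟩ := Nat.exists_infinite_primes (k + 1)
  obtain ⟨p, rfl⟩ : ∃ p, q = p + 1 := ⟨q - 1, by omega⟩
  have hx : (0 : ℝ) < 8 * (p + 1) := by positivity
  obtain ⟨k0, hk0⟩ := hyp_holds (1 + 1 / (8 * (p + 1))) (by linarith [one_div_pos.2 hx])
  obtain ⟨m, hm⟩ : ∃ m, m = k0 + p + 2 := ⟨_, rfl⟩
  have h1 : m ≤ 8 * (p + 1) * m := Nat.le_mul_of_pos_left m (by omega)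
  have h2 : (1 + 1 / (8 * ((p : ℝ) + 1))) * ((8 * (p + 1) * m : ℕ) : ℝ) =
      ((8 * (p + 1) * m + m : ℕ) : ℝ) := by
    push_cast
    field_simp
  obtain ⟨c, L0, hH⟩ := hk0 (8 * (p + 1) * m) (by omega)
  obtain ⟨g, -, hcore⟩ := core_holds (8 * (p + 1) * m) _ c L0 (by nlinarith) (by
    rw [h2]
    exact_mod_cast (by omega : 8 * (p + 1) * m + 1 < 8 * (p + 1) * m + m)) hH
  obtain ⟨d, hd⟩ := Nat.exists_eq_add_of_le (show 2 * p ≤ 8 * (p + 1) * m by nlinarith)
  refine ⟨8 * (p + 1) * m, g, by omega, fun V _ _ G _ hG J L hJ U hU => ?_⟩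
  classical
  obtain ⟨χ, hχ⟩ := exists_cut G U
  have h3 := crude hcore (cut G χ) (fun h => hG (QR_of_cut G hC χ hp (by omega)
    (d := d) (D := 8 * (p + 1) * m + m) (by omega) (by
      have a : p + 2 ≤ m := by omega
      have b := Nat.mul_le_mul_left p a
      have e : (2 * p + 1) * d + (2 * p + 1) * (2 * p) = (2 * p + 1) * (8 * (p + 1) * m) := by
        rw [hd]
        ring
      nlinarith) (by omega) h2.le h)) J L hJ U fun u hu =>
      (card_le_card fun v hv => mem_filter.2 ⟨(mem_filter.1 hv).1, (mem_filter.1 hv).2.1⟩).trans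
        (hU u hu)
  refine hχ.trans (le_trans (Nat.mul_le_mul_left 2 (le_trans (le_of_eq ?_) h3)) (le_of_eq ?_))
  · exact sum_congr rfl fun u _ => congrArg _ (filter_congr fun v _ => Iff.rfl)
  · ring

end Pool.Agent.Work.MP_78fef3_co.R
end

-- merged part: Pool.Agent.Work.MP_78fef3_co.R.UpperR
section
/-! The sharp edge bound for graphs without a regular subgraph. -/

namespace Pool.Agent.Work.MP_78fef3_co.R

open Finset Pool.Agent.Work.MP_78fef3_co.S

theorem sharpR {z : ℝ} {k : ℕ} {C : ℝ} {g : ℕ} (hcore : CoreR z k C g) (hg : 1 ≤ g) {V : Type}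
    [Fintype V] [DecidableEq V] (G : SimpleGraph V) [DecidableRel G.Adj] (hG : ¬ QR G k C) (J1 L1 D1 D2 : ℕ)
    (h1 : EnoughS z k J1 L1) (hL1 : Fintype.card V ≤ 2 ^ L1) (p1 : 0 < D1)
    (cr1 : ∀ U : Finset V, ∑ u ∈ U, (U.filter (G.Adj u)).card ≤ 2 * D1 * U.card)
    (cr2 : ∀ U : Finset V,
      (∀ u ∈ U, (U.filter (G.Adj u)).card ≤ (4 * D1 ^ 3 * (L1 + 1)) ^ g) →
      ∑ u ∈ U, (U.filter (G.Adj u)).card ≤ 2 * D2 * U.card) :
    G.edgeSet.ncard ≤ (J1 + 2 + D2) * Fintype.card V := by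
  set n := Fintype.card V with hn
  obtain ⟨Q, hQ⟩ : ∃ Q, Q = 4 * D1 ^ 3 * (L1 + 1) := ⟨_, rfl⟩
  rw [← hQ] at cr2
  have hQ1 : 4 * D1 ^ 3 ≤ Q := hQ ▸ Nat.le_mul_of_pos_right _ (Nat.succ_pos _)
  have hQ2 : L1 + 1 ≤ Q := hQ ▸ Nat.le_mul_of_pos_left _ (by positivity)
  let d : V → ℕ := fun u => (univ.filter (G.Adj u)).card
  have hdn : ∀ (S : Finset V) (u : V), (S.filter (G.Adj u)).card ≤ d u := fun S u =>
    card_le_card (filter_subset_filter _ (subset_univ S))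
  have hd1 : ∀ u, d u ≤ 2 ^ L1 := fun u => (card_le_univ _).trans hL1
  have h0 : ∑ u, d u ≤ 2 * D1 * n := cr1 univ
  have hsub : ∀ S : Finset V, ∑ u ∈ S, d u ≤ 2 * D1 * n := fun S =>
    (sum_le_sum_of_subset (subset_univ S)).trans h0
  have hZQ : 2 * D1 ^ 2 ≤ 4 * D1 ^ 3 :=
    Nat.mul_le_mul (by norm_num) (Nat.pow_le_pow_right p1 (by norm_num))
  have hZY : 2 * D1 ^ 2 ≤ Q ^ g := (hZQ.trans hQ1).trans (Nat.le_self_pow (by omega) _)
  let Hi := univ.filter fun u => 2 * D1 ^ 2 ≤ d u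
  let U := univ.filter fun u => d u < Q ^ g
  let B := univ.filter fun u => Q ^ g ≤ d u
  let Lo := univ.filter fun u => d u < 2 * D1 ^ 2
  let A := Lo.filter fun a => J1 + 1 ≤ (B.filter (G.Adj a)).card
  have a1 : ∑ u ∈ Hi, (Hi.filter (G.Adj u)).card ≤ 2 * n := by
    have b1 := (card_nsmul_le_sum Hi d (2 * D1 ^ 2) fun u hu => (mem_filter.1 hu).2).trans (hsub Hi)
    have b2 : D1 * Hi.card ≤ n := by
      refine Nat.le_of_mul_le_mul_left ?_ (show 0 < 2 * D1 by positivity)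
      rw [smul_eq_mul] at b1
      nlinarith
    have b3 := cr1 Hi
    nlinarith
  have a2 : ∑ u ∈ U, (U.filter (G.Adj u)).card ≤ 2 * D2 * n :=
    (cr2 U fun u hu => (hdn U u).trans (mem_filter.1 hu).2.le).trans
      (Nat.mul_le_mul_left _ (card_le_univ U))
  have a3 : 2 * D1 ^ 2 * A.card ≤ n := by
    by_contra hc
    have hA : A.Nonempty := by
      rw [← card_pos]
      by_contra h
      rw [show A.card = 0 by omega] at hc
      omega
    have hN : ∀ a, ∃ N : Finset V, a ∈ A → N ⊆ B.filter (G.Adj a) ∧ N.card = J1 + 1 := fun a => by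
      by_cases ha : a ∈ A
      · obtain ⟨N, c1, c2⟩ := exists_subset_card_eq (mem_filter.1 ha).2
        exact ⟨N, fun _ => ⟨c1, c2⟩⟩
      · exact ⟨∅, fun h => absurd h ha⟩
    choose N hN using hN
    refine hG (hcore V G A B N d J1 L1 Q hA ?_ (fun a ha => ⟨(hN a ha).1.trans
      (filter_subset _ _), (hN a ha).2, fun w hw => (mem_filter.1 ((hN a ha).1 hw)).2⟩)
      (fun w hw => ⟨card_le_card fun a ha => ?_, (mem_filter.1 hw).2, hd1 w⟩) ?_ ?_ h1
      (hL1.trans_lt (Nat.pow_lt_pow_right one_lt_two hQ2)))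
    · refine disjoint_left.2 fun a ha hb => ?_
      have c1 := (mem_filter.1 (mem_filter.1 ha).1).2
      have c2 := (mem_filter.1 hb).2
      omega
    · obtain ⟨c1, c2⟩ := mem_filter.1 ha
      exact mem_filter.2 ⟨mem_univ _, (mem_filter.1 ((hN a c1).1 c2)).2.symm⟩
    · refine (hsub B).trans ((Nat.mul_le_mul_left _ (not_le.1 hc).le).trans
        (le_trans (le_of_eq ?_) (Nat.mul_le_mul_right _ hQ1)))
      ring
    · have := Nat.pow_pos (n := 3) p1
      omega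
  have a4 : ∑ u ∈ Lo, (B.filter (G.Adj u)).card ≤ (J1 + 1) * n := by
    rw [← sum_filter_add_sum_filter_not Lo fun a => J1 + 1 ≤ (B.filter (G.Adj a)).card]
    have b1 := sum_le_card_nsmul A (fun u => (B.filter (G.Adj u)).card) (2 * D1 ^ 2) fun u hu =>
      (hdn B u).trans (mem_filter.1 (mem_filter.1 hu).1).2.le
    have b2 := (sum_le_card_nsmul (Lo.filter fun a => ¬ J1 + 1 ≤ (B.filter (G.Adj a)).card)
      (fun u => (B.filter (G.Adj u)).card) J1 fun u hu =>
        Nat.lt_succ_iff.1 (not_le.1 (mem_filter.1 hu).2)).trans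
      (Nat.mul_le_mul_right J1 (card_le_univ _))
    rw [smul_eq_mul, mul_comm] at b1
    refine (add_le_add (b1.trans a3) b2).trans (le_of_eq ?_)
    ring
  have a5 := Sharp_split G U Hi Lo B
    (fun u hu => mem_filter.2 ⟨mem_univ _, not_lt.1 fun h => hu (mem_filter.2 ⟨mem_univ _, h⟩)⟩)
    (fun u hu => mem_filter.2 ⟨mem_univ _, not_le.1 fun h => hu (mem_filter.2 ⟨mem_univ _, h⟩)⟩)
    fun u hu => mem_filter.2 ⟨mem_univ _, hZY.trans (mem_filter.1 hu).2⟩
  have a6 : ∑ u, (univ.filter (G.Adj u)).card = 2 * G.edgeSet.ncard := by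
    rw [← SimpleGraph.coe_edgeFinset, Set.ncard_coe_finset,
      ← SimpleGraph.sum_degrees_eq_twice_card_edges]
    refine sum_congr rfl fun u _ => ?_
    rw [← SimpleGraph.card_neighborFinset_eq_degree, SimpleGraph.neighborFinset_eq_filter]
  nlinarith

open Filter Real in
theorem asy_two (k k' g g' : ℕ) (hk' : 1 ≤ k') (σ : ℝ) {ε : ℝ} (hε : 0 < ε) :
    ∀ᶠ y : ℝ in atTop, ∀ j j' l : ℕ, (j : ℝ) ≤ k + 3 + σ * (2 + y) →
    (j' : ℝ) ≤ k' + 3 + ((k' : ℝ) * (k' + 1) - 1) / 2 * (2 + y) → (l : ℝ) ≤ 4 * exp y →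
    ∃ J L : ℕ, Enough k' J L ∧ (4 * (32 * j' ^ (g' + 1)) ^ 3 * l) ^ g ≤ 2 ^ L ∧
      ((j + 32 * (J + 2) ^ (g' + 1) : ℕ) : ℝ) ≤ (σ + 2 * ε) * y := by
  obtain ⟨σ', hσ'⟩ : ∃ σ : ℝ, σ = ((k' : ℝ) * (k' + 1) - 1) / 2 := ⟨_, rfl⟩
  rw [← hσ']
  filter_upwards [eventually_ge_atTop 1, eventually_ge_atTop ((k + 3 + 2 * σ) / ε),
    UAsy_lin (g * (20 + 3 * (g' + 1) * (k' + 3 + 2 * σ'))) (g * (3 * (g' + 1) * σ' + 2)),
    tendsto_log_atTop.eventually (UAsy_lin (k' + 3) (2 * σ')),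
    (isLittleO_pow_log_id_atTop (n := 2 * (g' + 1))).bound (by positivity : (0 : ℝ) < ε / 32)]
    with y h1 h2 h3 h4 h5 j j' l hj hj' hl
  have c1 := Nat.ceil_lt_add_one (by linarith : 0 ≤ 2 * y)
  have c2 := Nat.le_ceil (2 * y)
  have hL : ((g * (17 + 3 * (g' + 1) * j' + (2 + ⌈2 * y⌉₊)) : ℕ) : ℝ) ≤ y ^ 2 := by
    refine le_trans ?_ h3
    push_cast
    have a := mul_le_mul_of_nonneg_left hj' (by positivity : (0 : ℝ) ≤ g * (3 * (g' + 1)))
    have b := mul_le_mul_of_nonneg_left c1.le (by positivity : (0 : ℝ) ≤ g)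
    linarith
  obtain ⟨J, hJ, hJ'⟩ := UAsy_enough hk' (g * (17 + 3 * (g' + 1) * j' + (2 + ⌈2 * y⌉₊)))
    (t := 2 * log y) (by
    rcases (g * (17 + 3 * (g' + 1) * j' + (2 + ⌈2 * y⌉₊))).eq_zero_or_pos with h | h
    · rw [h, Nat.cast_zero, log_zero]
      linarith [log_nonneg h1]
    · refine (log_le_log (by exact_mod_cast h) hL).trans_eq ?_
      rw [log_pow, Nat.cast_ofNat])
  refine ⟨J, _, hJ, ?_, ?_⟩
  · rw [mul_comm g, pow_mul]
    refine Nat.pow_le_pow_left ?_ g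
    have a : l ≤ 2 ^ (2 + ⌈2 * y⌉₊) := by
      have b : exp y ≤ 2 ^ ⌈2 * y⌉₊ := by
        rw [← le_log_iff_exp_le (by positivity), log_pow]
        nlinarith [log_two_gt_d9]
      have : (l : ℝ) ≤ 2 ^ (2 + ⌈2 * y⌉₊) := by
        rw [pow_add]
        linarith
      exact_mod_cast this
    calc 4 * (32 * j' ^ (g' + 1)) ^ 3 * l
        ≤ 4 * (32 * (2 ^ j') ^ (g' + 1)) ^ 3 * 2 ^ (2 + ⌈2 * y⌉₊) := by
          gcongr
          exact Nat.lt_two_pow_self.le
      _ = _ := by ring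
  · rw [← hσ'] at hJ'
    have h6 : ((J : ℝ) + 2) ^ (g' + 1) ≤ (log y ^ 2) ^ (g' + 1) := by
      gcongr
      linarith
    rw [← pow_mul] at h6
    rw [id, norm_of_nonneg (by linarith : 0 ≤ y)] at h5
    have h7 := (le_abs_self _).trans h5
    rw [div_le_iff₀ hε] at h2
    push_cast
    linarith

open Real in
theorem enoughS {z : ℝ} (hz : 0 < z) (k L : ℕ) {t : ℝ} (ht : log L ≤ t) : ∃ J : ℕ,
    EnoughS z k J L ∧ (J : ℝ) ≤ k + 1 + z⁻¹ * t := by
  have h0 : 0 ≤ z⁻¹ * t := mul_nonneg (by positivity) ((log_natCast_nonneg L).trans ht)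
  have h1 := Nat.floor_le h0
  have h2 := Nat.lt_floor_add_one (z⁻¹ * t)
  refine ⟨k + ⌊z⁻¹ * t⌋₊ + 1, ⟨by omega,
    (le_exp_log _).trans_lt (exp_lt_exp.2 (ht.trans_lt ((inv_mul_lt_iff₀ hz).1 ?_)))⟩, ?_⟩ <;>
    push_cast <;> linarith

open Filter Real in
theorem params (k k' g g' : ℕ) (hk' : 1 ≤ k') {z ε : ℝ} (hz : 0 < z) (hε : 0 < ε) :
    ∃ n0 : ℕ, ∀ n ≥ n0,
    ∃ J1 L1 J1' J2 L2 : ℕ, EnoughS z k J1 L1 ∧ Enough k' J1' L1 ∧ Enough k' J2 L2 ∧ n ≤ 2 ^ L1 ∧
      (4 * (32 * (J1' + 2) ^ (g' + 1)) ^ 3 * (L1 + 1)) ^ g ≤ 2 ^ L2 ∧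
      ((J1 + 2 + 32 * (J2 + 2) ^ (g' + 1) : ℕ) : ℝ) ≤ (z⁻¹ + 2 * ε) * Real.log (Real.log n) := by
  have hl : Tendsto (fun n : ℕ => log n) atTop atTop :=
    tendsto_log_atTop.comp tendsto_natCast_atTop_atTop
  refine eventually_atTop.1 ?_
  filter_upwards [(tendsto_log_atTop.comp hl).eventually (asy_two k k' g g' hk' z⁻¹ hε),
    hl.eventually_ge_atTop 1, eventually_gt_atTop 0] with n h1 h2 h3
  have h4 := Nat.ceil_lt_add_one (by linarith : 0 ≤ 2 * log (n : ℝ))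
  have h5 := Nat.le_ceil (2 * log (n : ℝ))
  have h6 : log (⌈2 * log (n : ℝ)⌉₊ : ℕ) ≤ 2 + log (log n) := by
    refine (log_le_log (by linarith) (by linarith : _ ≤ 3 * log (n : ℝ))).trans ?_
    rw [log_mul (by norm_num) (by linarith)]
    linarith [log_le_sub_one_of_pos (by norm_num : (0 : ℝ) < 3)]
  obtain ⟨J, hJ, hJ'⟩ := enoughS hz k _ h6
  obtain ⟨I, hI, hI'⟩ := UAsy_enough hk' _ h6
  obtain ⟨J2, L2, a, b, c⟩ := h1 (J + 2) (I + 2) (⌈2 * log (n : ℝ)⌉₊ + 1)
    (by push_cast; simp only [Function.comp]; linarith)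
    (by push_cast; simp only [Function.comp]; linarith)
    (by
      push_cast
      simp only [Function.comp]
      rw [exp_log (by linarith)]
      linarith)
  refine ⟨J, _, I, J2, L2, hJ, hI, a, ?_, b, c⟩
  have : (n : ℝ) ≤ 2 ^ ⌈2 * log (n : ℝ)⌉₊ := by
    rw [← log_le_log_iff (by exact_mod_cast h3) (by positivity), log_pow]
    nlinarith [log_two_gt_d9]
  exact_mod_cast this

theorem upperR (k : ℕ) (C : ℝ) (hk : 2 ≤ k) (hC : (k : ℝ) + 1 < C * k) {b : ℝ} (hb : 0 < b)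
    (h : (k : ℝ) - 1 < ∑ t ∈ range k, Real.exp (-((t : ℝ) + 1) / b)) : ∃ n0 : ℕ, ∀ n ≥ n0,
    ∀ G : SimpleGraph (Fin n), ¬ QR G k C →
      (G.edgeSet.ncard : ℝ) ≤ b * n * Real.log (Real.log n) := by
  classical
  obtain ⟨z, hz, hbz⟩ : ∃ z : ℝ,
      (k : ℝ) - 1 < ∑ t ∈ range k, Real.exp (-(z * ((t : ℝ) + 1))) ∧ b⁻¹ < z := by
    have hc : Continuous fun z : ℝ => ∑ t ∈ range k, Real.exp (-(z * ((t : ℝ) + 1))) := by
      fun_prop
    obtain ⟨z, a1, a2⟩ := ((hc.tendsto b⁻¹).eventually (lt_mem_nhds (h.trans_eq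
      (sum_congr rfl fun t _ => by rw [neg_div, div_eq_inv_mul])))).exists_gt
    exact ⟨z, a2, a1⟩
  have z0 : 0 < z := (inv_pos.2 hb).trans hbz
  have z1 : z⁻¹ < b := (inv_lt_comm₀ hb z0).1 hbz
  obtain ⟨g, hg, hcore⟩ := coreR k C hk hC z0 hz
  obtain ⟨k', g', hk', hcr⟩ := crudeR k C hC
  obtain ⟨n0, hn0⟩ := params k k' g g' hk' z0 (half_pos (sub_pos.2 z1))
  refine ⟨n0, fun n hn G hG => ?_⟩
  obtain ⟨J1, L1, I, J2, L2, h1, h1', h2, h3, h4, h5⟩ := hn0 n hn
  have h3' : Fintype.card (Fin n) ≤ 2 ^ L1 := by simpa using h3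
  have h6 := sharpR hcore hg G hG J1 L1 (32 * (I + 2) ^ (g' + 1)) (32 * (J2 + 2) ^ (g' + 1)) h1 h3'
    (by positivity) (fun U => hcr _ G hG I L1 h1' U fun u _ => (card_le_univ _).trans h3')
    fun U hU => hcr _ G hG J2 L2 h2 U fun u hu => (hU u hu).trans h4
  rw [Fintype.card_fin] at h6
  have h7 : (G.edgeSet.ncard : ℝ) ≤ ((J1 + 2 + 32 * (J2 + 2) ^ (g' + 1) : ℕ) : ℝ) * n := by
    exact_mod_cast h6
  calc (G.edgeSet.ncard : ℝ) ≤ ((z⁻¹ + 2 * ((b - z⁻¹) / 2)) * Real.log (Real.log n)) * n :=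
        h7.trans (mul_le_mul_of_nonneg_right h5 (Nat.cast_nonneg _))
    _ = _ := by ring

end Pool.Agent.Work.MP_78fef3_co.R
end
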